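import Pool.Agent.Lib.MP_410da7_agP.Spec2

/-!
# P/Bez: the weighted Bezout theorem (assembly)
-/

set_option autoImplicit false

namespace Pool.Agent.PC

open MvPolynomial

/-- **The weighted Bezout theorem.** -/
theorem stmtBez (hF : StmtFre) (hH : StmtHil) (hB : StmtFib) : StmtBez := by
  intro σ τ _ _ hcard L _ _ ws hws E dE hdE hhom hz F _ _ c
  classical
  let e : τ ≃ Fin (Fintype.card τ) := Fintype.equivFin τ
  have hz' : ∀ a : σ → L, (∀ t : Fin (Fintype.card τ), eval a (E (e.symm t)) = 0) → a = 0 := by
    intro a ha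
    apply hz
    intro t
    have h1 := ha (e t)
    rwa [e.symm_apply_apply] at h1
  obtain ⟨m, b, eb, hb, hu⟩ := hF σ (Fintype.card τ) hcard.symm L ws hws (fun t => E (e.symm t))
    (fun t => dE (e.symm t)) (fun t => hdE _) (fun t => hhom _) hz'
  have h1 := hH σ (Fintype.card τ) hcard.symm L ws hws (fun t => E (e.symm t))
    (fun t => dE (e.symm t)) (fun t => hdE _) (fun t => hhom _) m b eb hb hu
  have h2 := hB σ (Fintype.card τ) m L (fun t => E (e.symm t)) b hu F (fun t => c (e.symm t))
  have hI : Set.range (fun t : Fin (Fintype.card τ) =>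
        map (algebraMap L F) (E (e.symm t)) - C (c (e.symm t)))
      = Set.range (fun t : τ => map (algebraMap L F) (E t) - C (c t)) :=
    e.symm.surjective.range_comp (fun t : τ => map (algebraMap L F) (E t) - C (c t))
  rw [hI] at h2
  refine ⟨h2.1, ?_⟩
  rw [h2.2, h1]
  exact Equiv.prod_comp e.symm dE

end Pool.Agent.PC
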