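import Pool.Agent.Lib.MP_410da7_agP.Spec3

/-!
# Package `P` (punctured cones): the case of a degree vector with an entry at most one
-/

set_option autoImplicit false

namespace Pool.Agent.PC

open MvPolynomial KaehlerDifferential WithZero Pool.Agent.Lib.MP_410da7_ag

namespace CaAM

variable {N r : ℕ} {L : Type} [Field L] [Algebra ℂ L]

theorem exists_cur [IsAlgClosed L] (f : Fin r → MvPolynomial (Fin N) ℂ) (p : Fin N → L)
    (hf : ∀ k, aeval p (f k) = 0) (e : Fin N → ℕ)
    (he : ∑ k, (f k).weightedTotalDegree e < ∑ i, e i) :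
    ∃ γ : Fin N → Polynomial L, IsCurve f p γ ∧ (∀ l, (γ l).natDegree ≤ e l) ∧
      ∃ l, 0 < (γ l).natDegree := by
  obtain ⟨γ, h0, h1, h2, h3, -⟩ := exists_curve f (fun i : Fin 0 => i.elim0) e (by simpa using he) p
  refine ⟨γ, ⟨h0, fun k => ?_⟩, h1, h2⟩
  rw [h3, hf, map_zero]

theorem good_of_zero [IsAlgClosed L] (f : Fin r → MvPolynomial (Fin N) ℂ) (p : Fin N → L)
    (hp : ∀ i, p i ≠ 0) (hf : ∀ k, aeval p (f k) = 0) (e : Fin N → ℕ)
    (he : ∑ k, (f k).weightedTotalDegree e < ∑ i, e i) (i0 : Fin N) (h0 : e i0 = 0) :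
    ∃ γ : Fin N → Polynomial L, IsGood f p γ := by
  obtain ⟨γ, h1, h2, h3⟩ := exists_cur f p hf e he
  refine ⟨γ, h1, ?_, h3⟩
  have h4 : γ i0 = Polynomial.C (p i0) := by
    have h5 := h2 i0
    rw [h0] at h5
    rw [Polynomial.eq_C_of_natDegree_le_zero h5, ← h1.zero i0, Polynomial.coeff_zero_eq_eval_zero]
  have h6 : IsUnit (γ i0) := by
    rw [h4]
    exact Polynomial.isUnit_C.mpr (IsUnit.mk0 _ (hp i0))
  exact Ideal.eq_top_of_isUnit_mem _ (Ideal.subset_span ⟨i0, rfl⟩) h6

theorem deg_update (w : Fin N → ℕ) {d : ℕ} (P : MvPolynomial (Fin N) ℂ)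
    (hP : P.IsWeightedHomogeneous w d) (i0 : Fin N) :
    P.weightedTotalDegree (Function.update w i0 0) ≤ d := by
  apply Finset.sup_le
  intro m hm
  rw [← hP (mem_support_iff.mp hm), Finsupp.weight_apply, Finsupp.weight_apply]
  apply Finset.sum_le_sum
  intro i _
  by_cases hi : i = i0
  · subst hi
    simp
  · change m i • Function.update w i0 0 i ≤ m i • w i
    rw [Function.update_of_ne hi]

theorem one_zero (P : Polynomial L) (h0 : P ≠ 0) (h1 : P.natDegree ≤ 1) :
    ∃ t0 : L, ∀ t, P.eval t = 0 → t = t0 := by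
  by_cases h : ∃ t0, P.eval t0 = 0
  · obtain ⟨t0, ht0⟩ := h
    refine ⟨t0, fun t ht => ?_⟩
    by_contra hne
    have hP := Polynomial.eq_X_add_C_of_natDegree_le_one h1
    rw [hP] at ht ht0
    simp only [Polynomial.eval_add, Polynomial.eval_mul, Polynomial.eval_C, Polynomial.eval_X]
      at ht ht0
    have h2 : P.coeff 1 * (t - t0) = 0 := by linear_combination ht - ht0
    rcases mul_eq_zero.mp h2 with h3 | h3
    · rw [h3] at ht0
      simp only [zero_mul, zero_add] at ht0
      apply h0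
      rw [hP, h3, ht0]
      simp
    · exact hne (sub_eq_zero.mp h3)
  · push Not at h
    exact ⟨0, fun t ht => absurd ht (h t)⟩

end CaAM

theorem stmtCaA (hG : StmtG) (hM : StmtMob) (hT : StmtTrA) (hO : StmtOne) : StmtCaA := by
  intro N r w d f hV hlt e i0 he hi L _ _ _ p hp hf
  rcases Nat.lt_or_ge (e i0) 1 with h0 | h0
  · exact CaAM.good_of_zero f p hp hf e he i0 (by omega)
  rcases Nat.lt_or_ge (w i0) 2 with hw | hw
  · have hw1 : w i0 = 1 := by have := hV.pos i0; omega
    rcases Nat.lt_or_ge (∑ i, w i) (∑ k, d k + 2) with h1 | h1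
    · obtain ⟨γ, hγ, hnt, hdeg⟩ := hO N r w d f hV (by omega) L p hp hf
      obtain ⟨γ', hγ', hnt', hz⟩ := hM N r w d f hV.pos hV.homog L p hp γ hγ hnt hdeg ⟨i0, hw1⟩
      exact hG N r w d f hV.pos hV.homog L p hp γ' hγ' hnt' hz
    · refine CaAM.good_of_zero f p hp hf (Function.update w i0 0) ?_ i0 (by simp)
      have h2 : ∑ k, (f k).weightedTotalDegree (Function.update w i0 0) ≤ ∑ k, d k :=
        Finset.sum_le_sum fun k _ => CaAM.deg_update w (f k) (hV.homog k) i0
      have h3 : ∑ i, Function.update w i0 0 i + 1 = ∑ i, w i := by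
        rw [Finset.sum_update_of_mem (Finset.mem_univ i0), zero_add,
          ← Finset.sum_sdiff (Finset.subset_univ {i0}), Finset.sum_singleton, hw1]
      omega
  · obtain ⟨γ, hγ, hdeg, l, hl⟩ := CaAM.exists_cur f p hf e he
    have hne : γ i0 ≠ 0 := by
      intro h2
      have := hγ.zero i0
      rw [h2, Polynomial.eval_zero] at this
      exact hp i0 this.symm
    have hd1 : (γ i0).natDegree ≤ 1 := (hdeg i0).trans hi
    refine hG N r w d f hV.pos hV.homog L p hp γ hγ ?_ ?_
    · intro htriv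
      obtain ⟨A, -, hA⟩ := hT N w hV.pos hV.gcd L p hp γ hγ.zero htriv
      rw [hA, Polynomial.natDegree_C_mul (hp i0), Polynomial.natDegree_pow] at hd1
      have hA0 : A.natDegree = 0 := by
        by_contra hcon
        have : 2 * 1 ≤ w i0 * A.natDegree := Nat.mul_le_mul hw (by omega)
        omega
      rw [hA, Polynomial.natDegree_C_mul (hp l), Polynomial.natDegree_pow, hA0, mul_zero] at hl
      exact lt_irrefl _ hl
    · obtain ⟨t0, ht0⟩ := CaAM.one_zero (γ i0) hne hd1
      exact ⟨t0, fun t ht => ht0 t (ht i0)⟩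

end Pool.Agent.PC
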