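import Pool.Agent.Lib.MP_410da7_agP.Spec3
import Pool.Agent.Lib.MP_410da7_agS.SGen

/-!
# Package `P` (punctured cones): the almost terminal case
-/

set_option autoImplicit false

namespace Pool.Agent.PC

open MvPolynomial KaehlerDifferential WithZero Pool.Agent.Lib.MP_410da7_ag
open IsDedekindDomain (HeightOneSpectrum)

namespace CaBM

/-- values of weighted homogeneous polynomials at scaled points -/
theorem aeval_scale {N : ℕ} (w : Fin N → ℕ) {n : ℕ} (P : MvPolynomial (Fin N) ℂ)
    (hP : P.IsWeightedHomogeneous w n) {B : Type} [CommRing B] [Algebra ℂ B] (c : B)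
    (y : Fin N → B) : aeval (fun i => c ^ w i * y i) P = c ^ n * aeval y P := by
  rw [aeval_def, aeval_def, eval₂_eq', eval₂_eq', Finset.mul_sum]
  apply Finset.sum_congr rfl
  intro e he
  have h1 : ∏ i, (c ^ w i * y i) ^ e i = c ^ n * ∏ i, y i ^ e i := by
    simp_rw [mul_pow]
    rw [Finset.prod_mul_distrib]
    congr 1
    simp_rw [← pow_mul]
    rw [Finset.prod_pow_eq_pow_sum]
    congr 1
    rw [← hP (mem_support_iff.mp he), Finsupp.weight_apply, Finsupp.sum_fintype]
    · apply Finset.sum_congr rfl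
      intro i _
      rw [smul_eq_mul, mul_comm]
    · intro i
      simp
  rw [h1]
  ring

section residue

variable {N r n : ℕ} {K : Type} [Field K] [Algebra ℂ K]

/-- the residue form on coordinate differentials -/
theorem residue_coord (f : Fin r → MvPolynomial (Fin N) ℂ) (x : Fin N → K)
    (σ : Fin r ⊕ Fin n ≃ Fin N) (Ψ : Ω[K⁄ℂ] [⋀^Fin n]→ₗ[K] K) (hΨ : IsResidueForm f x σ Ψ)
    (ι : Fin n → Fin N) : Ψ (fun i => D ℂ K (x (ι i))) = aeval x (minorP f σ ι) := by
  classical
  let ξ : Fin n → Fin N → K := fun i => Pi.single (ι i) 1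
  have h1 : (fun i => D ℂ K (x (ι i))) = fun i => dmap x (ξ i) := by
    funext i
    change _ = dmap x (Pi.single (ι i) (1 : K))
    rw [dmap_single, one_smul]
  rw [h1, hΨ, minorP, ← AlgHom.coe_toRingHom, RingHom.map_det]
  congr 1
  ext i j
  simp only [Matrix.of_apply, RingHom.mapMatrix_apply, Matrix.map_apply]
  rcases i with i | i
  · rfl
  · simp only [Sum.elim_inr, ξ, Pi.single_apply]
    split_ifs <;> simp

/-- some complementary minor does not vanish -/
theorem exists_minor (f : Fin r → MvPolynomial (Fin N) ℂ) (x : Fin N → K)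
    (hgen : ∀ a : K, ∃ P Q : MvPolynomial (Fin N) ℂ, aeval x Q ≠ 0 ∧ a * aeval x Q = aeval x P)
    (σ : Fin r ⊕ Fin n ≃ Fin N) (Ψ : Ω[K⁄ℂ] [⋀^Fin n]→ₗ[K] K) (hΨ0 : Ψ ≠ 0)
    (hΨ : IsResidueForm f x σ Ψ) : ∃ ι : Fin n → Fin N, aeval x (minorP f σ ι) ≠ 0 := by
  classical
  by_contra hcon
  push Not at hcon
  apply hΨ0
  ext θ
  choose ξ hξ using fun i => dmap_surjective x hgen (θ i)
  have h1 : θ = fun i => ∑ l, ξ i l • D ℂ K (x l) := by
    funext i
    rw [← dmap_apply, hξ]
  rw [h1]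
  have h2 := Ψ.toMultilinearMap.map_sum (fun i l => ξ i l • D ℂ K (x l))
  change Ψ.toMultilinearMap _ = _
  rw [h2]
  simp only [AlternatingMap.zero_apply]
  apply Finset.sum_eq_zero
  intro ι _
  have h3 := Ψ.toMultilinearMap.map_smul_univ (fun i => ξ i (ι i)) (fun i => D ℂ K (x (ι i)))
  have h4 : Ψ.toMultilinearMap (fun i => D ℂ K (x (ι i))) = 0 := by
    change Ψ (fun i => D ℂ K (x (ι i))) = 0
    rw [residue_coord f x σ Ψ hΨ, hcon]
  rw [h4, smul_zero] at h3
  exact h3

end residue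

end CaBM

theorem stmtCaB (hS : StmtSys) (hD : StmtDim) (hG : StmtGen) (hDe : StmtDer) (hE : StmtEst)
    (hF : StmtFac) : StmtCaB := by
  classical
  intro N r w d f hV K _ _ x hx hAT hle L _ _ _ _ _ _ k γ0 hγ0 hnt hdeg
  obtain ⟨hx0, -, n, hn, htr, hΨ⟩ := hD N r w d f hV K x hx
  set p : Fin N → L := fun i => algebraMap K L (x i) with hp_def
  have hp : ∀ i, p i ≠ 0 := fun i =>
    (map_ne_zero_iff _ (algebraMap K L).injective).mpr (hx0 i)
  have hf : ∀ k, aeval p (f k) = 0 := by
    intro k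
    have h1 := MvPolynomial.aeval_algebraMap_apply (A := K) (B := L) x (f k)
    rw [hx.zero, map_zero] at h1
    exact h1
  -- the coefficients of the given curve
  set a0 : Sg w k → L := fun q => (γ0 q.1).coeff (q.2.1 + 1) with ha0
  have hcur0 : cur w k p a0 = γ0 := curvePoly_of_curve _ p γ0 hγ0.zero hdeg
  obtain ⟨-, hS2, hS3⟩ := hS N r w d f hV.homog k L p
  have hE0 : ∀ q : Eg d k, eval a0 (sysE w d f k p q) = 0 := by
    intro q
    have h1 := (hS3 L a0 hf).mpr (by
      intro l
      simp only [Algebra.algebraMap_self, RingHom.id_apply]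
      rw [hcur0]
      exact hγ0.mem l) q
    rwa [MvPolynomial.aeval_eq_eval] at h1
  -- the polynomial expressing nontriviality
  simp only [IsTriv, not_forall] at hnt
  obtain ⟨i, j, hij⟩ := hnt
  set Gu : Polynomial (MvPolynomial (Sg w k) L) :=
    Polynomial.C (C (p j ^ w i)) * cur w k (fun i => C (p i)) X i ^ w j -
      Polynomial.C (C (p i ^ w j)) * cur w k (fun i => C (p i)) X j ^ w i with hGu
  have hmap : ∀ (B : Type) [CommRing B] [Algebra L B] (b : Sg w k → B),
      Gu.map (aeval b : MvPolynomial (Sg w k) L →ₐ[L] B).toRingHom =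
        Polynomial.C (algebraMap L B (p j) ^ w i) *
          cur w k (fun i => algebraMap L B (p i)) b i ^ w j -
        Polynomial.C (algebraMap L B (p i) ^ w j) *
          cur w k (fun i => algebraMap L B (p i)) b j ^ w i := by
    intro B _ _ b
    have h1 : ∀ l, (cur w k (fun i => (C (p i) : MvPolynomial (Sg w k) L)) X l).map
        (aeval b : MvPolynomial (Sg w k) L →ₐ[L] B).toRingHom =
        cur w k (fun i => algebraMap L B (p i)) b l := by
      intro l
      rw [curvePoly_map]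
      congr 1
      · funext i
        simp
      · funext q
        simp
    rw [hGu, Polynomial.map_sub, Polynomial.map_mul, Polynomial.map_mul, Polynomial.map_pow,
      Polynomial.map_pow, h1, h1, Polynomial.map_C, Polynomial.map_C]
    simp
  have hG0 : Gu.map (aeval a0 : MvPolynomial (Sg w k) L →ₐ[L] L).toRingHom ≠ 0 := by
    rw [hmap]
    simp only [Algebra.algebraMap_self, RingHom.id_apply]
    rw [hcur0]
    exact sub_ne_zero.mpr hij
  obtain ⟨e, he⟩ : ∃ e, (Gu.map (aeval a0 : MvPolynomial (Sg w k) L →ₐ[L] L).toRingHom).coeff e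
      ≠ 0 := by
    by_contra hcon
    push Not at hcon
    exact hG0 (Polynomial.ext (by simpa using hcon))
  rw [Polynomial.coeff_map] at he
  have he' : eval a0 (Gu.coeff e) ≠ 0 := by
    rw [← MvPolynomial.aeval_eq_eval]
    exact he
  obtain ⟨F, instF, instLF, b, hb0, hbg, hadj, hcard⟩ := hG (Sg w k) (Eg d k) L
    (fun q => sysE w d f k p q) (Gu.coeff e) a0 hE0 he'
  letI algF : Algebra ℂ F := ((algebraMap L F).comp (algebraMap ℂ L)).toAlgebra
  haveI tow : IsScalarTower ℂ L F := IsScalarTower.of_algebraMap_eq' rfl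
  set γ : Fin N → Polynomial F := cur w k (fun i => algebraMap L F (p i)) b with hγ
  have hmem : ∀ l, aeval γ (f l) = 0 := (hS3 F b hf).mp hb0
  have hγ0' : ∀ i, (γ i).eval 0 = algebraMap L F (p i) := fun i => curvePoly_eval_zero _ _ _ _
  have hdegγ : ∀ i, (γ i).natDegree ≤ k * w i := fun i => curvePoly_natDegree_le _ _ _ _
  -- not trivial
  have hntγ : Polynomial.C (algebraMap L F (p j) ^ w i) * γ i ^ w j ≠
      Polynomial.C (algebraMap L F (p i) ^ w j) * γ j ^ w i := by
    intro h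
    apply hbg
    have h1 := hmap F b
    rw [← hγ, h, sub_self] at h1
    have h2 := congrArg (fun P => Polynomial.coeff P e) h1
    simp only [Polynomial.coeff_map, Polynomial.coeff_zero] at h2
    exact h2
  -- dimension
  obtain ⟨m, hm⟩ : ∃ m, m + k * ∑ l, d l = k * ∑ i, w i := by
    obtain ⟨c, hc⟩ := Nat.exists_eq_add_of_le (Nat.mul_le_mul_left k hle)
    exact ⟨c, by omega⟩
  have hmtr : (m : Cardinal) ≤ Algebra.trdeg L F := by
    by_contra hcon
    push Not at hcon
    obtain ⟨t, ht⟩ := Cardinal.lt_aleph0.mp (hcon.trans (Cardinal.natCast_lt_aleph0))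
    rw [ht] at hcon hcard
    have h1 : t < m := by exact_mod_cast hcon
    have h2 : Fintype.card (Sg w k) ≤ t + Fintype.card (Eg d k) := by exact_mod_cast hcard
    rw [Fintype.card_sigma, Fintype.card_sigma] at h2
    simp only [Fintype.card_fin] at h2
    rw [← Finset.mul_sum, ← Finset.mul_sum] at h2
    omega
  let σ : Fin r ⊕ Fin n ≃ Fin N := finSumFinEquiv.trans (finCongr hn)
  obtain ⟨Ψ, hΨ0, hΨr⟩ := hΨ σ
  obtain ⟨ι, hι⟩ := CaBM.exists_minor f x hx.gen σ Ψ hΨ0 hΨr
  let φ : K →ₐ[ℂ] F := (IsScalarTower.toAlgHom ℂ L F).comp (IsScalarTower.toAlgHom ℂ K L)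
  have hφ : ∀ z, φ z = algebraMap L F (algebraMap K L z) := fun z => rfl
  obtain ⟨D, hW0, hWX⟩ := hDe N r n w d f hV K x hx σ ι hι L F k m b hadj hmtr hmem
  obtain ⟨P, hP1, hP2, hP3⟩ := hE N r n w d f hV K x hx hAT hle F k γ hdegγ hmem φ hγ0' σ D
  have hW : (Matrix.of fun i j => coeffDer (D j) (γ (ι i))).det =
      P * aeval γ (minorP f σ ι) := hP1 ι
  change (Matrix.of fun i j => coeffDer (D j) (γ (ι i))).det ≠ 0 at hW0
  change Polynomial.X ^ m ∣ (Matrix.of fun i j => coeffDer (D j) (γ (ι i))).det at hWX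
  rw [hW] at hW0 hWX
  have hP0 : P ≠ 0 := left_ne_zero_of_mul hW0
  have hM0 : (aeval γ (minorP f σ ι)).eval 0 ≠ 0 := by
    have h1 : (aeval γ (minorP f σ ι)).eval 0 = φ (aeval x (minorP f σ ι)) := by
      have h2 : Polynomial.eval 0 (aeval γ (minorP f σ ι)) =
          (Polynomial.aeval (R := F) (0 : F)).restrictScalars ℂ (aeval γ (minorP f σ ι)) := by
        simp [Polynomial.aeval_def, Polynomial.eval₂_eq_eval_map]
      rw [h2, ← AlgHom.comp_apply, MvPolynomial.comp_aeval, ← AlgHom.comp_apply,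
        MvPolynomial.comp_aeval]
      congr 2
      funext l
      have h3 : (γ l).eval 0 = φ (x l) := hγ0' l
      simpa [Polynomial.aeval_def, Polynomial.eval₂_eq_eval_map] using h3
    rw [h1]
    exact (map_ne_zero_iff _ φ.toRingHom.injective).mpr hι
  have hXM : ¬ Polynomial.X ∣ aeval γ (minorP f σ ι) := by
    intro h
    exact hM0 (by rw [← Polynomial.coeff_zero_eq_eval_zero]; exact Polynomial.X_dvd_iff.mp h)
  have hXP : Polynomial.X ^ m ∣ P := Polynomial.prime_X.pow_dvd_of_dvd_mul_right m hXM hWX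
  obtain ⟨Q, hQ⟩ := hXP
  have hQ0 : Q ≠ 0 := by
    intro h
    rw [h, mul_zero] at hQ
    exact hP0 hQ
  have hQdeg : Q.natDegree = 0 := by
    rw [hQ, Polynomial.natDegree_mul (pow_ne_zero _ Polynomial.X_ne_zero) hQ0,
      Polynomial.natDegree_X_pow] at hP2
    omega
  obtain ⟨c, hc⟩ : ∃ c, Q = Polynomial.C c := ⟨_, Polynomial.eq_C_of_natDegree_eq_zero hQdeg⟩
  have hc0 : c ≠ 0 := by
    rintro rfl
    exact hQ0 (by rw [hc, map_zero])
  have hpF : ∀ i, algebraMap L F (p i) ≠ 0 := fun i =>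
    (map_ne_zero_iff _ (algebraMap L F).injective).mpr (hp i)
  have hγne : ∀ i, γ i ≠ 0 := by
    intro i h
    have h1 := hγ0' i
    rw [h, Polynomial.eval_zero] at h1
    exact hpF i h1.symm
  obtain ⟨A, y, hAy, hspan⟩ := hF N w hV.pos hV.gcd F γ hγne (by
    intro 𝔭 h𝔭 i' j'
    by_contra hne
    have hP𝔭 := hP3 𝔭 h𝔭 ⟨i', j', hne⟩
    haveI := 𝔭.isPrime
    have hX : (Polynomial.X : Polynomial F) ∈ 𝔭.asIdeal := by
      rw [hQ, hc] at hP𝔭
      rcases 𝔭.isPrime.mem_or_mem hP𝔭 with h | h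
      · exact 𝔭.isPrime.mem_of_pow_mem _ h
      · exact absurd (Ideal.eq_top_of_isUnit_mem _ h
          (Polynomial.isUnit_C.mpr (IsUnit.mk0 _ hc0))) 𝔭.isPrime.ne_top
    have hγi : γ i' ∈ 𝔭.asIdeal := by
      have h1 := h𝔭 i'
      rwa [𝔭.valuation_lt_one_iff_mem] at h1
    have h2 : Polynomial.C (algebraMap L F (p i')) ∈ 𝔭.asIdeal := by
      have h3 : Polynomial.C (algebraMap L F (p i')) = γ i' - Polynomial.X * (γ i').divX := by
        have h4 := Polynomial.X_mul_divX_add (γ i')
        rw [Polynomial.coeff_zero_eq_eval_zero, hγ0' i'] at h4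
        rw [← h4]
        simp only [h4]
        linear_combination h4
      rw [h3]
      exact Ideal.sub_mem _ hγi (Ideal.mul_mem_right _ _ hX)
    exact 𝔭.isPrime.ne_top (Ideal.eq_top_of_isUnit_mem _ h2
      (Polynomial.isUnit_C.mpr (IsUnit.mk0 _ (hpF i')))))
  have hval : ∀ l, A.eval 0 ^ w l * (y l).eval 0 = algebraMap L F (p l) := by
    intro l
    rw [← hγ0' l, hAy, Polynomial.eval_mul, Polynomial.eval_pow]
  have hA0 : A.eval 0 ≠ 0 := by
    intro h
    have h1 := hval i
    rw [h, zero_pow (hV.pos i).ne', zero_mul] at h1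
    exact hpF i h1.symm
  have hAne : A ≠ 0 := by
    rintro rfl
    exact hA0 (by simp)
  have hfy : ∀ l, aeval y (f l) = 0 := by
    intro l
    have h1 := CaBM.aeval_scale w (f l) (hV.homog l) A y
    have h2 : (fun i => A ^ w i * y i) = γ := by
      funext l
      rw [hAy]
    rw [h2, hmem] at h1
    exact (mul_eq_zero.mp h1.symm).resolve_left (pow_ne_zero _ hAne)
  refine ⟨F, instF, algF, φ, fun l => Polynomial.C (A.eval 0) ^ w l * y l, ⟨?_, ?_⟩, ?_, ?_⟩
  · intro l
    rw [Polynomial.eval_mul, Polynomial.eval_pow, Polynomial.eval_C, hval]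
    rfl
  · intro l
    rw [CaBM.aeval_scale w (f l) (hV.homog l), hfy, mul_zero]
  · rw [eq_top_iff, ← hspan, Ideal.span_le]
    rintro _ ⟨l, rfl⟩
    have h1 : y l = Polynomial.C ((A.eval 0)⁻¹ ^ w l) *
        (Polynomial.C (A.eval 0) ^ w l * y l) := by
      rw [← mul_assoc, ← Polynomial.C_pow, ← Polynomial.C_mul, ← mul_pow, inv_mul_cancel₀ hA0,
        one_pow, Polynomial.C_1, one_mul]
    rw [h1]
    exact Ideal.mul_mem_left _ _ (Ideal.subset_span ⟨l, rfl⟩)
  · by_contra hcon
    push Not at hcon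
    apply hntγ
    have h1 : ∀ l, Polynomial.C (A.eval 0) ^ w l * y l =
        Polynomial.C (algebraMap L F (p l)) := by
      intro l
      rw [Polynomial.eq_C_of_natDegree_le_zero (hcon l), Polynomial.coeff_zero_eq_eval_zero,
        Polynomial.eval_mul, Polynomial.eval_pow, Polynomial.eval_C, hval]
    have hC0 : Polynomial.C (A.eval 0) ≠ 0 := by
      rwa [Ne, Polynomial.C_eq_zero]
    apply mul_left_cancel₀ (pow_ne_zero (w i * w j) hC0)
    have h2 : ∀ l, Polynomial.C (A.eval 0) ^ w l * γ l =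
        A ^ w l * Polynomial.C (algebraMap L F (p l)) := by
      intro l
      rw [← h1 l, hAy]
      ring
    calc Polynomial.C (A.eval 0) ^ (w i * w j) *
          (Polynomial.C (algebraMap L F (p j) ^ w i) * γ i ^ w j)
        = Polynomial.C (algebraMap L F (p j)) ^ w i *
            (Polynomial.C (A.eval 0) ^ w i * γ i) ^ w j := by
          rw [Polynomial.C_pow]; ring
      _ = Polynomial.C (algebraMap L F (p i)) ^ w j *
            (Polynomial.C (A.eval 0) ^ w j * γ j) ^ w i := by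
          rw [h2, h2]; ring
      _ = _ := by
          rw [Polynomial.C_pow]; ring

end Pool.Agent.PC
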