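import Pool.Agent.Lib.MP_410da7_agP.Spec2

/-!
# The degenerate system has at most `D₁ D₁'` solutions
-/

set_option autoImplicit false

namespace Pool.Agent.PC.CzeM

open MvPolynomial Pool.Agent.Lib.MP_410da7_ag

noncomputable section

/-- nilpotent Nakayama -/
theorem nak {L A C R : Type} [Field L] [CommRing A] [CommRing C] [CommRing R] [Algebra L A]
    [Algebra L C] [Algebra L R] (α : A →ₐ[L] C) (β : R →ₐ[L] C) (J : Ideal R) (n : Ideal A)
    (hn : IsNilpotent n) [Module.Finite L A] [Module.Finite L (R ⧸ J)]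
    (h1 : ∀ h ∈ J, β h ∈ n.map α.toRingHom)
    (h2 : ∀ c : C, c ∈ Submodule.span L (Set.range fun s : A × R => α s.1 * β s.2)) :
    Module.Finite L C ∧ Module.finrank L C ≤ Module.finrank L A * Module.finrank L (R ⧸ J) := by
  let _ : Algebra A C := α.toRingHom.toAlgebra
  have : IsScalarTower L A C := IsScalarTower.of_algebraMap_eq (fun x => (α.commutes x).symm)
  have hsm : ∀ (a : A) (c : C), a • c = α a * c := fun a c => rfl
  let b := Module.finBasis L (R ⧸ J)
  have hg : ∀ j, ∃ g : R, Ideal.Quotient.mk J g = b j := fun j =>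
    Ideal.Quotient.mk_surjective (b j)
  choose g hg using hg
  let N : Submodule A C := Submodule.span A (Set.range fun j => β (g j))
  have hβ : ∀ x : R, β x ∈ N ⊔ n • (⊤ : Submodule A C) := by
    intro x
    have h3 : x - ∑ j, (b.repr (Ideal.Quotient.mk J x) j) • g j ∈ J := by
      rw [← Ideal.Quotient.eq_zero_iff_mem, map_sub, map_sum, sub_eq_zero]
      conv_lhs => rw [← b.sum_repr (Ideal.Quotient.mk J x)]
      refine Finset.sum_congr rfl fun j _ => ?_
      rw [← hg j]
      exact (map_smul (Ideal.Quotient.mkₐ L J) _ _).symm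
    have h4 : β x = ∑ j, (b.repr (Ideal.Quotient.mk J x) j) • β (g j) +
        β (x - ∑ j, (b.repr (Ideal.Quotient.mk J x) j) • g j) := by
      simp
    rw [h4]
    refine Submodule.add_mem_sup ?_ ?_
    · refine Submodule.sum_mem _ fun j _ => ?_
      rw [← algebraMap_smul A (b.repr (Ideal.Quotient.mk J x) j) (β (g j))]
      exact Submodule.smul_mem _ _ (Submodule.subset_span ⟨j, rfl⟩)
    · rw [Ideal.smul_top_eq_map]
      exact h1 _ h3
  have htop : (⊤ : Submodule A C) ≤ N ⊔ n • (⊤ : Submodule A C) := by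
    intro c _
    have hc := h2 c
    induction hc using Submodule.span_induction with
    | mem x hx =>
      obtain ⟨⟨a, y⟩, rfl⟩ := hx
      show α a * β y ∈ _
      rw [← hsm]
      exact Submodule.smul_mem _ _ (hβ y)
    | zero => exact Submodule.zero_mem _
    | add x y _ _ hx hy => exact Submodule.add_mem _ (hx trivial) (hy trivial)
    | smul a x _ hx =>
      rw [← algebraMap_smul A a x]
      exact Submodule.smul_mem _ _ (hx trivial)
  have hpow : ∀ m : ℕ, (⊤ : Submodule A C) ≤ N ⊔ n ^ m • (⊤ : Submodule A C) := by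
    intro m
    induction m with
    | zero =>
      rw [pow_zero, Ideal.one_eq_top, Submodule.top_smul]
      exact le_sup_right
    | succ m ih =>
      calc (⊤ : Submodule A C) ≤ N ⊔ n ^ m • (⊤ : Submodule A C) := ih
        _ ≤ N ⊔ n ^ m • (N ⊔ n • (⊤ : Submodule A C)) :=
          sup_le_sup_left (Submodule.smul_mono le_rfl htop) _
        _ ≤ N ⊔ n ^ (m + 1) • (⊤ : Submodule A C) := by
          rw [Submodule.smul_sup, ← Submodule.mul_smul, ← pow_succ]
          exact sup_le le_sup_left (sup_le (Submodule.smul_le_right.trans le_sup_left) le_sup_right)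
  obtain ⟨m, hm⟩ := hn
  have hNtop : N = ⊤ := by
    have h3 := hpow m
    rw [hm] at h3
    simpa using h3
  let Φ : (Fin (Module.finrank L (R ⧸ J)) → A) →ₗ[A] C :=
    Fintype.linearCombination A (fun j => β (g j))
  have hΦ : Function.Surjective Φ := by
    rw [← LinearMap.range_eq_top]
    show LinearMap.range (Fintype.linearCombination A (fun j => β (g j))) = ⊤
    rw [Fintype.range_linearCombination]
    exact hNtop
  let Ψ : (Fin (Module.finrank L (R ⧸ J)) → A) →ₗ[L] C := Φ.restrictScalars L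
  have hΨ : Function.Surjective Ψ := hΦ
  refine ⟨Module.Finite.of_surjective Ψ hΨ, ?_⟩
  refine (LinearMap.finrank_le_finrank_of_surjective hΨ).trans ?_
  rw [Module.finrank_pi_fintype]
  simp [mul_comm]

variable {N r : ℕ}

theorem topc_map (w : Fin N → ℕ) {B B' : Type} [CommRing B] [CommRing B'] (φ : B →+* B')
    (p : Fin N → B) (b : Sg w 1 → B) (i : Fin N) :
    φ (topc w p b i) = topc w (fun l => φ (p l)) (fun q => φ (b q)) i := by
  unfold topc
  rw [← Polynomial.coeff_map, curvePoly_map]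

theorem cur_map (w : Fin N → ℕ) {B B' : Type} [CommRing B] [CommRing B'] [Algebra ℂ B]
    [Algebra ℂ B'] (φ : B →ₐ[ℂ] B') (p : Fin N → B) (b : Sg w 1 → B)
    (F : MvPolynomial (Fin N) ℂ) (s : ℕ) :
    φ ((aeval (cur w 1 p b) F).coeff s) =
      (aeval (cur w 1 (fun l => φ (p l)) (fun q => φ (b q))) F).coeff s := by
  have h1 : φ ((aeval (cur w 1 p b) F).coeff s) =
      ((aeval (cur w 1 p b) F).map (φ : B →+* B')).coeff s := by
    rw [Polynomial.coeff_map]
    rfl
  rw [h1, curve_map_aeval]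
  congr 3
  funext l
  exact curvePoly_map (φ : B →+* B') _ _ _ l

/-- the coefficients of `p_i (1+t)^(w_i)` -/
def b0 (w : Fin N → ℕ) {L : Type} [Field L] (p : Fin N → L) (q : Sg w 1) : L :=
  (Polynomial.C (p q.1) * (1 + Polynomial.X) ^ w q.1).coeff (q.2.1 + 1)

theorem topc_b0 (w : Fin N → ℕ) (hw : ∀ i, 0 < w i) {L : Type} [Field L] (p : Fin N → L)
    (i : Fin N) : topc w p (b0 w p) i = p i := by
  unfold topc
  have hlt : w i - 1 < 1 * w i := by
    have := hw i
    omega
  have h1 := curvePoly_coeff (fun i => 1 * w i) p (b0 w p) i ⟨w i - 1, hlt⟩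
  have h2 : (⟨w i - 1, hlt⟩ : Fin (1 * w i)).1 + 1 = w i := by
    have := hw i
    simp only
    omega
  rw [h2] at h1
  rw [h1]
  unfold b0
  simp only
  have h3 : w i - 1 + 1 = w i := by
    have := hw i
    omega
  rw [h3, Polynomial.coeff_C_mul]
  have h4 : ((1 + Polynomial.X : Polynomial L) ^ w i).coeff (w i) = 1 := by
    rw [Polynomial.coeff_one_add_X_pow]
    simp
  rw [h4, mul_one]

/-- the only zero -/
theorem zero_eq (w : Fin N → ℕ) (d : Fin r → ℕ) (f : Fin r → MvPolynomial (Fin N) ℂ)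
    (hw : ∀ i, 0 < w i) {L : Type} [Field L] [Algebra ℂ L] (p : Fin N → L) (hp : ∀ i, p i ≠ 0)
    (hA : AllTriv w d f 1 p) (q0 : Sg w 1) (hq0 : q0.2.1 = 0) (a : Sg w 1 → L)
    (ha : ∀ q : Eg d 1, eval a (sysE w d f 1 p q) = 0) (ha0 : a q0 = (w q0.1 : L) * p q0.1) :
    a = b0 w p := by
  have : CharZero L := charZero_of_injective_algebraMap (algebraMap ℂ L).injective
  obtain ⟨A, hA0, hA1, hA2⟩ := hA a ha
  have hA' : A = 1 + Polynomial.C (A.coeff 1) * Polynomial.X := by
    have h1 := Polynomial.eq_X_add_C_of_natDegree_le_one hA1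
    have h2 : A.coeff 0 = 1 := by rw [Polynomial.coeff_zero_eq_eval_zero, hA0]
    conv_lhs => rw [h1, h2]
    rw [map_one, add_comm]
  have hco : ∀ q : Sg w 1, a q = (Polynomial.C (p q.1) * A ^ w q.1).coeff (q.2.1 + 1) := by
    intro q
    rw [← hA2 q.1]
    exact (curvePoly_coeff (fun i => 1 * w i) p a q.1 q.2).symm
  have h1 : A.coeff 1 = 1 := by
    have h2 := hco q0
    rw [hq0, zero_add, ha0, Polynomial.coeff_C_mul] at h2
    have h3 : (A ^ w q0.1).coeff 1 = (w q0.1 : L) * A.coeff 1 := by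
      have h4 : (A ^ w q0.1).coeff 1 = (Polynomial.derivative (A ^ w q0.1)).eval 0 := by
        rw [← Polynomial.coeff_zero_eq_eval_zero, Polynomial.coeff_derivative]
        simp
      rw [h4, Polynomial.derivative_pow, Polynomial.eval_mul, Polynomial.eval_mul,
        Polynomial.eval_pow, hA0, one_pow, mul_one]
      have h5 : (Polynomial.derivative A).eval 0 = A.coeff 1 := by
        rw [← Polynomial.coeff_zero_eq_eval_zero, Polynomial.coeff_derivative]
        simp
      rw [h5]
      simp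
    rw [h3] at h2
    have hw0 : (w q0.1 : L) ≠ 0 := Nat.cast_ne_zero.2 (hw q0.1).ne'
    have hp0 := hp q0.1
    have h4 : (w q0.1 : L) * p q0.1 * 1 = (w q0.1 : L) * p q0.1 * A.coeff 1 := by
      rw [mul_one]
      refine h2.trans ?_
      ring
    exact (mul_left_cancel₀ (mul_ne_zero hw0 hp0) h4).symm
  funext q
  rw [hco q, hA', h1]
  simp [b0]

theorem key2 (w : Fin N → ℕ) (d : Fin r → ℕ) (f : Fin r → MvPolynomial (Fin N) ℂ)
    (hw : ∀ i, 0 < w i) {L : Type} [Field L] [Algebra ℂ L] (p : Fin N → L)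
    (hsys : ∀ (B : Type) [CommRing B] [Algebra ℂ B] [Algebra L B] [IsScalarTower ℂ L B]
      (a : Sg w 1 → B) (q : Eg d 1), aeval a (sysE w d f 1 p q) =
        (aeval (cur w 1 (fun i => algebraMap L B (p i)) a) (f q.1)).coeff (q.2.1 + 1))
    (q1 : Sg w 1) (c1 : L) {B : Type} [CommRing B] [Algebra ℂ B] [Algebra L B]
    [IsScalarTower ℂ L B] (xa xb : Sg w 1 → B)
    (hrel2 : ∀ (l : Fin r) (s : ℕ),
      (aeval (cur w 1 (topc w (fun i => algebraMap L B (p i)) xa) xb) (f l)).coeff s = 0)
    (hrel4 : xb q1 = algebraMap L B c1) (K : Ideal B)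
    (hxa : ∀ q, xa q - algebraMap L B (b0 w p q) ∈ K) :
    ∀ h ∈ J1 w d f p q1 c1, aeval xb h ∈ K := by
  intro h hh
  let π : B →ₐ[L] (B ⧸ K) := Ideal.Quotient.mkₐ L K
  have hπ : ∀ x : B, x ∈ K → π x = 0 := fun x hx => Ideal.Quotient.eq_zero_iff_mem.2 hx
  have hπa : ∀ q : Sg w 1, π (xa q) = algebraMap L (B ⧸ K) (b0 w p q) := by
    intro q
    have h2 := hπ _ (hxa q)
    rw [map_sub, sub_eq_zero, AlgHom.commutes] at h2
    exact h2
  have hrel : ∀ (l : Fin r) (s : ℕ),
      (aeval (cur w 1 (fun i => algebraMap L (B ⧸ K) (p i)) (fun q => π (xb q)))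
        (f l)).coeff s = 0 := by
    intro l s
    have h1 := cur_map w (π.restrictScalars ℂ)
      (topc w (fun i => algebraMap L B (p i)) xa) xb (f l) s
    rw [hrel2, map_zero] at h1
    have h2 : (fun l => (π.restrictScalars ℂ)
        (topc w (fun i => algebraMap L B (p i)) xa l)) =
        fun i => algebraMap L (B ⧸ K) (p i) := by
      funext l
      have h3 := topc_map w (π : B →+* (B ⧸ K)) (fun i => algebraMap L B (p i)) xa l
      have h4 : (fun i => (π : B →+* (B ⧸ K)) (algebraMap L B (p i))) =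
          fun i => algebraMap L (B ⧸ K) (p i) := by
        funext i
        exact π.commutes _
      have h5 : (fun q => (π : B →+* (B ⧸ K)) (xa q)) =
          fun q => algebraMap L (B ⧸ K) (b0 w p q) := by
        funext q
        exact hπa q
      rw [h4, h5] at h3
      have h6 := topc_map w (algebraMap L (B ⧸ K)) p (b0 w p) l
      rw [topc_b0 w hw] at h6
      exact h3.trans h6.symm
    rw [h2] at h1
    exact h1.symm
  have h1 : J1 w d f p q1 c1 ≤ RingHom.ker (π.comp (aeval xb)) := by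
    refine Ideal.span_le.2 ?_
    rintro y (⟨q, rfl⟩ | hy)
    · show π (aeval xb (sysE w d f 1 p q)) = 0
      have h3 : π.comp (aeval xb) = aeval (fun q => π (xb q)) := by
        refine MvPolynomial.algHom_ext fun q => ?_
        show π (aeval xb (X q)) = aeval (fun q => π (xb q)) (X q)
        rw [aeval_X, aeval_X]
      have h2 : π (aeval xb (sysE w d f 1 p q)) = aeval (fun q => π (xb q)) (sysE w d f 1 p q) :=
        DFunLike.congr_fun h3 _
      rw [h2, hsys (B ⧸ K) (fun q => π (xb q)) q]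
      exact hrel _ _
    · rw [Set.mem_singleton_iff] at hy
      rw [hy]
      show π (aeval xb (X q1 - C c1)) = 0
      have h3 : aeval xb (X q1 - C c1) = 0 := by
        rw [map_sub, sub_eq_zero, aeval_X, aeval_C]
        exact hrel4
      rw [h3, map_zero]
  exact Ideal.Quotient.eq_zero_iff_mem.1 (h1 hh)

end

end Pool.Agent.PC.CzeM

namespace Pool.Agent.PC

open MvPolynomial Pool.Agent.Lib.MP_410da7_ag CzeM

noncomputable section

/-- CZE the degenerate system has at most `D₁ D₁'` solutions -/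
theorem stmtCze (hS : StmtSys) : StmtCze := by
  intro N r w d f hw hf L _ _ _ p hp hpf hA q0 q1 hq0 c1 hfin1 hfin2
  set c0 : L := (w q0.1 : L) * p q0.1 with hc0
  have hsys := hS N r w d f hf 1 L p
  -- the algebra maps
  let R1 := MvPolynomial (Sg w 1) L
  let R2 := MvPolynomial (Sg w 1 ⊕ Sg w 1) L
  let I1 : Ideal R1 := J1 w d f p q0 c0
  let I2 : Ideal R1 := J1 w d f p q1 c1
  let I0 : Ideal R2 := J0 w f p q0 q1 c0 c1
  let Q : R2 →ₐ[L] (R2 ⧸ I0) := Ideal.Quotient.mkₐ L I0
  have hQ : ∀ x : R2, x ∈ I0 → Q x = 0 := fun x hx => Ideal.Quotient.eq_zero_iff_mem.2 hx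
  let xa : Sg w 1 → R2 ⧸ I0 := fun q => Q (X (Sum.inl q))
  let xb : Sg w 1 → R2 ⧸ I0 := fun q => Q (X (Sum.inr q))
  -- first family
  have hrel1 : ∀ (l : Fin r) (s : ℕ),
      (aeval (cur w 1 (fun i => algebraMap L (R2 ⧸ I0) (p i)) xa) (f l)).coeff s = 0 := by
    intro l s
    have h1 := cur_map w (Q.restrictScalars ℂ) (fun i => (C (p i) : R2))
      (fun q => X (Sum.inl q)) (f l) s
    refine h1.symm.trans (hQ _ ?_)
    exact Ideal.subset_span (Or.inl (Or.inl ⟨(l, s), rfl⟩))
  have hrel2 : ∀ (l : Fin r) (s : ℕ),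
      (aeval (cur w 1 (topc w (fun i => algebraMap L (R2 ⧸ I0) (p i)) xa) xb) (f l)).coeff s =
        0 := by
    intro l s
    have h1 := cur_map w (Q.restrictScalars ℂ) (topc w (fun i => (C (p i) : R2))
      (fun q => X (Sum.inl q))) (fun q => X (Sum.inr q)) (f l) s
    have h2 : (fun l => (Q.restrictScalars ℂ) (topc w (fun i => (C (p i) : R2))
        (fun q => X (Sum.inl q)) l)) = topc w (fun i => algebraMap L (R2 ⧸ I0) (p i)) xa := by
      funext l
      exact topc_map w (Q : R2 →+* R2 ⧸ I0) _ _ l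
    rw [h2] at h1
    refine h1.symm.trans (hQ _ ?_)
    exact Ideal.subset_span (Or.inl (Or.inr ⟨(l, s), rfl⟩))
  have hrel3 : xa q0 = algebraMap L _ c0 := by
    have h1 : X (Sum.inl q0) - C c0 ∈ I0 := Ideal.subset_span (Or.inr (Or.inl rfl))
    have h2 := hQ _ h1
    rw [map_sub, sub_eq_zero] at h2
    exact h2
  have hrel4 : xb q1 = algebraMap L _ c1 := by
    have h1 : X (Sum.inr q1) - C c1 ∈ I0 := Ideal.subset_span (Or.inr (Or.inr rfl))
    have h2 := hQ _ h1
    rw [map_sub, sub_eq_zero] at h2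
    exact h2
  -- the map of `A`
  let α0 : R1 →ₐ[L] (R2 ⧸ I0) := aeval xa
  let β : R1 →ₐ[L] (R2 ⧸ I0) := aeval xb
  have hα0 : ∀ x ∈ I1, α0 x = 0 := by
    intro x hx
    have h1 : I1 ≤ RingHom.ker α0 := by
      refine Ideal.span_le.2 ?_
      rintro y (⟨q, rfl⟩ | hy)
      · show α0 (sysE w d f 1 p q) = 0
        rw [show α0 (sysE w d f 1 p q) = _ from hsys.2.1 (R2 ⧸ I0) xa q]
        exact hrel1 _ _
      · rw [Set.mem_singleton_iff] at hy
        rw [hy]
        show α0 (X q0 - C c0) = 0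
        rw [map_sub, sub_eq_zero]
        show aeval xa (X q0) = aeval xa (C c0)
        rw [aeval_X, aeval_C]
        exact hrel3
    exact h1 hx
  let α : (R1 ⧸ I1) →ₐ[L] (R2 ⧸ I0) := Ideal.Quotient.liftₐ I1 α0 hα0
  have hα : ∀ x : R1, α (Ideal.Quotient.mk I1 x) = α0 x := fun x => rfl
  -- the nilpotent ideal
  let n : Ideal (R1 ⧸ I1) :=
    Ideal.span (Set.range fun q : Sg w 1 => Ideal.Quotient.mk I1 (X q - C (b0 w p q)))
  have hn : IsNilpotent n := by
    have hFG : n.FG := Submodule.fg_span (Set.finite_range _)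
    rw [hFG.isNilpotent_iff_le_nilradical]
    refine Ideal.span_le.2 ?_
    rintro y ⟨q, rfl⟩
    show Ideal.Quotient.mk I1 (X q - C (b0 w p q)) ∈ nilradical _
    have h1 : X q - C (b0 w p q) ∈ I1.radical := by
      rw [← vanishingIdeal_zeroLocus_eq_radical (K := L), mem_vanishingIdeal_iff]
      intro a ha
      rw [mem_zeroLocus_iff] at ha
      have h2 : a = b0 w p := by
        refine zero_eq w d f hw p hp hA q0 hq0 a (fun q => ?_) ?_
        · have h3 := ha (sysE w d f 1 p q) (Ideal.subset_span (Or.inl ⟨q, rfl⟩))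
          rwa [aeval_eq_eval] at h3
        · have h3 := ha (X q0 - C c0) (Ideal.subset_span (Or.inr rfl))
          rw [map_sub, aeval_X, aeval_C, sub_eq_zero] at h3
          exact h3
      rw [h2, map_sub, aeval_X, aeval_C]
      exact sub_self _
    obtain ⟨m, hm⟩ := h1
    refine ⟨m, ?_⟩
    rw [← map_pow]
    exact Ideal.Quotient.eq_zero_iff_mem.2 hm
  -- the second ideal
  have hI2 : ∀ h ∈ I2, β h ∈ n.map α.toRingHom := by
    refine key2 w d f hw p hsys.2.1 q1 c1 xa xb hrel2 hrel4 _ ?_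
    intro q
    have h1 : α (Ideal.Quotient.mk I1 (X q - C (b0 w p q))) ∈ n.map α.toRingHom :=
      Ideal.mem_map_of_mem α.toRingHom (Ideal.subset_span ⟨q, rfl⟩)
    rw [hα, map_sub] at h1
    have h3 : α0 (X q) = xa q := aeval_X _ _
    have h4 : α0 (C (b0 w p q)) = algebraMap L (R2 ⧸ I0) (b0 w p q) := aeval_C _ _
    rw [h3, h4] at h1
    exact h1
  -- generation
  have hgen : ∀ c : R2 ⧸ I0, c ∈ Submodule.span L
      (Set.range fun s : (R1 ⧸ I1) × R1 => α s.1 * β s.2) := by
    intro c
    obtain ⟨g, rfl⟩ := Ideal.Quotient.mk_surjective c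
    have hmul : ∀ (z : (R1 ⧸ I1) × R1) (y : R2 ⧸ I0), y ∈ Submodule.span L
        (Set.range fun s : (R1 ⧸ I1) × R1 => α s.1 * β s.2) → y * (α z.1 * β z.2) ∈
        Submodule.span L (Set.range fun s : (R1 ⧸ I1) × R1 => α s.1 * β s.2) := by
      intro z y hy
      induction hy using Submodule.span_induction with
      | mem x hx =>
        obtain ⟨s, rfl⟩ := hx
        refine Submodule.subset_span ⟨(s.1 * z.1, s.2 * z.2), ?_⟩
        simp only [map_mul]
        ring
      | zero => rw [zero_mul]; exact Submodule.zero_mem _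
      | add x y _ _ hx hy => rw [add_mul]; exact Submodule.add_mem _ hx hy
      | smul a x _ hx => rw [smul_mul_assoc]; exact Submodule.smul_mem _ _ hx
    induction g using MvPolynomial.induction_on with
    | C a =>
      have h1 : (Ideal.Quotient.mk I0 (C a) : R2 ⧸ I0) = a • (α 1 * β 1) := by
        rw [map_one, map_one, one_mul]
        have h2 : (a • (1 : R2 ⧸ I0)) = algebraMap L (R2 ⧸ I0) a := (Algebra.algebraMap_eq_smul_one a).symm
        rw [h2]
        rfl
      rw [h1]
      exact Submodule.smul_mem _ _ (Submodule.subset_span ⟨(1, 1), rfl⟩)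
    | add g h hg hh => rw [map_add]; exact Submodule.add_mem _ hg hh
    | mul_X g q hg =>
      rw [map_mul]
      rcases q with q | q
      · have h1 : (Ideal.Quotient.mk I0 (X (Sum.inl q)) : R2 ⧸ I0) =
            α (Ideal.Quotient.mk I1 (X q)) * β 1 := by
          rw [map_one, mul_one, hα]
          exact (aeval_X xa q).symm
        rw [h1]
        exact hmul (Ideal.Quotient.mk I1 (X q), 1) _ hg
      · have h1 : (Ideal.Quotient.mk I0 (X (Sum.inr q)) : R2 ⧸ I0) = α 1 * β (X q) := by
          rw [map_one, one_mul]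
          exact (aeval_X xb q).symm
        rw [h1]
        exact hmul (1, X q) _ hg
  exact nak α β I2 n hn hI2 hgen

end

end Pool.Agent.PC
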