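import Pool.Agent.Lib.MP_410da7_agP.Spec2

/-!
# DEG: the degeneration inequality
-/

set_option autoImplicit false

namespace Pool.Agent.PC

open MvPolynomial Pool.Agent.Lib.MP_410da7_ag

namespace DegM

noncomputable section

variable {N r : ℕ}

theorem map_cur {w : Fin N → ℕ} {k : ℕ} {B B' : Type} [CommRing B] [CommRing B'] (φ : B →+* B')
    (p : Fin N → B) (a : Sg w k → B) (i : Fin N) :
    (cur w k p a i).map φ = cur w k (fun i => φ (p i)) (fun q => φ (a q)) i :=
  curvePoly_map φ _ p a i

theorem coeff_map_cur {w : Fin N → ℕ} {k : ℕ} {B B' : Type} [CommRing B] [CommRing B']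
    [Algebra ℂ B] [Algebra ℂ B'] (φ : B →ₐ[ℂ] B') (p : Fin N → B) (a : Sg w k → B)
    (F : MvPolynomial (Fin N) ℂ) (n : ℕ) :
    φ ((aeval (cur w k p a) F).coeff n) =
      (aeval (cur w k (fun i => φ (p i)) (fun q => φ (a q))) F).coeff n := by
  have h1 : ((aeval (cur w k p a) F).map (φ : B →+* B')).coeff n =
      φ ((aeval (cur w k p a) F).coeff n) := Polynomial.coeff_map _ _
  rw [← h1, curve_map_aeval]
  have h2 : (fun l => (cur w k p a l).map (φ : B →+* B')) =
      cur w k (fun i => φ (p i)) (fun q => φ (a q)) :=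
    funext fun l => map_cur (φ : B →+* B') p a l
  rw [h2]

theorem map_topc {w : Fin N → ℕ} {B B' : Type} [CommRing B] [CommRing B'] (φ : B →+* B')
    (p : Fin N → B) (a : Sg w 1 → B) (i : Fin N) :
    φ (topc w p a i) = topc w (fun i => φ (p i)) (fun q => φ (a q)) i := by
  unfold topc
  rw [← map_cur, Polynomial.coeff_map]

theorem map_glue {w : Fin N → ℕ} {B B' : Type} [CommRing B] [CommRing B'] (φ : B →+* B')
    (b b' : Sg w 1 → B) (ε : B) (q : Sg w 2) :
    φ (glue w b b' ε q) = glue w (fun q => φ (b q)) (fun q => φ (b' q)) (φ ε) q := by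
  unfold glue
  split_ifs with h
  · rfl
  · rw [map_mul, map_pow]

section core

variable {w : Fin N → ℕ} {L : Type} [Field L] {R : Type} [CommRing R] [Algebra (RatFunc L) R]

/-- the coefficients `b` -/
def bb (a : Sg w 2 → R) (q : Sg w 1) : R := a ⟨q.1, ⟨q.2.1, by have := q.2.2; omega⟩⟩

/-- the coefficients `b'` -/
def bb' (a : Sg w 2 → R) (q : Sg w 1) : R :=
  algebraMap (RatFunc L) R (RatFunc.X⁻¹ ^ (q.2.1 + 1)) *
    a ⟨q.1, ⟨w q.1 + q.2.1, by have := q.2.2; omega⟩⟩

theorem glue_bb (a : Sg w 2 → R) :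
    glue w (bb a) (bb' (L := L) a) (algebraMap (RatFunc L) R RatFunc.X) = a := by
  funext q
  unfold glue
  split_ifs with h
  · rfl
  · unfold bb'
    obtain ⟨i, j, hj⟩ := q
    simp only at h ⊢
    have e1 : j - w i + 1 = j + 1 - w i := by omega
    rw [← mul_assoc, ← map_pow, ← map_mul, e1, ← mul_pow, mul_inv_cancel₀ RatFunc.X_ne_zero,
      one_pow, map_one, one_mul]
    congr 3
    omega

end core

theorem core (hL : StmtLhi) (hR : StmtRan) {w : Fin N → ℕ} {d : Fin r → ℕ}
    {f : Fin r → MvPolynomial (Fin N) ℂ} (hf : ∀ k, (f k).IsWeightedHomogeneous w (d k))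
    {L : Type} [Field L] [Algebra ℂ L] (p : Fin N → L)
    {R : Type} [CommRing R] [Algebra (RatFunc L) R] [Algebra (Polynomial L) R]
    [IsScalarTower (Polynomial L) (RatFunc L) R] [Algebra L R] [Algebra ℂ R]
    [IsScalarTower ℂ L R] [IsScalarTower L (Polynomial L) R] [Module.Finite (RatFunc L) R]
    (a : Sg w 2 → R) (hgen : Algebra.adjoin (RatFunc L) (Set.range a) = ⊤)
    (hsol : ∀ l, aeval (cur w 2 (fun i => algebraMap L R (p i)) a) (f l) = 0)
    (hint : ∀ q, IsIntegral (Polynomial L)
      (algebraMap (RatFunc L) R (RatFunc.X⁻¹ ^ (q.2.1 + 1 - w q.1)) * a q))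
    (q0' q1' : Sg w 1) (c0 c1 : L) (h0 : bb a q0' = algebraMap L R c0)
    (h1 : bb' (L := L) a q1' = algebraMap L R c1)
    [Module.Finite L (MvPolynomial (Sg w 1 ⊕ Sg w 1) L ⧸ J0 w f p q0' q1' c0 c1)] :
    Module.finrank (RatFunc L) R ≤
      Module.finrank L (MvPolynomial (Sg w 1 ⊕ Sg w 1) L ⧸ J0 w f p q0' q1' c0 c1) := by
  have hT : IsScalarTower ℂ (Polynomial L) R := by
    refine IsScalarTower.of_algebraMap_eq fun x => ?_
    rw [IsScalarTower.algebraMap_apply ℂ L R, IsScalarTower.algebraMap_apply L (Polynomial L) R]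
    rfl
  have hX : algebraMap (Polynomial L) R Polynomial.X = algebraMap (RatFunc L) R RatFunc.X := by
    rw [IsScalarTower.algebraMap_apply (Polynomial L) (RatFunc L) R, RatFunc.algebraMap_X]
  set S : Subalgebra (Polynomial L) R :=
    Algebra.adjoin (Polynomial L) (Set.range (bb a) ∪ Set.range (bb' (L := L) a)) with hS
  let bS : Sg w 1 → S := fun q => ⟨bb a q, Algebra.subset_adjoin (.inl ⟨q, rfl⟩)⟩
  let bS' : Sg w 1 → S := fun q => ⟨bb' (L := L) a q, Algebra.subset_adjoin (.inr ⟨q, rfl⟩)⟩
  let ε : S := algebraMap (Polynomial L) S Polynomial.X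
  let pS : Fin N → S := fun i => algebraMap L S (p i)
  have hεR : (ε : R) = algebraMap (RatFunc L) R RatFunc.X := hX
  let v : S →ₐ[ℂ] R := S.val.restrictScalars ℂ
  have hvinj : Function.Injective v := Subtype.val_injective
  -- `ε` is not a zero divisor
  have hreg : ∀ (n : ℕ) (x : S), ε ^ n * x = 0 → x = 0 := by
    intro n x hx
    have h2 : (algebraMap (RatFunc L) R RatFunc.X) ^ n * (x : R) = 0 := by
      rw [← hεR]
      exact congrArg Subtype.val hx
    refine Subtype.ext ?_
    show (x : R) = 0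
    have h3 : algebraMap (RatFunc L) R (RatFunc.X⁻¹ ^ n) *
        ((algebraMap (RatFunc L) R RatFunc.X) ^ n * (x : R)) = x := by
      rw [← mul_assoc, ← map_pow, ← map_mul, ← mul_pow, inv_mul_cancel₀ RatFunc.X_ne_zero,
        one_pow, map_one, one_mul]
    rw [← h3, h2, mul_zero]
  -- the curve over `S`
  have hzero : ∀ l n, (aeval (cur w 2 pS (glue w bS bS' ε)) (f l)).coeff n = 0 := by
    intro l n
    apply hvinj
    rw [coeff_map_cur v, map_zero]
    have e1 : (fun q => v (glue w bS bS' ε q)) = a := by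
      rw [← glue_bb (L := L) a]
      funext q
      have := map_glue (v : S →+* R) bS bS' ε q
      refine this.trans ?_
      show glue w (bb a) (bb' (L := L) a) (ε : R) q = _
      rw [hεR]
    have e2 : (fun i => v (pS i)) = fun i => algebraMap L R (p i) := rfl
    rw [e1, e2, hsol l, Polynomial.coeff_zero]
  -- the homomorphism
  let φ : MvPolynomial (Sg w 1 ⊕ Sg w 1) L →ₐ[L] S := aeval (Sum.elim bS bS')
  let φC : MvPolynomial (Sg w 1 ⊕ Sg w 1) L →ₐ[ℂ] S := φ.restrictScalars ℂ
  have hφC : ∀ P, φC P = φ P := fun _ => rfl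
  have hφl : ∀ q, φ (X (Sum.inl q)) = bS q := fun q => by simp [φ]
  have hφr : ∀ q, φ (X (Sum.inr q)) = bS' q := fun q => by simp [φ]
  have hφc : ∀ c, φ (C c) = algebraMap L S c := fun c => by simp [φ]
  have hker : ∀ P ∈ J0 w f p q0' q1' c0 c1, ε ∣ φ P := by
    intro P hP
    have hle : J0 w f p q0' q1' c0 c1 ≤ (Ideal.span {ε}).comap φ := by
      unfold J0
      rw [Ideal.span_le]
      rintro P ((⟨s, rfl⟩ | ⟨s, rfl⟩) | hP)
      · -- first family
        show φ _ ∈ Ideal.span {ε}
        rw [Ideal.mem_span_singleton, ← hφC, coeff_map_cur φC]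
        obtain ⟨t, h2⟩ := (hL N r w d f hf S pS bS bS' ε s.1).1 s.2
        rw [hzero, zero_sub] at h2
        have e1 : (fun i => φC (C (p i))) = pS := funext fun i => hφc (p i)
        have e2 : (fun q => φC (X (Sum.inl q))) = bS := funext hφl
        rw [e1, e2]
        exact ⟨-t, by linear_combination -h2⟩
      · -- second family
        show φ _ ∈ Ideal.span {ε}
        rw [Ideal.mem_span_singleton, ← hφC, coeff_map_cur φC]
        obtain ⟨E', hE1, t, hE2⟩ := (hL N r w d f hf S pS bS bS' ε s.1).2 s.2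
        rw [hzero] at hE1
        have hE0 := hreg _ _ hE1.symm
        rw [hE0, zero_sub] at hE2
        have e1 : (fun i => φC (topc w (fun i => (C (p i) : MvPolynomial (Sg w 1 ⊕ Sg w 1) L))
            (fun q => X (Sum.inl q)) i)) = topc w pS bS := by
          funext i
          have := map_topc (φC : MvPolynomial (Sg w 1 ⊕ Sg w 1) L →+* S)
            (fun i => (C (p i) : MvPolynomial (Sg w 1 ⊕ Sg w 1) L)) (fun q => X (Sum.inl q)) i
          refine this.trans ?_
          have e3 : (fun i => φC (C (p i))) = pS := funext fun i => hφc (p i)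
          have e4 : (fun q => φC (X (Sum.inl q))) = bS := funext hφl
          show topc w (fun i => φC (C (p i))) (fun q => φC (X (Sum.inl q))) i = _
          rw [e3, e4]
        have e2 : (fun q => φC (X (Sum.inr q))) = bS' := funext hφr
        rw [e1, e2]
        exact ⟨-t, by linear_combination -hE2⟩
      · -- the two values
        show φ _ ∈ Ideal.span {ε}
        rcases hP with rfl | rfl
        · rw [map_sub, hφl, hφc]
          have : bS q0' = algebraMap L S c0 := Subtype.ext h0
          rw [this, sub_self]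
          exact zero_mem _
        · rw [map_sub, hφr, hφc]
          have : bS' q1' = algebraMap L S c1 := Subtype.ext h1
          rw [this, sub_self]
          exact zero_mem _
    exact Ideal.mem_span_singleton.1 (hle hP)
  -- `S` is generated modulo `ε`
  have hsurj : ∀ x ∈ S, ∃ (P : MvPolynomial (Sg w 1 ⊕ Sg w 1) L) (s' : S),
      x = (φ P + ε * s' : S) := by
    intro x hx
    induction hx using Algebra.adjoin_induction with
    | mem x hx =>
      rcases hx with ⟨q, rfl⟩ | ⟨q, rfl⟩
      · exact ⟨X (Sum.inl q), 0, by rw [hφl, mul_zero, add_zero]⟩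
      · exact ⟨X (Sum.inr q), 0, by rw [hφr, mul_zero, add_zero]⟩
    | algebraMap c =>
      refine ⟨C (c.coeff 0), algebraMap _ S c.divX, ?_⟩
      rw [hφc]
      have h2 : algebraMap (Polynomial L) S c =
          algebraMap L S (c.coeff 0) + ε * algebraMap _ S c.divX := by
        conv_lhs => rw [← Polynomial.X_mul_divX_add c]
        rw [map_add, map_mul, add_comm]
        congr 1
        exact Subtype.ext (IsScalarTower.algebraMap_apply L (Polynomial L) R (c.coeff 0)).symm
      exact congrArg Subtype.val h2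
    | add x y _ _ hx hy =>
      obtain ⟨P, s, hx⟩ := hx
      obtain ⟨P', s', hy⟩ := hy
      refine ⟨P + P', s + s', ?_⟩
      rw [hx, hy, ← Subalgebra.coe_add, map_add]
      congr 1
      ring
    | mul x y _ _ hx hy =>
      obtain ⟨P, s, hx⟩ := hx
      obtain ⟨P', s', hy⟩ := hy
      refine ⟨P * P', φ P * s' + s * φ P' + s * (ε * s'), ?_⟩
      rw [hx, hy, ← Subalgebra.coe_mul, map_mul]
      congr 1
      ring
  -- finiteness
  have hfg : (Subalgebra.toSubmodule S).FG := by
    refine fg_adjoin_of_finite ((Set.finite_range _).union (Set.finite_range _)) ?_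
    rintro x (⟨q, rfl⟩ | ⟨q, rfl⟩)
    · have h2 := hint ⟨q.1, ⟨q.2.1, by have := q.2.2; omega⟩⟩
      have e : q.2.1 + 1 - w q.1 = 0 := by have := q.2.2; omega
      simp only [e, pow_zero, map_one, one_mul] at h2
      exact h2
    · have h2 := hint ⟨q.1, ⟨w q.1 + q.2.1, by have := q.2.2; omega⟩⟩
      have e : w q.1 + q.2.1 + 1 - w q.1 = q.2.1 + 1 := by omega
      simp only [e] at h2
      exact h2
  -- span
  have hspan : Submodule.span (RatFunc L) ((Subalgebra.toSubmodule S : Submodule _ R) : Set R) =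
      ⊤ := by
    set W := Submodule.span (RatFunc L) ((Subalgebra.toSubmodule S : Submodule _ R) : Set R)
    have hmul : ∀ x ∈ W, ∀ s ∈ S, x * s ∈ W := by
      intro x hx s hs
      induction hx using Submodule.span_induction with
      | mem x hx => exact Submodule.subset_span (S.mul_mem hx hs)
      | zero => rw [zero_mul]; exact W.zero_mem
      | add x y _ _ hx hy => rw [add_mul]; exact W.add_mem hx hy
      | smul c x _ hx => rw [smul_mul_assoc]; exact W.smul_mem c hx
    have haS : ∀ q, a q ∈ S := by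
      intro q
      have h2 : glue w (bb a) (bb' (L := L) a) (algebraMap (RatFunc L) R RatFunc.X) q ∈ S := by
        unfold glue
        split_ifs
        · exact (bS _).2
        · refine S.mul_mem (S.pow_mem ?_ _) (bS' _).2
          rw [← hX]
          exact S.algebraMap_mem _
      rw [glue_bb] at h2
      exact h2
    rw [eq_top_iff]
    intro x _
    have hx : x ∈ Algebra.adjoin (RatFunc L) (Set.range a) := hgen ▸ Algebra.mem_top
    have hcl : ∀ y ∈ Algebra.adjoin (RatFunc L) (Set.range a), ∀ z ∈ W, z * y ∈ W := by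
      intro y hy
      induction hy using Algebra.adjoin_induction with
      | mem y hy =>
        obtain ⟨q, rfl⟩ := hy
        exact fun z hz => hmul z hz _ (haS q)
      | algebraMap c =>
        intro z hz
        rw [mul_comm, ← Algebra.smul_def]
        exact W.smul_mem c hz
      | add y y' _ _ h h' =>
        intro z hz
        rw [mul_add]
        exact W.add_mem (h z hz) (h' z hz)
      | mul y y' _ _ h h' =>
        intro z hz
        rw [← mul_assoc]
        exact h' _ (h z hz)
    have h1W : (1 : R) ∈ W := Submodule.subset_span S.one_mem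
    have := hcl x hx 1 h1W
    rwa [one_mul] at this
  -- the map `Φ`
  let out : MvPolynomial (Sg w 1 ⊕ Sg w 1) L ⧸ J0 w f p q0' q1' c0 c1 →
    MvPolynomial (Sg w 1 ⊕ Sg w 1) L := Quotient.out
  have hout : ∀ c, Ideal.Quotient.mk (J0 w f p q0' q1' c0 c1) (out c) = c :=
    fun c => Quotient.out_eq c
  refine hR L R (Subalgebra.toSubmodule S) hfg hspan _ (fun c => φ (out c)) ?_ ?_ ?_
  · rintro ⟨x, hx⟩
    obtain ⟨P, s', hs⟩ := hsurj x hx
    have h2 : P - out (Ideal.Quotient.mk _ P) ∈ J0 w f p q0' q1' c0 c1 := by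
      rw [← Ideal.Quotient.eq_zero_iff_mem, map_sub, hout, sub_self]
    obtain ⟨t, ht⟩ := hker _ h2
    refine ⟨Ideal.Quotient.mk _ P, (s' + t : S), Subtype.ext ?_⟩
    show x = (φ (out (Ideal.Quotient.mk _ P)) : R) + (Polynomial.X : Polynomial L) • ((s' + t : S) : R)
    rw [hs, Algebra.smul_def]
    have h3 : φ P + ε * s' = φ (out (Ideal.Quotient.mk _ P)) + ε * (s' + t) := by
      rw [map_sub] at ht
      linear_combination ht
    rw [h3]
    rfl
  · intro c c'
    have h2 : out (c + c') - out c - out c' ∈ J0 w f p q0' q1' c0 c1 := by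
      rw [← Ideal.Quotient.eq_zero_iff_mem, map_sub, map_sub, hout, hout, hout]
      ring
    obtain ⟨t, ht⟩ := hker _ h2
    refine ⟨t, ?_⟩
    have h3 : φ (out (c + c')) = φ (out c) + φ (out c') + ε * t := by
      rw [map_sub, map_sub] at ht
      linear_combination ht
    refine Subtype.ext ?_
    show (φ (out (c + c')) : R) = _
    rw [h3]
    show _ = (φ (out c) : R) + (φ (out c') : R) + (Polynomial.X : Polynomial L) • (t : R)
    rw [Algebra.smul_def]
    rfl
  · intro x c
    have h2 : out (x • c) - C x * out c ∈ J0 w f p q0' q1' c0 c1 := by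
      rw [← Ideal.Quotient.eq_zero_iff_mem, map_sub, hout, sub_eq_zero, ← smul_eq_C_mul]
      conv_lhs => rw [← hout c]
      rfl
    obtain ⟨t, ht⟩ := hker _ h2
    refine ⟨t, ?_⟩
    have h3 : φ (out (x • c)) = algebraMap L S x * φ (out c) + ε * t := by
      rw [map_sub, map_mul, hφc] at ht
      linear_combination ht
    refine Subtype.ext ?_
    show (φ (out (x • c)) : R) = _
    rw [h3]
    show _ = (Polynomial.C x : Polynomial L) • (φ (out c) : R) +
      (Polynomial.X : Polynomial L) • (t : R)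
    rw [Algebra.smul_def, Algebra.smul_def]
    have h4 : algebraMap (Polynomial L) R (Polynomial.C x) = algebraMap L R x :=
      (IsScalarTower.algebraMap_apply L (Polynomial L) R x).symm
    rw [h4]
    rfl

end

end DegM

open DegM in
theorem stmtDeg (hS : StmtSys) (hL : StmtLhi) (hI : StmtInt) (hR : StmtRan) : StmtDeg := by
  intro N r w d f hw hf L _ _ _ p hp hfp hA q0 q1 h01 h0 h1 q0' q1' h0' h1' e0 e1 hfin hfin'
  set J := J2 w d f p q0 q1 (algebraMap L (RatFunc L) ((w q0.1 : L) * p q0.1))
    (RatFunc.X ^ w q1.1 * algebraMap L (RatFunc L) (p q1.1)) with hJ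
  have hT1 : IsScalarTower ℂ L (MvPolynomial (Sg w 2) (RatFunc L) ⧸ J) := inferInstance
  have hT2 : IsScalarTower L (Polynomial L) (MvPolynomial (Sg w 2) (RatFunc L) ⧸ J) :=
    inferInstance
  have hT3 : IsScalarTower (Polynomial L) (RatFunc L) (MvPolynomial (Sg w 2) (RatFunc L) ⧸ J) :=
    inferInstance
  set a : Sg w 2 → MvPolynomial (Sg w 2) (RatFunc L) ⧸ J := fun q => Ideal.Quotient.mk J (X q)
    with ha
  have hgen : Algebra.adjoin (RatFunc L) (Set.range a) = ⊤ := by
    rw [eq_top_iff]
    rintro x -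
    obtain ⟨P, rfl⟩ := Ideal.Quotient.mk_surjective x
    induction P using MvPolynomial.induction_on with
    | C c => exact Subalgebra.algebraMap_mem _ c
    | add P Q hP hQ => rw [map_add]; exact Subalgebra.add_mem _ hP hQ
    | mul_X P q hP =>
      rw [map_mul]
      exact Subalgebra.mul_mem _ hP (Algebra.subset_adjoin ⟨q, rfl⟩)
  have key : ∀ P : MvPolynomial (Sg w 2) L,
      aeval a P = Ideal.Quotient.mk J (map (algebraMap L (RatFunc L)) P) := by
    intro P
    induction P using MvPolynomial.induction_on with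
    | C c => rw [aeval_C, map_C]; rfl
    | add P Q hP hQ => rw [map_add, map_add, map_add, hP, hQ]
    | mul_X P q hP => rw [map_mul, map_mul, map_mul, hP, aeval_X, map_X]
  have hsol := ((hS N r w d f hf 2 L p).2.2 (MvPolynomial (Sg w 2) (RatFunc L) ⧸ J) a hfp).1
    (fun q => by
      rw [key, Ideal.Quotient.eq_zero_iff_mem]
      exact Ideal.subset_span (.inl ⟨q, rfl⟩))
  have hint : ∀ q : Sg w 2, IsIntegral (Polynomial L)
      (algebraMap (RatFunc L) (MvPolynomial (Sg w 2) (RatFunc L) ⧸ J)
        (RatFunc.X⁻¹ ^ (q.2.1 + 1 - w q.1)) * a q) := by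
    intro q
    have := hI N r w d f hw hf L p hp hfp hA q0 q1 h01 h0 h1 J hJ q
    rw [map_mul] at this
    exact this
  have hb0 : bb a q0' = algebraMap L (MvPolynomial (Sg w 2) (RatFunc L) ⧸ J)
      ((w q0.1 : L) * p q0.1) := by
    have hq : (⟨q0'.1, ⟨q0'.2.1, by have := q0'.2.2; omega⟩⟩ : Sg w 2) = q0 := by
      obtain ⟨i0, j0, hj0⟩ := q0
      obtain ⟨i0', j0', hj0'⟩ := q0'
      simp only at h0' e0 h0
      subst h0' e0 h0
      rfl
    show a _ = _
    rw [hq]
    show Ideal.Quotient.mk J (X q0) =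
      Ideal.Quotient.mk J (C (algebraMap L (RatFunc L) ((w q0.1 : L) * p q0.1)))
    rw [Ideal.Quotient.eq]
    exact Ideal.subset_span (.inr (.inl rfl))
  have hb1 : bb' (L := L) a q1' = algebraMap L (MvPolynomial (Sg w 2) (RatFunc L) ⧸ J)
      (p q0.1) := by
    have hq : (⟨q1'.1, ⟨w q1'.1 + q1'.2.1, by have := q1'.2.2; omega⟩⟩ : Sg w 2) = q1 := by
      obtain ⟨i1, j1, hj1⟩ := q1
      obtain ⟨i1', j1', hj1'⟩ := q1'
      simp only at h1' e1 h1 h01
      have h2 : i1' = i1 := h1'.trans h01
      subst h2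
      have h3 : w i1' + j1' = j1 := by rw [← h1'] at e1; omega
      subst h3
      rfl
    have hm : Ideal.Quotient.mk J (X q1) = Ideal.Quotient.mk J
        (C (RatFunc.X ^ w q1.1 * algebraMap L (RatFunc L) (p q1.1))) := by
      rw [Ideal.Quotient.eq]
      exact Ideal.subset_span (.inr (.inr rfl))
    have hw1 : q1'.2.1 + 1 = w q1.1 := by rw [e1, h01]
    show Ideal.Quotient.mk J (C (RatFunc.X⁻¹ ^ (q1'.2.1 + 1))) * Ideal.Quotient.mk J (X _) = _
    rw [hq, hm, ← map_mul, ← map_mul, hw1, ← mul_assoc, ← mul_pow,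
      inv_mul_cancel₀ RatFunc.X_ne_zero, one_pow, one_mul, h01]
    rfl
  exact core hL hR hf p a hgen hsol hint q0' q1' _ _ hb0 hb1

end Pool.Agent.PC
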