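import Pool.Agent.Lib.MP_410da7_agP.Spec3
import Pool.Agent.Lib.MP_410da7_ag.CYDiv
import Pool.Agent.Lib.MP_410da7_ag.CYGraded
import Pool.Agent.Lib.MP_410da7_ag.DMain

/-!
# Package `P`, module `DER`: vector fields along the generic curve
-/

set_option autoImplicit false

namespace Pool.Agent.PC

open MvPolynomial KaehlerDifferential WithZero Pool.Agent.Lib.MP_410da7_ag Algebra

noncomputable section

namespace DerM

/-- chain rule -/
theorem der_aeval {B : Type} [CommRing B] [Algebra ℂ B] {N : ℕ} (D : Derivation ℂ B B)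
    (y : Fin N → B) (P : MvPolynomial (Fin N) ℂ) :
    D (aeval y P) = ∑ i, aeval y (pderiv i P) * D (y i) := by
  classical
  induction P using MvPolynomial.induction_on with
  | C a =>
    rw [aeval_C, Derivation.map_algebraMap]
    simp
  | add p q hp hq =>
    rw [map_add, map_add, hp, hq, ← Finset.sum_add_distrib]
    exact Finset.sum_congr rfl fun i _ => by rw [map_add, map_add, add_mul]
  | mul_X p i hp =>
    rw [map_mul, Derivation.leibniz, hp, aeval_X, Finset.smul_sum]
    have : ∀ l, aeval y (pderiv l (p * X i)) = aeval y p * (if i = l then 1 else 0) +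
        y i * aeval y (pderiv l p) := by
      intro l
      simp only [Derivation.leibniz, smul_eq_mul, map_add, map_mul, aeval_X, pderiv_X,
        Pi.single_apply]
      split_ifs with h
      · simp
      · simp
    simp only [this, add_mul, Finset.sum_add_distrib, smul_eq_mul, mul_assoc]
    congr 1
    rw [Finset.sum_eq_single i]
    · simp
    · intro b _ hb; simp [Ne.symm hb]
    · simp

/-- the minor at a point, as a determinant -/
theorem aeval_minorP {N r n : ℕ} {B : Type} [CommRing B] [Algebra ℂ B]
    (f : Fin r → MvPolynomial (Fin N) ℂ) (σ : Fin r ⊕ Fin n ≃ Fin N) (ι : Fin n → Fin N)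
    (y : Fin N → B) : aeval y (minorP f σ ι) = Matrix.det (Matrix.of fun i j =>
      Sum.elim (fun (k : Fin r) (l : Fin N) => aeval y (pderiv l (f k)))
      (fun (i : Fin n) (l : Fin N) => if l = ι i then (1 : B) else 0) i (σ j)) := by
  rw [minorP, AlgHom.map_det]
  congr 1
  ext i j
  rw [AlgHom.mapMatrix_apply, Matrix.map_apply, Matrix.of_apply, Matrix.of_apply]
  rcases i with i | i
  · rfl
  · simp only [Sum.elim_inr]
    split_ifs
    · exact map_one _
    · exact map_zero _

/-- a derivation that vanishes on the complementary coordinates vanishes on all coordinates -/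
theorem der_zero_of_minor {N r n : ℕ} {B : Type} [CommRing B] [IsDomain B] [Algebra ℂ B]
    (f : Fin r → MvPolynomial (Fin N) ℂ) (σ : Fin r ⊕ Fin n ≃ Fin N) (ι : Fin n → Fin N)
    (y : Fin N → B) (hy : ∀ l, aeval y (f l) = 0) (hm : aeval y (minorP f σ ι) ≠ 0)
    (D : Derivation ℂ B B) (hD : ∀ j, D (y (ι j)) = 0) (i : Fin N) : D (y i) = 0 := by
  classical
  rw [aeval_minorP] at hm
  have h1 := Matrix.eq_zero_of_mulVec_eq_zero hm (v := fun j => D (y (σ j))) (by
    funext i
    rw [Matrix.mulVec, dotProduct, Pi.zero_apply]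
    rcases i with k | k
    · simp only [Matrix.of_apply, Sum.elim_inl]
      rw [Equiv.sum_comp σ (fun l => aeval y (pderiv l (f k)) * D (y l)), ← der_aeval, hy,
        map_zero]
    · simp only [Matrix.of_apply, Sum.elim_inr]
      rw [Equiv.sum_comp σ (fun l => (if l = ι k then (1 : B) else 0) * D (y l))]
      simp [hD])
  have h2 := congrFun h1 (σ.symm i)
  simpa using h2

theorem der_sum {F : Type} [Field F] [Algebra ℂ F] {q : ℕ} (c : Fin q → F)
    (δ : Fin q → Derivation ℂ F F) (z : F) : (∑ a, c a • δ a) z = ∑ a, c a * δ a z := by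
  have h1 := congrFun (map_sum (Derivation.coeFnAddMonoidHom (R := ℂ) (A := F) (M := F))
    (fun a => c a • δ a) Finset.univ) z
  rw [Finset.sum_apply] at h1
  exact h1

/-- linear combinations of derivations, acting on coefficients -/
theorem coeffDer_sum {F : Type} [Field F] [Algebra ℂ F] {q : ℕ} (c : Fin q → F)
    (δ : Fin q → Derivation ℂ F F) (g : Polynomial F) :
    coeffDer (∑ a, c a • δ a) g = ∑ a, Polynomial.C (c a) * coeffDer (δ a) g := by
  ext i
  rw [coeffDer_coeff, Polynomial.finsetSum_coeff]
  simp only [Polynomial.coeff_C_mul, coeffDer_coeff]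
  exact der_sum c δ _

/-- a derivation of `F` that vanishes on the generators is zero -/
theorem der_eq_zero {N r : ℕ} (f : Fin r → MvPolynomial (Fin N) ℂ) (K : Type) [Field K]
    [Algebra ℂ K] (x : Fin N → K) (hx : IsFunctionField f x)
    (L : Type) [Field L] [Algebra ℂ L] [Algebra K L] [IsScalarTower ℂ K L]
    [Algebra.IsAlgebraic K L] (F : Type) [Field F] [Algebra ℂ F] [Algebra L F]
    [IsScalarTower ℂ L F] {τ : Type} (b : τ → F)
    (hb : IntermediateField.adjoin L (Set.range b) = ⊤) (D : Derivation ℂ F F)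
    (h1 : ∀ i, D (algebraMap L F (algebraMap K L (x i))) = 0) (h2 : ∀ q, D (b q) = 0) (z : F) :
    D z = 0 := by
  have : CharZero F := charZero_of_injective_algebraMap (algebraMap ℂ F).injective
  -- the map `K → F`
  let φ : K →ₐ[ℂ] F := (IsScalarTower.toAlgHom ℂ L F).comp (IsScalarTower.toAlgHom ℂ K L)
  have hφ : ∀ a, φ a = algebraMap L F (algebraMap K L a) := fun a => rfl
  have hφP : ∀ P : MvPolynomial (Fin N) ℂ, D (φ (aeval x P)) = 0 := by
    intro P
    have h3 : φ (aeval x P) = aeval (fun i => φ (x i)) P := by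
      rw [← MvPolynomial.comp_aeval_apply]
    rw [h3, der_aeval]
    refine Finset.sum_eq_zero fun i _ => ?_
    rw [hφ, h1, mul_zero]
  have hK : ∀ a : K, D (φ a) = 0 := by
    intro a
    obtain ⟨P, Q, hQ, hPQ⟩ := hx.gen a
    have h3 : D (φ a * φ (aeval x Q)) = 0 := by
      rw [← map_mul, hPQ]
      exact hφP P
    rw [Derivation.leibniz, hφP Q, smul_zero, zero_add, smul_eq_mul] at h3
    refine (mul_eq_zero.1 h3).resolve_left ?_
    exact fun h4 => hQ ((map_eq_zero_iff _ φ.toRingHom.injective).1 h4)
  have hL : ∀ a : L, D (algebraMap L F a) = 0 := by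
    intro a
    have ha : IsIntegral K a := (Algebra.IsAlgebraic.isAlgebraic a).isIntegral
    refine CYGraded_der_root D (algebraMap L F a) _ ((minpoly K a).map φ.toRingHom) ?_ le_rfl ?_ ?_
    · exact ((minpoly.monic ha).map _).ne_zero
    · intro k
      rw [Polynomial.coeff_map]
      exact hK _
    · have h3 : ((minpoly K a).map φ.toRingHom) =
          ((minpoly K a).map (algebraMap K L)).map (algebraMap L F) := by
        rw [Polynomial.map_map]
        rfl
      rw [h3, Polynomial.eval_map_algebraMap, Polynomial.aeval_algebraMap_apply]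
      have h4 : Polynomial.aeval a ((minpoly K a).map (algebraMap K L)) = 0 := by
        rw [Polynomial.aeval_map_algebraMap, minpoly.aeval]
      rw [h4, map_zero]
  have hz : z ∈ IntermediateField.adjoin L (Set.range b) := by
    rw [hb]
    exact IntermediateField.mem_top
  induction hz using IntermediateField.adjoin_induction with
  | mem y hy =>
    obtain ⟨q, rfl⟩ := hy
    exact h2 q
  | algebraMap a => exact hL a
  | add y z _ _ hy hz => rw [map_add, hy, hz, add_zero]
  | inv y _ hy =>
    rw [Derivation.leibniz_inv, hy, smul_zero]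
  | mul y z _ _ hy hz => rw [Derivation.leibniz, hy, hz, smul_zero, smul_zero, add_zero]

/-- value at zero of polynomials evaluated along a curve -/
theorem eval_zero_aeval {N : ℕ} {F : Type} [Field F] [Algebra ℂ F] (γ : Fin N → Polynomial F)
    (P : MvPolynomial (Fin N) ℂ) :
    (aeval γ P).eval 0 = aeval (fun i => (γ i).eval 0) P := by
  induction P using MvPolynomial.induction_on with
  | C a =>
    rw [aeval_C, aeval_C, IsScalarTower.algebraMap_apply ℂ F (Polynomial F)]
    simp
  | add p q hp hq => rw [map_add, map_add, Polynomial.eval_add, hp, hq]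
  | mul_X p i hp => rw [map_mul, map_mul, Polynomial.eval_mul, hp, aeval_X, aeval_X]

end DerM

open DerM in
theorem stmtDer (hDim : StmtDim) (hFlg : StmtFlg) : StmtDer := by
  intro N r n w d f hQS K _ _ x hx σ ι hι L _ _ _ _ _ F _ _ _ _ k m b hb hm hγ
  classical
  obtain ⟨-, -, n', hn', htr, hΨ⟩ := hDim N r w d f hQS K x hx
  have hn : r + n = N := by
    have := Fintype.card_congr σ
    simpa using this
  obtain rfl : n' = n := by omega
  obtain ⟨Ψ, -, hres⟩ := hΨ σ
  -- independence of the differentials
  have hli : LinearIndependent K (fun i => D ℂ K (x (ι i))) := by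
    by_contra hcon
    have h1 := hres (fun i => Pi.single (ι i) 1)
    have h2 : (fun i => dmap x (Pi.single (ι i) (1 : K))) = fun i => D ℂ K (x (ι i)) := by
      funext i
      rw [dmap_single, one_smul]
    rw [h2, Ψ.map_linearDependent _ hcon] at h1
    apply hι
    rw [aeval_minorP]
    refine Eq.trans ?_ h1.symm
    congr 1
    ext i j
    rw [Matrix.of_apply, Matrix.of_apply]
    rcases i with i | i
    · rfl
    · simp only [Sum.elim_inr, Pi.single_apply]
  have hai := cydiv_algebraicIndependent _ hli
  let φ : K →ₐ[ℂ] F := (IsScalarTower.toAlgHom ℂ L F).comp (IsScalarTower.toAlgHom ℂ K L)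
  have hφ : ∀ a, φ a = algebraMap L F (algebraMap K L a) := fun a => rfl
  set p : Fin N → F := fun i => algebraMap L F (algebraMap K L (x i)) with hp
  have hpai : AlgebraicIndependent ℂ (fun i => p (ι i)) :=
    hai.map' (f := φ) φ.toRingHom.injective
  have hpinj : Function.Injective (fun i => p (ι i)) := AlgebraicIndependent.injective hpai
  obtain ⟨t, ht, htb⟩ := exists_isTranscendenceBasis_superset (R := ℂ) (A := F)
    (s := Set.range (fun i => p (ι i))) (AlgebraicIndependent.coe_range hpai)
  -- cardinality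
  have hcard : ((n' + m : ℕ) : Cardinal) ≤ Cardinal.mk t := by
    rw [htb.cardinalMk_eq_trdeg]
    have h1 : Algebra.trdeg ℂ L + Algebra.trdeg L F = Algebra.trdeg ℂ F :=
      trdeg_add_eq ℂ L
    have h2 : Algebra.trdeg ℂ K + Algebra.trdeg K L = Algebra.trdeg ℂ L :=
      trdeg_add_eq ℂ K
    have h3 : Algebra.trdeg K L = 0 := trdeg_eq_zero
    rw [← h1, ← h2, h3, htr, add_zero]
    push_cast
    gcongr
  obtain ⟨δ, hδ⟩ := exists_dual_der _ htb
  obtain ⟨T0, hT0⟩ := Cardinal.exists_finset_le_card t _ hcard
  let a0 : Fin n' → t := fun i => ⟨p (ι i), ht ⟨i, rfl⟩⟩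
  let T : Finset t := T0 ∪ Finset.univ.image a0
  have ha0 : ∀ i, a0 i ∈ T := fun i =>
    Finset.mem_union_right _ (Finset.mem_image_of_mem _ (Finset.mem_univ i))
  obtain ⟨e⟩ : Nonempty (Fin T.card ≃ T) := ⟨T.equivFin.symm⟩
  have hq : n' + m ≤ T.card := hT0.trans (Finset.card_le_card Finset.subset_union_left)
  let γ : Fin N → Polynomial F := cur w k p b
  have hγ' : ∀ l, aeval γ (f l) = 0 := hγ
  have hγ0 : ∀ i, (γ i).eval 0 = p i := fun i => curvePoly_eval_zero _ _ _ i
  let S : Fin T.card → Fin n' → Polynomial F := fun a j => coeffDer (δ (e a)) (γ (ι j))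
  have hminor : aeval γ (minorP f σ ι) ≠ 0 := by
    intro h0
    have h1 := eval_zero_aeval γ (minorP f σ ι)
    rw [h0, Polynomial.eval_zero] at h1
    have h2 : (fun i => (γ i).eval 0) = fun i => φ (x i) := funext hγ0
    rw [h2, ← MvPolynomial.comp_aeval_apply] at h1
    apply hι
    exact (map_eq_zero_iff _ φ.toRingHom.injective).1 h1.symm
  have hS : LinearIndependent F S := by
    rw [Fintype.linearIndependent_iff]
    intro g hg
    set D0 : Derivation ℂ F F := ∑ a, g a • δ (e a) with hD0
    have h1 : ∀ j, coeffDer D0 (γ (ι j)) = 0 := by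
      intro j
      rw [hD0, coeffDer_sum]
      have h2 := congrFun hg j
      rw [Finset.sum_apply, Pi.zero_apply] at h2
      rw [← h2]
      refine Finset.sum_congr rfl fun a _ => ?_
      rw [Pi.smul_apply, Polynomial.smul_eq_C_mul]
    have h2 : ∀ i, coeffDer D0 (γ i) = 0 :=
      der_zero_of_minor f σ ι γ hγ' hminor (coeffDer D0) h1
    have h3 : ∀ i, D0 (p i) = 0 := by
      intro i
      have h4 := congrArg (fun P => Polynomial.coeff P 0) (h2 i)
      rw [coeffDer_coeff, Polynomial.coeff_zero, Polynomial.coeff_zero_eq_eval_zero, hγ0] at h4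
      exact h4
    have h4 : ∀ q, D0 (b q) = 0 := by
      rintro ⟨i, j⟩
      have h5 := congrArg (fun P => Polynomial.coeff P (j.1 + 1)) (h2 i)
      rw [coeffDer_coeff, Polynomial.coeff_zero] at h5
      rw [← h5]
      congr 1
      exact (curvePoly_coeff (fun i => k * w i) p b i j).symm
    have h5 : ∀ z, D0 z = 0 := der_eq_zero f K x hx L F b hb D0 h3 h4
    intro a
    have h6 := h5 ((e a : t) : F)
    rw [hD0, der_sum, Finset.sum_eq_single a] at h6
    · rw [hδ, if_pos rfl, mul_one] at h6
      exact h6
    · intro a' _ ha'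
      rw [hδ, if_neg, mul_zero]
      intro h7
      exact ha' (e.injective (Subtype.ext h7))
    · intro h7
      exact absurd (Finset.mem_univ a) h7
  have hdet : ∃ s : Fin n' → Fin T.card, (Matrix.of fun i j => S (s i) j).det ≠ 0 := by
    refine ⟨fun i => e.symm ⟨a0 i, ha0 i⟩, fun h0 => ?_⟩
    have h1 := congrArg (Polynomial.evalRingHom (0 : F)) h0
    rw [RingHom.map_det, map_zero] at h1
    have h2 : (Polynomial.evalRingHom (0 : F)).mapMatrix
        (Matrix.of fun i j => S (e.symm ⟨a0 i, ha0 i⟩) j) = 1 := by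
      ext i j
      rw [RingHom.mapMatrix_apply, Matrix.map_apply, Matrix.of_apply, Polynomial.coe_evalRingHom,
        ← Polynomial.coeff_zero_eq_eval_zero]
      dsimp only [S]
      rw [coeffDer_coeff, Polynomial.coeff_zero_eq_eval_zero, hγ0, Equiv.apply_symm_apply]
      have h3 : p (ι j) = ((a0 j : t) : F) := rfl
      rw [h3, hδ, Matrix.one_apply]
      by_cases hij : i = j
      · subst hij
        simp
      · rw [if_neg, if_neg hij]
        intro h4
        apply hij
        apply hpinj
        exact congrArg Subtype.val h4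
    rw [h2, Matrix.det_one] at h1
    exact one_ne_zero h1
  obtain ⟨c, hc1, hc2⟩ := hFlg F n' m T.card hq S hS hdet
  have hM : (Matrix.of fun i j => coeffDer (∑ a, c j a • δ (e a)) (γ (ι i))) =
      (Matrix.of fun i j => ∑ a, Polynomial.C (c i a) * S a j).transpose := by
    ext1 i j
    rw [Matrix.transpose_apply, Matrix.of_apply, Matrix.of_apply, coeffDer_sum]
  refine ⟨fun j => ∑ a, c j a • δ (e a), ?_, ?_⟩
  · change (Matrix.of fun i j => coeffDer (∑ a, c j a • δ (e a)) (γ (ι i))).det ≠ 0
    rw [hM, Matrix.det_transpose]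
    exact hc1
  · change Polynomial.X ^ m ∣
      (Matrix.of fun i j => coeffDer (∑ a, c j a • δ (e a)) (γ (ι i))).det
    rw [hM, Matrix.det_transpose]
    exact hc2

end

end Pool.Agent.PC
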