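import Pool.Agent.Lib.MP_410da7_agP.Spec
import Pool.Agent.Lib.MP_410da7_ag.TopForm
import Pool.Agent.Lib.MP_410da7_ag.Transfer
import Pool.Agent.Lib.MP_410da7_ag.Wedge

/-!
# Module Dim: dimension and residue form
-/

set_option autoImplicit false

namespace Pool.Agent.PC

open MvPolynomial KaehlerDifferential WithZero Pool.Agent.Lib.MP_410da7_ag

namespace DimM

theorem coeff_of_mem {N r : ℕ} (f : Fin r → MvPolynomial (Fin N) ℂ)
    (h : ∀ k, ∀ e ∈ (f k).support, 2 ≤ e.degree) (g : MvPolynomial (Fin N) ℂ)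
    (hg : g ∈ Ideal.span (Set.range f)) : ∀ e : Fin N →₀ ℕ, e.degree ≤ 1 → coeff e g = 0 := by
  classical
  refine Submodule.span_induction (p := fun g _ => ∀ e : Fin N →₀ ℕ, e.degree ≤ 1 →
    coeff e g = 0) ?_ ?_ ?_ ?_ hg
  · rintro _ ⟨k, rfl⟩ e he
    by_contra hn
    have h1 := h k e (mem_support_iff.2 hn)
    omega
  · intro e _
    exact coeff_zero e
  · intro a b _ _ iha ihb e he
    rw [coeff_add, iha e he, ihb e he, add_zero]
  · intro a b _ ihb e he
    rw [smul_eq_mul, coeff_mul]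
    refine Finset.sum_eq_zero fun p hp => ?_
    have hp := Finset.HasAntidiagonal.mem_antidiagonal.1 hp
    have h1 : p.2.degree ≤ 1 := by
      have h2 : p.1.degree + p.2.degree = e.degree := by
        rw [← hp, map_add]
      omega
    rw [ihb p.2 h1, mul_zero]

theorem coord_ne_zero {N r : ℕ} (f : Fin r → MvPolynomial (Fin N) ℂ)
    (h : ∀ k, ∀ e ∈ (f k).support, 2 ≤ e.degree) {K : Type} [Field K] [Algebra ℂ K]
    (x : Fin N → K) (hx : IsFunctionField f x) (i : Fin N) : x i ≠ 0 := by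
  intro h0
  have h1 : aeval x (X i : MvPolynomial (Fin N) ℂ) = 0 := by rw [aeval_X, h0]
  have h2 := coeff_of_mem f h _ (hx.ker _ h1) (Finsupp.single i 1) (by
    rw [Finsupp.degree_single])
  rw [coeff_X, if_pos rfl] at h2
  exact one_ne_zero h2

theorem exists_basis {N r : ℕ} (f : Fin r → MvPolynomial (Fin N) ℂ) {K : Type} [Field K]
    [Algebra ℂ K] (x : Fin N → K) (hx : IsFunctionField f x) :
    ∃ (n : ℕ) (u : Fin n → K), IsTranscendenceBasis ℂ u ∧ Algebra.trdeg ℂ K = (n : Cardinal) := by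
  let A : Subalgebra ℂ K := (aeval (R := ℂ) x).range
  have hloc : IsFractionRing A K := by
    refine (isLocalization_iff (M := nonZeroDivisors A) (S := K)).2 ⟨?_, ?_, ?_⟩
    · intro y
      have : (algebraMap A K (y : A)) ≠ 0 := by
        intro h
        have h0 : (y : A) = 0 := Subtype.ext h
        exact nonZeroDivisors.ne_zero y.2 h0
      exact IsUnit.mk0 _ this
    · intro a
      obtain ⟨P, Q, hQ, h⟩ := hx.gen a
      refine ⟨(⟨aeval x P, ⟨P, rfl⟩⟩, ⟨⟨aeval x Q, ⟨Q, rfl⟩⟩, ?_⟩), ?_⟩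
      · rw [mem_nonZeroDivisors_iff_ne_zero]
        intro h0
        exact hQ (congrArg Subtype.val h0)
      · exact h
    · intro a b h
      have : a = b := Subtype.ext h
      exact ⟨1, by rw [this]⟩
  have hft : Algebra.FiniteType ℂ A := by
    refine Algebra.FiniteType.of_surjective (A := MvPolynomial (Fin N) ℂ)
      (aeval (R := ℂ) x).rangeRestrict (AlgHom.rangeRestrict_surjective _)
  have hfin : Algebra.trdeg ℂ A < Cardinal.aleph0 := trdeg_lt_aleph0_of_finiteType
  obtain ⟨n, hn⟩ := Cardinal.lt_aleph0.1 hfin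
  obtain ⟨u, hu⟩ := exists_basis_fin hn K
  refine ⟨n, u, hu, ?_⟩
  have h1 := hu.cardinalMk_eq_trdeg
  rw [← h1]
  simp

end DimM

theorem stmtDim : StmtDim := by
  intro N r w d f hq K _ _ x hx
  have hx0 : ∀ i, x i ≠ 0 := DimM.coord_ne_zero f hq.noLinear x hx
  have hN : 0 < N := by
    have := hq.two_le
    omega
  have H4 : LinearIndependent K (fun k => grad x (f k)) := by
    refine linInd_transfer (Set.range f) (X ⟨0, hN⟩) (fun k l => pderiv l (f k)) ?_ x ?_ ?_
    · intro u hu hB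
      refine hq.smooth u ?_ fun k => hu _ ⟨k, rfl⟩
      rintro rfl
      apply hB
      rw [eval_X]
      rfl
    · rintro _ ⟨k, rfl⟩
      exact hx.zero k
    · rw [aeval_X]
      exact hx0 _
  refine ⟨hx0, H4, ?_⟩
  obtain ⟨n, u, hu, hn⟩ := DimM.exists_basis f x hx
  have hdim : r + n = N := dim_count x f 1 u hu hx.gen
    (fun P hP => ⟨0, by rw [pow_zero, one_mul]; exact hx.ker P hP⟩) hx.zero
    (by rw [map_one]; exact one_ne_zero) H4
  refine ⟨n, hdim, hn, fun σ => ?_⟩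
  obtain ⟨η, hη, h⟩ := exists_eta x f u hu hx.gen hx.zero H4 σ
  obtain ⟨b, hb⟩ := exists_kaehlerBasis u hu
  obtain ⟨Ψ, hΨ, h'⟩ := exists_psi_of_eta b η hη
  exact ⟨Ψ, hΨ, fun ξ => h' _ _ (h ξ)⟩

end Pool.Agent.PC
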