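import Pool.Agent.Lib.MP_410da7_agP.Spec3
import Pool.Agent.Lib.MP_410da7_ag.RegCase
import Pool.Agent.Lib.MP_410da7_ag.DMain

/-!
# The Wronskian of a family of curves paired with the residue form
-/

set_option autoImplicit false

namespace Pool.Agent.PC

open MvPolynomial KaehlerDifferential WithZero Pool.Agent.Lib.MP_410da7_ag
open IsDedekindDomain (HeightOneSpectrum)

namespace EstM

/-! ### Weighted homogeneity -/

theorem aeval_scale {N n : ℕ} {w : Fin N → ℕ} {f : MvPolynomial (Fin N) ℂ}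
    (hf : f.IsWeightedHomogeneous w n) {B : Type} [CommRing B] [Algebra ℂ B] (c : B)
    (y : Fin N → B) : aeval (fun i => c ^ w i * y i) f = c ^ n * aeval y f := by
  rw [aeval_def, aeval_def, eval₂_eq', eval₂_eq', Finset.mul_sum]
  refine Finset.sum_congr rfl fun e he => ?_
  have h1 := hf (mem_support_iff.1 he)
  rw [Finsupp.weight_apply, Finsupp.sum_fintype _ _ (by simp)] at h1
  have h2 : ∏ i, (c ^ w i * y i) ^ e i = c ^ n * ∏ i, y i ^ e i := by
    rw [← h1, ← Finset.prod_pow_eq_pow_sum, ← Finset.prod_mul_distrib]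
    refine Finset.prod_congr rfl fun i _ => ?_
    rw [mul_pow, ← pow_mul, smul_eq_mul, mul_comm (w i)]
  rw [h2]
  ring

theorem pderiv_scale {N n : ℕ} {w : Fin N → ℕ} {f : MvPolynomial (Fin N) ℂ}
    (hf : f.IsWeightedHomogeneous w n) {B : Type} [CommRing B] [Algebra ℂ B] (c : B)
    (y : Fin N → B) (l : Fin N) : c ^ w l * aeval (fun i => c ^ w i * y i) (pderiv l f) =
      c ^ n * aeval y (pderiv l f) := by
  by_cases hwl : w l ≤ n
  · have h1 : (pderiv l f).IsWeightedHomogeneous w (n - w l) :=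
      hf.pderiv (Nat.sub_add_cancel hwl)
    rw [aeval_scale h1, ← mul_assoc, ← pow_add, Nat.add_sub_cancel' hwl]
  · have h1 : pderiv l f = 0 := by
      apply pderiv_eq_zero_of_notMem_vars
      intro hl
      rw [mem_vars_iff_mem_support] at hl
      obtain ⟨e, he, hle⟩ := hl
      have h2 := hf (mem_support_iff.1 he)
      rw [Finsupp.weight_apply, Finsupp.sum_fintype _ _ (by simp)] at h2
      have h3 : e l • w l ≤ ∑ i, e i • w i :=
        Finset.single_le_sum (f := fun i => e i • w i) (fun i _ => Nat.zero_le _)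
          (Finset.mem_univ l)
      have h4 : 1 ≤ e l := Nat.one_le_iff_ne_zero.2 (Finsupp.mem_support_iff.1 hle)
      have h5 : w l ≤ e l • w l := by
        rw [smul_eq_mul]
        exact Nat.le_mul_of_pos_left _ h4
      omega
    rw [h1, map_zero, map_zero, mul_zero, mul_zero]

theorem minor_scale {N r n : ℕ} {w : Fin N → ℕ} {d : Fin r → ℕ}
    {f : Fin r → MvPolynomial (Fin N) ℂ} (hf : ∀ k, (f k).IsWeightedHomogeneous w (d k))
    (σ : Fin r ⊕ Fin n ≃ Fin N) (ι : Fin n → Fin N) {B : Type} [CommRing B] [Algebra ℂ B] (c : B)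
    (y : Fin N → B) : c ^ (∑ l, w l) * aeval (fun i => c ^ w i * y i) (minorP f σ ι) =
      c ^ (∑ k, d k + ∑ i, w (ι i)) * aeval y (minorP f σ ι) := by
  classical
  have hdet : ∀ z : Fin N → B, aeval z (minorP f σ ι) =
      Matrix.det (Matrix.of fun i j => Sum.elim
        (fun (k : Fin r) (l : Fin N) => aeval z (pderiv l (f k)))
        (fun (i : Fin n) (l : Fin N) => if l = ι i then (1 : B) else 0) i (σ j)) := by
    intro z
    rw [minorP, ← AlgHom.coe_toRingHom, RingHom.map_det]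
    congr 1
    ext i j
    simp only [RingHom.mapMatrix_apply, Matrix.map_apply, Matrix.of_apply]
    rcases i with k | i
    · rfl
    · simp only [Sum.elim_inr]
      split_ifs <;> simp
  rw [hdet, hdet]
  have h1 : (∏ j, c ^ w (σ j)) = c ^ (∑ l, w l) := by
    rw [Finset.prod_pow_eq_pow_sum]
    congr 1
    exact Fintype.sum_equiv σ _ _ fun j => rfl
  have h2 : (∏ i, Sum.elim (fun k => c ^ d k) (fun i => c ^ w (ι i)) i) =
      c ^ (∑ k, d k + ∑ i, w (ι i)) := by
    rw [Fintype.prod_sum_type, pow_add]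
    simp only [Sum.elim_inl, Sum.elim_inr, Finset.prod_pow_eq_pow_sum]
  rw [← h1, ← h2, ← Matrix.det_mul_row, ← Matrix.det_mul_column]
  congr 1
  ext i j
  simp only [Matrix.of_apply]
  rcases i with k | i
  · simp only [Sum.elim_inl]
    exact pderiv_scale (hf k) c y (σ j)
  · simp only [Sum.elim_inr]
    by_cases hl : σ j = ι i
    · rw [if_pos hl, hl]
    · rw [if_neg hl, mul_zero, mul_zero]

/-! ### The proportionality factor -/

section factor

variable {N r n : ℕ} {K : Type} [Field K] [Algebra ℂ K]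

theorem residue_minor (f : Fin r → MvPolynomial (Fin N) ℂ) (x : Fin N → K)
    (σ : Fin r ⊕ Fin n ≃ Fin N) (Ψ : Ω[K⁄ℂ] [⋀^Fin n]→ₗ[K] K) (hΨ : IsResidueForm f x σ Ψ)
    (ι : Fin n → Fin N) : Ψ (fun i => D ℂ K (x (ι i))) = aeval x (minorP f σ ι) := by
  classical
  have h0 : (fun i => D ℂ K (x (ι i))) = fun i => dmap x (Pi.single (ι i) 1) := by
    funext i
    rw [dmap_single, one_smul]
  rw [h0]
  refine (hΨ _).trans ?_
  rw [minorP, ← AlgHom.coe_toRingHom, RingHom.map_det]
  congr 1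
  ext i j
  simp only [RingHom.mapMatrix_apply, Matrix.map_apply, Matrix.of_apply]
  rcases i with k | i
  · simp [grad]
  · simp only [Sum.elim_inr]
    by_cases hl : σ j = ι i
    · rw [hl]
      simp
    · simp [hl]

theorem exists_factor {w : Fin N → ℕ} {d : Fin r → ℕ} {f : Fin r → MvPolynomial (Fin N) ℂ}
    (hq : QuasiSmooth w d f) (x : Fin N → K) (hx : ∀ k, aeval x (f k) = 0)
    (hAT : AlmostTerminal w f x) (σ : Fin r ⊕ Fin n ≃ Fin N) (Ψ : Ω[K⁄ℂ] [⋀^Fin n]→ₗ[K] K)
    (hΨ0 : Ψ ≠ 0) (hΨ : IsResidueForm f x σ Ψ) (b : Module.Basis (Fin n) K Ω[K⁄ℂ])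
    {M : Type} [Field M] [Algebra ℂ M] (Φ : K →ₐ[ℂ] M) (Δ : Fin n → Derivation ℂ M M) :
    ∃ P0 : M, (∀ ι : Fin n → Fin N, (Matrix.of fun i j => Δ j (Φ (x (ι i)))).det =
        Φ (aeval x (minorP f σ ι)) * P0) ∧
      ∀ v : Valuation M ℤᵐ⁰, (∀ c : ℂ, c ≠ 0 → v (algebraMap ℂ M c) = 1) →
        (∀ j z, v z ≤ 1 → v (Δ j z) ≤ 1) → (∀ i, v (Φ (x i)) ≤ 1) →
        v P0 ≤ 1 ∧ ((∀ i, v (Φ (x i)) < 1) →
          (∃ i j, v (Φ (x i)) ^ w j ≠ v (Φ (x j)) ^ w i) → v P0 < 1) := by
  classical
  let _ : Algebra K M := Φ.toRingHom.toAlgebra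
  have tow : IsScalarTower ℂ K M := IsScalarTower.of_algebraMap_eq' Φ.comp_algebraMap.symm
  have halg : ∀ a : K, algebraMap K M a = Φ a := fun a => rfl
  obtain ⟨η, -, hη⟩ := exists_eta_of_psi b Ψ hΨ0
  set P0 : M := exteriorPower.alternatingMapLinearEquiv (detForm K Δ) η with hP0
  have key : ∀ θ : Fin n → Ω[K⁄ℂ], detForm K Δ θ = Φ (Ψ θ) * P0 := by
    intro θ
    rw [← exteriorPower.alternatingMapLinearEquiv_apply_ιMulti, hη, map_smul, Algebra.smul_def,
      halg]
  refine ⟨P0, ?_, ?_⟩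
  · intro ι
    rw [← residue_minor f x σ Ψ hΨ ι, ← key, detForm_apply]
    congr 1
    ext i j
    rw [Matrix.of_apply, Matrix.of_apply, pull_D, halg]
  · intro v hv hvΔ hvx
    have hv' : ∀ c : ℂ, c ≠ 0 → (v.comap (algebraMap K M)) (algebraMap ℂ K c) = 1 := by
      intro c hc
      rw [Valuation.comap_apply, ← IsScalarTower.algebraMap_apply]
      exact hv c hc
    have est : ∀ θ : Fin n → Ω[K⁄ℂ], (∀ i, θ i ∈ regDiff (v.comap (algebraMap K M))) →
        v (Φ (Ψ θ)) * v P0 ≤ 1 := by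
      intro θ hθ
      rw [← map_mul, ← key, detForm_apply]
      exact det_le_one _ _ fun i j => pull_reg v (Δ j) (hvΔ j) (θ i) (hθ i)
    by_cases hlt : ∀ i, v (Φ (x i)) < 1
    · obtain ⟨θ, hθ, h1, h2⟩ := hAT n σ Ψ hΨ (v.comap (algebraMap K M)) hv' hlt
      have h3 := est θ hθ
      have h1' : 1 ≤ v (Φ (Ψ θ)) := h1
      refine ⟨?_, fun _ hne => ?_⟩
      · calc v P0 = 1 * v P0 := (one_mul _).symm
          _ ≤ v (Φ (Ψ θ)) * v P0 := mul_le_mul_left h1' _
          _ ≤ 1 := h3
      · have h2' : 1 < v (Φ (Ψ θ)) := h2 hne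
        by_contra hge
        rw [not_lt] at hge
        have h4 : v (Φ (Ψ θ)) ≤ v (Φ (Ψ θ)) * v P0 := by
          calc v (Φ (Ψ θ)) = v (Φ (Ψ θ)) * 1 := (mul_one _).symm
            _ ≤ _ := mul_le_mul_right hge _
        exact absurd (h4.trans h3) (not_le.2 h2')
    · refine ⟨?_, fun h => absurd h hlt⟩
      push Not at hlt
      obtain ⟨l, hl⟩ := hlt
      have hvl : v (Φ (x l)) = 1 := le_antisymm (hvx l) hl
      obtain ⟨ξ, hξ, hdet⟩ := reg_case (s := 1) (v.comap (algebraMap K M)) hv' x f (fun _ => X l)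
        (by
          intro u hu huj
          refine hq.smooth u ?_ hu
          rintro rfl
          exact huj 0 (by simp)) hvx (by
          intro _
          rw [aeval_X]
          exact hvl) hx σ
      have h3 := est _ hξ
      rw [hΨ ξ] at h3
      have hdet' : v (Φ (Matrix.det (Matrix.of fun i j =>
          Sum.elim (fun k => grad x (f k)) ξ i (σ j)))) = 1 := hdet
      rw [hdet', one_mul] at h3
      exact h3

/-- A nonzero residue form has a nonzero minor. -/
theorem exists_minor (f : Fin r → MvPolynomial (Fin N) ℂ) (x : Fin N → K)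
    (hgen : ∀ a : K, ∃ P Q : MvPolynomial (Fin N) ℂ, aeval x Q ≠ 0 ∧ a * aeval x Q = aeval x P)
    (σ : Fin r ⊕ Fin n ≃ Fin N) (Ψ : Ω[K⁄ℂ] [⋀^Fin n]→ₗ[K] K) (hΨ0 : Ψ ≠ 0)
    (hΨ : IsResidueForm f x σ Ψ) : ∃ ι : Fin n → Fin N, aeval x (minorP f σ ι) ≠ 0 := by
  classical
  by_contra hn
  push Not at hn
  apply hΨ0
  have h1 : (Ψ.compLinearMap (dmap x)).toMultilinearMap = 0 := by
    refine Module.Basis.ext_multilinear (fun _ => Pi.basisFun K (Fin N)) fun ι => ?_
    rw [zero_apply]
    have h2 := residue_minor f x σ Ψ hΨ ι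
    rw [hn ι] at h2
    rw [← h2]
    change Ψ (fun i => dmap x (Pi.basisFun K (Fin N) (ι i))) = _
    congr 1
    funext i
    rw [Pi.basisFun_apply, dmap_single, one_smul]
  ext θ
  choose ξ hξ using fun i => dmap_surjective x hgen (θ i)
  have h2 := congrArg (fun m : MultilinearMap K (fun _ : Fin n => Fin N → K) K => m ξ) h1
  have h3 : (fun i => dmap x (ξ i)) = θ := funext hξ
  rw [← h3]
  exact h2

end factor

/-! ### Homomorphisms from the function field -/

theorem exists_hom {N r : ℕ} {f : Fin r → MvPolynomial (Fin N) ℂ} {K : Type} [Field K]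
    [Algebra ℂ K] {x : Fin N → K} (hx : IsFunctionField f x) {M : Type} [Field M] [Algebra ℂ M]
    (y : Fin N → M) (hy : ∀ l, aeval y (f l) = 0)
    (hinj : ∀ Q : MvPolynomial (Fin N) ℂ, aeval y Q = 0 → aeval x Q = 0) :
    ∃ Φ : K →ₐ[ℂ] M, ∀ Q : MvPolynomial (Fin N) ℂ, Φ (aeval x Q) = aeval y Q := by
  let ax : MvPolynomial (Fin N) ℂ →ₐ[ℂ] K := aeval x
  let I : Ideal (MvPolynomial (Fin N) ℂ) := RingHom.ker ax
  have hI : I.IsPrime := RingHom.ker_isPrime _
  let R : Type := MvPolynomial (Fin N) ℂ ⧸ I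
  let ι : R →ₐ[ℂ] K := Ideal.kerLiftAlg ax
  have hι : Function.Injective ι := Ideal.kerLiftAlg_injective ax
  have hιmk : ∀ P, ι (Ideal.Quotient.mk I P) = aeval x P := fun P => rfl
  let _ : Algebra R K := ι.toRingHom.toAlgebra
  have hRK : ∀ a : R, algebraMap R K a = ι a := fun a => rfl
  have tow : IsScalarTower ℂ R K := IsScalarTower.of_algebraMap_eq' ι.comp_algebraMap.symm
  have hfaith : FaithfulSMul R K := (faithfulSMul_iff_algebraMap_injective _ _).2 hι
  have hfrac : IsFractionRing R K := by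
    apply IsFractionRing.of_field
    intro z
    obtain ⟨P, Q, hQ, h⟩ := hx.gen z
    exact ⟨Ideal.Quotient.mk I P, Ideal.Quotient.mk I Q, by
      rw [hRK, hRK, hιmk, hιmk, eq_div_iff hQ, h]⟩
  have hker : ∀ P ∈ I, aeval y P = 0 := by
    intro P hP
    have h1 : P ∈ Ideal.span (Set.range f) := hx.ker P hP
    have h2 : Ideal.span (Set.range f) ≤
        RingHom.ker (aeval y : MvPolynomial (Fin N) ℂ →ₐ[ℂ] M) := by
      rw [Ideal.span_le]
      rintro _ ⟨k, rfl⟩
      exact hy k
    exact h2 h1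
  let g : R →ₐ[ℂ] M := Ideal.Quotient.liftₐ I (aeval y) hker
  have hgmk : ∀ P, g (Ideal.Quotient.mk I P) = aeval y P := fun P => rfl
  have hg : Function.Injective g.toRingHom := by
    rw [injective_iff_map_eq_zero]
    intro a ha
    obtain ⟨P, rfl⟩ := Ideal.Quotient.mk_surjective a
    exact Ideal.Quotient.eq_zero_iff_mem.2 (hinj P ha)
  let Φ : K →+* M := IsFractionRing.lift hg
  have hΦ : ∀ a : R, Φ (algebraMap R K a) = g a := fun a => IsFractionRing.lift_algebraMap hg a
  refine ⟨{ Φ with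
    commutes' := fun z => by
      change Φ (algebraMap ℂ K z) = _
      rw [IsScalarTower.algebraMap_apply ℂ R K, hΦ, AlgHom.commutes] }, fun Q => ?_⟩
  exact (hΦ (Ideal.Quotient.mk I Q)).trans (hgmk Q)

/-! ### The scaled curve -/

/-- the polynomial `Q(s^w a)` in `s` -/
noncomputable def scl {N : ℕ} (w : Fin N → ℕ) {A : Type} [CommRing A] [Algebra ℂ A] (a : Fin N → A)
    (Q : MvPolynomial (Fin N) ℂ) : Polynomial A :=
  aeval (fun i => Polynomial.C (a i) * Polynomial.X ^ w i) Q

theorem scl_map {N : ℕ} (w : Fin N → ℕ) {A B : Type} [CommRing A] [Algebra ℂ A] [CommRing B]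
    [Algebra ℂ B] (g : A →ₐ[ℂ] B) (a : Fin N → A) (Q : MvPolynomial (Fin N) ℂ) :
    (scl w a Q).map g.toRingHom = scl w (fun i => g (a i)) Q := by
  have h1 : (Polynomial.mapAlgHom g).comp
      (aeval (fun i => Polynomial.C (a i) * Polynomial.X ^ w i) :
        MvPolynomial (Fin N) ℂ →ₐ[ℂ] Polynomial A) =
      aeval (fun i => Polynomial.C (g (a i)) * Polynomial.X ^ w i) := by
    ext i : 1
    simp
  exact congrArg (fun h : MvPolynomial (Fin N) ℂ →ₐ[ℂ] Polynomial B => h Q) h1

theorem scl_eval {N : ℕ} (w : Fin N → ℕ) {A : Type} [CommRing A] [Algebra ℂ A] (c : A)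
    (a : Fin N → A) (Q : MvPolynomial (Fin N) ℂ) :
    (scl w a Q).eval c = aeval (fun i => c ^ w i * a i) Q := by
  have h1 : ((Polynomial.aeval c).restrictScalars ℂ).comp
      (aeval (fun i => Polynomial.C (a i) * Polynomial.X ^ w i) :
        MvPolynomial (Fin N) ℂ →ₐ[ℂ] Polynomial A) =
      aeval (fun i => c ^ w i * a i) := by
    ext i : 1
    simp only [AlgHom.comp_apply, aeval_X, AlgHom.restrictScalars_apply,
      Polynomial.coe_aeval_eq_eval, Polynomial.eval_mul, Polynomial.eval_C, Polynomial.eval_pow,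
      Polynomial.eval_X]
    ring
  have h2 := congrArg (fun h : MvPolynomial (Fin N) ℂ →ₐ[ℂ] A => h Q) h1
  simp only [AlgHom.comp_apply, AlgHom.restrictScalars_apply,
    Polynomial.coe_aeval_eq_eval] at h2
  exact h2

theorem inj_scaled {N : ℕ} {w : Fin N → ℕ} {K : Type} [Field K] [Algebra ℂ K] {x : Fin N → K}
    {F : Type} [Field F] [Algebra ℂ F] (k : ℕ) (γ : Fin N → Polynomial F)
    (Φ : K →ₐ[ℂ] RatFunc F)
    (hΦ : ∀ i, Φ (x i) = algebraMap (Polynomial F) (RatFunc F) (γ i)) (φ : K →ₐ[ℂ] F)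
    (hφ : ∀ i, (γ i).eval 0 = φ (x i)) (Q : MvPolynomial (Fin N) ℂ)
    (hQ : aeval (fun i => (algebraMap (Polynomial F) (RatFunc F) (Polynomial.X ^ k))⁻¹ ^ w i *
      algebraMap (Polynomial F) (RatFunc F) (γ i)) Q = 0) : aeval x Q = 0 := by
  classical
  have hΦinj : Function.Injective Φ := Φ.toRingHom.injective
  have hφinj : Function.Injective φ := φ.toRingHom.injective
  have halginj : Function.Injective (algebraMap (Polynomial F) (RatFunc F)) :=
    IsFractionRing.injective _ _
  rcases Nat.eq_zero_or_pos k with hk | hk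
  · subst hk
    simp only [pow_zero, map_one, inv_one, one_pow, one_mul] at hQ
    simp only [← hΦ] at hQ
    rw [← MvPolynomial.comp_aeval_apply] at hQ
    exact (map_eq_zero_iff Φ hΦinj).1 hQ
  set alg : Polynomial F →ₐ[ℂ] RatFunc F :=
    IsScalarTower.toAlgHom ℂ (Polynomial F) (RatFunc F) with halg
  have halg' : ∀ g, alg g = algebraMap (Polynomial F) (RatFunc F) g := fun g => rfl
  let ev : Polynomial F →ₐ[ℂ] F := (Polynomial.aeval (0 : F)).restrictScalars ℂ
  have hev : ∀ g, ev g = g.eval 0 := fun g => by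
    simp only [ev, AlgHom.restrictScalars_apply, Polynomial.coe_aeval_eq_eval]
  set G : Polynomial K := scl w x Q with hG
  set H : Polynomial (Polynomial F) := scl w γ Q with hH
  have h1 : G.map Φ.toRingHom = H.map alg.toRingHom := by
    rw [hG, hH, scl_map, scl_map]
    congr 1
    funext i
    rw [hΦ, halg']
  have h2 : G.map φ.toRingHom = H.map ev.toRingHom := by
    rw [hG, hH, scl_map, scl_map]
    congr 1
    funext i
    rw [hev, hφ]
  have hu0 : algebraMap (Polynomial F) (RatFunc F) (Polynomial.X ^ k) ≠ 0 := by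
    rw [Ne, map_eq_zero_iff _ halginj]
    exact pow_ne_zero _ Polynomial.X_ne_zero
  set u : RatFunc F := algebraMap (Polynomial F) (RatFunc F) (Polynomial.X ^ k) with hu
  have h3 : Polynomial.eval₂ alg.toRingHom u⁻¹ H = 0 := by
    rw [← Polynomial.eval_map, hH, scl_map, scl_eval]
    exact hQ
  have h4 : Polynomial.eval (Polynomial.X ^ k) H.reverse = 0 := by
    let _ : Invertible u⁻¹ := ⟨u, mul_inv_cancel₀ hu0, inv_mul_cancel₀ hu0⟩
    have h5 := Polynomial.eval₂_reverse_mul_pow alg.toRingHom u⁻¹ H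
    rw [h3] at h5
    have h6 := (mul_eq_zero.1 h5).resolve_right (pow_ne_zero _ (inv_ne_zero hu0))
    have h7 : Polynomial.eval₂ alg.toRingHom (alg.toRingHom (Polynomial.X ^ k)) H.reverse = 0 := h6
    rw [Polynomial.eval₂_at_apply] at h7
    exact halginj (by rw [map_zero]; exact h7)
  have h5 : H.leadingCoeff.eval 0 = 0 := by
    have h6 := congrArg ev.toRingHom h4
    rw [← Polynomial.eval₂_id, Polynomial.hom_eval₂, map_zero, RingHom.comp_id] at h6
    have h7 : ev.toRingHom (Polynomial.X ^ k) = 0 := by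
      change ev (Polynomial.X ^ k) = 0
      rw [hev, Polynomial.eval_pow, Polynomial.eval_X, zero_pow hk.ne']
    rw [h7, Polynomial.eval₂_at_zero, Polynomial.coeff_zero_reverse] at h6
    rw [← hev]
    exact h6
  have h6 : G.coeff H.natDegree = 0 := by
    have h7 := congrArg (fun p => Polynomial.coeff p H.natDegree) h2
    simp only [Polynomial.coeff_map] at h7
    have h8 : ev.toRingHom (H.coeff H.natDegree) = 0 := by
      change ev (H.coeff H.natDegree) = 0
      rw [hev]
      exact h5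
    rw [h8] at h7
    exact hφinj (by rw [map_zero]; exact h7)
  have h7 : H = 0 := by
    rw [← Polynomial.leadingCoeff_eq_zero]
    have h8 := congrArg (fun p => Polynomial.coeff p H.natDegree) h1
    simp only [Polynomial.coeff_map] at h8
    rw [h6, map_zero] at h8
    exact halginj (by rw [map_zero]; exact h8.symm)
  have h8 : G = 0 := by
    rw [h7, Polynomial.map_zero] at h1
    exact Polynomial.map_injective Φ.toRingHom Φ.toRingHom.injective
      (by rw [h1, Polynomial.map_zero])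
  have h9 := scl_eval w 1 x Q
  rw [← hG, h8, Polynomial.eval_zero] at h9
  simpa using h9.symm

/-! ### Derivations and the curve -/

section curve

variable {F : Type} [Field F] [Algebra ℂ F]

theorem der_X_pow (δ : Derivation ℂ F F) (k : ℕ) :
    extDer (coeffDer δ) (algebraMap (Polynomial F) (RatFunc F) (Polynomial.X ^ k)) = 0 := by
  rw [extDer_algebraMap]
  have : coeffDer δ (Polynomial.X ^ k) = 0 := by
    ext n
    rw [coeffDer_coeff, Polynomial.coeff_X_pow]
    split_ifs <;> simp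
  rw [this, map_zero]

theorem der_scaled (δ : Derivation ℂ F F) (k m : ℕ) (g : Polynomial F) :
    extDer (coeffDer δ) ((algebraMap (Polynomial F) (RatFunc F) (Polynomial.X ^ k))⁻¹ ^ m *
      algebraMap (Polynomial F) (RatFunc F) g) =
    (algebraMap (Polynomial F) (RatFunc F) (Polynomial.X ^ k))⁻¹ ^ m *
      algebraMap (Polynomial F) (RatFunc F) (coeffDer δ g) := by
  rw [Derivation.leibniz, Derivation.leibniz_pow, Derivation.leibniz_inv, der_X_pow,
    extDer_algebraMap]
  simp

theorem det_poly {n N : ℕ} (γ : Fin N → Polynomial F) (D : Fin n → Derivation ℂ F F)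
    (ι : Fin n → Fin N) :
    (Matrix.of fun i j => extDer (coeffDer (D j))
      (algebraMap (Polynomial F) (RatFunc F) (γ (ι i)))).det =
    algebraMap (Polynomial F) (RatFunc F) (Matrix.of fun i j => coeffDer (D j) (γ (ι i))).det := by
  rw [RingHom.map_det]
  congr 1
  ext i j
  rw [Matrix.of_apply, extDer_algebraMap]
  rfl

theorem det_scaled {n N : ℕ} (w : Fin N → ℕ) (k : ℕ) (γ : Fin N → Polynomial F)
    (D : Fin n → Derivation ℂ F F) (ι : Fin n → Fin N) :
    (Matrix.of fun i j => extDer (coeffDer (D j))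
      ((algebraMap (Polynomial F) (RatFunc F) (Polynomial.X ^ k))⁻¹ ^ w (ι i) *
        algebraMap (Polynomial F) (RatFunc F) (γ (ι i)))).det =
    (algebraMap (Polynomial F) (RatFunc F) (Polynomial.X ^ k))⁻¹ ^ (∑ i, w (ι i)) *
      algebraMap (Polynomial F) (RatFunc F)
        (Matrix.of fun i j => coeffDer (D j) (γ (ι i))).det := by
  rw [← det_poly, ← Finset.prod_pow_eq_pow_sum, ← Matrix.det_mul_column]
  congr 1
  ext i j
  simp only [Matrix.of_apply]
  rw [der_scaled, extDer_algebraMap]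

theorem aeval_alg {N : ℕ} (γ : Fin N → Polynomial F) (Q : MvPolynomial (Fin N) ℂ) :
    aeval (fun i => algebraMap (Polynomial F) (RatFunc F) (γ i)) Q =
      algebraMap (Polynomial F) (RatFunc F) (aeval γ Q) := by
  have h := MvPolynomial.comp_aeval_apply γ (IsScalarTower.toAlgHom ℂ (Polynomial F) (RatFunc F)) Q
  exact h.symm

end curve

end EstM

open EstM Classical in
theorem stmtEst (hD : StmtDim) : StmtEst := by
  intro N r n w d f hq K _ _ x hx hAT hdw F _ _ k γ hdeg hγ φ hφ σ D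
  have hcard : r + n = N := by
    have := Fintype.card_congr σ
    simpa using this
  obtain ⟨-, -, n', hn', htr, hres⟩ := hD N r w d f hq K x hx
  obtain rfl : n' = n := by omega
  obtain ⟨Ψ, hΨ0, hΨ⟩ := hres σ
  obtain ⟨u, hu⟩ := exists_basis_fin (R := K) htr K
  obtain ⟨b, -⟩ := exists_kaehlerBasis u hu
  set alg := algebraMap (Polynomial F) (RatFunc F) with halg
  have halginj : Function.Injective alg := IsFractionRing.injective _ _
  have hφinj : Function.Injective φ := φ.toRingHom.injective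
  -- the first homomorphism
  obtain ⟨Φ, hΦ⟩ := exists_hom hx (fun i => alg (γ i)) (by
      intro l
      rw [aeval_alg, hγ, map_zero]) (by
      intro Q hQ
      rw [aeval_alg] at hQ
      have h1 : aeval γ Q = 0 := halginj (by rw [map_zero]; exact hQ)
      have h2 : aeval (fun i => (γ i).eval 0) Q = (0 : F) := by
        have h3 := MvPolynomial.comp_aeval_apply γ ((Polynomial.aeval (0 : F)).restrictScalars ℂ) Q
        rw [h1, map_zero] at h3
        simp only [AlgHom.restrictScalars_apply, Polynomial.coe_aeval_eq_eval] at h3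
        exact h3.symm
      simp only [hφ] at h2
      rw [← MvPolynomial.comp_aeval_apply] at h2
      exact (map_eq_zero_iff φ hφinj).1 h2)
  have hΦx : ∀ i, Φ (x i) = alg (γ i) := by
    intro i
    have := hΦ (X i)
    rwa [aeval_X, aeval_X] at this
  -- the second homomorphism
  set c : RatFunc F := (alg (Polynomial.X ^ k))⁻¹ with hc
  have hu0 : alg (Polynomial.X ^ k) ≠ 0 := by
    rw [Ne, map_eq_zero_iff _ halginj]
    exact pow_ne_zero _ Polynomial.X_ne_zero
  have hc0 : c ≠ 0 := inv_ne_zero hu0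
  obtain ⟨Φ', hΦ'⟩ := exists_hom hx (fun i => c ^ w i * alg (γ i)) (by
      intro l
      rw [aeval_scale (hq.homog l), aeval_alg, hγ, map_zero, mul_zero])
      (inj_scaled k γ Φ hΦx φ hφ)
  have hΦx' : ∀ i, Φ' (x i) = c ^ w i * alg (γ i) := by
    intro i
    have := hΦ' (X i)
    rwa [aeval_X, aeval_X] at this
  -- the factors
  let Δ : Fin n' → Derivation ℂ (RatFunc F) (RatFunc F) := fun j => extDer (coeffDer (D j))
  obtain ⟨P0, h1, h2⟩ := exists_factor hq x hx.zero hAT σ Ψ hΨ0 hΨ b Φ Δ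
  obtain ⟨P1, h3, h4⟩ := exists_factor hq x hx.zero hAT σ Ψ hΨ0 hΨ b Φ' Δ
  have hfin : ∀ 𝔭 : HeightOneSpectrum (Polynomial F),
      (∀ c : ℂ, c ≠ 0 → 𝔭.valuation (RatFunc F) (algebraMap ℂ (RatFunc F) c) = 1) ∧
      (∀ j z, 𝔭.valuation (RatFunc F) z ≤ 1 → 𝔭.valuation (RatFunc F) (Δ j z) ≤ 1) ∧
      (∀ i, 𝔭.valuation (RatFunc F) (Φ (x i)) ≤ 1) := by
    intro 𝔭
    refine ⟨?_, fun j z hz => extDer_valuation_le _ 𝔭 z hz, ?_⟩
    · intro c hc
      rw [IsScalarTower.algebraMap_apply ℂ (Polynomial F) (RatFunc F),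
        𝔭.valuation_eq_one_iff_notMem]
      intro hmem
      apply 𝔭.isPrime.ne_top
      refine Ideal.eq_top_of_isUnit_mem _ hmem ?_
      exact (IsUnit.mk0 c hc).map (algebraMap ℂ (Polynomial F))
    · intro i
      rw [hΦx]
      exact 𝔭.valuation_le_one _
  obtain ⟨P, hP⟩ := HeightOneSpectrum.mem_integers_of_valuation_le_one (RatFunc F) P0
    (fun 𝔭 => (h2 _ (hfin 𝔭).1 (hfin 𝔭).2.1 (hfin 𝔭).2.2).1)
  have hW : ∀ ι : Fin n' → Fin N, (Matrix.of fun i j => coeffDer (D j) (γ (ι i))).det =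
      P * aeval γ (minorP f σ ι) := by
    intro ι
    apply halginj
    rw [halg, ← det_poly, map_mul, hP, ← aeval_alg, mul_comm]
    have h5 := h1 ι
    simp only [hΦx, hΦ, Δ] at h5
    exact h5
  refine ⟨P, hW, ?_, ?_⟩
  · -- the degree
    obtain ⟨ι, hι⟩ := exists_minor f x hx.gen σ Ψ hΨ0 hΨ
    have hm : alg (aeval γ (minorP f σ ι)) ≠ 0 := by
      rw [halg, ← aeval_alg, ← hΦ]
      exact fun h => hι ((map_eq_zero_iff Φ Φ.toRingHom.injective).1 h)
    have h5 := h3 ι
    simp only [hΦx', hΦ', Δ] at h5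
    have h6 := minor_scale hq.homog σ ι c (fun i => alg (γ i))
    rw [aeval_alg γ] at h6
    rw [det_scaled w k γ D ι, hW ι, map_mul] at h5
    obtain ⟨S, hS⟩ := Nat.exists_eq_add_of_le hdw
    have h7 : c ^ S * alg P = P1 := by
      have h8 : c ^ (∑ k, d k + ∑ i, w (ι i)) * alg (aeval γ (minorP f σ ι)) *
          (c ^ S * alg P) = c ^ (∑ k, d k + ∑ i, w (ι i)) * alg (aeval γ (minorP f σ ι)) * P1 := by
        calc _ = c ^ (∑ l, w l) * (c ^ (∑ i, w (ι i)) *
              (alg P * alg (aeval γ (minorP f σ ι)))) := by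
              rw [hS, pow_add, pow_add]
              ring
          _ = c ^ (∑ l, w l) * (aeval (fun i => c ^ w i * alg (γ i)) (minorP f σ ι) * P1) := by
              rw [← h5]
          _ = _ := by rw [← mul_assoc, h6]
      exact mul_left_cancel₀ (mul_ne_zero (pow_ne_zero _ hc0) hm) h8
    set v := RatFunc.inftyValuation F with hv
    have hvX : v (alg (Polynomial.X ^ k)) = exp (k : ℤ) := by
      rw [map_pow, halg, RatFunc.algebraMap_X, map_pow, RatFunc.inftyValuation.X,
        ← exp_nsmul, nsmul_eq_mul, mul_one]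
    have hpoly : ∀ g : Polynomial F, g ≠ 0 → v (alg g) = exp (g.natDegree : ℤ) := by
      intro g hg
      rw [hv, RatFunc.inftyValuation_apply, halg, RatFunc.inftyValuation.polynomial _ hg]
    have hvc : v c = (exp (k : ℤ))⁻¹ := by
      rw [hc, map_inv₀, hvX]
    have hP1 : v P1 ≤ 1 := by
      refine (h4 v ?_ ?_ ?_).1
      · intro z hz
        rw [IsScalarTower.algebraMap_apply ℂ F (RatFunc F)]
        exact RatFunc.inftyValuation.C F (by simpa using hz)
      · intro j z hz
        exact (extDer_infty_le _ (coeffDer_natDegree (D j)) z).trans hz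
      · intro i
        rw [hΦx', map_mul, map_pow, hvc]
        by_cases hg : γ i = 0
        · rw [hg, map_zero, map_zero, mul_zero]
          exact zero_le
        · rw [hpoly _ hg, inv_pow, ← exp_nsmul, ← exp_neg, ← exp_add, ← exp_zero, exp_le_exp]
          have := hdeg i
          rw [nsmul_eq_mul]
          have h9 : ((γ i).natDegree : ℤ) ≤ (w i : ℤ) * (k : ℤ) := by
            rw [mul_comm]
            exact_mod_cast this
          linarith
    by_cases hP0 : P = 0
    · rw [hP0, Polynomial.natDegree_zero, zero_add]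
      exact Nat.mul_le_mul_left _ hdw
    · rw [← h7, map_mul, map_pow, hvc, hpoly P hP0, inv_pow, ← exp_nsmul, ← exp_neg, ← exp_add,
        ← exp_zero, exp_le_exp, nsmul_eq_mul] at hP1
      have h9 : (P.natDegree : ℤ) ≤ (S : ℤ) * (k : ℤ) := by linarith
      have h10 : P.natDegree ≤ S * k := by exact_mod_cast h9
      rw [hS, mul_add]
      have : S * k = k * S := mul_comm _ _
      omega
  · intro 𝔭 hlt hne
    have h5 := (h2 _ (hfin 𝔭).1 (hfin 𝔭).2.1 (hfin 𝔭).2.2).2
    simp only [hΦx] at h5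
    have h6 := h5 hlt hne
    rw [← hP] at h6
    exact (HeightOneSpectrum.valuation_lt_one_iff_mem (K := RatFunc F) 𝔭 P).1 h6

end Pool.Agent.PC
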