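import Pool.Agent.Lib.MP_410da7_agP.Spec

/-!
# Package `P` (punctured cones): dividing out common zeros
-/

set_option autoImplicit false

namespace Pool.Agent.PC

open WithZero
open IsDedekindDomain (HeightOneSpectrum)

namespace FacM

/-- the order of an element at a prime -/
theorem exists_order {F : Type} [Field F] (𝔭 : HeightOneSpectrum (Polynomial F))
    (g : Polynomial F) (hg : g ≠ 0) :
    ∃ n : ℕ, 𝔭.valuation (RatFunc F) (algebraMap _ (RatFunc F) g) = exp (-(n : ℤ)) ∧
      ∀ m, g ∈ 𝔭.asIdeal ^ m ↔ m ≤ n := by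
  refine ⟨multiplicity 𝔭.asIdeal (Ideal.span {g}), ?_, ?_⟩
  · rw [HeightOneSpectrum.valuation_of_algebraMap,
      HeightOneSpectrum.intValuation_eq_exp_neg_multiplicity _ hg]
  · intro m
    rw [← HeightOneSpectrum.intValuation_le_pow_iff_mem,
      HeightOneSpectrum.intValuation_eq_exp_neg_multiplicity _ hg, exp_le_exp]
    omega

/-- the induction on the degree of one coordinate -/
theorem main {N : ℕ} {w : Fin N → ℕ} (hw : ∀ i, 0 < w i) (hgcd : Finset.univ.gcd w = 1)
    {F : Type} [Field F] (i0 : Fin N) : ∀ (n : ℕ) (γ : Fin N → Polynomial F),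
    (γ i0).natDegree = n → (∀ i, γ i ≠ 0) →
    (∀ 𝔭 : HeightOneSpectrum (Polynomial F),
      (∀ i, 𝔭.valuation (RatFunc F) (algebraMap _ (RatFunc F) (γ i)) < 1) →
      ∀ i j, 𝔭.valuation (RatFunc F) (algebraMap _ (RatFunc F) (γ i)) ^ w j =
        𝔭.valuation (RatFunc F) (algebraMap _ (RatFunc F) (γ j)) ^ w i) →
    ∃ (A : Polynomial F) (y : Fin N → Polynomial F), (∀ i, γ i = A ^ w i * y i) ∧
      Ideal.span (Set.range y) = ⊤ := by
  intro n
  induction n using Nat.strong_induction_on with
  | _ n ih =>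
    intro γ hn hγ hyp
    by_cases hspan : Ideal.span (Set.range γ) = ⊤
    · exact ⟨1, γ, fun i => by simp, hspan⟩
    obtain ⟨M, hM, hle⟩ := Ideal.exists_le_maximal _ hspan
    have hmem : ∀ i, γ i ∈ M := fun i => hle (Ideal.subset_span ⟨i, rfl⟩)
    have hM0 : M ≠ ⊥ := by
      intro h
      have h1 := hmem i0
      rw [h, Ideal.mem_bot] at h1
      exact hγ i0 h1
    let 𝔭 : HeightOneSpectrum (Polynomial F) := ⟨M, hM.isPrime, hM0⟩
    have h𝔭 : 𝔭.asIdeal = M := rfl
    obtain ⟨π, hπ⟩ := (IsPrincipalIdealRing.principal M).principal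
    have hπ' : M = Ideal.span {π} := hπ
    have hπ0 : π ≠ 0 := by
      rintro rfl
      exact hM0 (by rw [hπ']; simp)
    have hπdeg : 0 < π.natDegree := by
      rw [Nat.pos_iff_ne_zero]
      intro h
      apply hM.ne_top
      rw [hπ', Ideal.span_singleton_eq_top]
      rw [Polynomial.isUnit_iff_degree_eq_zero, Polynomial.degree_eq_natDegree hπ0, h]
      rfl
    choose o ho1 ho2 using fun i => exists_order 𝔭 (γ i) (hγ i)
    have hval : ∀ i, 𝔭.valuation (RatFunc F) (algebraMap _ (RatFunc F) (γ i)) < 1 := by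
      intro i
      rw [𝔭.valuation_lt_one_iff_mem]
      exact hmem i
    have hprop : ∀ i j, o i * w j = o j * w i := by
      intro i j
      have h1 := hyp 𝔭 hval i j
      rw [ho1, ho1, ← exp_nsmul, ← exp_nsmul, exp_inj] at h1
      simp only [nsmul_eq_mul, mul_neg, neg_inj] at h1
      have h2 : ((o i * w j : ℕ) : ℤ) = ((o j * w i : ℕ) : ℤ) := by
        push_cast
        linarith
      exact_mod_cast h2
    have hdvd : ∀ i, w i ∣ o i := by
      intro i
      have h1 : w i ∣ Finset.univ.gcd (fun j => o i * w j) := by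
        apply Finset.dvd_gcd
        intro j _
        rw [hprop i j]
        exact Dvd.intro_left _ rfl
      rwa [Finset.gcd_mul_left, hgcd, mul_one, normalize_eq] at h1
    have hle' : ∀ i, w i ≤ o i := by
      intro i
      apply Nat.le_of_dvd _ (hdvd i)
      have h1 := (ho2 i 1).mp (by rw [pow_one]; exact hmem i)
      omega
    have hfac : ∀ i, ∃ y, γ i = π ^ w i * y := by
      intro i
      have h1 := (ho2 i (w i)).mpr (hle' i)
      rw [h𝔭, hπ', Ideal.span_singleton_pow, Ideal.mem_span_singleton] at h1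
      exact h1
    choose γ' hγ' using hfac
    have hγ'0 : ∀ i, γ' i ≠ 0 := by
      intro i h
      exact hγ i (by rw [hγ', h, mul_zero])
    have hdeg : (γ' i0).natDegree < n := by
      have h1 : (γ i0).natDegree = w i0 * π.natDegree + (γ' i0).natDegree := by
        rw [hγ' i0, Polynomial.natDegree_mul (pow_ne_zero _ hπ0) (hγ'0 i0),
          Polynomial.natDegree_pow]
      have h2 : 0 < w i0 * π.natDegree := Nat.mul_pos (hw i0) hπdeg
      omega
    obtain ⟨A, y, hAy, hy⟩ := ih _ hdeg γ' rfl hγ'0 (by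
      intro 𝔮 h𝔮 i j
      have hv : ∀ i, 𝔮.valuation (RatFunc F) (algebraMap _ (RatFunc F) (γ i)) =
          𝔮.valuation (RatFunc F) (algebraMap _ (RatFunc F) π) ^ w i *
          𝔮.valuation (RatFunc F) (algebraMap _ (RatFunc F) (γ' i)) := by
        intro i
        rw [hγ' i, map_mul, map_pow, Valuation.map_mul, Valuation.map_pow]
      have h1 := hyp 𝔮 (by
        intro i
        rw [𝔮.valuation_lt_one_iff_mem, hγ' i]
        apply Ideal.mul_mem_left
        have := h𝔮 i
        rwa [𝔮.valuation_lt_one_iff_mem] at this) i j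
      rw [hv i, hv j, mul_pow, mul_pow, ← pow_mul, ← pow_mul, mul_comm (w j) (w i)] at h1
      refine mul_left_cancel₀ (pow_ne_zero _ ?_) h1
      rw [Valuation.ne_zero_iff]
      exact (map_ne_zero_iff _ (IsFractionRing.injective (Polynomial F) (RatFunc F))).mpr hπ0)
    refine ⟨π * A, y, ?_, hy⟩
    intro i
    rw [hγ' i, hAy i, mul_pow, mul_assoc]

end FacM

theorem stmtFac : StmtFac := by
  intro N w hw hgcd F _ γ hγ hyp
  have hN : 0 < N := by
    rcases Nat.eq_zero_or_pos N with rfl | h
    · simp at hgcd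
    · exact h
  exact FacM.main hw hgcd ⟨0, hN⟩ _ γ rfl hγ hyp

end Pool.Agent.PC
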