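import Pool.Agent.Lib.MP_410da7_agP.Spec2

/-!
# Module Fib: fibres of a free module
-/

set_option autoImplicit false

namespace Pool.Agent.PC

open MvPolynomial TensorProduct

namespace FibM

variable {σ : Type} {n m : ℕ} {L : Type} [Field L]

theorem exists_basis (E : Fin n → MvPolynomial σ L) (b : Fin m → MvPolynomial σ L)
    (hb : ∀ P : MvPolynomial σ L, ∃! c : Fin m → MvPolynomial (Fin n) L,
      P = ∑ i, aeval E (c i) * b i)
    [Algebra (MvPolynomial (Fin n) L) (MvPolynomial σ L)]
    (ha : ∀ P : MvPolynomial (Fin n) L, algebraMap (MvPolynomial (Fin n) L) (MvPolynomial σ L) P =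
      aeval E P) :
    Nonempty (Module.Basis (Fin m) (MvPolynomial (Fin n) L) (MvPolynomial σ L)) := by
  have hval : ∀ c : Fin m → MvPolynomial (Fin n) L,
      Fintype.linearCombination (MvPolynomial (Fin n) L) b c = ∑ i, aeval E (c i) * b i := by
    intro c
    rw [Fintype.linearCombination_apply]
    refine Finset.sum_congr rfl fun i _ => ?_
    rw [Algebra.smul_def, ha]
  have hbij : Function.Bijective (Fintype.linearCombination (MvPolynomial (Fin n) L) b) := by
    constructor
    · intro c c' h
      rw [hval, hval] at h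
      exact (hb _).unique rfl h
    · intro P
      obtain ⟨c, hc, -⟩ := hb P
      exact ⟨c, by rw [hval]; exact hc.symm⟩
  exact ⟨Module.Basis.ofEquivFun (LinearEquiv.ofBijective _ hbij).symm⟩

theorem main (E : Fin n → MvPolynomial σ L) (b : Fin m → MvPolynomial σ L)
    (hb : ∀ P : MvPolynomial σ L, ∃! c : Fin m → MvPolynomial (Fin n) L,
      P = ∑ i, aeval E (c i) * b i) (F : Type) [Field F] [Algebra L F] (c : Fin n → F) :
    Nonempty (Module.Basis (Fin m) F (MvPolynomial σ F ⧸
      Ideal.span (Set.range fun t => map (algebraMap L F) (E t) - C (c t)))) := by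
  letI algA : Algebra (MvPolynomial (Fin n) L) (MvPolynomial σ L) := (aeval E).toRingHom.toAlgebra
  letI algF : Algebra (MvPolynomial (Fin n) L) F := (aeval c).toRingHom.toAlgebra
  have haA : ∀ P : MvPolynomial (Fin n) L,
      algebraMap (MvPolynomial (Fin n) L) (MvPolynomial σ L) P = aeval E P := fun _ => rfl
  have haF : ∀ P : MvPolynomial (Fin n) L,
      algebraMap (MvPolynomial (Fin n) L) F P = aeval c P := fun _ => rfl
  obtain ⟨B⟩ := exists_basis E b hb haA
  set I : Ideal (MvPolynomial σ F) :=
    Ideal.span (Set.range fun t => map (algebraMap L F) (E t) - C (c t)) with hI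
  -- the homomorphism `L[x] → F[x] / I`
  have hcomm : ((Ideal.Quotient.mk I).comp (map (algebraMap L F))).comp (aeval E).toRingHom =
      ((Ideal.Quotient.mk I).comp C).comp (aeval c : MvPolynomial (Fin n) L →ₐ[L] F).toRingHom := by
    refine MvPolynomial.ringHom_ext ?_ ?_
    · intro a
      simp
    · intro t
      simp only [AlgHom.toRingHom_eq_coe, RingHom.coe_comp, RingHom.coe_coe, Function.comp_apply,
        aeval_X]
      rw [Ideal.Quotient.eq, hI]
      exact Ideal.subset_span ⟨t, rfl⟩
  let g₀ : MvPolynomial σ L →ₐ[MvPolynomial (Fin n) L] MvPolynomial σ F ⧸ I :=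
    { (Ideal.Quotient.mk I).comp (map (algebraMap L F)) with
      commutes' := fun P => congrArg (fun f => f P) hcomm }
  have hg₀ : ∀ P, g₀ P = Ideal.Quotient.mk I (map (algebraMap L F) P) := fun _ => rfl
  let f : F ⊗[MvPolynomial (Fin n) L] MvPolynomial σ L →ₐ[F] MvPolynomial σ F ⧸ I :=
    Algebra.TensorProduct.lift (Algebra.ofId F (MvPolynomial σ F ⧸ I)) g₀
      (fun _ _ => Commute.all _ _)
  -- the homomorphism in the other direction
  let h₀ : MvPolynomial σ F →ₐ[F] F ⊗[MvPolynomial (Fin n) L] MvPolynomial σ L :=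
    aeval fun s => (1 : F) ⊗ₜ[MvPolynomial (Fin n) L] (X s : MvPolynomial σ L)
  have hsm : ∀ P : MvPolynomial (Fin n) L, (aeval c P : F) ⊗ₜ[MvPolynomial (Fin n) L]
      (1 : MvPolynomial σ L) = (1 : F) ⊗ₜ[MvPolynomial (Fin n) L] (aeval E P) := by
    intro P
    have h1 : (aeval c P : F) = P • (1 : F) := by
      rw [Algebra.smul_def, haF, mul_one]
    have h2 : (aeval E P : MvPolynomial σ L) = P • (1 : MvPolynomial σ L) := by
      rw [Algebra.smul_def, haA, mul_one]
    rw [h1, h2, TensorProduct.smul_tmul]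
  have hh₀ : ∀ P : MvPolynomial σ L, h₀ (map (algebraMap L F) P) =
      (1 : F) ⊗ₜ[MvPolynomial (Fin n) L] P := by
    have h1 : h₀.toRingHom.comp (map (algebraMap L F)) =
        (Algebra.TensorProduct.includeRight :
          MvPolynomial σ L →ₐ[MvPolynomial (Fin n) L]
            F ⊗[MvPolynomial (Fin n) L] MvPolynomial σ L).toRingHom := by
      refine MvPolynomial.ringHom_ext ?_ ?_
      · intro a
        have h2 := hsm (C a)
        rw [aeval_C, aeval_C] at h2
        simp only [AlgHom.toRingHom_eq_coe, RingHom.coe_comp, RingHom.coe_coe, Function.comp_apply,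
          map_C]
        rw [show h₀ (C (algebraMap L F a)) = (algebraMap L F a) ⊗ₜ[MvPolynomial (Fin n) L]
          (1 : MvPolynomial σ L) from h₀.commutes _, h2]
        rfl
      · intro s
        simp [h₀]
    intro P
    exact congrArg (fun f => f P) h1
  have hker : ∀ a ∈ I, h₀ a = 0 := by
    intro a ha
    have h1 : I ≤ RingHom.ker h₀ := by
      rw [hI, Ideal.span_le]
      rintro _ ⟨t, rfl⟩
      simp only [SetLike.mem_coe, RingHom.mem_ker, map_sub]
      rw [hh₀, sub_eq_zero]
      have h2 := hsm (X t)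
      rw [aeval_X, aeval_X] at h2
      rw [← h2]
      exact (h₀.commutes _).symm
    exact h1 ha
  let g : MvPolynomial σ F ⧸ I →ₐ[F] F ⊗[MvPolynomial (Fin n) L] MvPolynomial σ L :=
    Ideal.Quotient.liftₐ I h₀ hker
  have hfg : f.comp g = AlgHom.id F _ := by
    refine Ideal.Quotient.algHom_ext _ ?_
    refine MvPolynomial.algHom_ext fun s => ?_
    have h1 : g (Ideal.Quotient.mk I (X s)) =
        (1 : F) ⊗ₜ[MvPolynomial (Fin n) L] (X s : MvPolynomial σ L) := by
      change h₀ (X s) = _
      exact aeval_X _ s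
    have h2 : f ((1 : F) ⊗ₜ[MvPolynomial (Fin n) L] (X s : MvPolynomial σ L)) =
        Ideal.Quotient.mk I (X s) := by
      rw [Algebra.TensorProduct.lift_tmul, map_one, one_mul, hg₀, map_X]
    change f (g (Ideal.Quotient.mk I (X s))) = Ideal.Quotient.mk I (X s)
    rw [h1, h2]
  have hgf : g.comp f = AlgHom.id F _ := by
    refine Algebra.TensorProduct.ext (by ext) ?_
    refine AlgHom.ext fun P => ?_
    simp only [AlgHom.coe_comp, AlgHom.coe_restrictScalars', Function.comp_apply,
      Algebra.TensorProduct.includeRight_apply, AlgHom.coe_id, id_eq, f]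
    rw [Algebra.TensorProduct.lift_tmul, map_one, one_mul, hg₀]
    exact hh₀ P
  let e : (F ⊗[MvPolynomial (Fin n) L] MvPolynomial σ L) ≃ₐ[F] MvPolynomial σ F ⧸ I :=
    AlgEquiv.ofAlgHom f g hfg hgf
  exact ⟨(B.baseChange F).map e.toLinearEquiv⟩

end FibM

theorem stmtFib : StmtFib := by
  intro σ _ n m L _ E b hb F _ _ c
  obtain ⟨B⟩ := FibM.main E b hb F c
  exact ⟨Module.Finite.of_basis B, by rw [Module.finrank_eq_card_basis B, Fintype.card_fin]⟩

end Pool.Agent.PC
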