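import Pool.Agent.Lib.MP_410da7_agP.Spec3
import Pool.Agent.Lib.MP_410da7_ag.CYLattice

/-! # Flg: the flag lemma for polynomial vectors -/

set_option autoImplicit false

namespace Pool.Agent.PC.FlgM

open Polynomial Pool.Agent.Lib.MP_410da7_ag

variable {F : Type} [Field F] {n q : ℕ}

/-- the combination of the vectors `S a` with the coefficients `c` -/
noncomputable def comb (S : Fin q → Fin n → F[X]) (c : Fin q → F) (j : Fin n) : F[X] :=
  ∑ a, C (c a) * S a j

/-- the matrix of `n` combinations -/
noncomputable def mat (S : Fin q → Fin n → F[X]) (c : Fin n → Fin q → F) :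
    Matrix (Fin n) (Fin n) F[X] :=
  Matrix.of fun i j => comb S (c i) j

theorem mat_update (S : Fin q → Fin n → F[X]) (c : Fin n → Fin q → F) (i0 : Fin n)
    (a : Fin q → F) : mat S (Function.update c i0 a) = (mat S c).updateRow i0 (comb S a) := by
  ext1 i j
  by_cases h : i = i0
  · subst h
    simp [mat]
  · simp [mat, Matrix.updateRow_apply, h]

theorem comb_ne_zero (S : Fin q → Fin n → F[X]) (hS : LinearIndependent F S) (a : Fin q → F)
    (ha : a ≠ 0) : comb S a ≠ 0 := by
  intro h
  apply ha
  have h1 := Fintype.linearIndependent_iff.1 hS a (by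
    funext j
    have h2 := congrFun h j
    simp only [comb, Pi.zero_apply] at h2
    rw [Finset.sum_apply, Pi.zero_apply, ← h2]
    refine Finset.sum_congr rfl fun b _ => ?_
    rw [Pi.smul_apply, smul_eq_C_mul])
  funext b
  exact h1 b

/-- the truncation map -/
noncomputable def trunc (S : Fin q → Fin n → F[X]) (k : ℕ) :
    (Fin q → F) →ₗ[F] (Fin n × Fin k → F) where
  toFun a := fun l => (comb S a l.1).coeff l.2
  map_add' a b := by
    funext l
    simp only [comb, Pi.add_apply, C_add, add_mul, Finset.sum_add_distrib, coeff_add]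
  map_smul' r a := by
    funext l
    simp only [comb, Pi.smul_apply, smul_eq_mul, C_mul, RingHom.id_apply, finsetSum_coeff,
      mul_assoc, coeff_C_mul, Finset.mul_sum]

/-- elements of the span of the truncations -/
theorem mem_span (M : Matrix (Fin n) (Fin n) F[X]) (k : ℕ) (t : Fin n × Fin k → F)
    (ht : t ∈ Submodule.span F (Set.range fun q : Fin n × ℕ => fun l : Fin n × Fin k =>
        PowerSeries.coeff l.2.1 (PowerSeries.X ^ q.2 * (PowerSeries.X *
          (M q.1 l.1 : PowerSeries F))))) :
    ∃ p : Fin n → F[X], ∀ l : Fin n × Fin k, t l = (∑ i, p i * X * M i l.1).coeff l.2 := by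
  induction ht using Submodule.span_induction with
  | mem x h =>
    obtain ⟨⟨i, r⟩, rfl⟩ := h
    refine ⟨Pi.single i (X ^ r), fun l => ?_⟩
    rw [Finset.sum_eq_single i]
    · rw [Pi.single_eq_same]
      have e : (PowerSeries.X ^ r * (PowerSeries.X * (M i l.1 : PowerSeries F))) =
          ((X ^ r * X * M i l.1 : F[X]) : PowerSeries F) := by
        rw [coe_mul, coe_mul, coe_pow, coe_X, mul_assoc]
      change PowerSeries.coeff l.2.1 (PowerSeries.X ^ r * (PowerSeries.X *
          (M i l.1 : PowerSeries F))) = _
      rw [e, coeff_coe]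
    · intro b _ hb
      rw [Pi.single_eq_of_ne hb, zero_mul, zero_mul]
    · intro h
      exact absurd (Finset.mem_univ _) h
  | zero => exact ⟨0, fun l => by simp⟩
  | add x y _ _ hx hy =>
    obtain ⟨p, hp⟩ := hx
    obtain ⟨p', hp'⟩ := hy
    refine ⟨p + p', fun l => ?_⟩
    rw [Pi.add_apply, hp, hp', ← coeff_add, ← Finset.sum_add_distrib]
    congr 1
    refine Finset.sum_congr rfl fun i _ => ?_
    rw [Pi.add_apply]
    ring
  | smul r x _ hx =>
    obtain ⟨p, hp⟩ := hx
    refine ⟨fun i => C r * p i, fun l => ?_⟩
    rw [Pi.smul_apply, hp, smul_eq_mul, ← coeff_C_mul, Finset.mul_sum]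
    congr 1
    refine Finset.sum_congr rfl fun i _ => ?_
    ring

theorem det_order (M : Matrix (Fin n) (Fin n) F[X]) (k : ℕ) (h1 : X ^ k ∣ M.det)
    (h2 : ¬ X ^ (k + 1) ∣ M.det) :
    (Matrix.of fun i l => (PowerSeries.X * (M i l : PowerSeries F))).det.order =
      ((k + n : ℕ) : ℕ∞) := by
  have e1 : (Matrix.of fun i l => (PowerSeries.X * (M i l : PowerSeries F))) =
      (PowerSeries.X : PowerSeries F) • (M.map (Polynomial.coeToPowerSeries.ringHom)) := by
    ext1 i l
    rw [Matrix.smul_apply, Matrix.map_apply, Matrix.of_apply, smul_eq_mul]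
    rfl
  have e2 : (M.map (Polynomial.coeToPowerSeries.ringHom)).det =
      ((M.det : F[X]) : PowerSeries F) := by
    have := RingHom.map_det (Polynomial.coeToPowerSeries.ringHom (R := F)) M
    rw [RingHom.mapMatrix_apply] at this
    rw [← this]
    rfl
  rw [e1, Matrix.det_smul, Fintype.card_fin, e2]
  obtain ⟨u, hu⟩ := h1
  have hu0 : u.coeff 0 ≠ 0 := by
    intro h0
    apply h2
    obtain ⟨v, hv⟩ := X_dvd_iff.2 h0
    exact ⟨v, by rw [hu, hv]; ring⟩
  rw [hu, coe_mul, coe_pow, coe_X, ← mul_assoc, ← pow_add, add_comm n k]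
  rw [PowerSeries.order_eq_nat]
  constructor
  · rw [PowerSeries.coeff_X_pow_mul', if_pos le_rfl, Nat.sub_self, coeff_coe]
    exact hu0
  · intro i hi
    rw [PowerSeries.coeff_X_pow_mul', if_neg (by omega)]

end Pool.Agent.PC.FlgM

namespace Pool.Agent.PC

open Polynomial Pool.Agent.Lib.MP_410da7_ag FlgM

theorem stmtFlg : StmtFlg := by
  classical
  intro F _ n m q hq S hS hs
  have key : ∀ k : ℕ, k ≤ m → ∃ c : Fin n → Fin q → F, (mat S c).det ≠ 0 ∧
      X ^ k ∣ (mat S c).det := by
    intro k
    induction k with
    | zero =>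
      intro _
      obtain ⟨s, hs⟩ := hs
      refine ⟨fun i => Pi.single (s i) 1, ?_, by rw [pow_zero]; exact one_dvd _⟩
      have e : mat S (fun i => Pi.single (s i) 1) = Matrix.of fun i j => S (s i) j := by
        ext1 i j
        simp only [mat, comb, Matrix.of_apply]
        rw [Finset.sum_eq_single (s i)]
        · rw [Pi.single_eq_same, C_1, one_mul]
        · intro b _ hb
          rw [Pi.single_eq_of_ne hb, C_0, zero_mul]
        · intro h
          exact absurd (Finset.mem_univ _) h
      rw [e]
      exact hs
    | succ k ih =>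
      intro hk
      obtain ⟨c, hc0, hck⟩ := ih (by omega)
      by_cases hck1 : X ^ (k + 1) ∣ (mat S c).det
      · exact ⟨c, hc0, hck1⟩
      set M := mat S c with hM
      have hord := det_order M k hck hck1
      have hlat := lattice_finrank (Equiv.refl (Fin n))
        (fun i l => (PowerSeries.X * (M i l : PowerSeries F))) (k + n) (k + 1) hord
      set T := Submodule.span F (Set.range fun q : Fin n × ℕ => fun l : Fin n × Fin (k + 1) =>
        PowerSeries.coeff l.2.1 (PowerSeries.X ^ q.2 * (PowerSeries.X *
          (M q.1 l.1 : PowerSeries F)))) with hT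
      have hrank : Module.finrank F ((Fin n × Fin (k + 1) → F) ⧸ T) <
          Module.finrank F (Fin q → F) := by
        have h1 := Submodule.finrank_quotient_add_finrank T
        rw [Module.finrank_fintype_fun_eq_card, Fintype.card_prod, Fintype.card_fin,
          Fintype.card_fin] at h1
        rw [Fintype.card_fin] at hlat
        rw [Module.finrank_fintype_fun_eq_card, Fintype.card_fin]
        omega
      have hker := LinearMap.ker_ne_bot_of_finrank_lt
        (f := T.mkQ.comp (trunc S (k + 1))) hrank
      obtain ⟨a, ha, ha0⟩ := Submodule.exists_mem_ne_zero_of_ne_bot hker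
      have haT : trunc S (k + 1) a ∈ T := by
        rw [LinearMap.mem_ker, LinearMap.comp_apply, Submodule.mkQ_apply,
          Submodule.Quotient.mk_eq_zero] at ha
        exact ha
      obtain ⟨p, hp⟩ := mem_span M (k + 1) _ haT
      -- the new vector
      set w := comb S a with hw
      have hdvd : ∀ j, (X : F[X]) ^ (k + 1) ∣ w j - ∑ i, p i * X * M i j := by
        intro j
        rw [X_pow_dvd_iff]
        intro d hd
        rw [coeff_sub, sub_eq_zero]
        exact hp (j, ⟨d, hd⟩)
      choose e he using hdvd
      have hw2 : w = Matrix.mulVec M.transpose (fun i => p i * X) +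
          (X : F[X]) ^ (k + 1) • e := by
        funext j
        rw [Pi.add_apply, Pi.smul_apply, smul_eq_mul, ← he j, Matrix.mulVec, dotProduct]
        have : ∑ i, M.transpose j i * (p i * X) = ∑ i, p i * X * M i j :=
          Finset.sum_congr rfl fun i _ => by rw [Matrix.transpose_apply]; ring
        rw [this]
        ring
      have hcr : ∀ i, (X : F[X]) ^ (k + 1) ∣ Matrix.cramer M.transpose w i := by
        intro i
        have h1 : Matrix.cramer M.transpose w =
            M.det • (fun i => p i * X) + (X : F[X]) ^ (k + 1) • Matrix.cramer M.transpose e := by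
          rw [hw2, map_add, map_smul, Matrix.cramer_eq_adjugate_mulVec, Matrix.mulVec_mulVec,
            Matrix.adjugate_mul, Matrix.det_transpose, Matrix.smul_mulVec, Matrix.one_mulVec]
        rw [h1, Pi.add_apply, Pi.smul_apply, Pi.smul_apply, smul_eq_mul, smul_eq_mul]
        refine dvd_add ?_ (dvd_mul_right _ _)
        obtain ⟨u, hu⟩ := hck
        rw [hu]
        exact ⟨u * p i, by ring⟩
      have hex : ∃ i, Matrix.cramer M.transpose w i ≠ 0 := by
        by_contra hcon
        push Not at hcon
        have h1 : Matrix.cramer M.transpose w = 0 := funext hcon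
        have h2 := Matrix.mulVec_cramer M.transpose w
        rw [h1, Matrix.mulVec_zero, Matrix.det_transpose] at h2
        refine comb_ne_zero S hS a ha0 ?_
        exact (smul_eq_zero.1 h2.symm).resolve_left hc0
      obtain ⟨i0, hi0⟩ := hex
      refine ⟨Function.update c i0 a, ?_, ?_⟩
      · rw [mat_update, ← Matrix.cramer_transpose_apply]
        exact hi0
      · rw [mat_update, ← Matrix.cramer_transpose_apply]
        exact hcr i0
  obtain ⟨c, h1, h2⟩ := key m le_rfl
  exact ⟨c, h1, h2⟩

end Pool.Agent.PC
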