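import Pool.Agent.Lib.MP_410da7_agP.Spec2
import Pool.Agent.Lib.MP_410da7_ag.CYGraded

/-!
# The polynomial ring is free over the subring of a homogeneous system of parameters
-/

set_option autoImplicit false

namespace Pool.Agent.PC

namespace FreM

open MvPolynomial Pool.Agent.Lib.MP_410da7_ag

section uniq

variable {σ : Type} {n m : ℕ} {L : Type} [Field L]

/-- the combination -/
noncomputable def comb (E : Fin n → MvPolynomial σ L) (b : Fin m → MvPolynomial σ L)
    (c : Fin m → MvPolynomial (Fin n) L) : MvPolynomial σ L := ∑ i, aeval E (c i) * b i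

theorem comb_add (E : Fin n → MvPolynomial σ L) (b : Fin m → MvPolynomial σ L)
    (c c' : Fin m → MvPolynomial (Fin n) L) : comb E b (fun i => c i + c' i) =
      comb E b c + comb E b c' := by
  simp only [comb, map_add, add_mul, Finset.sum_add_distrib]

theorem comb_mul (E : Fin n → MvPolynomial σ L) (b : Fin m → MvPolynomial σ L)
    (q : MvPolynomial (Fin n) L) (c : Fin m → MvPolynomial (Fin n) L) :
    comb E b (fun i => q * c i) = aeval E q * comb E b c := by
  simp only [comb, map_mul, Finset.mul_sum, mul_assoc]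

theorem comb_sub (E : Fin n → MvPolynomial σ L) (b : Fin m → MvPolynomial σ L)
    (c c' : Fin m → MvPolynomial (Fin n) L) : comb E b (fun i => c i - c' i) =
      comb E b c - comb E b c' := by
  simp only [comb, map_sub, sub_mul, Finset.sum_sub_distrib]

theorem map_mem (E : Fin n → MvPolynomial σ L) (j : ℕ) (p : MvPolynomial (Fin n) L)
    (hp : p ∈ Ideal.span ((X : Fin n → MvPolynomial (Fin n) L) '' {t | t.1 < j})) :
    aeval E p ∈ Ideal.span (E '' {i | i.1 < j}) := by
  have hle : Ideal.span ((X : Fin n → MvPolynomial (Fin n) L) '' {t | t.1 < j}) ≤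
      Ideal.comap (aeval E : MvPolynomial (Fin n) L →ₐ[L] MvPolynomial σ L)
        (Ideal.span (E '' {i | i.1 < j})) := by
    rw [Ideal.span_le]
    rintro _ ⟨t, ht, rfl⟩
    change aeval E (X t) ∈ Ideal.span (E '' {i | i.1 < j})
    rw [aeval_X]
    exact Ideal.subset_span ⟨t, ht, rfl⟩
  exact hle hp

theorem comb_mem (E : Fin n → MvPolynomial σ L) (b : Fin m → MvPolynomial σ L) (j : ℕ)
    (c : Fin m → MvPolynomial (Fin n) L)
    (hc : ∀ i, c i ∈ Ideal.span ((X : Fin n → MvPolynomial (Fin n) L) '' {t | t.1 < j})) :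
    comb E b c ∈ Ideal.span (E '' {i | i.1 < j}) :=
  Ideal.sum_mem _ fun i _ => Ideal.mul_mem_right _ _ (map_mem E j _ (hc i))

theorem uniq (E : Fin n → MvPolynomial σ L) (b : Fin m → MvPolynomial σ L)
    (hind : ∀ l : Fin m → L, ∑ i, C (l i) * b i ∈ Ideal.span (Set.range E) → l = 0)
    (hreg : ∀ (j : Fin n) (z : MvPolynomial σ L), E j * z ∈ Ideal.span (E '' {i | i < j}) →
      z ∈ Ideal.span (E '' {i | i < j})) :
    ∀ k j : ℕ, j + k = n → ∀ c : Fin m → MvPolynomial (Fin n) L,
      comb E b c ∈ Ideal.span (E '' {i | i.1 < j}) →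
      ∀ i, c i ∈ Ideal.span ((X : Fin n → MvPolynomial (Fin n) L) '' {t | t.1 < j}) := by
  classical
  intro k
  induction k with
  | zero =>
    intro j hj c hc
    have hk : ∀ i, c i - C (coeff 0 (c i)) ∈
        Ideal.span ((X : Fin n → MvPolynomial (Fin n) L) '' {t | t.1 < j}) := by
      intro i
      rw [mem_ideal_span_X_image]
      intro u hu
      have hu0 : u ≠ 0 := by
        rintro rfl
        rw [mem_support_iff, coeff_sub, coeff_C, if_pos rfl, sub_self] at hu
        exact hu rfl
      obtain ⟨t, ht⟩ := Finsupp.ne_iff.1 hu0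
      exact ⟨t, by
        have := t.2
        simp only [Set.mem_ofPred_eq]
        omega, ht⟩
    have h1 := comb_mem E b j _ hk
    rw [comb_sub] at h1
    have h2 : comb E b (fun i => C (coeff 0 (c i))) ∈ Ideal.span (E '' {i | i.1 < j}) := by
      have := Ideal.sub_mem _ hc h1
      rwa [sub_sub_cancel] at this
    have h3 : ∑ i, C (coeff 0 (c i)) * b i ∈ Ideal.span (Set.range E) := by
      have h4 : comb E b (fun i => C (coeff 0 (c i))) = ∑ i, C (coeff 0 (c i)) * b i := by
        simp only [comb, algHom_C, algebraMap_eq]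
      rw [← h4]
      exact Ideal.span_mono (Set.image_subset_range _ _) h2
    have h5 := hind _ h3
    intro i
    have h6 := hk i
    have h7 : coeff 0 (c i) = 0 := congrFun h5 i
    rwa [h7, map_zero, sub_zero] at h6
  | succ k ih =>
    intro j hj
    have hjn : j < n := by omega
    have hJ : ({i : Fin n | i < (⟨j, hjn⟩ : Fin n)}) = {i : Fin n | i.1 < j} := by
      ext i
      exact Iff.rfl
    have hinner : ∀ N : ℕ, ∀ c : Fin m → MvPolynomial (Fin n) L,
        (∀ i, ∀ u ∈ (c i).support, u ⟨j, hjn⟩ < N) →
        comb E b c ∈ Ideal.span (E '' {i | i.1 < j}) →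
        ∀ i, c i ∈ Ideal.span ((X : Fin n → MvPolynomial (Fin n) L) '' {t | t.1 < j}) := by
      intro N
      induction N with
      | zero =>
        intro c hN _ i
        have : c i = 0 := by
          rw [← support_eq_empty, Finset.eq_empty_iff_forall_notMem]
          intro u hu
          exact absurd (hN i u hu) (Nat.not_lt_zero _)
        rw [this]
        exact Ideal.zero_mem _
      | succ N ihN =>
        intro c hN hc
        have hc1 := ih (j + 1) (by omega) c (Ideal.span_mono (Set.image_mono fun i hi => by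
          simp only [Set.mem_ofPred_eq] at hi ⊢
          omega) hc)
        have hdec : ∀ i, c i = X ⟨j, hjn⟩ * ((c i).divMonomial (Finsupp.single ⟨j, hjn⟩ 1)) +
            (c i).modMonomial (Finsupp.single ⟨j, hjn⟩ 1) := fun i =>
          (divMonomial_add_modMonomial_single (c i) ⟨j, hjn⟩).symm
        have hr : ∀ i, (c i).modMonomial (Finsupp.single ⟨j, hjn⟩ 1) ∈
            Ideal.span ((X : Fin n → MvPolynomial (Fin n) L) '' {t | t.1 < j}) := by
          intro i
          rw [mem_ideal_span_X_image]
          intro u hu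
          rw [mem_support_iff] at hu
          have hle : ¬ Finsupp.single (⟨j, hjn⟩ : Fin n) 1 ≤ u := fun hle =>
            hu (coeff_modMonomial_of_le _ hle)
          rw [coeff_modMonomial_of_not_le _ hle] at hu
          obtain ⟨t, ht, hut⟩ := mem_ideal_span_X_image.1 (hc1 i) u (mem_support_iff.2 hu)
          refine ⟨t, ?_, hut⟩
          have htj : t ≠ ⟨j, hjn⟩ := by
            rintro rfl
            apply hle
            rw [Finsupp.single_le_iff]
            omega
          have htj' : t.1 ≠ j := fun h => htj (Fin.ext h)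
          simp only [Set.mem_ofPred_eq] at ht ⊢
          omega
        have hcc : comb E b c = E ⟨j, hjn⟩ *
            comb E b (fun i => (c i).divMonomial (Finsupp.single ⟨j, hjn⟩ 1)) +
            comb E b (fun i => (c i).modMonomial (Finsupp.single ⟨j, hjn⟩ 1)) := by
          conv_lhs => rw [show c = fun i => X ⟨j, hjn⟩ *
            ((c i).divMonomial (Finsupp.single ⟨j, hjn⟩ 1)) +
            (c i).modMonomial (Finsupp.single ⟨j, hjn⟩ 1) from funext hdec]
          rw [comb_add, comb_mul, aeval_X]
        have h1 : E ⟨j, hjn⟩ *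
            comb E b (fun i => (c i).divMonomial (Finsupp.single ⟨j, hjn⟩ 1)) ∈
            Ideal.span (E '' {i | i.1 < j}) := by
          have := Ideal.sub_mem _ hc (comb_mem E b j _ hr)
          rwa [hcc, add_sub_cancel_right] at this
        rw [← hJ] at h1
        have h2 := hreg ⟨j, hjn⟩ _ h1
        rw [hJ] at h2
        have h3 := ihN _ (fun i u hu => by
          rw [mem_support_iff, coeff_divMonomial] at hu
          have := hN i _ (mem_support_iff.2 hu)
          rw [Finsupp.add_apply, Finsupp.single_eq_same] at this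
          omega) h2
        intro i
        rw [hdec i]
        exact Ideal.add_mem _ (Ideal.mul_mem_left _ _ (h3 i)) (hr i)
    intro c hc
    refine hinner ((Finset.univ.sup fun i => (c i).support.sup fun u => u ⟨j, hjn⟩) + 1) c ?_ hc
    intro i u hu
    refine Nat.lt_succ_of_le ?_
    exact (Finset.le_sup (f := fun u : Fin n →₀ ℕ => u ⟨j, hjn⟩) hu).trans
      (Finset.le_sup (f := fun i => (c i).support.sup fun u => u ⟨j, hjn⟩) (Finset.mem_univ i))

end uniq

section basis

variable {σ : Type} [Fintype σ] {L : Type} [Field L]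

theorem exists_basis (I : Ideal (MvPolynomial σ L)) (N : ℕ)
    (hX : ∀ s, (X s : MvPolynomial σ L) ^ N ∈ I) :
    ∃ (m : ℕ) (α : Fin m → (σ →₀ ℕ)),
      (∀ P : MvPolynomial σ L, ∃ l : Fin m → L, P - ∑ i, C (l i) * monomial (α i) 1 ∈ I) ∧
      (∀ l : Fin m → L, ∑ i, C (l i) * monomial (α i) 1 ∈ I → l = 0) := by
  classical
  have hfin : ({α : σ →₀ ℕ | ∀ s, α s < N}).Finite := by
    apply Set.Finite.subset (Set.finite_Iic (Finsupp.equivFunOnFinite.symm fun _ : σ => N))
    intro α hα
    rw [Set.mem_Iic]
    intro i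
    exact (hα i).le
  have hSfin : ((fun α : σ →₀ ℕ => Ideal.Quotient.mk I (monomial α (1 : L))) ''
    {α : σ →₀ ℕ | ∀ s, α s < N}).Finite := hfin.image _
  have hmk : ∀ (a : L) (P : MvPolynomial σ L), Ideal.Quotient.mk I (C a * P) =
      a • Ideal.Quotient.mk I P := by
    intro a P
    rw [C_mul', ← Ideal.Quotient.mkₐ_eq_mk L, map_smul]
  have hspan : (⊤ : Submodule L (MvPolynomial σ L ⧸ I)) ≤ Submodule.span L
      ((fun α : σ →₀ ℕ => Ideal.Quotient.mk I (monomial α (1 : L))) ''
        {α : σ →₀ ℕ | ∀ s, α s < N}) := by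
    intro x _
    obtain ⟨P, rfl⟩ := Ideal.Quotient.mk_surjective x
    rw [P.as_sum, map_sum]
    apply Submodule.sum_mem
    intro α _
    have h1 : (monomial α (P.coeff α) : MvPolynomial σ L) = C (P.coeff α) * monomial α 1 := by
      rw [C_mul_monomial, mul_one]
    rw [h1, hmk]
    apply Submodule.smul_mem
    by_cases hsmall : ∀ s, α s < N
    · exact Submodule.subset_span ⟨α, hsmall, rfl⟩
    · push Not at hsmall
      obtain ⟨s, hs⟩ := hsmall
      have hα : α = Finsupp.single s N + (α - Finsupp.single s N) := by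
        ext j
        rw [Finsupp.add_apply, Finsupp.tsub_apply]
        by_cases hj : s = j
        · subst hj
          rw [Finsupp.single_eq_same]
          omega
        · rw [Finsupp.single_eq_of_ne (Ne.symm hj)]
          omega
      have h2 : (monomial α (1 : L)) = (X s : MvPolynomial σ L) ^ N *
          monomial (α - Finsupp.single s N) 1 := by
        rw [X_pow_eq_monomial, monomial_mul, one_mul, ← hα]
      have h3 : Ideal.Quotient.mk I (monomial α (1 : L)) = 0 := by
        rw [Ideal.Quotient.eq_zero_iff_mem, h2]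
        exact Ideal.mul_mem_right _ _ (hX s)
      rw [h3]
      exact Submodule.zero_mem _
  let B := Module.Basis.ofSpan hspan
  have hMF : Module.Finite L (MvPolynomial σ L ⧸ I) := by
    refine ⟨⟨hSfin.toFinset, ?_⟩⟩
    rw [Set.Finite.coe_toFinset]
    exact eq_top_iff.2 hspan
  have hfi := Module.Finite.finite_basis B
  let B' := B.reindex (Finite.equivFin _)
  have hB' : ∀ i, ∃ α : σ →₀ ℕ, Ideal.Quotient.mk I (monomial α (1 : L)) = B' i := by
    intro i
    have h1 : B' i ∈ Set.range B := by
      rw [Module.Basis.reindex_apply]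
      exact ⟨_, rfl⟩
    obtain ⟨α, _, hα⟩ := Module.Basis.ofSpan_subset hspan h1
    exact ⟨α, hα⟩
  choose α hα using hB'
  refine ⟨_, α, ?_, ?_⟩
  · intro P
    refine ⟨fun i => B'.repr (Ideal.Quotient.mk I P) i, ?_⟩
    rw [← Ideal.Quotient.eq_zero_iff_mem, map_sub, map_sum, sub_eq_zero]
    conv_lhs => rw [← B'.sum_repr (Ideal.Quotient.mk I P)]
    refine Finset.sum_congr rfl fun i _ => ?_
    rw [hmk, hα]
  · intro l hl
    rw [← Ideal.Quotient.eq_zero_iff_mem, map_sum] at hl
    have h1 : ∑ i, l i • B' i = 0 := by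
      rw [← hl]
      refine Finset.sum_congr rfl fun i _ => ?_
      rw [hmk, hα]
    funext i
    exact Fintype.linearIndependent_iff.1 B'.linearIndependent l h1 i

end basis

section spanning

variable {σ : Type} {n m : ℕ} {L : Type} [Field L]

theorem spanning (ws : σ → ℕ) (E : Fin n → MvPolynomial σ L) (dE : Fin n → ℕ)
    (hdE : ∀ t, 0 < dE t) (hE : ∀ t, (E t).IsWeightedHomogeneous ws (dE t))
    (b : Fin m → MvPolynomial σ L) (e : Fin m → ℕ)
    (hb : ∀ i, (b i).IsWeightedHomogeneous ws (e i))
    (hsp : ∀ P : MvPolynomial σ L, ∃ l : Fin m → L,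
      P - ∑ i, C (l i) * b i ∈ Ideal.span (Set.range E)) (P : MvPolynomial σ L) :
    ∃ c, P = comb E b c := by
  classical
  have hadd : ∀ P Q : MvPolynomial σ L, (∃ c, P = comb E b c) → (∃ c, Q = comb E b c) →
      ∃ c, P + Q = comb E b c := by
    rintro _ _ ⟨c, rfl⟩ ⟨c', rfl⟩
    exact ⟨_, (comb_add E b c c').symm⟩
  have hzero : ∃ c, (0 : MvPolynomial σ L) = comb E b c :=
    ⟨fun _ => 0, by simp [comb]⟩
  have hsum : ∀ {κ : Type} (s : Finset κ) (f : κ → MvPolynomial σ L),
      (∀ x ∈ s, ∃ c, f x = comb E b c) → ∃ c, ∑ x ∈ s, f x = comb E b c := by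
    intro κ s f hf
    induction s using Finset.induction_on with
    | empty => simpa using hzero
    | insert x s hx ih =>
      rw [Finset.sum_insert hx]
      exact hadd _ _ (hf x (Finset.mem_insert_self _ _))
        (ih fun y hy => hf y (Finset.mem_insert_of_mem hy))
  have key : ∀ N : ℕ, ∀ P : MvPolynomial σ L, P.IsWeightedHomogeneous ws N →
      ∃ c, P = comb E b c := by
    intro N
    induction N using Nat.strong_induction_on with
    | _ N ih =>
      intro P hP
      obtain ⟨l, hl⟩ := hsp P
      obtain ⟨h, hh⟩ := Ideal.mem_span_range_iff_exists_fun.1 hl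
      have h1 := congrArg (weightedHomogeneousComponent ws N) hh
      rw [map_sub, weightedHomogeneousComponent_of_mem hP, if_pos rfl, map_sum, map_sum] at h1
      have h2 : P = (∑ t, weightedHomogeneousComponent ws N (h t * E t)) +
          ∑ i, weightedHomogeneousComponent ws N (C (l i) * b i) := by
        rw [h1]
        ring
      rw [h2]
      apply hadd
      · apply hsum
        intro t _
        rw [CYGraded_comp_mul ws N (dE t) (E t) (hE t)]
        split_ifs with h3
        · obtain ⟨c, hc⟩ := ih (N - dE t) (by have := hdE t; omega)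
            (weightedHomogeneousComponent ws (N - dE t) (h t))
            (weightedHomogeneousComponent_isWeightedHomogeneous _ _)
          refine ⟨fun i => X t * c i, ?_⟩
          rw [comb_mul, aeval_X, ← hc, mul_comm]
        · exact hzero
      · apply hsum
        intro i _
        have h3 : (C (l i) * b i).IsWeightedHomogeneous ws (e i) := by
          have := (isWeightedHomogeneous_C ws (l i)).mul (hb i)
          rwa [zero_add] at this
        rw [weightedHomogeneousComponent_of_mem h3]
        split_ifs with h4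
        · refine ⟨fun i' => if i' = i then C (l i) else 0, ?_⟩
          unfold comb
          rw [Finset.sum_eq_single i]
          · simp only [if_true]
            rw [algHom_C, algebraMap_eq]
          · intro i' _ hi'
            simp only [hi', if_false]
            rw [map_zero, zero_mul]
          · intro h
            exact absurd (Finset.mem_univ _) h
        · exact hzero
  rw [P.as_sum]
  apply hsum
  intro α _
  exact key _ _ (isWeightedHomogeneous_monomial ws α _ rfl)

end spanning

end FreM

open FreM MvPolynomial in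
/-- FRE -/
theorem stmtFre (hReg : StmtReg) : StmtFre := by
  classical
  intro σ _ n hn L _ _ ws hws E dE hdE hE hz
  have hrad : ∀ j, (X j : MvPolynomial σ L) ∈ (Ideal.span (Set.range E)).radical := by
    intro j
    rw [← vanishingIdeal_zeroLocus_eq_radical (K := L), mem_vanishingIdeal_iff]
    intro a ha
    have h1 : a = 0 := by
      apply hz
      intro t
      have := ha (E t) (Ideal.subset_span ⟨t, rfl⟩)
      simpa using this
    rw [h1]
    simp
  choose k hk using fun j => Ideal.mem_radical_iff.1 (hrad j)
  obtain ⟨m, α, h1, h2⟩ := exists_basis (Ideal.span (Set.range E)) (∑ j, k j) (fun j => by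
    have h1 : k j ≤ ∑ j, k j := Finset.single_le_sum (fun _ _ => Nat.zero_le _) (Finset.mem_univ j)
    exact Ideal.pow_mem_of_pow_mem _ (hk j) h1)
  have hb : ∀ i, (monomial (α i) (1 : L)).IsWeightedHomogeneous ws (Finsupp.weight ws (α i)) :=
    fun i => isWeightedHomogeneous_monomial ws (α i) 1 rfl
  refine ⟨m, fun i => monomial (α i) 1, fun i => Finsupp.weight ws (α i), hb, ?_⟩
  intro P
  obtain ⟨c, hc⟩ := spanning ws E dE hdE hE (fun i => monomial (α i) 1)
    (fun i => Finsupp.weight ws (α i)) hb h1 P
  refine ⟨c, hc, ?_⟩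
  intro c' hc'
  have h3 := uniq E (fun i => monomial (α i) (1 : L)) h2
    (fun j z => hReg σ n hn L ws hws E dE hdE hE hz j z) n 0 (by omega) (fun i => c' i - c i) (by
      rw [comb_sub, ← hc]
      have : comb E (fun i => monomial (α i) (1 : L)) c' = P := hc'.symm
      rw [this, sub_self]
      exact Ideal.zero_mem _)
  funext i
  have h4 := h3 i
  have h5 : (X : Fin n → MvPolynomial (Fin n) L) '' {t | t.1 < 0} = ∅ := by
    rw [Set.image_eq_empty]
    ext t
    simp
  rw [h5, Ideal.span_empty, Ideal.mem_bot] at h4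
  exact sub_eq_zero.1 h4

end Pool.Agent.PC
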