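import Pool.Agent.Lib.MP_410da7_agP.Spec

/-!
# Module G: a nontrivial curve with at most one common zero can be made zero free
-/

set_option autoImplicit false

namespace Pool.Agent.PC

open MvPolynomial

noncomputable section

namespace GM

/-- polynomials without common zero generate the unit ideal -/
theorem span_top {N : ℕ} {L : Type} [Field L] [IsAlgClosed L] (γ : Fin N → Polynomial L)
    (h : ∀ t : L, ∃ i, (γ i).eval t ≠ 0) : Ideal.span (Set.range γ) = ⊤ := by
  classical
  obtain ⟨g, hg⟩ := (IsPrincipalIdealRing.principal (Ideal.span (Set.range γ))).principal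
  have hdvd : ∀ i, g ∣ γ i := fun i => by
    have h1 : γ i ∈ Ideal.span (Set.range γ) := Ideal.subset_span ⟨i, rfl⟩
    rw [hg] at h1
    exact Ideal.mem_span_singleton.1 h1
  have hu : IsUnit g := by
    rw [Polynomial.isUnit_iff_degree_eq_zero]
    by_contra hd
    obtain ⟨t, ht⟩ := IsAlgClosed.exists_root g hd
    obtain ⟨i, hi⟩ := h t
    obtain ⟨c, hc⟩ := hdvd i
    apply hi
    rw [hc, Polynomial.eval_mul, ht.eq_zero, zero_mul]
  rw [hg]
  exact Ideal.span_singleton_eq_top.2 hu

/-- weighted homogeneity -/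
theorem aeval_smul {N : ℕ} (w : Fin N → ℕ) (n : ℕ) (P : MvPolynomial (Fin N) ℂ)
    (hP : P.IsWeightedHomogeneous w n) {B : Type} [CommRing B] [Algebra ℂ B] (s : B)
    (y : Fin N → B) :
    aeval (fun i => s ^ w i * y i) P = s ^ n * aeval y P := by
  classical
  rw [aeval_def, aeval_def, eval₂_eq, eval₂_eq, Finset.mul_sum]
  refine Finset.sum_congr rfl fun m hm => ?_
  have hw : Finsupp.weight w m = n := hP (by simpa using hm)
  have h1 : ∏ i ∈ m.support, (s ^ w i * y i) ^ m i = s ^ n * ∏ i ∈ m.support, y i ^ m i := by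
    rw [← hw, Finsupp.weight_apply, Finsupp.sum]
    simp_rw [mul_pow]
    rw [Finset.prod_mul_distrib]
    congr 1
    rw [← Finset.prod_pow_eq_pow_sum]
    refine Finset.prod_congr rfl fun i _ => ?_
    rw [← pow_mul, smul_eq_mul, mul_comm]
  rw [h1]
  ring

/-- substitution in a curve -/
theorem aeval_comp {N : ℕ} {L : Type} [Field L] [Algebra ℂ L] (γ : Fin N → Polynomial L)
    (q : Polynomial L) (P : MvPolynomial (Fin N) ℂ) :
    aeval (fun i => (γ i).comp q) P = (aeval γ P).comp q := by
  have h := (MvPolynomial.comp_aeval_apply (R := ℂ) (φ := (Polynomial.aeval q : Polynomial L →ₐ[L] Polynomial L).restrictScalars ℂ) γ P)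
  have h2 : ∀ Q : Polynomial L, (((Polynomial.aeval q : Polynomial L →ₐ[L] Polynomial L).restrictScalars ℂ) : Polynomial L →ₐ[ℂ] Polynomial L) Q = Q.comp q := by
    intro Q
    rfl
  simp only [h2] at h
  exact h.symm

end GM

open GM in
theorem stmtG : StmtG := by
  intro N r w d f hw hf L _ _ _ p hp γ hγ hnt ht0
  classical
  obtain ⟨t0, ht0⟩ := ht0
  obtain ⟨i1, j1, -⟩ : ∃ i j, ¬ (Polynomial.C (p j ^ w i) * γ i ^ w j =
      Polynomial.C (p i ^ w j) * γ j ^ w i) := by
    by_contra hcon
    push Not at hcon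
    exact hnt hcon
  have hne : ∀ i, γ i ≠ 0 := fun i h0 => hp i (by rw [← hγ.zero i, h0, Polynomial.eval_zero])
  by_cases hz : ∃ t, ∀ i, (γ i).eval t = 0
  swap
  · push Not at hz
    refine ⟨γ, hγ, span_top γ hz, ?_⟩
    by_contra hcon
    push Not at hcon
    have hC : ∀ i, γ i = Polynomial.C (p i) := fun i => by
      have h1 := Polynomial.eq_C_of_natDegree_eq_zero (Nat.le_zero.1 (hcon i))
      rw [h1, Polynomial.coeff_zero_eq_eval_zero, hγ.zero i]
    apply hnt
    intro i j
    rw [hC i, hC j]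
    simp only [Polynomial.C_pow]
    ring
  -- the common zero is `t0`
  obtain ⟨t1, ht1⟩ := hz
  have ht10 : t1 = t0 := ht0 t1 ht1
  subst ht10
  have ht00 : t1 ≠ 0 := by
    intro h
    apply hp i1
    rw [← hγ.zero i1]
    have h2 := ht1 i1
    rwa [h] at h2
  -- multiplicities
  set W : ℕ := ∏ i, w i with hW
  have hWpos : 0 < W := Finset.prod_pos fun i _ => hw i
  let W' : Fin N → ℕ := fun i => ∏ j ∈ Finset.univ.erase i, w j
  have hW' : ∀ i, W' i * w i = W := fun i =>
    Finset.prod_erase_mul Finset.univ w (Finset.mem_univ i)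
  let v : Fin N → ℕ := fun i => (γ i).rootMultiplicity t1
  let e : Fin N → ℕ := fun i => v i * W' i
  obtain ⟨i0, -, hi0⟩ := Finset.exists_min_image Finset.univ e ⟨i1, Finset.mem_univ i1⟩
  set l : ℕ := e i0 with hl
  have hle : ∀ i, l ≤ e i := fun i => hi0 i (Finset.mem_univ i)
  have hfac : ∀ i, ∃ q, γ i = (Polynomial.X - Polynomial.C t1) ^ v i * q ∧
      ¬ (Polynomial.X - Polynomial.C t1) ∣ q := fun i =>
    Polynomial.exists_eq_pow_rootMultiplicity_mul_and_not_dvd (γ i) (hne i) t1
  choose h hh hndvd using hfac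
  have heval : ∀ i, (h i).eval t1 ≠ 0 := fun i h0 =>
    hndvd i (Polynomial.dvd_iff_isRoot.2 h0)
  -- the substitution
  let q : Polynomial L := Polynomial.C t1 + Polynomial.X ^ W
  have hqe : ∀ u, q.eval u = t1 + u ^ W := fun u => by simp [q]
  let g : Fin N → Polynomial L := fun i => Polynomial.X ^ (w i * (e i - l)) * (h i).comp q
  have hg : ∀ i, (γ i).comp q = (Polynomial.X ^ l) ^ w i * g i := fun i => by
    have h1 : (γ i).comp q = (Polynomial.X ^ W) ^ v i * (h i).comp q := by
      conv_lhs => rw [hh i]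
      rw [Polynomial.mul_comp, Polynomial.pow_comp, Polynomial.sub_comp, Polynomial.X_comp,
        Polynomial.C_comp]
      congr 2
      simp [q]
    rw [h1]
    show _ = (Polynomial.X ^ l) ^ w i * (Polynomial.X ^ (w i * (e i - l)) * (h i).comp q)
    rw [← mul_assoc, ← pow_mul, ← pow_mul, ← pow_add]
    congr 2
    have h2 : l * w i + w i * (e i - l) = w i * e i := by
      rw [mul_comm l, ← mul_add]
      congr 1
      have := hle i
      omega
    rw [h2, ← hW' i]
    show W' i * w i * v i = w i * (v i * W' i)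
    ring
  have hge : ∀ i u, (γ i).eval (t1 + u ^ W) = (u ^ l) ^ w i * (g i).eval u := fun i u => by
    have h1 := congrArg (Polynomial.eval u) (hg i)
    rw [Polynomial.eval_comp, hqe] at h1
    rw [h1]
    simp
  -- no common zero of `g`
  have hgz : ∀ u, ∃ i, (g i).eval u ≠ 0 := by
    intro u
    by_contra hcon
    push Not at hcon
    by_cases hu : u = 0
    · subst hu
      have h1 := hcon i0
      have h2 : (g i0).eval 0 = (h i0).eval t1 := by
        show (Polynomial.X ^ (w i0 * (e i0 - l)) * (h i0).comp q).eval 0 = _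
        rw [hl, Nat.sub_self, mul_zero, pow_zero, one_mul, Polynomial.eval_comp, hqe,
          zero_pow hWpos.ne', add_zero]
      rw [h2] at h1
      exact heval i0 h1
    · have h1 : t1 + u ^ W = t1 := ht0 _ fun i => by rw [hge, hcon i, mul_zero]
      have h2 : u ^ W = 0 := by simpa using h1
      exact hu (pow_eq_zero_iff hWpos.ne' |>.1 h2)
  -- `g` is on `V`
  have hgf : ∀ k, aeval g (f k) = 0 := fun k => by
    have h1 : aeval (fun i => (γ i).comp q) (f k) = 0 := by
      rw [aeval_comp, hγ.mem k, Polynomial.zero_comp]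
    have h2 : (fun i => (γ i).comp q) = fun i => (Polynomial.X ^ l : Polynomial L) ^ w i * g i :=
      funext hg
    rw [h2, aeval_smul w (d k) (f k) (hf k)] at h1
    rcases mul_eq_zero.1 h1 with h3 | h3
    · exact absurd h3 (pow_ne_zero _ (pow_ne_zero _ Polynomial.X_ne_zero))
    · exact h3
  -- the shift
  obtain ⟨u0, hu0⟩ := IsAlgClosed.exists_pow_nat_eq (-t1) hWpos
  have hu00 : u0 ≠ 0 := by
    intro h0
    rw [h0, zero_pow hWpos.ne'] at hu0
    exact ht00 (neg_eq_zero.1 hu0.symm)
  let s : Polynomial L := Polynomial.X + Polynomial.C u0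
  have hse : ∀ u, s.eval u = u + u0 := fun u => by simp [s]
  let G : Fin N → Polynomial L := fun i => (Polynomial.C (u0 ^ l)) ^ w i * (g i).comp s
  have hGe : ∀ i u, (G i).eval u = (u0 ^ l) ^ w i * (g i).eval (u + u0) := fun i u => by
    simp only [G, Polynomial.eval_mul, Polynomial.eval_pow, Polynomial.eval_C,
      Polynomial.eval_comp, hse]
  have hp0 : ∀ i, p i = (u0 ^ l) ^ w i * (g i).eval u0 := fun i => by
    rw [← hge, hu0, ← hγ.zero i]
    congr 1
    ring
  refine ⟨G, ⟨fun i => by rw [hGe, zero_add, ← hp0], fun k => ?_⟩, span_top G fun t => ?_, ?_⟩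
  · show aeval (fun i => (Polynomial.C (u0 ^ l)) ^ w i * (g i).comp s) (f k) = 0
    rw [aeval_smul w (d k) (f k) (hf k), aeval_comp, hgf k, Polynomial.zero_comp, mul_zero]
  · obtain ⟨i, hi⟩ := hgz (t + u0)
    exact ⟨i, by
      rw [hGe]
      exact mul_ne_zero (pow_ne_zero _ (pow_ne_zero _ hu00)) hi⟩
  · by_contra hcon
    push Not at hcon
    have hc : ∀ i u, (g i).eval u = (g i).eval u0 := fun i u => by
      have h1 := Polynomial.eq_C_of_natDegree_eq_zero (Nat.le_zero.1 (hcon i))
      have h2 : (G i).eval (u - u0) = (G i).eval 0 := by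
        rw [h1, Polynomial.eval_C, Polynomial.eval_C]
      rw [hGe, hGe, sub_add_cancel, zero_add] at h2
      exact mul_left_cancel₀ (pow_ne_zero _ (pow_ne_zero _ hu00)) h2
    apply hnt
    intro i j
    apply Polynomial.funext
    intro t
    obtain ⟨u, hu⟩ := IsAlgClosed.exists_pow_nat_eq (t - t1) hWpos
    have ht : t = t1 + u ^ W := by rw [hu]; ring
    simp only [Polynomial.eval_mul, Polynomial.eval_pow, Polynomial.eval_C]
    rw [ht, hge, hge, hc i u, hc j u, hp0 i, hp0 j]
    simp only [mul_pow, ← pow_mul]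
    ring

end

end Pool.Agent.PC
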