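import Pool.Agent.Lib.MP_410da7_agP.Spec3

/-!
# Generic points of components of systems of polynomial equations

The lower bound for the height of the kernel of `L[x_s] → F`, `x_s ↦ b_s`, is obtained from a chain of
kernels: the `x_s` which are not in a maximal algebraically independent subfamily are substituted
one after the other.
-/

set_option autoImplicit false

namespace Pool.Agent.PC

open MvPolynomial

namespace GenM

section

variable {σ L F : Type} [Field L] [Field F] [Algebra L F] (b : σ → F)

open Classical in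
/-- the values at the partly substituted point -/
noncomputable def z (U : Set σ) (s : σ) : MvPolynomial σ F := if s ∈ U then C (b s) else X s

/-- substitution of the variables in `U` -/
noncomputable def ψ (L : Type) [Field L] [Algebra L F] (U : Set σ) :
    MvPolynomial σ L →ₐ[L] MvPolynomial σ F := aeval (z b U)

theorem z_mem {U : Set σ} {s : σ} (hs : s ∈ U) : z b U s = C (b s) := if_pos hs

theorem z_notMem {U : Set σ} {s : σ} (hs : s ∉ U) : z b U s = X s := if_neg hs

theorem indep (U0 U : Set σ) (hU : U0 ⊆ U) {a : σ} (ha : a ∉ U) (h0 : AlgebraicIndepOn L b U0) :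
    AlgebraicIndepOn L (z b U) (insert a U0) := by
  have ha0 : a ∉ U0 := fun h => ha (hU h)
  rw [AlgebraicIndepOn.insert_iff ha0]
  have hC : Function.Injective (IsScalarTower.toAlgHom L F (MvPolynomial σ F)) := C_injective σ F
  refine ⟨?_, ?_⟩
  · have h1 : AlgebraicIndependent L (fun s : U0 =>
        IsScalarTower.toAlgHom L F (MvPolynomial σ F) (b s)) :=
      h0.map' hC
    have h2 : (fun s : U0 => z b U s) = fun s : U0 =>
        IsScalarTower.toAlgHom L F (MvPolynomial σ F) (b s) := by
      funext s
      rw [z_mem b (hU s.2)]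
      rfl
    change AlgebraicIndependent L (fun s : U0 => z b U s)
    rw [h2]
    exact h1
  · rw [z_notMem b ha]
    have hle : Algebra.adjoin L (z b U '' U0) ≤
        (IsScalarTower.toAlgHom L F (MvPolynomial σ F)).range := by
      rw [Algebra.adjoin_le_iff]
      rintro _ ⟨s, hs, rfl⟩
      exact ⟨b s, by rw [z_mem b (hU hs)]; rfl⟩
    let f : Algebra.adjoin L (z b U '' U0) →+* F :=
      (constantCoeff (σ := σ) (R := F)).comp (Algebra.adjoin L (z b U '' U0)).subtype
    have hf : ∀ y : Algebra.adjoin L (z b U '' U0), C (f y) = (y : MvPolynomial σ F) := by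
      intro y
      obtain ⟨c, hc⟩ := hle y.2
      have hc' : C c = (y : MvPolynomial σ F) := hc
      change C (constantCoeff (y : MvPolynomial σ F)) = _
      rw [← hc', constantCoeff_C]
    refine (transcendental_X F a).of_ringHom_of_comp_eq (R := Algebra.adjoin L (z b U '' U0)) f
      (RingHom.id (MvPolynomial σ F)) ?_ ?_
    · intro y y' hyy
      apply Subtype.ext
      rw [← hf y, ← hf y', hyy]
    · ext y : 1
      exact hf y

theorem ker_lt (U0 U : Set σ) (hU : U0 ⊆ U) {a : σ} (ha : a ∉ U) (h0 : AlgebraicIndepOn L b U0)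
    (h1 : ¬ AlgebraicIndepOn L b (insert a U0)) :
    RingHom.ker (ψ b L U) < RingHom.ker (ψ b L (insert a U)) := by
  classical
  refine lt_of_le_of_ne ?_ ?_
  · intro P hP
    rw [RingHom.mem_ker] at hP ⊢
    have hcomp : ((aeval (z b {a}) : MvPolynomial σ F →ₐ[F] MvPolynomial σ F).restrictScalars
        L).comp (ψ b L U) = ψ b L (insert a U) := by
      ext s : 1
      simp only [ψ, AlgHom.comp_apply, aeval_X, AlgHom.restrictScalars_apply]
      by_cases hs : s ∈ U
      · rw [z_mem b hs, z_mem b (Set.mem_insert_of_mem a hs), aeval_C]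
        rfl
      · rw [z_notMem b hs, aeval_X]
        by_cases hsa : s = a
        · subst hsa
          rw [z_mem b (Set.mem_singleton s), z_mem b (Set.mem_insert s U)]
        · rw [z_notMem b (by simpa using hsa), z_notMem b (by simp [hsa, hs])]
    rw [← hcomp, AlgHom.comp_apply, hP, map_zero]
  · intro heq
    have h2 : ¬ ∀ Q : MvPolynomial (insert a U0 : Set σ) L,
        aeval (fun s : (insert a U0 : Set σ) => b s) Q = 0 → Q = 0 := fun h =>
      h1 (algebraicIndependent_iff.2 h)
    push Not at h2
    obtain ⟨Q, hQ, hQ0⟩ := h2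
    have h3 : ψ b L (insert a U) (rename Subtype.val Q) = 0 := by
      rw [ψ, aeval_rename]
      have h4 : (fun s : (insert a U0 : Set σ) => z b (insert a U) (s : σ)) =
          fun s : (insert a U0 : Set σ) =>
            IsScalarTower.toAlgHom L F (MvPolynomial σ F) (b s) := by
        funext s
        have hs : (s : σ) ∈ insert a U := Set.insert_subset_insert hU s.2
        rw [z_mem b hs]
        rfl
      change aeval (fun s : (insert a U0 : Set σ) => z b (insert a U) (s : σ)) Q = 0
      rw [h4]
      have h5 := MvPolynomial.comp_aeval_apply (fun s : (insert a U0 : Set σ) => b s)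
        (IsScalarTower.toAlgHom L F (MvPolynomial σ F)) Q
      rw [← h5, hQ, map_zero]
    have h4 : rename Subtype.val Q ∈ RingHom.ker (ψ b L U) := by
      rw [heq, RingHom.mem_ker]
      exact h3
    rw [RingHom.mem_ker, ψ, aeval_rename] at h4
    exact hQ0 (algebraicIndependent_iff.1 (indep b U0 U hU ha h0) Q h4)

theorem le_height (U0 : Set σ) (h0 : AlgebraicIndepOn L b U0)
    (h1 : ∀ a ∉ U0, ¬ AlgebraicIndepOn L b (insert a U0)) (T : Finset σ)
    (hT : Disjoint (T : Set σ) U0) :
    (T.card : ℕ∞) ≤ (RingHom.ker (ψ b L (U0 ∪ T))).height := by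
  classical
  induction T using Finset.induction_on with
  | empty => simp
  | insert a T ha ih =>
    rw [Finset.coe_insert] at hT
    have ha0 : a ∉ U0 := Set.disjoint_left.1 hT (Set.mem_insert a _)
    have hT' : Disjoint (T : Set σ) U0 := hT.mono_left (Set.subset_insert a _)
    have haU : a ∉ U0 ∪ (T : Set σ) := by
      rintro (h | h)
      · exact ha0 h
      · exact ha h
    have hlt := ker_lt b U0 (U0 ∪ T) Set.subset_union_left haU h0 (h1 a ha0)
    have p1 : (RingHom.ker (ψ b L (U0 ∪ T))).IsPrime := RingHom.ker_isPrime _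
    have p2 : (RingHom.ker (ψ b L (insert a (U0 ∪ T)))).IsPrime := RingHom.ker_isPrime _
    have h3 := Ideal.height_add_one_le_of_lt_of_isPrime hlt
    have e : U0 ∪ ((insert a T : Finset σ) : Set σ) = insert a (U0 ∪ T) := by
      rw [Finset.coe_insert, Set.union_insert]
    rw [Finset.card_insert_of_notMem ha, Nat.cast_add, Nat.cast_one, e]
    exact (add_le_add_left (ih hT') 1).trans h3

/-- The dimension inequality. -/
theorem card_le [Fintype σ] :
    ∃ U0 : Finset σ, AlgebraicIndepOn L b (U0 : Set σ) ∧
      (Fintype.card σ : ℕ∞) ≤ U0.card +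
        (RingHom.ker (aeval b : MvPolynomial σ L →ₐ[L] F)).height := by
  classical
  have hempty : AlgebraicIndepOn L b ((∅ : Finset σ) : Set σ) := by
    rw [Finset.coe_empty]
    exact algebraicIndependent_empty_type_iff.2 (algebraMap L F).injective
  obtain ⟨U0, hU0, hmax⟩ := Finset.exists_max_image
    ((Finset.univ : Finset (Finset σ)).filter fun U : Finset σ => AlgebraicIndepOn L b (U : Set σ))
    Finset.card ⟨∅, Finset.mem_filter.2 ⟨Finset.mem_univ _, hempty⟩⟩
  rw [Finset.mem_filter] at hU0
  refine ⟨U0, hU0.2, ?_⟩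
  have h1 : ∀ a ∉ (U0 : Set σ), ¬ AlgebraicIndepOn L b (insert a (U0 : Set σ)) := by
    intro a ha hind
    have := hmax (insert a U0) (Finset.mem_filter.2 ⟨Finset.mem_univ _, by
      rw [Finset.coe_insert]
      exact hind⟩)
    rw [Finset.card_insert_of_notMem (by simpa using ha)] at this
    omega
  have h2 := le_height b (U0 : Set σ) hU0.2 h1 U0ᶜ (by
    rw [Finset.disjoint_coe]
    exact disjoint_compl_left)
  have h3 : (U0 : Set σ) ∪ ((U0ᶜ : Finset σ) : Set σ) = Set.univ := by
    rw [Finset.coe_compl, Set.union_compl_self]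
  rw [h3] at h2
  have h4 : RingHom.ker (ψ b L Set.univ) =
      RingHom.ker (aeval b : MvPolynomial σ L →ₐ[L] F) := by
    ext P
    rw [RingHom.mem_ker, RingHom.mem_ker]
    have h5 : ψ b L Set.univ = (IsScalarTower.toAlgHom L F (MvPolynomial σ F)).comp (aeval b) := by
      ext s : 1
      simp only [ψ, AlgHom.comp_apply, aeval_X]
      rw [z_mem b (Set.mem_univ s)]
      rfl
    rw [h5, AlgHom.comp_apply]
    exact map_eq_zero_iff (IsScalarTower.toAlgHom L F (MvPolynomial σ F)) (C_injective σ F)
  rw [h4] at h2
  have h5 : Fintype.card σ = U0.card + U0ᶜ.card := (Finset.card_add_card_compl U0).symm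
  rw [h5, Nat.cast_add]
  exact add_le_add_right h2 _

end

end GenM

open GenM in
theorem stmtGen : StmtGen := by
  classical
  intro σ τ _ _ L _ _ E g a hE hg
  let I : Ideal (MvPolynomial σ L) := Ideal.span (Set.range E)
  let m : Ideal (MvPolynomial σ L) := RingHom.ker (eval a)
  have hm : m.IsPrime := RingHom.ker_isPrime _
  have hIm : I ≤ m := by
    rw [Ideal.span_le]
    rintro _ ⟨t, rfl⟩
    exact hE t
  obtain ⟨q, hq, hqm⟩ := Ideal.exists_minimalPrimes_le hIm
  have hqp : q.IsPrime := hq.1.1
  let F : Type := FractionRing (MvPolynomial σ L ⧸ q)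
  let ι : MvPolynomial σ L →ₐ[L] F :=
    (IsScalarTower.toAlgHom L (MvPolynomial σ L ⧸ q) F).comp (Ideal.Quotient.mkₐ L q)
  let b : σ → F := fun s => ι (X s)
  have hι : ι = aeval b := by
    ext s : 1
    rw [aeval_X]
  have hker : ∀ P, aeval b P = 0 ↔ P ∈ q := by
    intro P
    rw [← hι]
    change algebraMap (MvPolynomial σ L ⧸ q) F (Ideal.Quotient.mk q P) = 0 ↔ _
    rw [map_eq_zero_iff _ (IsFractionRing.injective (MvPolynomial σ L ⧸ q) F),
      Ideal.Quotient.eq_zero_iff_mem]
  refine ⟨F, inferInstance, inferInstance, b, ?_, ?_, ?_, ?_⟩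
  · intro t
    rw [hker]
    exact hq.1.2 (Ideal.subset_span ⟨t, rfl⟩)
  · rw [Ne, hker]
    intro h
    exact hg (hqm h)
  · rw [eq_top_iff]
    intro y _
    obtain ⟨u, v, hv, rfl⟩ := IsFractionRing.div_surjective (A := MvPolynomial σ L ⧸ q) y
    have hmem : ∀ u : MvPolynomial σ L ⧸ q, algebraMap (MvPolynomial σ L ⧸ q) F u ∈
        IntermediateField.adjoin L (Set.range b) := by
      intro u
      obtain ⟨P, rfl⟩ := Ideal.Quotient.mk_surjective u
      have h1 : algebraMap (MvPolynomial σ L ⧸ q) F (Ideal.Quotient.mk q P) = aeval b P := by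
        rw [← hι]
        rfl
      rw [h1]
      have h2 : aeval b P ∈ Algebra.adjoin L (Set.range b) := by
        rw [Algebra.adjoin_range_eq_range_aeval]
        exact ⟨P, rfl⟩
      exact IntermediateField.algebra_adjoin_le_adjoin L _ h2
    exact div_mem (hmem u) (hmem v)
  · obtain ⟨U0, hU0, hle⟩ := card_le (L := L) b
    have h1 : RingHom.ker (aeval b : MvPolynomial σ L →ₐ[L] F) = q := by
      ext P
      rw [RingHom.mem_ker, hker]
    rw [h1] at hle
    have h2 : q.height ≤ (Set.range E).ncard :=
      Ideal.height_le_card_of_mem_minimalPrimes_span (Set.finite_range E) hq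
    have h3 : (Set.range E).ncard ≤ Fintype.card τ := by
      rw [← Set.image_univ]
      refine (Set.ncard_image_le Set.finite_univ).trans ?_
      rw [Set.ncard_univ, Nat.card_eq_fintype_card]
    have h4 : Fintype.card σ ≤ U0.card + Fintype.card τ := by
      have h5 : (Fintype.card σ : ℕ∞) ≤ (U0.card : ℕ∞) + (Fintype.card τ : ℕ∞) :=
        hle.trans (add_le_add_right (h2.trans (by exact_mod_cast h3)) _)
      exact_mod_cast h5
    have h6 := AlgebraicIndependent.cardinalMk_le_trdeg hU0
    have h7 : (U0.card : Cardinal) ≤ Algebra.trdeg L F := by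
      refine le_trans (le_of_eq ?_) h6
      simp
    calc (Fintype.card σ : Cardinal) ≤ ((U0.card + Fintype.card τ : ℕ) : Cardinal) := by
          exact_mod_cast h4
      _ = (U0.card : Cardinal) + (Fintype.card τ : Cardinal) := by push_cast; rfl
      _ ≤ _ := add_le_add_left h7 _

end Pool.Agent.PC
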