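import Pool.Agent.Lib.MP_410da7_agP.Spec2

/-!
# Module Hil: the rank of `L[x]` over `L[E]` is `∏ deg E / ∏ weights`
-/

set_option autoImplicit false

namespace Pool.Agent.PC

open MvPolynomial

noncomputable section

namespace HilM

/-! ### Generating functions -/

/-- generating function of a set with degrees -/
def gf {κ : Type} (deg : κ → ℕ) : PowerSeries ℤ :=
  PowerSeries.mk fun q => (Nat.card {k : κ // deg k = q} : ℤ)

theorem coeff_gf {κ : Type} (deg : κ → ℕ) (q : ℕ) :
    PowerSeries.coeff q (gf deg) = (Nat.card {k : κ // deg k = q} : ℤ) := by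
  simp [gf]

/-- geometric series -/
def geo (a : ℕ) : PowerSeries ℤ := PowerSeries.mk fun j => if a ∣ j then 1 else 0

theorem geo_mul (a : ℕ) (ha : 0 < a) : geo a * (1 - PowerSeries.X ^ a) = 1 := by
  ext j
  rw [mul_sub, mul_one, map_sub, PowerSeries.coeff_mul_X_pow', PowerSeries.coeff_one]
  simp only [geo, PowerSeries.coeff_mk]
  by_cases hj : a ≤ j
  · have h1 : a ∣ j - a ↔ a ∣ j := by
      rw [Nat.dvd_sub_self_right]
      constructor
      · rintro (h | h)
        · exact h
        · have : j = a := le_antisymm h hj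
          exact this ▸ dvd_rfl
      · exact fun h => Or.inl h
    have h2 : j ≠ 0 := by omega
    simp [hj, h1, h2]
  · have h1 : a ∣ j ↔ j = 0 := by
      constructor
      · intro h
        by_contra h0
        exact hj (Nat.le_of_dvd (Nat.pos_of_ne_zero h0) h)
      · rintro rfl
        exact dvd_zero a
    simp [hj, h1]

theorem weight_eq {τ : Type} [Fintype τ] (ω : τ → ℕ) (α : τ →₀ ℕ) :
    Finsupp.weight ω α = ∑ t, α t * ω t := by
  rw [Finsupp.weight_apply, Finsupp.sum_fintype]
  · simp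
  · simp

theorem finite_fib {τ : Type} [Fintype τ] (ω : τ → ℕ) (hω : ∀ t, 0 < ω t) (q : ℕ) :
    Finite {α : τ →₀ ℕ // Finsupp.weight ω α = q} := by
  have h := Finsupp.finite_of_nat_weight_le ω (fun t => (hω t).ne') q
  exact (h.subset (fun α (hα : Finsupp.weight ω α = q) => hα.le)).to_subtype

theorem prod_geo {τ : Type} [Fintype τ] (ω : τ → ℕ) (hω : ∀ t, 0 < ω t) :
    gf (fun α : τ →₀ ℕ => Finsupp.weight ω α) = ∏ t, geo (ω t) := by
  classical
  ext q
  rw [coeff_gf, PowerSeries.coeff_prod]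
  simp only [geo, PowerSeries.coeff_mk]
  have hprod : ∀ l : τ →₀ ℕ, (∏ t, (if ω t ∣ l t then (1 : ℤ) else 0)) =
      if (∀ i ∈ Finset.univ, ω i ∣ l i) then 1 else 0 := fun l => by
    rw [Finset.prod_boole]
    congr 1
  rw [Finset.sum_congr rfl fun l _ => hprod l, ← Finset.sum_filter, Finset.sum_const,
    nsmul_eq_mul, mul_one]
  congr 1
  set S : Finset (τ →₀ ℕ) :=
    (Finset.finsuppAntidiag Finset.univ q).filter (fun l => ∀ i ∈ Finset.univ, ω i ∣ l i) with hS
  have hmem : ∀ l : τ →₀ ℕ, l ∈ S ↔ (∑ t, l t = q ∧ ∀ t, ω t ∣ l t) := fun l => by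
    rw [hS, Finset.mem_filter, Finset.mem_finsuppAntidiag]
    simp
  have h1 : Nat.card {l : τ →₀ ℕ // l ∈ S} = S.card := Nat.subtype_card S fun _ => Iff.rfl
  rw [← h1]
  let F : {α : τ →₀ ℕ // Finsupp.weight ω α = q} → {l : τ →₀ ℕ // l ∈ S} := fun α =>
    ⟨Finsupp.equivFunOnFinite.symm (fun t => α.1 t * ω t), by
      rw [hmem]
      refine ⟨?_, fun t => ?_⟩
      · have h2 := α.2
        rw [weight_eq] at h2
        exact h2
      · exact dvd_mul_left _ _⟩
  refine Nat.card_congr (Equiv.ofBijective F ⟨?_, ?_⟩)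
  · intro α β h
    apply Subtype.ext
    ext t
    have h2 := congrArg (fun l : {l : τ →₀ ℕ // l ∈ S} => l.1 t) h
    have h3 : α.1 t * ω t = β.1 t * ω t := h2
    exact Nat.eq_of_mul_eq_mul_right (hω t) h3
  · rintro ⟨l, hl⟩
    have hl' := (hmem l).1 hl
    refine ⟨⟨Finsupp.equivFunOnFinite.symm (fun t => l t / ω t), ?_⟩, ?_⟩
    · rw [weight_eq, ← hl'.1]
      refine Finset.sum_congr rfl fun t _ => ?_
      exact Nat.div_mul_cancel (hl'.2 t)
    · apply Subtype.ext
      ext t
      exact Nat.div_mul_cancel (hl'.2 t)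

/-- the Hilbert series of a polynomial ring -/
theorem gf_mul {τ : Type} [Fintype τ] (ω : τ → ℕ) (hω : ∀ t, 0 < ω t) :
    gf (fun α : τ →₀ ℕ => Finsupp.weight ω α) * ∏ t, (1 - PowerSeries.X ^ ω t) = 1 := by
  rw [prod_geo ω hω, ← Finset.prod_mul_distrib]
  exact Finset.prod_eq_one fun t _ => geo_mul _ (hω t)

/-! ### Homogeneous bases -/

theorem card_eq {σ : Type} {L : Type} [Field L] (ws : σ → ℕ) {κ : Type}
    (B : Module.Basis κ L (MvPolynomial σ L)) (deg : κ → ℕ)
    (hB : ∀ k, (B k).IsWeightedHomogeneous ws (deg k)) (q : ℕ) :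
    Nat.card {k : κ // deg k = q} =
      Module.finrank L (weightedHomogeneousSubmodule L ws q) := by
  classical
  let g : {k : κ // deg k = q} → MvPolynomial σ L := fun k => B k
  have hli : LinearIndependent L g := B.linearIndependent.comp _ Subtype.val_injective
  have hspan : Submodule.span L (Set.range g) = weightedHomogeneousSubmodule L ws q := by
    apply le_antisymm
    · rw [Submodule.span_le]
      rintro _ ⟨k, rfl⟩
      have h := hB k
      rw [k.2] at h
      exact h
    · intro P hP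
      have hP' : P.IsWeightedHomogeneous ws q := hP
      have h1 : P = weightedHomogeneousComponent ws q P :=
        hP'.weightedHomogeneousComponent_same.symm
      have h2 : P = ∑ k ∈ (B.repr P).support, (B.repr P) k • B k := by
        conv_lhs => rw [← B.linearCombination_repr P]
        rfl
      rw [h1, h2, map_sum]
      refine Submodule.sum_mem _ fun k _ => ?_
      rw [map_smul]
      refine Submodule.smul_mem _ _ ?_
      by_cases hk : deg k = q
      · have h3 : weightedHomogeneousComponent ws q (B k) = B k := by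
          have h4 := hB k
          rw [hk] at h4
          exact h4.weightedHomogeneousComponent_same
        rw [h3]
        exact Submodule.subset_span ⟨⟨k, hk⟩, rfl⟩
      · rw [(hB k).weightedHomogeneousComponent_ne q (fun h => hk h.symm)]
        exact Submodule.zero_mem _
  have h := Module.finrank_eq_nat_card_basis (Module.Basis.span hli)
  rw [← hspan, h]

/-! ### The basis `E^β b_i` -/

/-- the linear map `c ↦ ∑ c_i(E) b_i` -/
def psi {σ : Type} {L : Type} [Field L] {n m : ℕ} (E : Fin n → MvPolynomial σ L)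
    (b : Fin m → MvPolynomial σ L) :
    (Fin m → MvPolynomial (Fin n) L) →ₗ[L] MvPolynomial σ L where
  toFun c := ∑ i, aeval E (c i) * b i
  map_add' c c' := by
    simp only [Pi.add_apply, map_add, add_mul, Finset.sum_add_distrib]
  map_smul' a c := by
    simp only [Pi.smul_apply, map_smul, RingHom.id_apply, Finset.smul_sum, smul_mul_assoc]

theorem psi_apply {σ : Type} {L : Type} [Field L] {n m : ℕ} (E : Fin n → MvPolynomial σ L)
    (b : Fin m → MvPolynomial σ L) (c : Fin m → MvPolynomial (Fin n) L) :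
    psi E b c = ∑ i, aeval E (c i) * b i := rfl

theorem psi_bij {σ : Type} {L : Type} [Field L] {n m : ℕ} (E : Fin n → MvPolynomial σ L)
    (b : Fin m → MvPolynomial σ L)
    (h : ∀ P : MvPolynomial σ L, ∃! c : Fin m → MvPolynomial (Fin n) L,
      P = ∑ i, aeval E (c i) * b i) : Function.Bijective (psi E b) := by
  refine ⟨fun c c' hc => ?_, fun P => ?_⟩
  · exact (h (psi E b c)).unique rfl hc
  · obtain ⟨c, hc, -⟩ := h P
    exact ⟨c, hc.symm⟩

theorem series_eq {σ : Type} [Fintype σ] {L : Type} [Field L] (ws : σ → ℕ) {n m : ℕ}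
    (E : Fin n → MvPolynomial σ L) (dE : Fin n → ℕ) (hdE : ∀ t, 0 < dE t)
    (hE : ∀ t, (E t).IsWeightedHomogeneous ws (dE t))
    (b : Fin m → MvPolynomial σ L) (e : Fin m → ℕ)
    (hb : ∀ i, (b i).IsWeightedHomogeneous ws (e i))
    (h : ∀ P : MvPolynomial σ L, ∃! c : Fin m → MvPolynomial (Fin n) L,
      P = ∑ i, aeval E (c i) * b i) :
    gf (fun α : σ →₀ ℕ => Finsupp.weight ws α) =
      (∑ i, PowerSeries.X ^ e i) * gf (fun α : Fin n →₀ ℕ => Finsupp.weight dE α) := by
  classical
  let Ψ : (Fin m → MvPolynomial (Fin n) L) ≃ₗ[L] MvPolynomial σ L :=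
    LinearEquiv.ofBijective (psi E b) (psi_bij E b h)
  let B : Module.Basis (Σ _ : Fin m, (Fin n →₀ ℕ)) L (MvPolynomial σ L) :=
    (Pi.basis (fun _ : Fin m => MvPolynomial.basisMonomials (Fin n) L)).map Ψ
  have hB : ∀ k : (Σ _ : Fin m, (Fin n →₀ ℕ)), (B k).IsWeightedHomogeneous ws
      (e k.1 + Finsupp.weight dE k.2) := by
    rintro ⟨i, β⟩
    have h1 : B ⟨i, β⟩ = (∏ t, E t ^ β t) * b i := by
      show Ψ ((Pi.basis (fun _ : Fin m => MvPolynomial.basisMonomials (Fin n) L)) ⟨i, β⟩) = _
      rw [Pi.basis_apply]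
      show psi E b _ = _
      rw [psi_apply, Finset.sum_eq_single i]
      · rw [Pi.single_eq_same, coe_basisMonomials, aeval_monomial, map_one, one_mul,
          Finsupp.prod_fintype]
        intro t
        exact pow_zero _
      · intro j _ hj
        rw [Pi.single_eq_of_ne hj, map_zero, zero_mul]
      · intro hi
        exact absurd (Finset.mem_univ i) hi
    rw [h1]
    have h2 : e i + Finsupp.weight dE β = (∑ t, β t • dE t) + e i := by
      rw [weight_eq, add_comm]
      rfl
    show ((∏ t, E t ^ β t) * b i).IsWeightedHomogeneous ws (e i + Finsupp.weight dE β)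
    rw [h2]
    exact (IsWeightedHomogeneous.prod Finset.univ _ _ fun t _ => (hE t).pow (β t)).mul (hb i)
  ext q
  have hA := card_eq ws (MvPolynomial.basisMonomials σ L)
    (fun α : σ →₀ ℕ => Finsupp.weight ws α) (fun α => by
      rw [coe_basisMonomials]
      exact isWeightedHomogeneous_monomial ws α 1 rfl) q
  have hC := card_eq ws B (fun k => e k.1 + Finsupp.weight dE k.2) hB q
  rw [coeff_gf, hA, ← hC, Finset.sum_mul, map_sum]
  have h3 : ∀ i : Fin m, PowerSeries.coeff q (PowerSeries.X ^ e i *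
      gf (fun α : Fin n →₀ ℕ => Finsupp.weight dE α)) =
      (Nat.card {β : Fin n →₀ ℕ // e i + Finsupp.weight dE β = q} : ℤ) := fun i => by
    rw [PowerSeries.coeff_X_pow_mul']
    split_ifs with hi
    · rw [coeff_gf]
      congr 1
      refine Nat.card_congr (Equiv.subtypeEquivRight fun β => ?_)
      omega
    · have h4 : IsEmpty {β : Fin n →₀ ℕ // e i + Finsupp.weight dE β = q} :=
        ⟨fun β => hi (by have := β.2; omega)⟩
      rw [Nat.card_of_isEmpty]
      rfl
  rw [Finset.sum_congr rfl fun i _ => h3 i, ← Nat.cast_sum]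
  congr 1
  have h5 : ∀ i : Fin m, Finite {β : Fin n →₀ ℕ // e i + Finsupp.weight dE β = q} := fun i => by
    have h6 := Finsupp.finite_of_nat_weight_le dE (fun t => (hdE t).ne') q
    exact (h6.subset (fun β (hβ : e i + Finsupp.weight dE β = q) => by
      show Finsupp.weight dE β ≤ q
      omega)).to_subtype
  rw [← Nat.card_sigma]
  refine Nat.card_congr ⟨fun x => ⟨x.1.1, ⟨x.1.2, x.2⟩⟩, fun x => ⟨⟨x.1, x.2.1⟩, x.2.2⟩, ?_, ?_⟩
  · rintro ⟨⟨i, β⟩, h⟩
    rfl
  · rintro ⟨i, ⟨β, h⟩⟩
    rfl

end HilM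

open HilM in
theorem stmtHil : StmtHil := by
  intro σ _ n hn L _ ws hws E dE hdE hE m b e hb h
  classical
  have h1 := series_eq ws E dE hdE hE b e hb h
  have h2 := gf_mul ws hws
  have h3 := gf_mul dE hdE
  have h4 : (∏ t, (1 - PowerSeries.X ^ dE t) : PowerSeries ℤ) =
      (∑ i, PowerSeries.X ^ e i) * ∏ s, (1 - PowerSeries.X ^ ws s) := by
    calc (∏ t, (1 - PowerSeries.X ^ dE t) : PowerSeries ℤ)
        = (gf (fun α : σ →₀ ℕ => Finsupp.weight ws α) * ∏ t, (1 - PowerSeries.X ^ ws t)) *
            ∏ t, (1 - PowerSeries.X ^ dE t) := by rw [h2, one_mul]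
      _ = (∑ i, PowerSeries.X ^ e i) * (∏ s, (1 - PowerSeries.X ^ ws s)) *
            (gf (fun α : Fin n →₀ ℕ => Finsupp.weight dE α) *
              ∏ t, (1 - PowerSeries.X ^ dE t)) := by rw [h1]; ring
      _ = _ := by rw [h3, mul_one]
  have h5 : (∏ t, (1 - Polynomial.X ^ dE t) : Polynomial ℤ) =
      (∑ i, Polynomial.X ^ e i) * ∏ s, (1 - Polynomial.X ^ ws s) := by
    apply Polynomial.coe_injective ℤ
    rw [← Polynomial.coeToPowerSeries.ringHom_apply, ← Polynomial.coeToPowerSeries.ringHom_apply,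
      map_mul, map_prod, map_sum, map_prod]
    simpa [Polynomial.coeToPowerSeries.ringHom_apply] using h4
  have h6 : ∀ a : ℕ, (1 - Polynomial.X ^ a : Polynomial ℤ) =
      (1 - Polynomial.X) * ∑ j ∈ Finset.range a, Polynomial.X ^ j := fun a =>
    (mul_neg_geom_sum _ _).symm
  simp_rw [h6, Finset.prod_mul_distrib, Finset.prod_const, Finset.card_univ, Fintype.card_fin,
    hn] at h5
  have h7 : ((1 - Polynomial.X) ^ n : Polynomial ℤ) ≠ 0 := by
    apply pow_ne_zero
    intro h0
    have h8 := congrArg (Polynomial.eval 0) h0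
    simp at h8
  have h9 : (∏ t, ∑ j ∈ Finset.range (dE t), Polynomial.X ^ j : Polynomial ℤ) =
      (∑ i, Polynomial.X ^ e i) * ∏ s, ∑ j ∈ Finset.range (ws s), Polynomial.X ^ j := by
    apply mul_left_cancel₀ h7
    rw [h5]
    ring
  have h10 := congrArg (Polynomial.eval 1) h9
  simp only [Polynomial.eval_prod, Polynomial.eval_mul, Polynomial.eval_finsetSum,
    Polynomial.eval_pow, Polynomial.eval_X, one_pow, Finset.sum_const, Finset.card_range,
    Finset.card_univ, Fintype.card_fin, nsmul_eq_mul, mul_one] at h10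
  exact_mod_cast h10.symm

end

end Pool.Agent.PC
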