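import Pool.Agent.Lib.MP_410da7_agP.Spec
import Pool.Agent.Lib.MP_410da7_ag.RegCase

/-!
# The logarithmic Kodaira dimension is nonnegative if the sum of the weights is at most the sum of the degrees
-/

set_option autoImplicit false

namespace Pool.Agent.PC

open MvPolynomial KaehlerDifferential WithZero Pool.Agent.Lib.MP_410da7_ag

namespace KodM

variable {N r n : ℕ} {K : Type} [Field K] [Algebra ℂ K]

/-- The index with the largest value relative to the weights. -/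
theorem exists_max (v : Valuation K ℤᵐ⁰) (x : Fin N → K) (w : Fin N → ℕ) (hw : ∀ i, 0 < w i)
    (hN : 0 < N) : ∃ j0 : Fin N, ∀ j, v (x j) ^ w j0 ≤ v (x j0) ^ w j := by
  classical
  set W : ℕ := ∏ i, w i with hW
  have hWp : 0 < W := Finset.prod_pos fun i _ => hw i
  have hdvd : ∀ i, w i * (W / w i) = W := fun i =>
    Nat.mul_div_cancel' (Finset.dvd_prod_of_mem w (Finset.mem_univ i))
  obtain ⟨j0, -, hj0⟩ := Finset.exists_max_image (Finset.univ : Finset (Fin N))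
    (fun j => v (x j) ^ (W / w j)) ⟨⟨0, hN⟩, Finset.mem_univ _⟩
  refine ⟨j0, fun j => ?_⟩
  have h1 := hj0 j (Finset.mem_univ j)
  have h2 : (v (x j) ^ (W / w j)) ^ (w j * w j0) ≤ (v (x j0) ^ (W / w j0)) ^ (w j * w j0) :=
    pow_le_pow_left₀ zero_le h1 _
  have e1 : (v (x j) ^ (W / w j)) ^ (w j * w j0) = (v (x j) ^ w j0) ^ W := by
    rw [← pow_mul, ← pow_mul]
    congr 1
    calc W / w j * (w j * w j0) = w j0 * (w j * (W / w j)) := by ring
      _ = w j0 * W := by rw [hdvd]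
  have e2 : (v (x j0) ^ (W / w j0)) ^ (w j * w j0) = (v (x j0) ^ w j) ^ W := by
    rw [← pow_mul, ← pow_mul]
    congr 1
    calc W / w j0 * (w j * w j0) = w j * (w j0 * (W / w j0)) := by ring
      _ = w j * W := by rw [hdvd]
  rw [e1, e2] at h2
  exact (pow_le_pow_iff_left₀ zero_le zero_le hWp.ne').1 h2

/-- The logarithmic differentials `dx_i/x_i`. -/
theorem residue_log (f : Fin r → MvPolynomial (Fin N) ℂ) (x : Fin N → K)
    (σ : Fin r ⊕ Fin n ≃ Fin N) (Ψ : Ω[K⁄ℂ] [⋀^Fin n]→ₗ[K] K) (hΨ : IsResidueForm f x σ Ψ)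
    (ι : Fin n → Fin N) : Ψ (fun i => dmap x ((x (ι i))⁻¹ • Pi.single (ι i) 1)) =
      (∏ i, (x (ι i))⁻¹) * aeval x (minorP f σ ι) := by
  classical
  refine (hΨ _).trans ?_
  have h1 : (Matrix.of fun i j => Sum.elim (fun k => grad x (f k))
      (fun i => (x (ι i))⁻¹ • (Pi.single (ι i) 1 : Fin N → K)) i (σ j)) =
      Matrix.of fun i j => (Sum.elim (fun _ : Fin r => (1 : K)) (fun i => (x (ι i))⁻¹) i) *
        (((aeval (R := ℂ) x : MvPolynomial (Fin N) ℂ →ₐ[ℂ] K).toRingHom.mapMatrix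
          (Matrix.of fun i j => Sum.elim (fun (k : Fin r) (l : Fin N) => pderiv l (f k))
            (fun (i : Fin n) (l : Fin N) => if l = ι i then 1 else 0) i (σ j))) i j) := by
    ext i j
    simp only [Matrix.of_apply, RingHom.mapMatrix_apply, Matrix.map_apply]
    generalize σ j = l
    rcases i with k | i
    · simp [grad]
    · simp only [Sum.elim_inr, Pi.smul_apply, smul_eq_mul]
      by_cases hl : l = ι i
      · subst hl
        simp
      · simp [hl]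
  rw [h1, Matrix.det_mul_column, Fintype.prod_sum_type]
  simp only [Sum.elim_inl, Sum.elim_inr, Finset.prod_const_one, one_mul]
  rw [← RingHom.map_det]
  rfl

end KodM

open KodM in
theorem stmtKod (hD : StmtDim) (hV : StmtVal) : StmtKod := by
  classical
  intro N r w d f hq K _ _ x hx hwd hneg
  obtain ⟨hx0, -, n, hrn, -, hres⟩ := hD N r w d f hq K x hx
  have h2 := hq.two_le
  obtain rfl : n = N - r := by omega
  let σ : Fin r ⊕ Fin (N - r) ≃ Fin N := finSumFinEquiv.trans (finCongr hrn)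
  obtain ⟨Ψ, hΨ0, hΨ⟩ := hres σ
  have hN : 0 < N := by omega
  let j1 : Fin N := ⟨0, hN⟩
  set Dd : ℕ := ∑ k, d k - ∑ i, w i with hDd
  have hF0 : x j1 ^ Dd ≠ 0 := pow_ne_zero _ (hx0 j1)
  refine hF0 (hneg (w j1) (hq.pos j1) Ψ (x j1 ^ Dd) hΨ0 ?_)
  intro v hv
  by_cases hcen : HasCenter (charts x) v
  · obtain ⟨j, hj⟩ := hcen
    have hxv : ∀ l, v (x l) ≤ 1 := fun l =>
      hj _ (Algebra.subset_adjoin (Or.inl ⟨l, rfl⟩))
    have hinv : v ((x j)⁻¹) ≤ 1 := hj _ (Algebra.subset_adjoin (Or.inr rfl))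
    have hvj : v (x j) = 1 := by
      refine le_antisymm (hxv j) ?_
      have hne : v (x j) ≠ 0 := (Valuation.ne_zero_iff v).2 (hx0 j)
      rw [map_inv₀] at hinv
      calc (1 : ℤᵐ⁰) = v (x j) * (v (x j))⁻¹ := (mul_inv_cancel₀ hne).symm
        _ ≤ v (x j) * 1 := mul_le_mul_right hinv _
        _ = v (x j) := mul_one _
    obtain ⟨ξ, hξ, hdet⟩ := reg_case (s := 1) v hv x f (fun _ => X j) (by
        intro u hu huj
        refine hq.smooth u ?_ hu
        rintro rfl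
        exact huj 0 (by simp)) hxv (by
        intro _
        rw [aeval_X]
        exact hvj) hx.zero σ
    have hΨv : v (Ψ (fun i => dmap x (ξ i))) = 1 := by
      rw [hΨ ξ]
      exact hdet
    have hΨne : Ψ (fun i => dmap x (ξ i)) ≠ 0 := by
      intro h0
      rw [h0, map_zero] at hΨv
      exact zero_ne_one hΨv
    refine ⟨fun i => dmap x (ξ i), x j1 ^ Dd / Ψ (fun i => dmap x (ξ i)) ^ w j1,
      fun i => regDiff_le_logDiff v (hξ i), fun _ => hξ, ?_, ?_⟩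
    · rw [map_div₀, map_pow, map_pow, hΨv, one_pow, div_one]
      exact pow_le_one' (hxv j1) _
    · rw [div_mul_cancel₀ _ (pow_ne_zero _ hΨne)]
  · obtain ⟨j0, hj0⟩ := exists_max v x w hq.pos hN
    obtain ⟨ι, hι⟩ := hV N r (N - r) w d f hq σ K x hx.zero v hv j0 (hx0 j0) hj0
    set θ : Fin (N - r) → Ω[K⁄ℂ] := fun i => dmap x ((x (ι i))⁻¹ • Pi.single (ι i) 1) with hθ
    have hΨθ : Ψ θ = (∏ i, (x (ι i))⁻¹) * aeval x (minorP f σ ι) := residue_log f x σ Ψ hΨ ι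
    set y : ℤᵐ⁰ := v (x j0) with hy
    have hy0 : 0 < y := zero_lt_iff.2 ((Valuation.ne_zero_iff v).2 (hx0 j0))
    set A : ℤᵐ⁰ := v (aeval x (minorP f σ ι)) with hA
    set P : ℤᵐ⁰ := ∏ i, v (x (ι i)) with hP
    have hP0 : P ≠ 0 := Finset.prod_ne_zero_iff.2 fun i _ => (Valuation.ne_zero_iff v).2 (hx0 _)
    have hvΨ : v (Ψ θ) * P = A := by
      rw [hΨθ, map_mul, map_prod]
      simp only [map_inv₀]
      rw [Finset.prod_inv_distrib, mul_comm, ← mul_assoc, mul_inv_cancel₀ hP0, one_mul]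
    have hPle : P ^ w j0 ≤ y ^ ∑ i, w (ι i) := by
      rw [hP, ← Finset.prod_pow, ← Finset.prod_pow_eq_pow_sum]
      exact Finset.prod_le_prod' fun i _ => hj0 (ι i)
    have hsum : ∑ k, d k = Dd + ∑ i, w i := by omega
    have h3 : y ^ (Dd + ∑ i, w (ι i)) ≤ A ^ w j0 := by
      rw [hsum] at hι
      have e : Dd + ∑ i, w i + ∑ i, w (ι i) = (Dd + ∑ i, w (ι i)) + ∑ i, w i := by ring
      rw [e, pow_add] at hι
      exact (mul_le_mul_iff_left₀ (pow_pos hy0 _)).1 hι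
    have h4 : y ^ Dd ≤ v (Ψ θ) ^ w j0 := by
      have hP0' : 0 < P ^ w j0 := pow_pos (zero_lt_iff.2 hP0) _
      refine (mul_le_mul_iff_left₀ hP0').1 ?_
      calc y ^ Dd * P ^ w j0 ≤ y ^ Dd * y ^ (∑ i, w (ι i)) := mul_le_mul_right hPle _
        _ = y ^ (Dd + ∑ i, w (ι i)) := (pow_add _ _ _).symm
        _ ≤ A ^ w j0 := h3
        _ = v (Ψ θ) ^ w j0 * P ^ w j0 := by rw [← hvΨ, mul_pow]
    have hvΨ0 : v (Ψ θ) ≠ 0 := by
      intro h0
      rw [h0, zero_pow (hq.pos j0).ne'] at h4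
      exact absurd (pow_pos hy0 Dd) (not_lt.2 h4)
    have hΨne : Ψ θ ≠ 0 := (Valuation.ne_zero_iff v).1 hvΨ0
    have h5 : v (x j1 ^ Dd) ≤ v (Ψ θ) ^ w j1 := by
      refine (pow_le_pow_iff_left₀ zero_le zero_le (hq.pos j0).ne').1 ?_
      calc v (x j1 ^ Dd) ^ w j0 = (v (x j1) ^ w j0) ^ Dd := by
            rw [map_pow, ← pow_mul, ← pow_mul, mul_comm]
        _ ≤ (y ^ w j1) ^ Dd := pow_le_pow_left₀ zero_le (hj0 j1) _
        _ = (y ^ Dd) ^ w j1 := by rw [← pow_mul, ← pow_mul, mul_comm]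
        _ ≤ (v (Ψ θ) ^ w j0) ^ w j1 := pow_le_pow_left₀ zero_le h4 _
        _ = (v (Ψ θ) ^ w j1) ^ w j0 := by rw [← pow_mul, ← pow_mul, mul_comm]
    refine ⟨θ, x j1 ^ Dd / Ψ θ ^ w j1, ?_, fun hc => absurd hc hcen, ?_, ?_⟩
    · intro i
      change dmap x ((x (ι i))⁻¹ • Pi.single (ι i) 1) ∈ _
      rw [map_smul, dmap_single, one_smul]
      exact AddSubgroup.subset_closure (Or.inr ⟨1, _, (map_one v).le, hx0 _, by rw [one_div]⟩)
    · rw [map_div₀, map_pow v (Ψ θ)]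
      exact (div_le_one₀ (pow_pos (zero_lt_iff.2 hvΨ0) _)).2 h5
    · rw [div_mul_cancel₀ _ (pow_ne_zero _ hΨne)]

end Pool.Agent.PC
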