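import Pool.Agent.Lib.MP_410da7_agP.Spec2

/-!
# Coefficients along the degenerating curve
-/

set_option autoImplicit false

namespace Pool.Agent.PC.LhiM

open MvPolynomial Pool.Agent.Lib.MP_410da7_ag

variable {N r : ℕ} {B : Type} [CommRing B]

/-- `coeff_n g = ε^(n-D) coeff_n h` for `n ≥ D`, `coeff_n h = ε^(D-n) coeff_n g` for `n ≤ D`. -/
structure Rel (ε : B) (D : ℕ) (g h : Polynomial B) : Prop where
  up : ∀ n m, n = D + m → g.coeff n = ε ^ m * h.coeff n
  down : ∀ n m, n + m = D → h.coeff n = ε ^ m * g.coeff n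

theorem Rel.zero (ε : B) (D : ℕ) : Rel ε D 0 0 := ⟨by simp, by simp⟩

theorem Rel.const (ε : B) (c : B) : Rel ε 0 (Polynomial.C c) (Polynomial.C c) := by
  refine ⟨?_, ?_⟩
  · intro n m h
    rcases m with _ | m
    · simp
    · rw [Polynomial.coeff_C_of_ne_zero (by omega), mul_zero]
  · intro n m h
    have : m = 0 := by omega
    rw [this, pow_zero, one_mul]

theorem Rel.add {ε : B} {D : ℕ} {g h g' h' : Polynomial B} (h1 : Rel ε D g h)
    (h2 : Rel ε D g' h') : Rel ε D (g + g') (h + h') := by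
  refine ⟨?_, ?_⟩
  · intro n m hn
    rw [Polynomial.coeff_add, Polynomial.coeff_add, h1.up n m hn, h2.up n m hn, mul_add]
  · intro n m hn
    rw [Polynomial.coeff_add, Polynomial.coeff_add, h1.down n m hn, h2.down n m hn, mul_add]

theorem Rel.mul {ε : B} {D D' : ℕ} {g h g' h' : Polynomial B} (h1 : Rel ε D g h)
    (h2 : Rel ε D' g' h') : Rel ε (D + D') (g * g') (h * h') := by
  refine ⟨?_, ?_⟩
  · intro n m hn
    rw [Polynomial.coeff_mul, Polynomial.coeff_mul, Finset.mul_sum]
    refine Finset.sum_congr rfl fun x hx => ?_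
    obtain ⟨a, b⟩ := x
    rw [Finset.HasAntidiagonal.mem_antidiagonal] at hx
    simp only at hx ⊢
    rcases le_total D a with ha | ha <;> rcases le_total D' b with hb | hb
    · obtain ⟨m1, rfl⟩ := Nat.exists_eq_add_of_le ha
      obtain ⟨m2, rfl⟩ := Nat.exists_eq_add_of_le hb
      rw [h1.up _ m1 rfl, h2.up _ m2 rfl, show m = m1 + m2 by omega, pow_add]
      ring
    · obtain ⟨m1, rfl⟩ := Nat.exists_eq_add_of_le ha
      obtain ⟨m2, hm2⟩ := Nat.exists_eq_add_of_le hb
      rw [h1.up _ m1 rfl, h2.down b m2 hm2.symm, show m1 = m + m2 by omega, pow_add]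
      ring
    · obtain ⟨m1, hm1⟩ := Nat.exists_eq_add_of_le ha
      obtain ⟨m2, rfl⟩ := Nat.exists_eq_add_of_le hb
      rw [h1.down a m1 hm1.symm, h2.up _ m2 rfl, show m2 = m + m1 by omega, pow_add]
      ring
    · have h3 := h1.down a 0 (by omega)
      have h4 := h2.down b 0 (by omega)
      rw [pow_zero, one_mul] at h3 h4
      rw [h3, h4, show m = 0 by omega, pow_zero, one_mul]
  · intro n m hn
    rw [Polynomial.coeff_mul, Polynomial.coeff_mul, Finset.mul_sum]
    refine Finset.sum_congr rfl fun x hx => ?_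
    obtain ⟨a, b⟩ := x
    rw [Finset.HasAntidiagonal.mem_antidiagonal] at hx
    simp only at hx ⊢
    rcases le_total D a with ha | ha <;> rcases le_total D' b with hb | hb
    · have h3 := h1.down a 0 (by omega)
      have h4 := h2.down b 0 (by omega)
      rw [pow_zero, one_mul] at h3 h4
      rw [h3, h4, show m = 0 by omega, pow_zero, one_mul]
    · obtain ⟨m1, rfl⟩ := Nat.exists_eq_add_of_le ha
      obtain ⟨m2, hm2⟩ := Nat.exists_eq_add_of_le hb
      rw [h1.up _ m1 rfl, h2.down b m2 hm2.symm, show m2 = m + m1 by omega, pow_add]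
      ring
    · obtain ⟨m1, hm1⟩ := Nat.exists_eq_add_of_le ha
      obtain ⟨m2, rfl⟩ := Nat.exists_eq_add_of_le hb
      rw [h1.down a m1 hm1.symm, h2.up _ m2 rfl, show m1 = m + m2 by omega, pow_add]
      ring
    · obtain ⟨m1, hm1⟩ := Nat.exists_eq_add_of_le ha
      obtain ⟨m2, hm2⟩ := Nat.exists_eq_add_of_le hb
      rw [h1.down a m1 hm1.symm, h2.down b m2 hm2.symm, show m = m1 + m2 by omega, pow_add]
      ring

theorem Rel.pow {ε : B} {D : ℕ} {g h : Polynomial B} (h1 : Rel ε D g h) (n : ℕ) :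
    Rel ε (n * D) (g ^ n) (h ^ n) := by
  induction n with
  | zero =>
    rw [pow_zero, pow_zero, zero_mul]
    exact Rel.const ε 1
  | succ n ih =>
    rw [pow_succ, pow_succ, Nat.succ_mul]
    exact ih.mul h1

theorem Rel.prod {ε : B} {ι : Type} (s : Finset ι) (D : ι → ℕ) (g h : ι → Polynomial B)
    (H : ∀ i ∈ s, Rel ε (D i) (g i) (h i)) :
    Rel ε (∑ i ∈ s, D i) (∏ i ∈ s, g i) (∏ i ∈ s, h i) := by
  classical
  induction s using Finset.induction_on with
  | empty => exact Rel.const ε 1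
  | insert a s ha ih =>
    rw [Finset.sum_insert ha, Finset.prod_insert ha, Finset.prod_insert ha]
    exact (H a (Finset.mem_insert_self a s)).mul
      (ih fun i hi => H i (Finset.mem_insert_of_mem hi))

theorem Rel.sum {ε : B} {ι : Type} (s : Finset ι) (D : ℕ) (g h : ι → Polynomial B)
    (H : ∀ i ∈ s, Rel ε D (g i) (h i)) : Rel ε D (∑ i ∈ s, g i) (∑ i ∈ s, h i) := by
  classical
  induction s using Finset.induction_on with
  | empty => exact Rel.zero ε D
  | insert a s ha ih =>
    rw [Finset.sum_insert ha, Finset.sum_insert ha]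
    exact (H a (Finset.mem_insert_self a s)).add
      (ih fun i hi => H i (Finset.mem_insert_of_mem hi))

variable [Algebra ℂ B]

theorem algMap (c : ℂ) : algebraMap ℂ (Polynomial B) c = Polynomial.C (algebraMap ℂ B c) := by
  rw [IsScalarTower.algebraMap_apply ℂ B (Polynomial B)]
  rfl

theorem Rel.aeval {ε : B} {w : Fin N → ℕ} {d : ℕ} {F : MvPolynomial (Fin N) ℂ}
    (hF : F.IsWeightedHomogeneous w d) (γ δ : Fin N → Polynomial B)
    (H : ∀ i, Rel ε (w i) (γ i) (δ i)) : Rel ε d (aeval γ F) (aeval δ F) := by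
  rw [aeval_def, aeval_def, eval₂_eq', eval₂_eq']
  refine Rel.sum _ _ _ _ fun e he => ?_
  have h1 : d = 0 + ∑ i, e i * w i := by
    rw [← hF (mem_support_iff.1 he), Finsupp.weight_apply, Finsupp.sum_fintype _ _ (by simp)]
    simp
  rw [h1, algMap]
  exact (Rel.const ε _).mul (Rel.prod _ _ _ _ fun i _ => (H i).pow (e i))

/-- Congruence modulo `ε`. -/
theorem cong {ε : B} (γ γ' : Fin N → Polynomial B)
    (H : ∀ i n, ε ∣ (γ i).coeff n - (γ' i).coeff n) (F : MvPolynomial (Fin N) ℂ) (n : ℕ) :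
    ε ∣ (aeval γ F).coeff n - (aeval γ' F).coeff n := by
  let I : Ideal B := Ideal.span {ε}
  let φ : B →ₐ[ℂ] B ⧸ I := Ideal.Quotient.mkₐ ℂ I
  have hφ : ∀ x y : B, φ x = φ y ↔ ε ∣ x - y := by
    intro x y
    show Ideal.Quotient.mk I x = Ideal.Quotient.mk I y ↔ _
    rw [Ideal.Quotient.eq, Ideal.mem_span_singleton]
  have h1 : (fun l => (γ l).map (φ : B →+* B ⧸ I)) = fun l => (γ' l).map (φ : B →+* B ⧸ I) := by
    funext l
    ext m
    rw [Polynomial.coeff_map, Polynomial.coeff_map]
    exact (hφ _ _).2 (H l m)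
  have h2 := curve_map_aeval φ γ F
  have h3 := curve_map_aeval φ γ' F
  rw [h1, ← h3] at h2
  have h4 := congrArg (fun P : Polynomial (B ⧸ I) => P.coeff n) h2
  simp only [Polynomial.coeff_map] at h4
  exact (hφ _ _).1 h4

theorem aeval_shift {w : Fin N → ℕ} {d : ℕ} {F : MvPolynomial (Fin N) ℂ}
    (hF : F.IsWeightedHomogeneous w d) (v : Fin N → Polynomial B) :
    aeval (fun i => Polynomial.X ^ w i * v i) F = Polynomial.X ^ d * aeval v F := by
  rw [aeval_def, aeval_def, eval₂_eq', eval₂_eq', Finset.mul_sum]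
  refine Finset.sum_congr rfl fun e he => ?_
  have h1 : d = ∑ i, w i * e i := by
    rw [← hF (mem_support_iff.1 he), Finsupp.weight_apply, Finsupp.sum_fintype _ _ (by simp)]
    simp [mul_comm]
  simp only [mul_pow, ← pow_mul]
  rw [Finset.prod_mul_distrib, Finset.prod_pow_eq_pow_sum, ← h1]
  ring

omit [Algebra ℂ B]

theorem cur_coeff_zero (w : Fin N → ℕ) (k : ℕ) (p : Fin N → B) (a : Sg w k → B) (i : Fin N) :
    (cur w k p a i).coeff 0 = p i := by
  rw [Polynomial.coeff_zero_eq_eval_zero]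
  exact curvePoly_eval_zero _ _ _ _

theorem cur_coeff_succ (w : Fin N → ℕ) (k : ℕ) (p : Fin N → B) (a : Sg w k → B) (i : Fin N)
    (j : ℕ) (hj : j < k * w i) : (cur w k p a i).coeff (j + 1) = a ⟨i, ⟨j, hj⟩⟩ :=
  curvePoly_coeff (fun i => k * w i) p a i ⟨j, hj⟩

theorem cur_coeff_big (w : Fin N → ℕ) (k : ℕ) (p : Fin N → B) (a : Sg w k → B) (i : Fin N)
    (n : ℕ) (hn : k * w i < n) : (cur w k p a i).coeff n = 0 :=
  Polynomial.coeff_eq_zero_of_natDegree_lt
    (lt_of_le_of_lt (curvePoly_natDegree_le (fun i => k * w i) p a i) hn)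

/-- coefficients of the glued curve, low part -/
theorem glue_low (w : Fin N → ℕ) (p : Fin N → B) (b b' : Sg w 1 → B) (ε : B) (i : Fin N) (n : ℕ)
    (hn : n ≤ w i) : (cur w 2 p (glue w b b' ε) i).coeff n = (cur w 1 p b i).coeff n := by
  rcases n with _ | j
  · rw [cur_coeff_zero, cur_coeff_zero]
  · rw [cur_coeff_succ w 2 _ _ _ _ (by omega), cur_coeff_succ w 1 _ _ _ _ (by omega)]
    unfold glue
    rw [dif_pos (by simpa using hn)]

/-- coefficients of the glued curve, high part -/
theorem glue_high (w : Fin N → ℕ) (p : Fin N → B) (b b' : Sg w 1 → B) (ε : B) (i : Fin N) (m : ℕ) :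
    (cur w 2 p (glue w b b' ε) i).coeff (w i + m) =
      ε ^ m * (cur w 1 (topc w p b) b' i).coeff m := by
  rcases m with _ | j
  · rw [pow_zero, one_mul, add_zero, glue_low w p b b' ε i _ le_rfl, cur_coeff_zero]
    rfl
  · by_cases hj : j < w i
    · rw [show w i + (j + 1) = w i + j + 1 by ring, cur_coeff_succ w 2 _ _ _ _ (by omega),
        cur_coeff_succ w 1 _ _ _ _ (by omega)]
      unfold glue
      rw [dif_neg (by simp)]
      congr 2
      · simp only
        omega
      · simp
    · rw [cur_coeff_big w 2 _ _ _ _ (by omega), cur_coeff_big w 1 _ _ _ _ (by omega), mul_zero]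

/-- the rescaled curve -/
noncomputable def dl (w : Fin N → ℕ) (p : Fin N → B) (b b' : Sg w 1 → B) (ε : B) (i : Fin N) :
    Polynomial B :=
  ∑ n ∈ Finset.range (2 * w i + 1), Polynomial.C (if n < w i then
    ε ^ (w i - n) * (cur w 1 p b i).coeff n else
    (cur w 1 (topc w p b) b' i).coeff (n - w i)) * Polynomial.X ^ n

theorem dl_coeff (w : Fin N → ℕ) (p : Fin N → B) (b b' : Sg w 1 → B) (ε : B) (i : Fin N) (n : ℕ) :
    (dl w p b b' ε i).coeff n = if n < w i then
    ε ^ (w i - n) * (cur w 1 p b i).coeff n else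
    (cur w 1 (topc w p b) b' i).coeff (n - w i) := by
  unfold dl
  rw [Polynomial.finsetSum_coeff]
  simp only [Polynomial.coeff_C_mul_X_pow]
  rw [Finset.sum_ite_eq]
  by_cases hn : n ∈ Finset.range (2 * w i + 1)
  · rw [if_pos hn]
  · rw [if_neg hn]
    rw [Finset.mem_range] at hn
    rw [if_neg (by omega), cur_coeff_big w 1 _ _ _ _ (by omega)]

theorem rel_dl (w : Fin N → ℕ) (p : Fin N → B) (b b' : Sg w 1 → B) (ε : B) (i : Fin N) :
    Rel ε (w i) (cur w 2 p (glue w b b' ε) i) (dl w p b b' ε i) := by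
  refine ⟨?_, ?_⟩
  · rintro n m rfl
    rw [glue_high, dl_coeff, if_neg (by omega), show w i + m - w i = m by omega]
  · intro n m hn
    rw [glue_low w p b b' ε i n (by omega), dl_coeff]
    by_cases h : n < w i
    · rw [if_pos h, show w i - n = m by omega]
    · rw [if_neg h, show m = 0 by omega, show n = w i by omega, Nat.sub_self, cur_coeff_zero,
        pow_zero, one_mul]
      rfl

end Pool.Agent.PC.LhiM

namespace Pool.Agent.PC

open MvPolynomial Pool.Agent.Lib.MP_410da7_ag LhiM

theorem stmtLhi : StmtLhi := by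
  intro N r w d f hf B _ _ p b b' ε l
  refine ⟨fun n => ?_, fun n => ?_⟩
  · refine cong _ _ (fun i m => ?_) (f l) n
    by_cases hm : m ≤ w i
    · rw [glue_low w p b b' ε i m hm, sub_self]
      exact dvd_zero _
    · obtain ⟨m', rfl⟩ := Nat.exists_eq_add_of_le (le_of_not_ge hm)
      rw [glue_high, cur_coeff_big w 1 p b i _ (by omega), sub_zero]
      exact Dvd.dvd.mul_right (dvd_pow_self _ (by omega)) _
  · refine ⟨(aeval (dl w p b b' ε) (f l)).coeff (d l + n), ?_, ?_⟩
    · exact (Rel.aeval (hf l) _ _ (rel_dl w p b b' ε)).up _ n rfl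
    · have h1 := cong (dl w p b b' ε)
        (fun i => Polynomial.X ^ w i * cur w 1 (topc w p b) b' i) (ε := ε) (fun i m => by
          rw [dl_coeff, Polynomial.coeff_X_pow_mul']
          by_cases h : m < w i
          · rw [if_pos h, if_neg (by omega), sub_zero]
            exact Dvd.dvd.mul_right (dvd_pow_self _ (by omega)) _
          · rw [if_neg h, if_pos (by omega), sub_self]
            exact dvd_zero _) (f l) (d l + n)
      rw [aeval_shift (hf l), Polynomial.coeff_X_pow_mul', if_pos (by omega),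
        show d l + n - d l = n by omega] at h1
      exact h1

end Pool.Agent.PC
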