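import Pool.Agent.Lib.MP_410da7_agP.Spec

/-!
# Moebius substitution: two zeros are reduced to one
-/

set_option autoImplicit false

namespace Pool.Agent.PC

open MvPolynomial Pool.Agent.Lib.MP_410da7_ag

namespace MobM

/-- Weighted homogeneity for the values in an algebra. -/
theorem aeval_scale {N n : ℕ} {w : Fin N → ℕ} {f : MvPolynomial (Fin N) ℂ}
    (hf : f.IsWeightedHomogeneous w n) {B : Type} [CommRing B] [Algebra ℂ B] (c : B)
    (y : Fin N → B) : aeval (fun i => c ^ w i * y i) f = c ^ n * aeval y f := by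
  rw [aeval_def, aeval_def, eval₂_eq', eval₂_eq', Finset.mul_sum]
  refine Finset.sum_congr rfl fun e he => ?_
  have h1 := hf (mem_support_iff.1 he)
  rw [Finsupp.weight_apply, Finsupp.sum_fintype _ _ (by simp)] at h1
  have h2 : ∏ i, (c ^ w i * y i) ^ e i = c ^ n * ∏ i, y i ^ e i := by
    rw [← h1, ← Finset.prod_pow_eq_pow_sum, ← Finset.prod_mul_distrib]
    refine Finset.prod_congr rfl fun i _ => ?_
    rw [mul_pow, ← pow_mul, smul_eq_mul, mul_comm (w i)]
  rw [h2]
  ring

section

variable {L : Type} [Field L]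

/-- The substitution `g ↦ (1 + X/s)^n g(X/(1 + X/s))`. -/
noncomputable def M (s : L) (n : ℕ) (g : Polynomial L) : Polynomial L :=
  ∑ j ∈ Finset.range (n + 1), Polynomial.C (g.coeff j) * Polynomial.X ^ j *
    (1 + Polynomial.C s⁻¹ * Polynomial.X) ^ (n - j)

theorem M_eval (s : L) (n : ℕ) (g : Polynomial L) (hg : g.natDegree ≤ n) (u : L)
    (hu : 1 + s⁻¹ * u ≠ 0) :
    (M s n g).eval u = (1 + s⁻¹ * u) ^ n * g.eval (u / (1 + s⁻¹ * u)) := by
  rw [M, Polynomial.eval_finsetSum, Polynomial.eval_eq_sum_range' (Nat.lt_succ_of_le hg),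
    Finset.mul_sum]
  refine Finset.sum_congr rfl fun j hj => ?_
  rw [Finset.mem_range] at hj
  simp only [Polynomial.eval_mul, Polynomial.eval_C, Polynomial.eval_pow, Polynomial.eval_X,
    Polynomial.eval_add, Polynomial.eval_one]
  have h1 : (1 + s⁻¹ * u) ^ n = (1 + s⁻¹ * u) ^ (n - j) * (1 + s⁻¹ * u) ^ j := by
    rw [← pow_add]
    congr 1
    omega
  generalize 1 + s⁻¹ * u = c at hu h1
  rw [h1, div_pow]
  field_simp

theorem M_eval_two (s : L) (hs : s ≠ 0) (g : Polynomial L) :
    (M s 2 g).eval (-s) = g.coeff 2 * s ^ 2 := by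
  rw [M, Polynomial.eval_finsetSum]
  simp only [Polynomial.eval_mul, Polynomial.eval_C, Polynomial.eval_pow, Polynomial.eval_X,
    Polynomial.eval_add, Polynomial.eval_one]
  have h1 : 1 + s⁻¹ * -s = 0 := by
    rw [mul_neg, inv_mul_cancel₀ hs]
    ring
  rw [h1, Finset.sum_range_succ, Finset.sum_range_succ, Finset.sum_range_succ]
  simp

/-- A nonzero polynomial of degree at most two with the roots `t1 ≠ t2`. -/
theorem roots_two {g : Polynomial L} (hg : g ≠ 0) (hd : g.natDegree ≤ 2) {t1 t2 : L}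
    (h12 : t1 ≠ t2) (h1 : g.eval t1 = 0) (h2 : g.eval t2 = 0) :
    (∀ t, g.eval t = 0 → t = t1 ∨ t = t2) ∧ g.coeff 2 ≠ 0 := by
  classical
  have hcard : ∀ T : Finset L, (∀ t ∈ T, g.eval t = 0) → T.card ≤ g.natDegree := by
    intro T hT
    have hsub : T.val ⊆ g.roots := by
      intro t ht
      exact (Polynomial.mem_roots hg).2 (hT t ht)
    have := Multiset.card_le_card ((Multiset.le_iff_subset T.nodup).2 hsub)
    exact this.trans (Polynomial.card_roots' g)
  refine ⟨?_, ?_⟩
  · intro t ht
    by_contra hn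
    rw [not_or] at hn
    have := hcard {t, t1, t2} (by
      intro s hs
      simp only [Finset.mem_insert, Finset.mem_singleton] at hs
      rcases hs with rfl | rfl | rfl <;> assumption)
    rw [Finset.card_insert_of_notMem (by simp [hn.1, hn.2]),
      Finset.card_insert_of_notMem (by simp [h12]), Finset.card_singleton] at this
    omega
  · intro hc
    have := hcard {t1, t2} (by
      intro s hs
      simp only [Finset.mem_insert, Finset.mem_singleton] at hs
      rcases hs with rfl | rfl <;> assumption)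
    rw [Finset.card_insert_of_notMem (by simp [h12]), Finset.card_singleton] at this
    have h3 : g.natDegree = 2 := le_antisymm hd this
    have h4 : g.leadingCoeff = 0 := by
      rw [Polynomial.leadingCoeff, h3]
      exact hc
    exact hg (Polynomial.leadingCoeff_eq_zero.1 h4)

end

end MobM

open MobM in
theorem stmtMob : StmtMob := by
  intro N r w d f hw hf L _ _ _ p hp γ hγ hnt hdeg hone
  classical
  obtain ⟨i0, hi0⟩ := hone
  by_cases h : ∃ t0 : L, ∀ t, (∀ i, (γ i).eval t = 0) → t = t0
  · exact ⟨γ, hγ, hnt, h⟩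
  push Not at h
  obtain ⟨t1, ht1, -⟩ := h 0
  obtain ⟨t2, ht2, h21⟩ := h t1
  have hinf : Infinite L := Infinite.of_injective (algebraMap ℂ L) (algebraMap ℂ L).injective
  have ht2z : t2 ≠ 0 := by
    rintro rfl
    exact hp i0 ((hγ.zero i0).symm.trans (ht2 i0))
  have hg0 : γ i0 ≠ 0 := by
    intro h0
    apply hp i0
    rw [← hγ.zero i0, h0, Polynomial.eval_zero]
  have hd0 : (γ i0).natDegree ≤ 2 := by
    have := hdeg i0
    rw [hi0] at this
    exact this
  obtain ⟨hroots, hcoef⟩ := roots_two hg0 hd0 h21.symm (ht1 i0) (ht2 i0)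
  have hev : ∀ i u, 1 + t2⁻¹ * u ≠ 0 → (M t2 (2 * w i) (γ i)).eval u =
      ((1 + t2⁻¹ * u) ^ 2) ^ w i * (γ i).eval (u / (1 + t2⁻¹ * u)) := by
    intro i u hu
    rw [M_eval t2 _ _ (hdeg i) u hu, pow_mul]
  have hinf1 : ∀ a : L, Set.Infinite {u : L | u ≠ a} := by
    intro a
    exact (Set.finite_singleton a).infinite_compl
  refine ⟨fun i => M t2 (2 * w i) (γ i), ⟨?_, ?_⟩, ?_, t1 * t2 / (t2 - t1), ?_⟩
  · intro i
    rw [M_eval t2 _ _ (hdeg i) 0 (by simp)]
    simp only [mul_zero, add_zero, one_pow, one_mul, div_one]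
    exact hγ.zero i
  · intro k
    refine Polynomial.eq_of_infinite_eval_eq _ _ ((hinf1 (-t2)).mono ?_)
    intro u hu
    have hu' : 1 + t2⁻¹ * u ≠ 0 := by
      intro h0
      apply hu
      have : t2 * (1 + t2⁻¹ * u) = 0 := by rw [h0, mul_zero]
      rw [mul_add, mul_one, ← mul_assoc, mul_inv_cancel₀ ht2z, one_mul] at this
      linear_combination this
    change Polynomial.eval u (aeval (fun i => M t2 (2 * w i) (γ i)) (f k)) =
      Polynomial.eval u (0 : Polynomial L)
    have hcomm : ∀ (δ : Fin N → Polynomial L) (t : L), Polynomial.eval t (aeval δ (f k)) =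
        aeval (fun i => (δ i).eval t) (f k) := by
      intro δ t
      rw [← Polynomial.coe_aeval_eq_eval]
      change ((Polynomial.aeval t).restrictScalars ℂ) (aeval δ (f k)) = _
      rw [← AlgHom.comp_apply]
      congr 1
      ext i
      simp
    rw [hcomm, Polynomial.eval_zero]
    have h1 : (fun i => (M t2 (2 * w i) (γ i)).eval u) =
        fun i => ((1 + t2⁻¹ * u) ^ 2) ^ w i * (γ i).eval (u / (1 + t2⁻¹ * u)) := by
      funext i
      exact hev i u hu'
    rw [h1, aeval_scale (hf k), ← hcomm, hγ.mem k, Polynomial.eval_zero, mul_zero]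
  · intro htriv
    apply hnt
    intro i j
    refine Polynomial.eq_of_infinite_eval_eq _ _ ((hinf1 t2).mono ?_)
    intro t ht
    have ht' : t2 - t ≠ 0 := fun h0 => ht (by linear_combination -h0)
    -- `u` with `u / (1 + u/t2) = t`
    set u : L := t * t2 / (t2 - t) with hu
    have hs : 1 + t2⁻¹ * u = t2 / (t2 - t) := by
      rw [hu]
      field_simp
      ring
    have hs0 : 1 + t2⁻¹ * u ≠ 0 := by
      rw [hs]
      exact div_ne_zero ht2z ht'
    have hut : u / (1 + t2⁻¹ * u) = t := by
      rw [hs, hu]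
      field_simp
    have h1 := congrArg (Polynomial.eval u) (htriv i j)
    simp only [Polynomial.eval_mul, Polynomial.eval_C, Polynomial.eval_pow] at h1
    rw [hev i u hs0, hev j u hs0, hut] at h1
    change Polynomial.eval t _ = Polynomial.eval t _
    simp only [Polynomial.eval_mul, Polynomial.eval_C, Polynomial.eval_pow]
    have h2 : ((1 + t2⁻¹ * u) ^ 2) ^ (w i * w j) ≠ 0 := pow_ne_zero _ (pow_ne_zero _ hs0)
    apply mul_left_cancel₀ h2
    rw [mul_pow, mul_pow, ← pow_mul _ (w i) (w j), ← pow_mul _ (w j) (w i), mul_comm (w j)] at h1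
    linear_combination h1
  · intro t ht
    have h0 := ht i0
    simp only [hi0, mul_one] at h0
    by_cases hs : 1 + t2⁻¹ * t = 0
    · exfalso
      have ht' : t = -t2 := by
        have : t2 * (1 + t2⁻¹ * t) = 0 := by rw [hs, mul_zero]
        rw [mul_add, mul_one, ← mul_assoc, mul_inv_cancel₀ ht2z, one_mul] at this
        linear_combination this
      rw [ht', M_eval_two t2 ht2z] at h0
      rcases mul_eq_zero.1 h0 with h1 | h1
      · exact hcoef h1
      · exact ht2z (pow_eq_zero_iff (two_ne_zero) |>.1 h1)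
    · rw [M_eval t2 _ _ hd0 t hs] at h0
      have h1 := (mul_eq_zero.1 h0).resolve_left (pow_ne_zero _ hs)
      have h21' : t2 - t1 ≠ 0 := sub_ne_zero.2 h21
      rcases hroots _ h1 with h2 | h2
      · rw [div_eq_iff hs] at h2
        rw [eq_div_iff h21']
        have h3 : t2 * t2⁻¹ = 1 := mul_inv_cancel₀ ht2z
        linear_combination t2 * h2 + t1 * t * h3
      · exfalso
        rw [div_eq_iff hs, mul_add, mul_one, ← mul_assoc, mul_inv_cancel₀ ht2z, one_mul] at h2
        exact ht2z (by linear_combination -h2)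

end Pool.Agent.PC
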