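import Pool.Agent.Lib.MP_410da7_agP.Spec2

/-!
# Module Nil: the solutions of the system for `k = 2` are trivial up to nilpotents
-/

set_option autoImplicit false

namespace Pool.Agent.PC

open MvPolynomial Pool.Agent.Lib.MP_410da7_ag

namespace NilM

/-- the coefficients of `(1 + a t + b t²)^W` at `1`, `t`, `t²` -/
theorem coeffs {B : Type} [CommRing B] (a b : B) (W : ℕ) :
    ((1 + Polynomial.C a * Polynomial.X + Polynomial.C b * Polynomial.X ^ 2) ^ W).coeff 0 = 1 ∧
    ((1 + Polynomial.C a * Polynomial.X + Polynomial.C b * Polynomial.X ^ 2) ^ W).coeff 1 =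
      (W : B) * a ∧
    ((1 + Polynomial.C a * Polynomial.X + Polynomial.C b * Polynomial.X ^ 2) ^ W).coeff 2 =
      (W : B) * b + (W.choose 2 : ℕ) * a ^ 2 := by
  induction W with
  | zero =>
    refine ⟨by simp, ?_, ?_⟩
    · simp [Polynomial.coeff_one]
    · simp [Polynomial.coeff_one]
  | succ W ih =>
    obtain ⟨h0, h1, h2⟩ := ih
    have e : (1 + Polynomial.C a * Polynomial.X + Polynomial.C b * Polynomial.X ^ 2) ^ (W + 1) =
        (1 + Polynomial.C a * Polynomial.X + Polynomial.C b * Polynomial.X ^ 2) ^ W +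
        Polynomial.C a * ((1 + Polynomial.C a * Polynomial.X +
          Polynomial.C b * Polynomial.X ^ 2) ^ W * Polynomial.X) +
        Polynomial.C b * ((1 + Polynomial.C a * Polynomial.X +
          Polynomial.C b * Polynomial.X ^ 2) ^ W * Polynomial.X ^ 2) := by
      rw [pow_succ]
      ring
    rw [e]
    simp only [Polynomial.coeff_add, Polynomial.coeff_C_mul]
    refine ⟨?_, ?_, ?_⟩
    · rw [h0, Polynomial.coeff_mul_X_pow', if_neg (by norm_num), Polynomial.coeff_mul_X_zero]
      ring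
    · rw [h1, Polynomial.coeff_mul_X_pow', if_neg (by norm_num)]
      have : ((1 + Polynomial.C a * Polynomial.X + Polynomial.C b * Polynomial.X ^ 2) ^ W *
          Polynomial.X).coeff 1 = 1 := by
        rw [show (1 : ℕ) = 0 + 1 from rfl, Polynomial.coeff_mul_X, h0]
      rw [this]
      push_cast
      ring
    · rw [h2, Polynomial.coeff_mul_X_pow', if_pos (by norm_num)]
      have : ((1 + Polynomial.C a * Polynomial.X + Polynomial.C b * Polynomial.X ^ 2) ^ W *
          Polynomial.X).coeff 2 = W * a := by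
        rw [show (2 : ℕ) = 1 + 1 from rfl, Polynomial.coeff_mul_X, h1]
      rw [this, show 2 - 2 = 0 from rfl, h0, Nat.choose_succ_succ' W 1, Nat.choose_one_right]
      push_cast
      ring

theorem eq_quad {L : Type} [Field L] (A : Polynomial L) (h0 : A.eval 0 = 1)
    (h : A.natDegree ≤ 2) : A = 1 + Polynomial.C (A.coeff 1) * Polynomial.X +
      Polynomial.C (A.coeff 2) * Polynomial.X ^ 2 := by
  have h1 := A.as_sum_range_C_mul_X_pow' (n := 3) (by omega)
  rw [Finset.sum_range_succ, Finset.sum_range_succ, Finset.sum_range_one] at h1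
  rw [← Polynomial.coeff_zero_eq_eval_zero] at h0
  rw [h0, Polynomial.C_1, pow_zero, one_mul, pow_one] at h1
  exact h1

end NilM

theorem stmtNil (_hS : StmtSys) : StmtNil := by
  intro N r w d f hw hf L _ _ _ p hp hfp hT q0 hq0
  have hch : CharZero L := charZero_of_injective_algebraMap (algebraMap ℂ L).injective
  obtain ⟨i0, j0⟩ := q0
  simp only at hq0
  have hw0 : 0 < w i0 := hw i0
  have hW : ((w i0 : ℕ) : L) ≠ 0 := Nat.cast_ne_zero.2 hw0.ne'
  obtain ⟨q1, hq1⟩ : ∃ q1 : Fin (2 * w i0), q1.1 = 1 := ⟨⟨1, by omega⟩, rfl⟩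
  obtain ⟨θ₁, hθ₁⟩ : ∃ θ₁ : MvPolynomial (Sg w 2) L,
      θ₁ = C (((w i0 : L) * p i0)⁻¹) * X ⟨i0, j0⟩ := ⟨_, rfl⟩
  obtain ⟨θ₂, hθ₂⟩ : ∃ θ₂ : MvPolynomial (Sg w 2) L,
      θ₂ = C ((w i0 : L)⁻¹) * (C ((p i0)⁻¹) * X ⟨i0, q1⟩ -
        C (((w i0).choose 2 : ℕ) : L) * θ₁ ^ 2) := ⟨_, rfl⟩
  have key : ∀ q : Sg w 2, ∃ M : ℕ, (X q - (Polynomial.C (C (p q.1)) *
      (1 + Polynomial.C θ₁ * Polynomial.X + Polynomial.C θ₂ * Polynomial.X ^ 2) ^ w q.1).coeff
        (q.2.1 + 1)) ^ M ∈ Ideal.span (Set.range (sysE w d f 2 p)) := by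
    intro q
    have h1 : (X q - (Polynomial.C (C (p q.1)) *
      (1 + Polynomial.C θ₁ * Polynomial.X + Polynomial.C θ₂ * Polynomial.X ^ 2) ^ w q.1).coeff
        (q.2.1 + 1)) ∈ (Ideal.span (Set.range (sysE w d f 2 p))).radical := by
      rw [← vanishingIdeal_zeroLocus_eq_radical (K := L)]
      intro a ha
      have ha' : ∀ q : Eg d 2, eval a (sysE w d f 2 p q) = 0 := by
        intro q
        have := ha _ (Ideal.subset_span ⟨q, rfl⟩)
        rwa [aeval_eq_eval] at this
      obtain ⟨A, hA0, hAd, hA⟩ := hT a ha'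
      have hA' := NilM.eq_quad A hA0 hAd
      set τ₁ := A.coeff 1
      set τ₂ := A.coeff 2
      -- the coefficients of the curve
      have hc : ∀ (i : Fin N) (j : Fin (2 * w i)), a ⟨i, j⟩ = p i * ((1 + Polynomial.C τ₁ *
          Polynomial.X + Polynomial.C τ₂ * Polynomial.X ^ 2) ^ w i).coeff (j.1 + 1) := by
        intro i j
        have h2 := curvePoly_coeff (fun i => 2 * w i) p a i j
        have h3 : curvePoly (fun i => 2 * w i) p a i = Polynomial.C (p i) * A ^ w i := hA i
        rw [h3, Polynomial.coeff_C_mul, hA'] at h2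
        exact h2.symm
      have e1 : aeval a θ₁ = τ₁ := by
        rw [hθ₁, map_mul, aeval_X, aeval_C, hc, hq0, zero_add, (NilM.coeffs τ₁ τ₂ (w i0)).2.1]
        simp only [Algebra.algebraMap_self, RingHom.id_apply]
        have := hp i0
        field_simp
      have e2 : aeval a θ₂ = τ₂ := by
        rw [hθ₂, map_mul, map_sub, map_mul, map_mul, map_pow, aeval_X, aeval_C, aeval_C, aeval_C,
          e1, hc, hq1, (NilM.coeffs τ₁ τ₂ (w i0)).2.2]
        simp only [Algebra.algebraMap_self, RingHom.id_apply]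
        have := hp i0
        field_simp
        ring
      rw [map_sub, aeval_X, sub_eq_zero]
      obtain ⟨i, j⟩ := q
      simp only
      have e3 : aeval a ((Polynomial.C (C (p i)) * (1 + Polynomial.C θ₁ * Polynomial.X +
          Polynomial.C θ₂ * Polynomial.X ^ 2) ^ w i).coeff (j.1 + 1)) =
          ((Polynomial.C (C (p i)) * (1 + Polynomial.C θ₁ * Polynomial.X +
          Polynomial.C θ₂ * Polynomial.X ^ 2) ^ w i).map
            ((aeval a : MvPolynomial (Sg w 2) L →ₐ[L] L) :
              MvPolynomial (Sg w 2) L →+* L)).coeff (j.1 + 1) := by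
        rw [Polynomial.coeff_map]
        rfl
      rw [e3, Polynomial.map_mul, Polynomial.map_pow, Polynomial.map_add, Polynomial.map_add,
        Polynomial.map_mul, Polynomial.map_mul, Polynomial.map_pow, Polynomial.map_one,
        Polynomial.map_X, Polynomial.map_C, Polynomial.map_C, Polynomial.map_C]
      simp only [RingHom.coe_coe]
      rw [e1, e2, aeval_C, Polynomial.coeff_C_mul, hc]
      rfl
    exact h1
  choose M hM using key
  refine ⟨θ₁, θ₂, ∑ q, M q, ?_, fun q => ?_⟩
  · simp only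
    rw [hθ₁, ← mul_assoc, ← C_mul, mul_inv_cancel₀ (mul_ne_zero hW (hp i0)), C_1, one_mul]
  · exact Ideal.pow_mem_of_pow_mem _ (hM q) (Finset.single_le_sum (f := M)
      (fun _ _ => Nat.zero_le _) (Finset.mem_univ q))

end Pool.Agent.PC
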