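import Pool.Agent.Lib.MP_410da7_agP.Spec2

/-!
# Module Non: the Bezout number of the system for `k = 1`
-/

set_option autoImplicit false

namespace Pool.Agent.PC

open MvPolynomial Pool.Agent.Lib.MP_410da7_ag
open scoped Nat

namespace NonM

theorem card_sg {N : ℕ} (w : Fin N → ℕ) (k : ℕ) : Fintype.card (Sg w k) = ∑ i, k * w i := by
  rw [Fintype.card_sigma]
  simp

theorem card_eg {r : ℕ} (d : Fin r → ℕ) (k : ℕ) : Fintype.card (Eg d k) = ∑ i, k * d i := by
  rw [Fintype.card_sigma]
  simp

theorem prod_fin (n : ℕ) : ∏ j : Fin n, (j.1 + 1) = n ! := by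
  rw [Fin.prod_univ_eq_prod_range (fun j => j + 1) n, Finset.prod_range_add_one_eq_factorial]

theorem prod_wt {N : ℕ} (w : Fin N → ℕ) (k : ℕ) : ∏ s : Sg w k, wt s = ∏ i, (k * w i)! := by
  rw [Fintype.prod_sigma]
  exact Finset.prod_congr rfl fun i _ => prod_fin _

theorem prod_dg {r : ℕ} (d : Fin r → ℕ) (k : ℕ) : ∏ s : Eg d k, dg s = ∏ i, (k * d i)! := by
  rw [Fintype.prod_sigma]
  exact Finset.prod_congr rfl fun i _ => prod_fin _

theorem coeff_lin {L : Type} [Field L] (τ : L) (W n : ℕ) :
    ((1 + Polynomial.C τ * Polynomial.X) ^ W).coeff n = (W.choose n : L) * τ ^ n := by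
  have h1 : (1 + Polynomial.C τ * Polynomial.X) ^ W =
      ((1 + Polynomial.X) ^ W).comp (Polynomial.C τ * Polynomial.X) := by
    rw [Polynomial.pow_comp, Polynomial.add_comp, Polynomial.one_comp, Polynomial.X_comp]
  rw [h1, Polynomial.comp_C_mul_X_coeff, Polynomial.coeff_one_add_X_pow]

theorem eq_lin {L : Type} [Field L] (A : Polynomial L) (h0 : A.eval 0 = 1)
    (h : A.natDegree ≤ 1) : A = 1 + Polynomial.C (A.coeff 1) * Polynomial.X := by
  have h1 := A.as_sum_range_C_mul_X_pow' (n := 2) (by omega)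
  rw [Finset.sum_range_succ, Finset.sum_range_one] at h1
  rw [← Polynomial.coeff_zero_eq_eval_zero] at h0
  rw [h0, Polynomial.C_1, pow_zero, one_mul, pow_one] at h1
  exact h1

/-- A curve with constant parameter polynomial has no coefficients. -/
theorem eq_zero_of_one {N : ℕ} {w : Fin N → ℕ} {k : ℕ} {L : Type} [Field L] (p : Fin N → L)
    (a : Sg w k → L) (h : ∀ i, cur w k p a i = Polynomial.C (p i) * 1 ^ w i) : a = 0 := by
  funext q
  obtain ⟨i, j⟩ := q
  have h2 := curvePoly_coeff (fun i => k * w i) p a i j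
  have h3 : curvePoly (fun i => k * w i) p a i = Polynomial.C (p i) * 1 ^ w i := h i
  rw [h3, one_pow, mul_one, Polynomial.coeff_C_succ] at h2
  exact h2.symm

end NonM

theorem stmtNon (hB : StmtBez) (hS : StmtSys) : StmtNon := by
  intro N r w d f hw hf hwd L _ _ _ p hp hfp hT q0 c
  have hch : CharZero L := charZero_of_injective_algebraMap (algebraMap ℂ L).injective
  obtain ⟨hS1, -, -⟩ := hS N r w d f hf 1 L p
  let E : Eg d 1 ⊕ Unit → MvPolynomial (Sg w 1) L :=
    Sum.elim (fun q => sysE w d f 1 p q) (fun _ => X q0)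
  let dE : Eg d 1 ⊕ Unit → ℕ := Sum.elim (fun q => dg q) (fun _ => wt q0)
  let cc : Eg d 1 ⊕ Unit → L := Sum.elim (fun _ => 0) (fun _ => c)
  have hcard : Fintype.card (Eg d 1 ⊕ Unit) = Fintype.card (Sg w 1) := by
    rw [Fintype.card_sum, NonM.card_eg, NonM.card_sg, Fintype.card_unit]
    simp only [one_mul]
    exact hwd.symm
  have hzero : ∀ a : Sg w 1 → L, (∀ t, eval a (E t) = 0) → a = 0 := by
    intro a ha
    obtain ⟨A, hA0, hAd, hA⟩ := hT a fun q => ha (Sum.inl q)
    have ha0 : a q0 = 0 := by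
      have := ha (Sum.inr ())
      simpa [E] using this
    have hA' := NonM.eq_lin A hA0 hAd
    have hτ : A.coeff 1 = 0 := by
      obtain ⟨i, j⟩ := q0
      have h2 := curvePoly_coeff (fun i => 1 * w i) p a i j
      have h3 : curvePoly (fun i => 1 * w i) p a i = Polynomial.C (p i) * A ^ w i := hA i
      rw [h3, Polynomial.coeff_C_mul, hA', NonM.coeff_lin, ha0] at h2
      have h4 : ((w i).choose (j.1 + 1) : L) ≠ 0 := by
        rw [Nat.cast_ne_zero]
        have h5 := j.2
        exact (Nat.choose_pos (by omega)).ne'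
      have h6 := (mul_eq_zero.1 h2).resolve_left (hp i)
      exact pow_eq_zero_iff (Nat.succ_ne_zero _) |>.1 ((mul_eq_zero.1 h6).resolve_left h4)
    rw [hτ, Polynomial.C_0, zero_mul, add_zero] at hA'
    rw [hA'] at hA
    exact NonM.eq_zero_of_one p a hA
  obtain ⟨h1, h2⟩ := hB (Sg w 1) (Eg d 1 ⊕ Unit) hcard L (fun s => wt s)
    (fun s => Nat.succ_pos _) E dE (by
      rintro (t | t)
      · exact Nat.succ_pos _
      · exact Nat.succ_pos _) (by
      rintro (t | t)
      · exact hS1 t
      · exact isWeightedHomogeneous_X L (fun s : Sg w 1 => wt s) q0) hzero L cc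
  have hJ : Ideal.span (Set.range fun t => map (algebraMap L L) (E t) - C (cc t)) =
      J1 w d f p q0 c := by
    unfold J1
    congr 1
    ext P
    constructor
    · rintro ⟨t | t, rfl⟩
      · left
        refine ⟨t, ?_⟩
        simp only [E, cc, Sum.elim_inl, map_zero, sub_zero]
        exact (MvPolynomial.map_id _).symm
      · right
        simp only [E, cc, Sum.elim_inr, Set.mem_singleton_iff, map_X]
    · rintro (⟨t, rfl⟩ | h)
      · refine ⟨Sum.inl t, ?_⟩
        simp only [E, cc, Sum.elim_inl, map_zero, sub_zero]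
        exact MvPolynomial.map_id _
      · rw [Set.mem_singleton_iff] at h
        refine ⟨Sum.inr (), ?_⟩
        simp only [E, cc, Sum.elim_inr, map_X]
        exact h.symm
  rw [hJ] at h1 h2
  refine ⟨h1, ?_⟩
  have e1 : ∏ s : Sg w 1, wt s = ∏ i, (w i)! := by
    rw [NonM.prod_wt]
    simp only [one_mul]
  have e2 : ∏ t, dE t = (∏ k, (d k)!) * wt q0 := by
    rw [Fintype.prod_sum_type]
    simp only [dE, Sum.elim_inl, Sum.elim_inr, Finset.univ_unique, Finset.prod_singleton]
    rw [NonM.prod_dg]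
    simp only [one_mul]
  rw [e1, e2] at h2
  exact h2

end Pool.Agent.PC
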