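import Pool.Agent.Lib.MP_410da7_agP.Non

/-!
# Module Ntw: the Bezout number of the system for `k = 2`
-/

set_option autoImplicit false

namespace Pool.Agent.PC

open MvPolynomial Pool.Agent.Lib.MP_410da7_ag
open scoped Nat

namespace NtwM

theorem eq_quad {L : Type} [Field L] (A : Polynomial L) (h0 : A.eval 0 = 1)
    (h : A.natDegree ≤ 2) : A = 1 + Polynomial.C (A.coeff 1) * Polynomial.X +
      Polynomial.C (A.coeff 2) * Polynomial.X ^ 2 := by
  have h1 := A.as_sum_range_C_mul_X_pow' (n := 3) (by omega)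
  rw [Finset.sum_range_succ, Finset.sum_range_succ, Finset.sum_range_one] at h1
  rw [← Polynomial.coeff_zero_eq_eval_zero] at h0
  rw [h0, Polynomial.C_1, pow_zero, one_mul, pow_one] at h1
  exact h1

/-- the coefficient of `t` in a power -/
theorem coeff_one_pow {L : Type} [Field L] (A : Polynomial L) (h0 : A.coeff 0 = 1) (W : ℕ) :
    (A ^ W).coeff 0 = 1 ∧ (A ^ W).coeff 1 = (W : L) * A.coeff 1 := by
  induction W with
  | zero => exact ⟨by simp, by simp [Polynomial.coeff_one]⟩
  | succ W ih =>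
    obtain ⟨h1, h2⟩ := ih
    rw [pow_succ]
    refine ⟨by rw [Polynomial.mul_coeff_zero, h1, h0, mul_one], ?_⟩
    rw [Polynomial.mul_coeff_one, h1, h2, h0]
    push_cast
    ring

end NtwM

theorem stmtNtw (hB : StmtBez) (hS : StmtSys) : StmtNtw := by
  intro N r w d f hw hf hwd L _ _ _ p hp hfp hT q0 q1 hq01 hq0 hq1 c0 c1
  have hch : CharZero L := charZero_of_injective_algebraMap (algebraMap ℂ L).injective
  obtain ⟨hS1, -, -⟩ := hS N r w d f hf 2 L p
  let E : (Eg d 2 ⊕ Unit) ⊕ Unit → MvPolynomial (Sg w 2) L :=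
    Sum.elim (Sum.elim (fun q => sysE w d f 2 p q) (fun _ => X q0)) (fun _ => X q1)
  let dE : (Eg d 2 ⊕ Unit) ⊕ Unit → ℕ :=
    Sum.elim (Sum.elim (fun q => dg q) (fun _ => wt q0)) (fun _ => wt q1)
  let cc : (Eg d 2 ⊕ Unit) ⊕ Unit → RatFunc L :=
    Sum.elim (Sum.elim (fun _ => 0) (fun _ => c0)) (fun _ => c1)
  have hcard : Fintype.card ((Eg d 2 ⊕ Unit) ⊕ Unit) = Fintype.card (Sg w 2) := by
    rw [Fintype.card_sum, Fintype.card_sum, NonM.card_eg, NonM.card_sg, Fintype.card_unit,
      ← Finset.mul_sum, ← Finset.mul_sum, hwd]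
    ring
  have hzero : ∀ a : Sg w 2 → L, (∀ t, eval a (E t) = 0) → a = 0 := by
    intro a ha
    obtain ⟨A, hA0, hAd, hA⟩ := hT a fun q => ha (Sum.inl (Sum.inl q))
    have ha0 : a q0 = 0 := by
      have := ha (Sum.inl (Sum.inr ()))
      simpa [E] using this
    have ha1 : a q1 = 0 := by
      have := ha (Sum.inr ())
      simpa [E] using this
    have hA' := NtwM.eq_quad A hA0 hAd
    have hc0 : A.coeff 0 = 1 := by
      rw [Polynomial.coeff_zero_eq_eval_zero]
      exact hA0
    have hτ1 : A.coeff 1 = 0 := by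
      obtain ⟨i, j⟩ := q0
      simp only at hq0
      have h2 := curvePoly_coeff (fun i => 2 * w i) p a i j
      have h3 : curvePoly (fun i => 2 * w i) p a i = Polynomial.C (p i) * A ^ w i := hA i
      rw [h3, Polynomial.coeff_C_mul, hq0, zero_add, (NtwM.coeff_one_pow A hc0 (w i)).2, ha0] at h2
      have h4 : ((w i : ℕ) : L) ≠ 0 := Nat.cast_ne_zero.2 (hw i).ne'
      exact (mul_eq_zero.1 ((mul_eq_zero.1 h2).resolve_left (hp i))).resolve_left h4
    have hτ2 : A.coeff 2 = 0 := by
      obtain ⟨i, j⟩ := q1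
      simp only at hq1
      have h2 := curvePoly_coeff (fun i => 2 * w i) p a i j
      have h3 : curvePoly (fun i => 2 * w i) p a i = Polynomial.C (p i) * A ^ w i := hA i
      have h4 : (A ^ w i).coeff (w i * 2) = A.coeff 2 ^ w i :=
        Polynomial.coeff_pow_of_natDegree_le hAd
      rw [h3, Polynomial.coeff_C_mul, hq1, mul_comm 2, h4, ha1] at h2
      exact (pow_eq_zero_iff (hw i).ne').1 ((mul_eq_zero.1 h2).resolve_left (hp i))
    rw [hτ1, hτ2, Polynomial.C_0, zero_mul, zero_mul, add_zero, add_zero] at hA'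
    rw [hA'] at hA
    exact NonM.eq_zero_of_one p a hA
  obtain ⟨h1, h2⟩ := hB (Sg w 2) ((Eg d 2 ⊕ Unit) ⊕ Unit) hcard L (fun s => wt s)
    (fun s => Nat.succ_pos _) E dE (by
      rintro ((t | t) | t)
      · exact Nat.succ_pos _
      · exact Nat.succ_pos _
      · exact Nat.succ_pos _) (by
      rintro ((t | t) | t)
      · exact hS1 t
      · exact isWeightedHomogeneous_X L (fun s : Sg w 2 => wt s) q0
      · exact isWeightedHomogeneous_X L (fun s : Sg w 2 => wt s) q1) hzero (RatFunc L) cc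
  have hJ : Ideal.span (Set.range fun t => map (algebraMap L (RatFunc L)) (E t) - C (cc t)) =
      J2 w d f p q0 q1 c0 c1 := by
    unfold J2
    congr 1
    ext P
    constructor
    · rintro ⟨(t | t) | t, rfl⟩
      · left
        refine ⟨t, ?_⟩
        simp only [E, cc, Sum.elim_inl, map_zero, sub_zero]
      · right
        left
        simp only [E, cc, Sum.elim_inl, Sum.elim_inr, map_X]
      · right
        right
        simp only [E, cc, Sum.elim_inr, Set.mem_singleton_iff, map_X]
    · rintro (⟨t, rfl⟩ | h | h)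
      · refine ⟨Sum.inl (Sum.inl t), ?_⟩
        simp only [E, cc, Sum.elim_inl, map_zero, sub_zero]
      · refine ⟨Sum.inl (Sum.inr ()), ?_⟩
        simp only [E, cc, Sum.elim_inl, Sum.elim_inr, map_X]
        exact h.symm
      · rw [Set.mem_singleton_iff] at h
        refine ⟨Sum.inr (), ?_⟩
        simp only [E, cc, Sum.elim_inr, map_X]
        exact h.symm
  rw [hJ] at h1 h2
  refine ⟨h1, ?_⟩
  have e2 : ∏ t, dE t = (∏ k, (2 * d k)!) * (2 * w q1.1) := by
    rw [Fintype.prod_sum_type, Fintype.prod_sum_type]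
    simp only [dE, Sum.elim_inl, Sum.elim_inr, Finset.univ_unique, Finset.prod_singleton]
    rw [NonM.prod_dg]
    have h3 : wt q0 = 1 := by
      unfold wt
      rw [hq0]
    have h4 : wt q1 = 2 * w q1.1 := hq1
    rw [h3, h4, mul_one]
  rw [NonM.prod_wt, e2] at h2
  exact h2

end Pool.Agent.PC
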