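import Pool.Agent.Lib.MP_410da7_agP.Spec
import Pool.Agent.Lib.MP_410da7_ag.Transfer
import Pool.Agent.Lib.MP_410da7_ag.CYGraded

/-!
# Nullstellensatz and weighted homogeneous minors
-/

set_option autoImplicit false

namespace Pool.Agent.PC.NulM

open MvPolynomial Pool.Agent.Lib.MP_410da7_ag

/-- All exponents of `P` satisfy `weight e + a = b`. -/
def HomD {N : ℕ} (w : Fin N → ℕ) (P : MvPolynomial (Fin N) ℂ) (a b : ℕ) : Prop :=
  ∀ e, coeff e P ≠ 0 → Finsupp.weight w e + a = b

theorem HomD.mul {N : ℕ} {w : Fin N → ℕ} {P Q : MvPolynomial (Fin N) ℂ} {a b a' b' : ℕ}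
    (h : HomD w P a b) (h' : HomD w Q a' b') : HomD w (P * Q) (a + a') (b + b') := by
  classical
  intro e he
  rw [coeff_mul] at he
  obtain ⟨⟨i, j⟩, hij, hne⟩ := Finset.exists_ne_zero_of_sum_ne_zero he
  rw [Finset.HasAntidiagonal.mem_antidiagonal] at hij
  have h1 := h i (left_ne_zero_of_mul hne)
  have h2 := h' j (right_ne_zero_of_mul hne)
  rw [← hij]
  simp only [map_add]
  omega

theorem HomD.one {N : ℕ} {w : Fin N → ℕ} : HomD w (1 : MvPolynomial (Fin N) ℂ) 0 0 := by
  classical
  intro e he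
  rw [coeff_one] at he
  have : e = 0 := by
    by_contra h
    rw [if_neg (fun h' => h h'.symm)] at he
    exact he rfl
  rw [this, map_zero]

theorem HomD.prod {N : ℕ} {w : Fin N → ℕ} {ι : Type} (s : Finset ι)
    (P : ι → MvPolynomial (Fin N) ℂ) (a b : ι → ℕ) (h : ∀ i ∈ s, HomD w (P i) (a i) (b i)) :
    HomD w (∏ i ∈ s, P i) (∑ i ∈ s, a i) (∑ i ∈ s, b i) := by
  classical
  induction s using Finset.induction_on with
  | empty => simpa using HomD.one
  | insert i s hi ih =>
    rw [Finset.prod_insert hi, Finset.sum_insert hi, Finset.sum_insert hi]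
    exact (h i (Finset.mem_insert_self i s)).mul
      (ih fun j hj => h j (Finset.mem_insert_of_mem hj))

theorem HomD.sum {N : ℕ} {w : Fin N → ℕ} {ι : Type} (s : Finset ι)
    (P : ι → MvPolynomial (Fin N) ℂ) (a b : ℕ) (h : ∀ i ∈ s, HomD w (P i) a b) :
    HomD w (∑ i ∈ s, P i) a b := by
  classical
  intro e he
  rw [coeff_sum] at he
  obtain ⟨i, hi, hne⟩ := Finset.exists_ne_zero_of_sum_ne_zero he
  exact h i hi e hne

theorem homD_pderiv {N : ℕ} {w : Fin N → ℕ} {f : MvPolynomial (Fin N) ℂ} {d : ℕ}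
    (hf : f.IsWeightedHomogeneous w d) (l : Fin N) : HomD w (pderiv l f) (w l) d := by
  intro e he
  rw [coeff_pderiv] at he
  have h1 := hf (left_ne_zero_of_mul he)
  rw [map_add, Finsupp.weight_single, one_smul] at h1
  exact h1

theorem homD_minor {N r n : ℕ} {w : Fin N → ℕ} {d : Fin r → ℕ}
    {f : Fin r → MvPolynomial (Fin N) ℂ} (hf : ∀ k, (f k).IsWeightedHomogeneous w (d k))
    (σ : Fin r ⊕ Fin n ≃ Fin N) (ι : Fin n → Fin N) :
    HomD w (minorP f σ ι) (∑ l, w l) (∑ k, d k + ∑ i, w (ι i)) := by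
  classical
  unfold minorP
  rw [Matrix.det_apply]
  refine HomD.sum _ _ _ _ fun τ _ => ?_
  have h1 : HomD w (∏ j : Fin r ⊕ Fin n, (Matrix.of fun i j =>
      Sum.elim (fun (k : Fin r) (l : Fin N) => pderiv l (f k))
        (fun (i : Fin n) (l : Fin N) => if l = ι i then 1 else 0) i (σ j)) (τ j) j)
      (∑ j, w (σ j)) (∑ j, Sum.elim d (fun i => w (ι i)) (τ j)) := by
    refine HomD.prod _ _ _ _ fun j _ => ?_
    rw [Matrix.of_apply]
    rcases τ j with k | i
    · exact homD_pderiv (hf k) (σ j)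
    · simp only [Sum.elim_inr]
      intro e he
      by_cases h : σ j = ι i
      · rw [if_pos h] at he
        have := HomD.one (w := w) e he
        rw [h]
        omega
      · rw [if_neg h, coeff_zero] at he
        exact absurd rfl he
  have h2 : ∑ j, w (σ j) = ∑ l, w l := Equiv.sum_comp σ w
  have h3 : ∑ j, Sum.elim d (fun i => w (ι i)) (τ j) = ∑ k, d k + ∑ i, w (ι i) := by
    rw [Equiv.sum_comp τ (Sum.elim d (fun i => w (ι i))), Fintype.sum_sum_type]
    simp only [Sum.elim_inl, Sum.elim_inr]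
  rw [h2, h3] at h1
  intro e he
  refine h1 e fun h0 => he ?_
  rw [coeff_smul, h0, smul_zero]

/-- Some minor does not vanish at a smooth point. -/
theorem exists_minor {N r n : ℕ} (f : Fin r → MvPolynomial (Fin N) ℂ) (u : Fin N → ℂ)
    (hu : LinearIndependent ℂ (fun (k : Fin r) (l : Fin N) => eval u (pderiv l (f k))))
    (σ : Fin r ⊕ Fin n ≃ Fin N) : ∃ ι, eval u (minorP f σ ι) ≠ 0 := by
  classical
  have hcard : r + n = N := by
    have := Fintype.card_congr σ
    rwa [Fintype.card_sum, Fintype.card_fin, Fintype.card_fin, Fintype.card_fin] at this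
  obtain ⟨τ, hτ⟩ := exists_completion _ hu n (by rw [Fintype.card_fin]; omega)
  refine ⟨τ, ?_⟩
  unfold minorP
  rw [RingHom.map_det, RingHom.mapMatrix_apply]
  have h2 := hτ.map' (LinearEquiv.funCongrLeft ℂ ℂ σ).toLinearMap (LinearEquiv.ker _)
  have h3 : ((Matrix.of fun i j =>
      Sum.elim (fun (k : Fin r) (l : Fin N) => pderiv l (f k))
        (fun (i : Fin n) (l : Fin N) => if l = τ i then 1 else 0) i (σ j)).map (eval u)).row =
      ⇑(LinearEquiv.funCongrLeft ℂ ℂ σ).toLinearMap ∘
        Sum.elim (fun (k : Fin r) (l : Fin N) => eval u (pderiv l (f k)))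
          (fun i => Pi.single (τ i) 1) := by
    funext i j
    rcases i with k | i
    · simp [Matrix.row, LinearMap.funLeft]
    · simp only [Matrix.row, Matrix.map_apply, Matrix.of_apply, Sum.elim_inr,
        Function.comp_apply, LinearEquiv.coe_coe, LinearEquiv.funCongrLeft_apply,
        LinearMap.funLeft_apply, Pi.single_apply]
      split_ifs <;> simp
  have h1 : LinearIndependent ℂ (((Matrix.of fun i j =>
      Sum.elim (fun (k : Fin r) (l : Fin N) => pderiv l (f k))
        (fun (i : Fin n) (l : Fin N) => if l = τ i then 1 else 0) i (σ j)).map (eval u)).row) := by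
    rw [h3]
    exact h2
  rw [Matrix.linearIndependent_rows_iff_isUnit, Matrix.isUnit_iff_isUnit_det] at h1
  exact h1.ne_zero

theorem exists_pow {N r n : ℕ} {w : Fin N → ℕ} {d : Fin r → ℕ}
    {f : Fin r → MvPolynomial (Fin N) ℂ} (hq : QuasiSmooth w d f)
    (σ : Fin r ⊕ Fin n ≃ Fin N) (j0 : Fin N) :
    ∃ (q : ℕ) (g : Fin r → MvPolynomial (Fin N) ℂ)
      (h : (Fin n → Fin N) → MvPolynomial (Fin N) ℂ),
      X j0 ^ q = ∑ k, g k * f k + ∑ ι, h ι * minorP f σ ι := by
  classical
  let v : Fin r ⊕ (Fin n → Fin N) → MvPolynomial (Fin N) ℂ := Sum.elim f (minorP f σ)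
  let I : Ideal (MvPolynomial (Fin N) ℂ) := Ideal.span (Set.range v)
  have h1 : (X j0 : MvPolynomial (Fin N) ℂ) ∈ vanishingIdeal ℂ (zeroLocus ℂ I) := by
    intro u hu
    rw [mem_zeroLocus_iff] at hu
    rw [aeval_X]
    by_contra hne
    have hu0 : u ≠ 0 := by
      rintro rfl
      exact hne rfl
    have h2 : ∀ i, eval u (v i) = 0 := by
      intro i
      have := hu (v i) (Ideal.subset_span ⟨i, rfl⟩)
      exact this
    obtain ⟨ι, hι⟩ := exists_minor f u (hq.smooth u hu0 fun k => h2 (Sum.inl k)) σ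
    exact hι (h2 (Sum.inr ι))
  rw [vanishingIdeal_zeroLocus_eq_radical] at h1
  obtain ⟨q, hq⟩ := h1
  rw [Ideal.mem_span_range_iff_exists_fun] at hq
  obtain ⟨c, hc⟩ := hq
  refine ⟨q, fun k => c (Sum.inl k), fun ι => c (Sum.inr ι), ?_⟩
  rw [← hc, Fintype.sum_sum_type]
  rfl

end Pool.Agent.PC.NulM

namespace Pool.Agent.PC

open MvPolynomial Pool.Agent.Lib.MP_410da7_ag NulM

theorem stmtNul : StmtNul := by
  classical
  intro N r n w d f hq σ j0
  obtain ⟨q, g, h, hid⟩ := exists_pow hq σ j0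
  have hM := fun ι => homD_minor hq.homog σ ι
  -- the components
  have hX : weightedHomogeneousComponent w (q * w j0) (X j0 ^ q : MvPolynomial (Fin N) ℂ) =
      X j0 ^ q := by
    have h1 : (X j0 ^ q : MvPolynomial (Fin N) ℂ).IsWeightedHomogeneous w (q * w j0) := by
      have := (isWeightedHomogeneous_X ℂ w j0).pow q
      rwa [smul_eq_mul] at this
    rw [weightedHomogeneousComponent_of_mem h1, if_pos rfl]
  have key : ∀ ι, ∃ h' : MvPolynomial (Fin N) ℂ,
      weightedHomogeneousComponent w (q * w j0) (h ι * minorP f σ ι) = h' * minorP f σ ι ∧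
      ∀ e ∈ h'.support,
        Finsupp.weight w e + ∑ k, d k + ∑ i, w (ι i) = q * w j0 + ∑ l, w l := by
    intro ι
    by_cases h0 : minorP f σ ι = 0
    · refine ⟨0, ?_, ?_⟩
      · rw [h0, mul_zero, mul_zero, map_zero]
      · intro e he
        simp at he
    · obtain ⟨e0, he0⟩ := ne_zero_iff.1 h0
      have hm := hM ι e0 he0
      have hhom : (minorP f σ ι).IsWeightedHomogeneous w (Finsupp.weight w e0) := by
        intro e he
        have := hM ι e he
        omega
      refine ⟨if Finsupp.weight w e0 ≤ q * w j0 then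
        weightedHomogeneousComponent w (q * w j0 - Finsupp.weight w e0) (h ι) else 0, ?_, ?_⟩
      · rw [CYGraded_comp_mul w _ _ _ hhom]
        split_ifs
        · rfl
        · rw [zero_mul]
      · intro e he
        split_ifs at he with h3
        · have h4 := weightedHomogeneousComponent_isWeightedHomogeneous
            (q * w j0 - Finsupp.weight w e0) (h ι) (w := w) (mem_support_iff.1 he)
          omega
        · simp at he
  choose h' hh' hsupp using key
  have keyg : ∀ k, ∃ g' : MvPolynomial (Fin N) ℂ,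
      weightedHomogeneousComponent w (q * w j0) (g k * f k) = g' * f k := by
    intro k
    rw [CYGraded_comp_mul w _ _ _ (hq.homog k)]
    split_ifs
    · exact ⟨_, rfl⟩
    · exact ⟨0, by rw [zero_mul]⟩
  choose g' hg' using keyg
  refine ⟨q, g', h', ?_, hsupp⟩
  rw [← hX, hid, map_add, map_sum, map_sum]
  congr 1
  · exact Finset.sum_congr rfl fun k _ => hg' k
  · exact Finset.sum_congr rfl fun ι _ => hh' ι

end Pool.Agent.PC
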