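import Pool.Agent.Lib.MP_410da7_agP.Spec2

/-!
# Module Num: the numerical inequality
-/

set_option autoImplicit false

namespace Pool.Agent.PC

open scoped Nat

namespace NumM

/-- the ratio of consecutive central binomial coefficients -/
noncomputable def c (m : ℕ) : ℝ := 4 - 2 / (m : ℝ)

/-- the central binomial coefficient as a real number -/
noncomputable def cb (n : ℕ) : ℝ := (Nat.centralBinom n : ℝ)

theorem cb_pos (n : ℕ) : 0 < cb n := by
  unfold cb
  exact_mod_cast Nat.centralBinom_pos n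

theorem cb_one : cb 1 = 2 := by
  unfold cb
  norm_num [Nat.centralBinom, Nat.choose]

theorem cb_succ (n : ℕ) : cb (n + 1) = c (n + 1) * cb n := by
  have h := Nat.succ_mul_centralBinom_succ n
  have h' : ((n : ℝ) + 1) * cb (n + 1) = 2 * (2 * (n : ℝ) + 1) * cb n := by
    unfold cb
    exact_mod_cast h
  have hn : ((n : ℝ) + 1) ≠ 0 := by positivity
  unfold c
  push_cast
  field_simp
  linarith [h']

theorem c_mono {a b : ℕ} (ha : 1 ≤ a) (hab : a ≤ b) : c a ≤ c b := by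
  unfold c
  have h1 : (1 : ℝ) ≤ a := by exact_mod_cast ha
  have h2 : (a : ℝ) ≤ b := by exact_mod_cast hab
  have h3 : 2 / (b : ℝ) ≤ 2 / (a : ℝ) := by
    apply div_le_div_of_nonneg_left <;> linarith
  linarith

theorem two_le_c {a : ℕ} (ha : 1 ≤ a) : 2 ≤ c a := by
  refine le_trans ?_ (c_mono le_rfl ha)
  unfold c
  norm_num

theorem two_lt_c {a : ℕ} (ha : 2 ≤ a) : 2 < c a := by
  refine lt_of_lt_of_le ?_ (c_mono (by norm_num) ha)
  unfold c
  norm_num

theorem cb_upper {T : ℕ} (n : ℕ) (hn : n + 1 ≤ T) : cb (n + 1) ≤ 2 * c T ^ n := by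
  have hT : 2 ≤ c T := two_le_c (by omega)
  induction n with
  | zero =>
    rw [zero_add, cb_one]
    simp
  | succ n ih =>
    rw [cb_succ (n + 1), pow_succ]
    have h1 := ih (by omega)
    have h2 : c (n + 1 + 1) ≤ c T := c_mono (by omega) hn
    have h3 := cb_pos (n + 1)
    calc c (n + 1 + 1) * cb (n + 1) ≤ c T * (2 * c T ^ n) :=
          mul_le_mul h2 h1 h3.le (by linarith)
      _ = 2 * (c T ^ n * c T) := by ring

theorem cb_lower {T a : ℕ} (hT : T ≤ a) (s : ℕ) : cb a * c (T + 1) ^ s ≤ cb (a + s) := by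
  have hT' : 2 ≤ c (T + 1) := two_le_c (by omega)
  induction s with
  | zero => simp
  | succ s ih =>
    rw [← add_assoc, cb_succ (a + s), pow_succ]
    have h2 : c (T + 1) ≤ c (a + s + 1) := c_mono (by omega) (by omega)
    have h3 := cb_pos a
    calc cb a * (c (T + 1) ^ s * c (T + 1)) = c (T + 1) * (cb a * c (T + 1) ^ s) := by ring
      _ ≤ c (a + s + 1) * cb (a + s) := mul_le_mul h2 ih (by positivity) (by linarith)

theorem fact_two (n : ℕ) : (((2 * n)! : ℕ) : ℝ) = cb n * ((n ! : ℕ) : ℝ) ^ 2 := by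
  have h := Nat.choose_mul_factorial_mul_factorial (n := 2 * n) (k := n) (by omega)
  have h1 : 2 * n - n = n := by omega
  rw [h1] at h
  unfold cb
  rw [← h, Nat.centralBinom]
  push_cast
  ring

section split

variable {N r : ℕ} (e : Fin r → Fin N) (he : Function.Injective e) (U : Finset (Fin N))
  (hU : ∀ i, i ∈ U ↔ ∀ k, e k ≠ i)

include hU in
theorem compl_eq : Uᶜ = Finset.univ.image e := by
  ext i
  rw [Finset.mem_compl, hU]
  simp

include he hU in
theorem prod_split (g : Fin N → ℝ) : ∏ i, g i = (∏ i ∈ U, g i) * ∏ k, g (e k) := by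
  rw [← Finset.prod_mul_prod_compl U, compl_eq e U hU, Finset.prod_image fun a _ b _ h => he h]

include he hU in
theorem sum_split (g : Fin N → ℕ) : ∑ i, g i = (∑ i ∈ U, g i) + ∑ k, g (e k) := by
  rw [← Finset.sum_add_sum_compl U, compl_eq e U hU, Finset.sum_image fun a _ b _ h => he h]

end split

theorem main {N r : ℕ} (w : Fin N → ℕ) (d : Fin r → ℕ) (hw : ∀ i, 0 < w i) (hr : r + 2 ≤ N)
    (hs : ∑ i, w i = ∑ k, d k + 1) (e : Fin r → Fin N) (he : Function.Injective e)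
    (hle : ∀ k, w (e k) ≤ d k) (hmax : ∀ i, (∀ k, e k ≠ i) → ∀ k, w i ≤ w (e k)) :
    ∏ i, cb (w i) < 2 * ∏ k, cb (d k) := by
  classical
  obtain ⟨U, hU⟩ : ∃ U : Finset (Fin N), ∀ i, i ∈ U ↔ ∀ k, e k ≠ i :=
    ⟨Finset.univ.filter (fun i : Fin N => ∀ k, e k ≠ i), fun i => by simp⟩
  have hcard : U.card + r = N := by
    have h1 := sum_split e he U hU (fun _ => 1)
    simp only [Finset.sum_const, smul_eq_mul, mul_one, Finset.card_univ, Fintype.card_fin] at h1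
    omega
  have hUne : U.Nonempty := by
    rw [← Finset.card_pos]
    omega
  set T := U.sup w with hT
  have hwT : ∀ i ∈ U, w i ≤ T := fun i hi => Finset.le_sup (f := w) hi
  have hTe : ∀ k, T ≤ w (e k) := by
    intro k
    refine Finset.sup_le fun i hi => hmax i ?_ k
    exact (hU i).1 hi
  have hT1 : 1 ≤ T := by
    obtain ⟨i, hi⟩ := hUne
    exact (hw i).trans_le (hwT i hi)
  -- the total excess
  set S := ∑ k, (d k - w (e k)) with hS
  have hSd : ∑ k, d k = S + ∑ k, w (e k) := by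
    rw [hS, ← Finset.sum_add_distrib]
    exact Finset.sum_congr rfl fun k _ => (Nat.sub_add_cancel (hle k)).symm
  have hSU : ∑ i ∈ U, w i = S + 1 := by
    have h1 := sum_split e he U hU w
    rw [hs, hSd] at h1
    omega
  have hSU' : ∑ i ∈ U, (w i - 1) + U.card = S + 1 := by
    rw [← hSU, Finset.card_eq_sum_ones, ← Finset.sum_add_distrib]
    exact Finset.sum_congr rfl fun i _ => Nat.sub_add_cancel (hw i)
  have hUS : U.card ≤ S + 1 := by omega
  have hcT : 2 ≤ c T := two_le_c hT1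
  have hcT1 : 2 < c (T + 1) := two_lt_c (by omega)
  have hcTT : c T ≤ c (T + 1) := c_mono hT1 (by omega)
  -- upper bound
  have hup : ∏ i ∈ U, cb (w i) ≤ 2 ^ U.card * c T ^ (∑ i ∈ U, (w i - 1)) := by
    rw [← Finset.prod_const, ← Finset.prod_pow_eq_pow_sum, ← Finset.prod_mul_distrib]
    refine Finset.prod_le_prod (fun i _ => (cb_pos _).le) fun i hi => ?_
    have h1 := cb_upper (T := T) (w i - 1) (by have := hwT i hi; have := hw i; omega)
    have h2 : w i - 1 + 1 = w i := Nat.sub_add_cancel (hw i)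
    rwa [h2] at h1
  -- lower bound
  have hlow : (∏ k, cb (w (e k))) * c (T + 1) ^ S ≤ ∏ k, cb (d k) := by
    rw [hS, ← Finset.prod_pow_eq_pow_sum, ← Finset.prod_mul_distrib]
    refine Finset.prod_le_prod (fun k _ => by
      have := cb_pos (w (e k))
      positivity) fun k _ => ?_
    have h1 := cb_lower (hTe k) (d k - w (e k))
    have h2 : w (e k) + (d k - w (e k)) = d k := Nat.add_sub_cancel' (hle k)
    rwa [h2] at h1
  -- the comparison
  obtain ⟨u, hu⟩ : ∃ u, U.card = u + 2 := ⟨U.card - 2, by omega⟩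
  obtain ⟨s, hsS⟩ : ∃ s, S = s + 1 := ⟨S - 1, by omega⟩
  have hmid : (2 : ℝ) ^ U.card * c T ^ (∑ i ∈ U, (w i - 1)) < 2 * c (T + 1) ^ S := by
    have h1 : u + ∑ i ∈ U, (w i - 1) = s := by omega
    have h2 : (2 : ℝ) ^ U.card * c T ^ (∑ i ∈ U, (w i - 1)) ≤ 4 * c T ^ s := by
      rw [hu, ← h1, pow_add, pow_add (c T)]
      have h3 : (2 : ℝ) ^ u ≤ c T ^ u := pow_le_pow_left₀ (by norm_num) hcT u
      have h4 : 0 < c T ^ (∑ i ∈ U, (w i - 1)) := by positivity
      have h5 := mul_le_mul_of_nonneg_right h3 h4.le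
      nlinarith [h5]
    have h6 : c T ^ s ≤ c (T + 1) ^ s := pow_le_pow_left₀ (by linarith) hcTT s
    have h7 : 0 < c (T + 1) ^ s := by positivity
    rw [hsS, pow_succ]
    nlinarith [h2, h6, h7, mul_pos h7 (sub_pos.2 hcT1)]
  have hP : 0 < ∏ k, cb (w (e k)) := Finset.prod_pos fun k _ => cb_pos _
  rw [prod_split e he U hU]
  calc (∏ i ∈ U, cb (w i)) * ∏ k, cb (w (e k))
      ≤ (2 ^ U.card * c T ^ (∑ i ∈ U, (w i - 1))) * ∏ k, cb (w (e k)) :=
        mul_le_mul_of_nonneg_right hup hP.le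
    _ < (2 * c (T + 1) ^ S) * ∏ k, cb (w (e k)) := mul_lt_mul_of_pos_right hmid hP
    _ = 2 * ((∏ k, cb (w (e k))) * c (T + 1) ^ S) := by ring
    _ ≤ 2 * ∏ k, cb (d k) := by linarith

end NumM

theorem stmtNum : StmtNum := by
  intro N r w d hw hr hs e he hle hmax
  have h := NumM.main w d hw hr hs e he hle hmax
  have h1 : 0 < ((∏ k, ((d k)! : ℕ) : ℕ) : ℝ) ^ 2 * ((∏ i, ((w i)! : ℕ) : ℕ) : ℝ) ^ 2 := by
    have h2 : 0 < ∏ k, (d k)! := Finset.prod_pos fun k _ => Nat.factorial_pos _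
    have h3 : 0 < ∏ i, (w i)! := Finset.prod_pos fun i _ => Nat.factorial_pos _
    have h2' : (0 : ℝ) < ((∏ k, ((d k)! : ℕ) : ℕ) : ℝ) := by exact_mod_cast h2
    have h3' : (0 : ℝ) < ((∏ i, ((w i)! : ℕ) : ℕ) : ℝ) := by exact_mod_cast h3
    positivity
  have e1 : ((∏ i, (2 * w i)! : ℕ) : ℝ) = (∏ i, NumM.cb (w i)) *
      ((∏ i, ((w i)! : ℕ) : ℕ) : ℝ) ^ 2 := by
    push_cast
    rw [← Finset.prod_pow, ← Finset.prod_mul_distrib]
    exact Finset.prod_congr rfl fun i _ => NumM.fact_two (w i)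
  have e2 : ((∏ k, (2 * d k)! : ℕ) : ℝ) = (∏ k, NumM.cb (d k)) *
      ((∏ k, ((d k)! : ℕ) : ℕ) : ℝ) ^ 2 := by
    push_cast
    rw [← Finset.prod_pow, ← Finset.prod_mul_distrib]
    exact Finset.prod_congr rfl fun k _ => NumM.fact_two (d k)
  have h2 := mul_lt_mul_of_pos_right h h1
  have h3 : (((∏ i, (2 * w i)!) * (∏ k, (d k)!) ^ 2 : ℕ) : ℝ) <
      ((2 * (∏ k, (2 * d k)!) * (∏ i, (w i)!) ^ 2 : ℕ) : ℝ) := by
    rw [Nat.cast_mul, Nat.cast_mul, Nat.cast_mul, Nat.cast_pow, Nat.cast_pow, e1, e2]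
    calc (∏ i, NumM.cb (w i)) * ((∏ i, ((w i)! : ℕ) : ℕ) : ℝ) ^ 2 *
          ((∏ k, ((d k)! : ℕ) : ℕ) : ℝ) ^ 2
        = (∏ i, NumM.cb (w i)) * (((∏ k, ((d k)! : ℕ) : ℕ) : ℝ) ^ 2 *
          ((∏ i, ((w i)! : ℕ) : ℕ) : ℝ) ^ 2) := by ring
      _ < 2 * (∏ k, NumM.cb (d k)) * (((∏ k, ((d k)! : ℕ) : ℕ) : ℝ) ^ 2 *
          ((∏ i, ((w i)! : ℕ) : ℕ) : ℝ) ^ 2) := h2
      _ = ((2 : ℕ) : ℝ) * ((∏ k, NumM.cb (d k)) * ((∏ k, ((d k)! : ℕ) : ℕ) : ℝ) ^ 2) *
          ((∏ i, ((w i)! : ℕ) : ℕ) : ℝ) ^ 2 := by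
        push_cast
        ring
  exact_mod_cast h3

end Pool.Agent.PC
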