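import Pool.Agent.Lib.MP_410da7_agP.Spec2

/-!
# P/One: the counting argument in index one (assembly)
-/

set_option autoImplicit false

namespace Pool.Agent.PC

open MvPolynomial Pool.Agent.Lib.MP_410da7_ag
open scoped Nat

namespace OneM

lemma allTriv (hT : StmtTrA) (hS : StmtSys) {N r : ℕ} {w : Fin N → ℕ} {d : Fin r → ℕ}
    {f : Fin r → MvPolynomial (Fin N) ℂ} (hq : QuasiSmooth w d f)
    {L : Type} [Field L] [Algebra ℂ L] {p : Fin N → L} (hp : ∀ i, p i ≠ 0)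
    (hf : ∀ k, aeval p (f k) = 0)
    (hcon : ∀ γ : Fin N → Polynomial L, IsCurve f p γ → (∀ i, (γ i).natDegree ≤ 2 * w i) →
      IsTriv w p γ) (k : ℕ) (hk : k ≤ 2) : AllTriv w d f k p := by
  intro a ha
  have h1 := ((hS N r w d f hq.homog k L p).2.2 L a hf).1 (by
    intro q
    rw [MvPolynomial.aeval_eq_eval]
    exact ha q)
  have h2 : ∀ l, aeval (cur w k p a) (f l) = 0 := h1
  have hc : IsCurve f p (cur w k p a) := ⟨fun i => curvePoly_eval_zero _ _ _ _, h2⟩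
  have hdeg : ∀ i, (cur w k p a i).natDegree ≤ k * w i := fun i => curvePoly_natDegree_le _ _ _ _
  have ht := hcon _ hc (fun i => (hdeg i).trans (Nat.mul_le_mul_right _ hk))
  obtain ⟨A, hA0, hA⟩ := hT N w hq.pos hq.gcd L p hp _ (fun i => curvePoly_eval_zero _ _ _ _) ht
  refine ⟨A, hA0, ?_, hA⟩
  have hN : 0 < N := by
    have := hq.two_le
    omega
  have h3 := hdeg ⟨0, hN⟩
  have hA' : cur w k p a ⟨0, hN⟩ = Polynomial.C (p ⟨0, hN⟩) * A ^ w ⟨0, hN⟩ := hA ⟨0, hN⟩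
  rw [hA', Polynomial.natDegree_C_mul (hp _), Polynomial.natDegree_pow, mul_comm] at h3
  exact Nat.le_of_mul_le_mul_right h3 (hq.pos _)

lemma arith {W P2 Q2 P Q D D1 D1' : ℕ} (hW : 0 < W) (hnum : P2 * Q ^ 2 < 2 * Q2 * P ^ 2)
    (hle : D ≤ D1 * D1') (e1 : D * P2 = Q2 * (2 * W)) (e2 : D1 * P = Q) (e3 : D1' * P = Q * W) :
    False := by
  have k1 : W * (P2 * Q ^ 2) < W * (2 * Q2 * P ^ 2) := Nat.mul_lt_mul_of_pos_left hnum hW
  have k2 : W * (2 * Q2 * P ^ 2) = D * (P2 * P ^ 2) := by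
    calc W * (2 * Q2 * P ^ 2) = (Q2 * (2 * W)) * P ^ 2 := by ring
      _ = D * (P2 * P ^ 2) := by rw [← e1]; ring
  have k3 : D * (P2 * P ^ 2) ≤ (D1 * D1') * (P2 * P ^ 2) := Nat.mul_le_mul_right _ hle
  have k4 : (D1 * D1') * (P2 * P ^ 2) = W * (P2 * Q ^ 2) := by
    calc (D1 * D1') * (P2 * P ^ 2) = (D1 * P) * (D1' * P) * P2 := by ring
      _ = W * (P2 * Q ^ 2) := by rw [e2, e3]; ring
  omega

end OneM

open OneM in
/-- **In index one there is a nontrivial curve of degree `≤ 2 w_i` through every point with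
nonzero coordinates.** -/
theorem stmtOne (hT : StmtTrA) (hS : StmtSys) (h1 : StmtNon) (h2 : StmtNtw) (hC : StmtCze)
    (hD : StmtDeg) (hP : StmtPai) (hN : StmtNum) : StmtOne := by
  intro N r w d f hq hsum L _ _ _ p hp hf
  by_contra hcon
  have hcon' : ∀ γ : Fin N → Polynomial L, IsCurve f p γ → (∀ i, (γ i).natDegree ≤ 2 * w i) →
      IsTriv w p γ := by
    intro γ hγ hdeg
    by_contra ht
    exact hcon ⟨γ, hγ, ht, hdeg⟩
  have hA1 := allTriv hT hS hq hp hf hcon' 1 (by norm_num)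
  have hA2 := allTriv hT hS hq hp hf hcon' 2 le_rfl
  have hN0 : 0 < N := by
    have := hq.two_le
    omega
  let i₀ : Fin N := ⟨0, hN0⟩
  have hW : 0 < w i₀ := hq.pos i₀
  let q0 : Sg w 2 := ⟨i₀, ⟨0, by omega⟩⟩
  let q1 : Sg w 2 := ⟨i₀, ⟨2 * w i₀ - 1, by omega⟩⟩
  let q0' : Sg w 1 := ⟨i₀, ⟨0, by omega⟩⟩
  let q1' : Sg w 1 := ⟨i₀, ⟨w i₀ - 1, by omega⟩⟩
  have hq1 : q1.2.1 + 1 = 2 * w q1.1 := by
    change 2 * w i₀ - 1 + 1 = 2 * w i₀
    omega
  have hq1' : q1'.2.1 + 1 = w i₀ := by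
    change w i₀ - 1 + 1 = w i₀
    omega
  have hntw := h2 N r w d f hq.pos hq.homog hsum L p hp hf hA2 q0 q1 rfl rfl hq1
    (algebraMap L (RatFunc L) ((w i₀ : L) * p i₀))
    (RatFunc.X ^ w i₀ * algebraMap L (RatFunc L) (p i₀))
  have hnon0 := h1 N r w d f hq.pos hq.homog hsum L p hp hf hA1 q0' ((w i₀ : L) * p i₀)
  have hnon1 := h1 N r w d f hq.pos hq.homog hsum L p hp hf hA1 q1' (p i₀)
  have hcze := hC N r w d f hq.pos hq.homog L p hp hf hA1 q0' q1' rfl (p i₀) hnon0.1 hnon1.1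
  have hdeg := hD N r w d f hq.pos hq.homog L p hp hf hA2 q0 q1 rfl rfl hq1 q0' q1' rfl rfl rfl
    hq1' hntw.1 hcze.1
  obtain ⟨e, he1, he2, he3⟩ := hP N r w d f hq
  have hnum := hN N r w d hq.pos hq.two_le hsum e he1 he2 he3
  have hle := hdeg.trans hcze.2
  have e1 := hntw.2
  have e2 := hnon0.2
  have e3 := hnon1.2
  have hwt0 : wt q0' = 1 := rfl
  have hwt1 : wt q1' = w i₀ := hq1'
  have hq11 : w q1.1 = w i₀ := rfl
  rw [hwt0, mul_one] at e2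
  rw [hwt1] at e3
  rw [hq11] at e1
  exact arith hW hnum hle e1 e2 e3

end Pool.Agent.PC
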