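import Pool.Agent.Lib.MP_410da7_agP.Spec2

/-!
# Matching weights and degrees from quasi-smoothness
-/

set_option autoImplicit false

namespace Pool.Agent.PC.PaiM

open MvPolynomial Pool.Agent.Lib.MP_410da7_ag

theorem van {N : ℕ} (P : MvPolynomial (Fin N) ℂ) (u : Fin N → ℂ)
    (h : ∀ e, coeff e P ≠ 0 → ∃ l, e l ≠ 0 ∧ u l = 0) : eval u P = 0 := by
  rw [eval_eq]
  refine Finset.sum_eq_zero fun e he => ?_
  obtain ⟨l, h1, h2⟩ := h e (mem_support_iff.1 he)
  rw [Finset.prod_eq_zero (Finsupp.mem_support_iff.2 h1) (by rw [h2, zero_pow h1]), mul_zero]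

theorem weight_ge {N : ℕ} (w : Fin N → ℕ) (e : Fin N →₀ ℕ) (l : Fin N) (h : e l ≠ 0) :
    w l ≤ Finsupp.weight w e := by
  rw [Finsupp.weight_apply, Finsupp.sum_fintype _ _ (by simp)]
  refine le_trans ?_ (Finset.single_le_sum (f := fun i => e i • w i) (fun i _ => Nat.zero_le _)
    (Finset.mem_univ l))
  simp only [smul_eq_mul]
  exact Nat.le_mul_of_pos_left _ (Nat.pos_of_ne_zero h)

theorem main {N r : ℕ} {w : Fin N → ℕ} {d : Fin r → ℕ} {f : Fin r → MvPolynomial (Fin N) ℂ}
    (hq : QuasiSmooth w d f) (σ : Equiv.Perm (Fin N)) (τ : Equiv.Perm (Fin r))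
    (hσ : Monotone (w ∘ σ)) (hτ : Monotone (d ∘ τ)) (j : Fin r) (hm : N - r + j.1 < N) :
    w (σ ⟨N - r + j.1, hm⟩) ≤ d (τ j) := by
  classical
  by_contra hcon
  push Not at hcon
  have hN := hq.two_le
  have hj := j.2
  obtain ⟨m, hmdef⟩ : ∃ m, m = N - r + j.1 := ⟨_, rfl⟩
  have hlt : ∀ l : Fin N, m ≤ (σ.symm l).1 → d (τ j) < w l := by
    intro l hl
    refine lt_of_lt_of_le hcon ?_
    have h1 : (⟨N - r + j.1, hm⟩ : Fin N) ≤ σ.symm l := by
      rw [Fin.le_def]
      simp only
      omega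
    have h2 := hσ h1
    simpa using h2
  let g : Fin N → MvPolynomial (Fin (N - m)) ℂ := fun l =>
    if h : m ≤ (σ.symm l).1 then X ⟨(σ.symm l).1 - m, by have := (σ.symm l).2; omega⟩ else 0
  let P : Fin (r - 1 - j.1) → MvPolynomial (Fin (N - m)) ℂ := fun i =>
    aeval g (f (τ ⟨j.1 + 1 + i.1, by have := i.2; omega⟩))
  have hev : ∀ (x : Fin (N - m) → ℂ) (F : MvPolynomial (Fin N) ℂ),
      eval x (aeval g F) = eval (fun l => eval x (g l)) F := by
    intro x F
    induction F using MvPolynomial.induction_on with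
    | C a => rw [aeval_C, eval_C, algebraMap_eq, eval_C]
    | add p q hp hq => rw [map_add, map_add, map_add, hp, hq]
    | mul_X p l hp => rw [map_mul, map_mul, map_mul, aeval_X, eval_X, hp]
  have hconst : ∀ k, eval 0 (f k) = 0 := by
    intro k
    refine van _ _ fun e he => ?_
    have h1 := hq.noLinear k e (mem_support_iff.2 he)
    have h2 : e ≠ 0 := by
      rintro rfl
      rw [map_zero] at h1
      omega
    obtain ⟨l, hl⟩ := Finsupp.ne_iff.1 h2
    exact ⟨l, hl, rfl⟩
  obtain ⟨x, hx0, hx⟩ := exists_common_zero (k := ℂ) (by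
    rw [Fintype.card_fin, Fintype.card_fin]
    omega) P (by
    intro i
    show eval 0 (aeval g _) = 0
    rw [hev]
    have h1 : (fun l => eval (0 : Fin (N - m) → ℂ) (g l)) = 0 := by
      funext l
      simp only [g]
      split_ifs
      · rw [eval_X]; rfl
      · rw [map_zero]; rfl
    rw [h1]
    exact hconst _)
  let u : Fin N → ℂ := fun l => eval x (g l)
  have hulow : ∀ l, (σ.symm l).1 < m → u l = 0 := by
    intro l hl
    simp only [u, g]
    rw [dif_neg (by omega), map_zero]
  have hu0 : u ≠ 0 := by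
    intro h0
    apply hx0
    funext i
    have h1 := congrFun h0 (σ ⟨m + i.1, by have := i.2; omega⟩)
    simp only [u, g, Equiv.symm_apply_apply] at h1
    rw [dif_pos (by omega), eval_X] at h1
    have h2 : (⟨m + i.1 - m, by have := i.2; omega⟩ : Fin (N - m)) = i := by
      apply Fin.ext
      simp
    rw [h2] at h1
    exact h1
  have hhigh : ∀ (j' : Fin r), j' ≤ j → ∀ e, coeff e (f (τ j')) ≠ 0 → ∀ l, e l ≠ 0 →
      (σ.symm l).1 < m := by
    intro j' hj' e he l hl
    by_contra hge
    have h1 := hlt l (by omega)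
    have h2 : d (τ j') ≤ d (τ j) := hτ hj'
    have h3 := hq.homog (τ j') he
    have h4 := weight_ge w e l hl
    omega
  have hzero : ∀ k, eval u (f k) = 0 := by
    intro k
    obtain ⟨j', rfl⟩ := τ.surjective k
    by_cases hj' : j' ≤ j
    · refine van _ _ fun e he => ?_
      have h1 := hq.noLinear _ e (mem_support_iff.2 he)
      have h2 : e ≠ 0 := by
        rintro rfl
        rw [map_zero] at h1
        omega
      obtain ⟨l, hl⟩ := Finsupp.ne_iff.1 h2
      exact ⟨l, hl, hulow l (hhigh j' hj' e he l hl)⟩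
    · have hj2 := j'.2
      have hlt' : j.1 < j'.1 := by
        rw [Fin.le_def] at hj'
        omega
      have h1 := hx ⟨j'.1 - 1 - j.1, by omega⟩
      have h2 : eval u (f (τ ⟨j.1 + 1 + (j'.1 - 1 - j.1), by omega⟩)) = 0 :=
        (hev x (f (τ ⟨j.1 + 1 + (j'.1 - 1 - j.1), by omega⟩))).symm.trans h1
      have h3 : (⟨j.1 + 1 + (j'.1 - 1 - j.1), by omega⟩ : Fin r) = j' := by
        apply Fin.ext
        simp only
        omega
      rwa [h3] at h2
  have hgrad : ∀ l, eval u (pderiv l (f (τ j))) = 0 := by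
    intro l
    refine van _ _ fun e he => ?_
    rw [coeff_pderiv] at he
    have h0 := left_ne_zero_of_mul he
    have h1 := hq.noLinear _ _ (mem_support_iff.2 h0)
    have h2 : e ≠ 0 := by
      rintro rfl
      rw [map_add, map_zero, zero_add, Finsupp.degree_single] at h1
      omega
    obtain ⟨l', hl'⟩ := Finsupp.ne_iff.1 h2
    refine ⟨l', hl', hulow l' (hhigh j le_rfl _ h0 l' ?_)⟩
    rw [Finsupp.add_apply]
    intro h3
    exact hl' (Nat.eq_zero_of_add_eq_zero_right h3)
  have hli := hq.smooth u hu0 hzero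
  have h1 := hli.ne_zero (τ j)
  apply h1
  funext l
  rw [Pi.zero_apply]
  exact hgrad l

end Pool.Agent.PC.PaiM

namespace Pool.Agent.PC

open MvPolynomial Pool.Agent.Lib.MP_410da7_ag PaiM

theorem stmtPai : StmtPai := by
  classical
  intro N r w d f hq
  have hN := hq.two_le
  have hσ := Tuple.monotone_sort w
  have hτ := Tuple.monotone_sort d
  generalize Tuple.sort w = σ at hσ
  generalize Tuple.sort d = τ at hτ
  refine ⟨fun k => σ ⟨N - r + (τ.symm k).1, by have := (τ.symm k).2; omega⟩, ?_, ?_, ?_⟩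
  · intro k k' h
    simp only [EmbeddingLike.apply_eq_iff_eq, Fin.mk.injEq, Nat.add_left_cancel_iff] at h
    exact τ.symm.injective (Fin.ext h)
  · intro k
    have h1 := main hq σ τ hσ hτ (τ.symm k) (by have := (τ.symm k).2; omega)
    rwa [Equiv.apply_symm_apply] at h1
  · intro i hi k
    have h1 : (σ.symm i).1 < N - r := by
      by_contra hge
      have h2 := (σ.symm i).2
      apply hi (τ ⟨(σ.symm i).1 - (N - r), by omega⟩)
      simp only [Equiv.symm_apply_apply]
      rw [← Equiv.eq_symm_apply]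
      apply Fin.ext
      simp only
      omega
    have h3 : σ.symm i ≤ ⟨N - r + (τ.symm k).1, by have := (τ.symm k).2; omega⟩ := by
      rw [Fin.le_def]
      simp only
      omega
    have h4 := hσ h3
    simpa using h4

end Pool.Agent.PC
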