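import Pool.Agent.Lib.MP_410da7_agP.Spec2

/-!
# Package `P` (punctured cones): rank and special fibre (module Ran)
-/

set_option autoImplicit false

namespace Pool.Agent.PC

/-- **RAN**: rank and special fibre. -/
theorem stmtRan : StmtRan := by
  intro L _ R _ _ _ _ _ S hfg hspan C' _ _ _ Φ hsurj hadd hsmul
  have : Module.IsTorsionFree (Polynomial L) R :=
    Module.IsTorsionFree.trans_faithfulSMul (Polynomial L) (RatFunc L) R
  have : Module.IsTorsionFree (Polynomial L) S :=
    Module.IsTorsionFree.of_smul_eq_zero fun p s hps => by
      have h1 : p • (s : R) = 0 := by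
        rw [← Submodule.coe_smul, hps, Submodule.coe_zero]
      rcases smul_eq_zero.1 h1 with h2 | h2
      · exact Or.inl h2
      · exact Or.inr (Submodule.coe_eq_zero.1 h2)
  have : Module.Finite (Polynomial L) S := Module.Finite.iff_fg.2 hfg
  have : Module.Free (Polynomial L) S := Module.free_of_finite_type_torsion_free'
  let b := Module.finBasis (Polynomial L) S
  set n := Module.finrank (Polynomial L) S with hn
  -- the rank
  have hrank : Module.finrank (RatFunc L) R ≤ n := by
    have htop : Submodule.span (RatFunc L) (Set.range fun i => ((b i : S) : R)) = ⊤ := by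
      rw [eq_top_iff, ← hspan, Submodule.span_le]
      intro s hs
      have h1 : ((⟨s, hs⟩ : S) : R) = ∑ i, (b.repr ⟨s, hs⟩ i) • ((b i : S) : R) := by
        conv_lhs => rw [← b.sum_repr ⟨s, hs⟩]
        rw [Submodule.coe_sum]
        rfl
      have h2 : s = ∑ i, (b.repr ⟨s, hs⟩ i) • ((b i : S) : R) := h1
      rw [h2]
      refine Submodule.sum_mem _ fun i _ => ?_
      rw [← algebraMap_smul (RatFunc L) (b.repr ⟨s, hs⟩ i) ((b i : S) : R)]
      exact Submodule.smul_mem _ _ (Submodule.subset_span ⟨i, rfl⟩)
    have h3 := finrank_range_le_card (R := RatFunc L) (fun i => ((b i : S) : R))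
    rw [Set.finrank, htop, finrank_top, Fintype.card_fin] at h3
    exact h3
  -- the special fibre
  let T : C' →ₗ[L] (Fin n → L) :=
    { toFun := fun c i => (b.repr (Φ c) i).coeff 0
      map_add' := by
        intro c c'
        obtain ⟨s', hs'⟩ := hadd c c'
        funext i
        rw [hs', map_add, map_add, map_smul]
        simp
      map_smul' := by
        intro a c
        obtain ⟨s', hs'⟩ := hsmul a c
        funext i
        rw [hs', map_add, map_smul, map_smul]
        simp }
  have hT : Function.Surjective T := by
    intro v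
    obtain ⟨c, s', hcs⟩ := hsurj (∑ i, Polynomial.C (v i) • b i)
    refine ⟨c, ?_⟩
    funext i
    have h1 := congrArg (fun s => (b.repr s i).coeff 0) hcs
    simp only [map_sum, map_add, map_smul] at h1
    simp only [Module.Basis.repr_self, Finsupp.coe_finsetSum, Finset.sum_apply,
      Finsupp.smul_apply, Finsupp.single_apply, smul_eq_mul, mul_ite, mul_one, mul_zero,
      Finset.sum_ite_eq', Finset.mem_univ, if_true, Finsupp.coe_add, Pi.add_apply,
      Polynomial.coeff_add, Polynomial.coeff_C_zero, Finsupp.coe_smul, Pi.smul_apply,
      Polynomial.mul_coeff_zero, Polynomial.coeff_X_zero, zero_mul, add_zero] at h1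
    exact h1.symm
  have h4 := LinearMap.finrank_le_finrank_of_surjective hT
  rw [Module.finrank_fin_fun] at h4
  exact hrank.trans h4

end Pool.Agent.PC
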