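import Pool.Agent.Lib.MP_410da7_agP.Spec2
import Pool.Agent.Lib.MP_410da7_ag.Curve
import Pool.Agent.Lib.MP_410da7_ag.CYGraded

/-! # Reg: a weighted homogeneous system of parameters of a polynomial ring is a regular sequence -/

set_option autoImplicit false

namespace Pool.Agent.PC.RegM

open MvPolynomial Pool.Agent.Lib.MP_410da7_ag

variable {σ : Type} {L : Type} [Field L]

/-- components of elements of an ideal generated by weighted homogeneous polynomials -/
theorem comp_mem' {τ : Type} (ws : σ → ℕ) (E : τ → MvPolynomial σ L) (dE : τ → ℕ)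
    (hE : ∀ t, (E t).IsWeightedHomogeneous ws (dE t)) (s : Set τ) (n : ℕ)
    {x : MvPolynomial σ L} (hx : x ∈ Ideal.span (E '' s)) :
    ∀ a : MvPolynomial σ L,
      weightedHomogeneousComponent ws n (a * x) ∈ Ideal.span (E '' s) := by
  induction hx using Submodule.span_induction with
  | mem x h =>
    intro a
    obtain ⟨t, ht, rfl⟩ := h
    rw [CYGraded_comp_mul ws n (dE t) (E t) (hE t) a]
    split_ifs
    · exact Ideal.mul_mem_left _ _ (Ideal.subset_span ⟨t, ht, rfl⟩)
    · exact Ideal.zero_mem _
  | zero =>
    intro a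
    rw [mul_zero, map_zero]
    exact Ideal.zero_mem _
  | add x y _ _ hx hy =>
    intro a
    rw [mul_add, map_add]
    exact Ideal.add_mem _ (hx a) (hy a)
  | smul b x _ hx =>
    intro a
    rw [smul_eq_mul, ← mul_assoc]
    exact hx (a * b)

theorem comp_mem {τ : Type} (ws : σ → ℕ) (E : τ → MvPolynomial σ L) (dE : τ → ℕ)
    (hE : ∀ t, (E t).IsWeightedHomogeneous ws (dE t)) (s : Set τ) (n : ℕ)
    {x : MvPolynomial σ L} (hx : x ∈ Ideal.span (E '' s)) :
    weightedHomogeneousComponent ws n x ∈ Ideal.span (E '' s) := by
  have h := comp_mem' ws E dE hE s n hx 1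
  rwa [one_mul] at h

/-- a polynomial all of whose components are in an ideal -/
theorem mem_of_comp (ws : σ → ℕ) (J : Ideal (MvPolynomial σ L)) (z : MvPolynomial σ L)
    (h : ∀ n, weightedHomogeneousComponent ws n z ∈ J) : z ∈ J := by
  rw [← sum_weightedHomogeneousComponent ws z,
    finsum_eq_sum _ (weightedHomogeneousComponent_finsupp z)]
  exact Ideal.sum_mem _ fun n _ => h n

/-- positive weight: no constant term -/
theorem eval_zero_eq (ws : σ → ℕ) {d : ℕ} (hd : 0 < d) {F : MvPolynomial σ L}
    (hF : F.IsWeightedHomogeneous ws d) : eval (0 : σ → L) F = 0 := by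
  have h1 : eval (0 : σ → L) F = constantCoeff F := by
    rw [← MvPolynomial.eval_zero]
  rw [h1, constantCoeff_eq]
  by_contra h
  have h2 := hF h
  rw [map_zero] at h2
  omega

end Pool.Agent.PC.RegM

namespace Pool.Agent.PC

open MvPolynomial Pool.Agent.Lib.MP_410da7_ag RegM

theorem stmtReg (hRlo : StmtRlo) : StmtReg := by
  classical
  intro σ _ n hn L _ _ ws hws E dE hdE hE hz j z hjz
  -- the maximal ideal
  set I : Ideal (MvPolynomial σ L) := Ideal.span (Set.range E) with hI
  have hloc : zeroLocus L I = {0} := by
    ext x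
    rw [Set.mem_singleton_iff, hI, zeroLocus_span]
    constructor
    · intro hx
      refine hz x fun t => ?_
      have := hx (E t) ⟨t, rfl⟩
      simpa using this
    · rintro rfl
      rintro _ ⟨t, rfl⟩
      simpa using eval_zero_eq ws (hdE t) (hE t)
  have hrad : I.radical = vanishingIdeal L {(0 : σ → L)} := by
    rw [← vanishingIdeal_zeroLocus_eq_radical (K := L), hloc]
  set m : Ideal (MvPolynomial σ L) := vanishingIdeal L {(0 : σ → L)} with hm
  have hker : m = RingHom.ker (curveZeroVars L (Finset.univ : Finset σ)) := by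
    ext p
    rw [hm, mem_vanishingIdeal_singleton_iff, RingHom.mem_ker]
    have h1 : curveZeroVars L (Finset.univ : Finset σ) p = C (aeval (0 : σ → L) p) := by
      have : curveZeroVars L (Finset.univ : Finset σ) =
          (Algebra.ofId L (MvPolynomial σ L)).comp (aeval (0 : σ → L)) := by
        ext j : 1
        simp [curveZeroVars]
      rw [this]
      rfl
    rw [h1, map_eq_zero_iff _ (C_injective σ L)]
  have hmp : m.IsPrime := by rw [hker]; exact RingHom.ker_isPrime _
  have hmin : m ∈ I.minimalPrimes := by
    refine ⟨⟨hmp, ?_⟩, ?_⟩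
    · rw [← hrad]; exact Ideal.le_radical
    · rintro q ⟨hq, hIq⟩ _
      rw [← hrad]
      exact hq.radical_le_iff.2 hIq
  have hheight : m.height = n := by
    apply le_antisymm
    · have h1 : m.height ≤ (Set.range E).ncard :=
        Ideal.height_le_card_of_mem_minimalPrimes_span (Set.finite_range E) hmin
      have h2 : (Set.range E).ncard ≤ n := by
        rw [← Set.image_univ]
        refine (Set.ncard_image_le Set.finite_univ).trans ?_
        rw [Set.ncard_univ, Nat.card_eq_fintype_card, Fintype.card_fin]
      exact h1.trans (by exact_mod_cast h2)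
    · have h3 := curve_card_le_height L (Finset.univ : Finset σ)
      rw [← hker, Finset.card_univ, hn] at h3
      exact h3
  have hEm : ∀ t, E t ∈ m := fun t => by
    rw [← hrad]
    exact Ideal.le_radical (Ideal.subset_span ⟨t, rfl⟩)
  -- the local ring
  set A := Localization.AtPrime m with hA
  have hreg : IsRegularLocalRing A := IsRegularRing.isRegularLocalRing_localization m
  have hdim : ringKrullDim A = n := by
    rw [IsLocalization.AtPrime.ringKrullDim_eq_height m A, hheight]
    rfl
  set φ := algebraMap (MvPolynomial σ L) A with hφ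
  have hmax : m.map φ = IsLocalRing.maximalIdeal A := Localization.AtPrime.map_eq_maximalIdeal
  have hφE : ∀ t, φ (E t) ∈ IsLocalRing.maximalIdeal A := fun t => by
    rw [← hmax]
    exact Ideal.mem_map_of_mem _ (hEm t)
  have hspan : ∀ s : Set (Fin n), Ideal.span ((fun t => φ (E t)) '' s) =
      (Ideal.span (E '' s)).map φ := fun s => by
    rw [Ideal.map_span, Set.image_image]
  have hradA : (Ideal.span (Set.range fun t => φ (E t))).radical = IsLocalRing.maximalIdeal A := by
    have h1 : Ideal.span (Set.range fun t => φ (E t)) = I.map φ := by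
      rw [← Set.image_univ, hspan, Set.image_univ]
    rw [h1]
    apply le_antisymm
    · have h2 : (IsLocalRing.maximalIdeal A).IsPrime := inferInstance
      rw [h2.radical_le_iff, ← h1, Ideal.span_le]
      rintro _ ⟨t, rfl⟩
      exact hφE t
    · have h3 : I.radical.map φ ≤ (I.map φ).radical := Ideal.map_radical_le φ
      rw [← hmax]
      rwa [hrad] at h3
  set J : Ideal (MvPolynomial σ L) := Ideal.span (E '' {i | i < j}) with hJ
  -- the homogeneous case
  have hhom : ∀ (a : ℕ) (y : MvPolynomial σ L), y.IsWeightedHomogeneous ws a →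
      E j * y ∈ J → y ∈ J := by
    intro a y hy hEy
    have h1 := hRlo n A hdim (fun t => φ (E t)) hφE hradA j (φ y) (by
      rw [hspan, ← map_mul]
      exact Ideal.mem_map_of_mem _ hEy)
    rw [hspan] at h1
    obtain ⟨u, hu, huy⟩ :=
      (IsLocalization.algebraMap_mem_map_algebraMap_iff m.primeCompl A J y).1 h1
    have h2 := comp_mem ws E dE hE {i | i < j} a huy
    have h3 := CYGraded_comp_mul ws a a y hy u
    rw [h3, if_pos le_rfl, Nat.sub_self,
      weightedHomogeneousComponent_zero u (fun i => (hws i).ne')] at h2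
    have h4 : coeff 0 u ≠ 0 := by
      intro h0
      apply hu
      change u ∈ vanishingIdeal L {(0 : σ → L)}
      rw [mem_vanishingIdeal_singleton_iff]
      have h5 : aeval (0 : σ → L) u = constantCoeff u := by
        rw [aeval_zero]
        simp
      rw [h5, constantCoeff_eq, h0]
    have h6 : y = C (coeff 0 u)⁻¹ * (C (coeff 0 u) * y) := by
      rw [← mul_assoc, ← C_mul, inv_mul_cancel₀ h4, C_1, one_mul]
    rw [h6]
    exact Ideal.mul_mem_left _ _ h2
  refine mem_of_comp ws J z fun a => ?_
  refine hhom a _ (weightedHomogeneousComponent_isWeightedHomogeneous _ _) ?_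
  have h1 := comp_mem ws E dE hE {i | i < j} (a + dE j) hjz
  rw [mul_comm, CYGraded_comp_mul ws _ (dE j) (E j) (hE j), if_pos (by omega),
    Nat.add_sub_cancel] at h1
  rw [mul_comm]
  exact h1

end Pool.Agent.PC
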