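import Pool.Agent.Lib.MP_410da7_agP.Spec

/-!
# Specialisation of a good curve
-/

set_option autoImplicit false

namespace Pool.Agent.PC.SpeM

open MvPolynomial Pool.Agent.Lib.MP_410da7_ag

/-- A finite set of elements of an extension field can be specialised to an algebraically closed field. -/
theorem exists_spec {L E : Type} [Field L] [IsAlgClosed L] [Field E] [Algebra L E] (T : Finset E)
    (a : E) (ha : a ≠ 0) : ∃ (A : Subalgebra L E) (χ : A →ₐ[L] L), (T : Set E) ⊆ A ∧
      ∃ h : a ∈ A, χ ⟨a, h⟩ ≠ 0 := by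
  classical
  let S : Finset E := insert a (insert a⁻¹ T)
  let u : S → E := fun i => i
  let A : Subalgebra L E := (aeval (R := L) u).range
  have hS : (S : Set E) ⊆ A := fun b hb => ⟨X ⟨b, hb⟩, by
    change aeval u (X _) = b
    rw [aeval_X]⟩
  have hne : RingHom.ker (aeval (R := L) u) ≠ ⊤ := RingHom.ker_ne_top _
  obtain ⟨M, hM, hle⟩ := Ideal.exists_le_maximal _ hne
  obtain ⟨v, hv⟩ := MvPolynomial.isMaximal_iff_eq_vanishingIdeal_singleton.1 hM
  have hker : ∀ P : MvPolynomial S L, aeval u P = 0 → aeval v P = (0 : L) := by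
    intro P hP
    have h1 : P ∈ M := hle hP
    rw [hv, mem_vanishingIdeal_singleton_iff] at h1
    exact h1
  choose P hP using fun b : A => b.2
  have hP' : ∀ b : A, aeval u (P b) = (b : E) := hP
  have hwd : ∀ (b : A) (Q : MvPolynomial S L), aeval u Q = (b : E) →
      aeval v Q = (aeval v (P b) : L) := by
    intro b Q hQ
    have := hker (Q - P b) (by rw [map_sub, hQ, hP', sub_self])
    rwa [map_sub, sub_eq_zero] at this
  let χ : A →ₐ[L] L :=
    { toFun := fun b => aeval v (P b)
      map_one' := by rw [← hwd 1 1 (by rw [map_one]; rfl), map_one]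
      map_mul' := fun b c => by
        rw [← hwd (b * c) (P b * P c) (by rw [map_mul, hP', hP']; rfl), map_mul]
      map_zero' := by rw [← hwd 0 0 (by rw [map_zero]; rfl), map_zero]
      map_add' := fun b c => by
        rw [← hwd (b + c) (P b + P c) (by rw [map_add, hP', hP']; rfl), map_add]
      commutes' := fun c => by
        rw [← hwd (algebraMap L A c) (algebraMap L _ c) (by rw [AlgHom.commutes]; rfl),
          AlgHom.commutes] }
  have haS : a ∈ A := hS (by simp [S])
  have hbS : a⁻¹ ∈ A := hS (by simp [S])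
  refine ⟨A, χ, fun b hb => hS (by
    rw [Finset.mem_coe] at hb ⊢
    simp [S, hb]), haS, fun h0 => ?_⟩
  have h1 : χ (⟨a, haS⟩ * ⟨a⁻¹, hbS⟩) = 1 := by
    have : (⟨a, haS⟩ * ⟨a⁻¹, hbS⟩ : A) = 1 := Subtype.ext (mul_inv_cancel₀ ha)
    rw [this, map_one]
  rw [map_mul, h0, zero_mul] at h1
  exact zero_ne_one h1

/-- evaluation at polynomials commutes with maps of coefficients -/
theorem map_ev {N : ℕ} {A B : Type} [CommRing A] [CommRing B] (ψ : A →+* B) (α : ℂ →+* A)
    (γ : Fin N → Polynomial A) (g : MvPolynomial (Fin N) ℂ) :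
    (eval₂ (Polynomial.C.comp α) γ g).map ψ =
      eval₂ (Polynomial.C.comp (ψ.comp α)) (fun i => (γ i).map ψ) g := by
  have h := eval₂_comp_left (Polynomial.mapRingHom ψ) (Polynomial.C.comp α) γ g
  rw [Polynomial.coe_mapRingHom] at h
  rw [h]
  congr 1
  ext c
  simp

theorem aeval_eq {N : ℕ} {A : Type} [CommRing A] [Algebra ℂ A]
    (γ : Fin N → Polynomial A) (g : MvPolynomial (Fin N) ℂ) :
    aeval γ g = eval₂ (Polynomial.C.comp (algebraMap ℂ A)) γ g := rfl

theorem core {N r : ℕ} (f : Fin r → MvPolynomial (Fin N) ℂ) {L E : Type} [Field L] [IsAlgClosed L]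
    [Field E] [Algebra L E] [Algebra ℂ L] [Algebra ℂ E] [IsScalarTower ℂ L E] (p : Fin N → L)
    (γ : Fin N → Polynomial E) (h : IsGood f (fun i => algebraMap L E (p i)) γ) :
    ∃ γ' : Fin N → Polynomial L, IsGood f p γ' := by
  classical
  have h1 : (1 : Polynomial E) ∈ Ideal.span (Set.range γ) := by
    rw [h.span]; exact Submodule.mem_top
  rw [Ideal.mem_span_range_iff_exists_fun] at h1
  obtain ⟨c, hc⟩ := h1
  obtain ⟨i1, hi1⟩ := h.pos
  have hlc : (γ i1).leadingCoeff ≠ 0 := by
    rw [Polynomial.leadingCoeff_ne_zero]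
    intro h0
    rw [h0, Polynomial.natDegree_zero] at hi1
    exact lt_irrefl _ hi1
  let T : Finset E := Finset.univ.biUnion fun i => (γ i).coeffs ∪ (c i).coeffs
  obtain ⟨A, χ, hTA, haA, hχ⟩ := exists_spec (L := L) T _ hlc
  have hlift : ∀ q : Polynomial E, (q.coeffs : Set E) ⊆ A →
      ∃ qA : Polynomial A, qA.map (algebraMap A E) = q := by
    intro q hq
    have h2 : q ∈ Polynomial.lifts (algebraMap A E) := by
      rw [Polynomial.lifts_iff_coeff_lifts]
      intro n
      by_cases h0 : q.coeff n = 0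
      · rw [h0]
        exact ⟨0, map_zero _⟩
      · exact ⟨⟨q.coeff n, hq (Polynomial.coeff_mem_coeffs h0)⟩, rfl⟩
    exact (Polynomial.mem_lifts _).1 h2
  have hγ : ∀ i, ∃ qA : Polynomial A, qA.map (algebraMap A E) = γ i := fun i =>
    hlift _ fun b hb => hTA (by
      rw [Finset.mem_coe] at hb ⊢
      exact Finset.mem_biUnion.2 ⟨i, Finset.mem_univ _, Finset.mem_union_left _ hb⟩)
  have hcc : ∀ i, ∃ qA : Polynomial A, qA.map (algebraMap A E) = c i := fun i =>
    hlift _ fun b hb => hTA (by
      rw [Finset.mem_coe] at hb ⊢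
      exact Finset.mem_biUnion.2 ⟨i, Finset.mem_univ _, Finset.mem_union_right _ hb⟩)
  choose γA hγA using hγ
  choose cA hcA using hcc
  have hinjA : Function.Injective (algebraMap A E) := Subtype.coe_injective
  have hinj : Function.Injective (Polynomial.map (algebraMap A E)) :=
    Polynomial.map_injective _ hinjA
  have hid : ∑ i, cA i * γA i = 1 := by
    apply hinj
    rw [Polynomial.map_sum, Polynomial.map_one, ← hc]
    exact Finset.sum_congr rfl fun i _ => by rw [Polynomial.map_mul, hcA, hγA]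
  let α : ℂ →+* A := (algebraMap L A).comp (algebraMap ℂ L)
  have hαE : (algebraMap A E).comp α = algebraMap ℂ E := by
    rw [IsScalarTower.algebraMap_eq ℂ L E]
    rfl
  have hαL : (χ : A →+* L).comp α = algebraMap ℂ L := by
    ext t
    exact χ.commutes _
  refine ⟨fun i => (γA i).map (χ : A →+* L), ⟨?_, ?_⟩, ?_, i1, ?_⟩
  · intro i
    have h2 : (γA i).eval 0 = algebraMap L A (p i) := by
      apply hinjA
      have h3 := h.curve.zero i
      rw [← hγA i, Polynomial.eval_zero_map] at h3
      rw [h3]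
      rfl
    rw [Polynomial.eval_zero_map, h2]
    exact χ.commutes _
  · intro k
    have h2 : eval₂ (Polynomial.C.comp α) γA (f k) = 0 := by
      apply hinj
      rw [map_ev, hαE, Polynomial.map_zero, ← h.curve.mem k, aeval_eq]
      congr 1
      funext i
      exact hγA i
    rw [aeval_eq, ← hαL, ← map_ev, h2, Polynomial.map_zero]
  · rw [Ideal.eq_top_iff_one, Ideal.mem_span_range_iff_exists_fun]
    refine ⟨fun i => (cA i).map (χ : A →+* L), ?_⟩
    rw [← Polynomial.map_one (χ : A →+* L), ← hid, Polynomial.map_sum]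
    exact Finset.sum_congr rfl fun i _ => by rw [Polynomial.map_mul]
  · have h2 : (γA i1).coeff (γ i1).natDegree = ⟨(γ i1).leadingCoeff, haA⟩ := by
      apply hinjA
      rw [← Polynomial.coeff_map, hγA]
      rfl
    refine lt_of_lt_of_le hi1 (Polynomial.le_natDegree_of_ne_zero ?_)
    rw [Polynomial.coeff_map, h2]
    exact hχ

end Pool.Agent.PC.SpeM

namespace Pool.Agent.PC

open MvPolynomial Pool.Agent.Lib.MP_410da7_ag SpeM

theorem stmtSpe : StmtSpe := by
  intro N r f K _ _ x L _ _ _ _ _ _ E _ _ φ γ hg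
  let E' := AlgebraicClosure E
  let algK : Algebra K E' := ((algebraMap E E').comp φ.toRingHom).toAlgebra
  let φ' : L →ₐ[K] E' := IsAlgClosed.lift
  let algL : Algebra L E' := φ'.toRingHom.toAlgebra
  have hKE : ∀ t : K, algebraMap L E' (algebraMap K L t) = algebraMap E E' (φ t) := fun t =>
    φ'.commutes t
  have : IsScalarTower ℂ L E' := by
    refine IsScalarTower.of_algebraMap_eq fun c => ?_
    rw [IsScalarTower.algebraMap_apply ℂ K L, hKE, AlgHom.commutes,
      ← IsScalarTower.algebraMap_apply ℂ E E']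
  refine core f (E := E') (fun i => algebraMap K L (x i))
    (fun i => (γ i).map (algebraMap E E')) ⟨⟨?_, ?_⟩, ?_, ?_⟩
  · intro i
    rw [Polynomial.eval_zero_map, hg.curve.zero i, hKE]
  · intro k
    have h1 : (algebraMap E E').comp (algebraMap ℂ E) = algebraMap ℂ E' :=
      (IsScalarTower.algebraMap_eq ℂ E E').symm
    have h2 := hg.curve.mem k
    rw [aeval_eq] at h2
    rw [aeval_eq, ← h1, ← map_ev, h2, Polynomial.map_zero]
  · have h1 : (1 : Polynomial E) ∈ Ideal.span (Set.range γ) := by
      rw [hg.span]; exact Submodule.mem_top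
    rw [Ideal.mem_span_range_iff_exists_fun] at h1
    obtain ⟨c, hc⟩ := h1
    rw [Ideal.eq_top_iff_one, Ideal.mem_span_range_iff_exists_fun]
    refine ⟨fun i => (c i).map (algebraMap E E'), ?_⟩
    rw [← Polynomial.map_one (algebraMap E E'), ← hc, Polynomial.map_sum]
    exact Finset.sum_congr rfl fun i _ => by rw [Polynomial.map_mul]
  · obtain ⟨i, hi⟩ := hg.pos
    exact ⟨i, by rwa [Polynomial.natDegree_map]⟩

end Pool.Agent.PC
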