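import Pool.Agent.Lib.MP_410da7_agP.Spec

/-!
# A good curve through the generic point gives a family of affine lines
-/

set_option autoImplicit false

namespace Pool.Agent.PC

open MvPolynomial Pool.Agent.Lib.MP_410da7_ag

namespace SpreadM

theorem exists_alg {N : ℕ} {L : Type} [Field L] [Algebra ℂ L] (γ c : Fin N → Polynomial L) (a : L) :
    ∃ A : Subalgebra ℂ L, Algebra.FiniteType ℂ A ∧ a ∈ A ∧ ∃ γA cA : Fin N → Polynomial A,
      (∀ i, (γA i).map (algebraMap A L) = γ i) ∧ ∀ i, (cA i).map (algebraMap A L) = c i := by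
  classical
  let T : Finset L := insert a ((Finset.univ.biUnion fun i => (γ i).coeffs) ∪
    Finset.univ.biUnion fun i => (c i).coeffs)
  let A : Subalgebra ℂ L := Algebra.adjoin ℂ (T : Set L)
  have hT : ∀ b ∈ T, b ∈ A := fun b hb => Algebra.subset_adjoin hb
  have hlift : ∀ g : Polynomial L, (∀ n, g.coeff n ≠ 0 → g.coeff n ∈ T) →
      ∃ g' : Polynomial A, g'.map (algebraMap A L) = g := by
    intro g hg
    rw [← Polynomial.mem_lifts, Polynomial.lifts_iff_coeff_lifts]
    intro n
    by_cases h0 : g.coeff n = 0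
    · exact ⟨0, by rw [h0, map_zero]⟩
    · exact ⟨⟨g.coeff n, hT _ (hg n h0)⟩, rfl⟩
  have h1 : ∀ i, ∃ g' : Polynomial A, g'.map (algebraMap A L) = γ i := fun i =>
    hlift _ fun n hn => Finset.mem_insert_of_mem (Finset.mem_union_left _
      (Finset.mem_biUnion.2 ⟨i, Finset.mem_univ i, Polynomial.coeff_mem_coeffs hn⟩))
  have h2 : ∀ i, ∃ g' : Polynomial A, g'.map (algebraMap A L) = c i := fun i =>
    hlift _ fun n hn => Finset.mem_insert_of_mem (Finset.mem_union_right _
      (Finset.mem_biUnion.2 ⟨i, Finset.mem_univ i, Polynomial.coeff_mem_coeffs hn⟩))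
  choose γA hγA using h1
  choose cA hcA using h2
  exact ⟨A, (Subalgebra.fg_iff_finiteType A).1 (Subalgebra.fg_adjoin_finset T),
    hT a (Finset.mem_insert_self _ _), γA, cA, hγA, hcA⟩

theorem trdeg_frac (R K : Type) [CommRing R] [IsDomain R] [Algebra ℂ R] [Field K] [Algebra ℂ K]
    [Algebra R K] [IsScalarTower ℂ R K] [IsFractionRing R K] :
    Algebra.trdeg ℂ K = Algebra.trdeg ℂ R := by
  have h1 : FaithfulSMul R K := (faithfulSMul_iff_algebraMap_injective _ _).2
    (IsFractionRing.injective R K)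
  have h2 : Algebra.IsAlgebraic R K := IsLocalization.isAlgebraic K (nonZeroDivisors R)
  have h3 := trdeg_add_eq ℂ R (A := K)
  rw [trdeg_eq_zero (R := R) (A := K), add_zero] at h3
  exact h3.symm

theorem spread_aux {N : ℕ} {K : Type} [Field K] [Algebra ℂ K] (x : Fin N → K)
    (R : Type) [CommRing R] [IsDomain R] [Algebra ℂ R] [Algebra R K] [IsScalarTower ℂ R K]
    [IsFractionRing R K] (xR : Fin N → R) (hxR : ∀ i, algebraMap R K (xR i) = x i)
    (B : Type) [CommRing B] [IsDomain B] [Algebra ℂ B] (hB : Algebra.FiniteType ℂ B)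
    (hd : Algebra.trdeg ℂ B + 1 = Algebra.trdeg ℂ R)
    (ψ : R →ₐ[ℂ] Polynomial B) (hψ : Function.Injective ψ) (c : Fin N → Polynomial B)
    (hc : ∑ i, c i * ψ (xR i) = 1) (i1 : Fin N) (hi1 : 0 < (ψ (xR i1)).natDegree) :
    A1UniruledOn (charts x) := by
  classical
  let g : R →+* FractionRing (Polynomial B) :=
    (algebraMap (Polynomial B) (FractionRing (Polynomial B))).comp ψ.toRingHom
  have hg : Function.Injective g := (IsFractionRing.injective _ _).comp hψ
  let φ0 : K →+* FractionRing (Polynomial B) := IsFractionRing.lift hg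
  have hφ0 : ∀ a : R, φ0 (algebraMap R K a) =
      algebraMap (Polynomial B) (FractionRing (Polynomial B)) (ψ a) := fun a =>
    IsFractionRing.lift_algebraMap hg a
  let φ : K →ₐ[ℂ] FractionRing (Polynomial B) :=
    { φ0 with
      commutes' := fun z => by
        change φ0 (algebraMap ℂ K z) = _
        rw [IsScalarTower.algebraMap_apply ℂ R K, hφ0, AlgHom.commutes,
          ← IsScalarTower.algebraMap_apply] }
  have hφ : ∀ i, φ (x i) = algebraMap (Polynomial B) (FractionRing (Polynomial B)) (ψ (xR i)) := by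
    intro i
    rw [← hxR]
    exact hφ0 _
  refine ⟨B, inferInstance, inferInstance, inferInstance, hB, ?_, φ, ?_, x i1, ?_⟩
  · rw [hd, trdeg_frac R K]
  · intro Q hQ
    obtain ⟨i, hi⟩ : ∃ i, ψ (xR i) ∉ Q := by
      by_contra hn
      push Not at hn
      apply hQ.ne_top
      rw [Ideal.eq_top_iff_one, ← hc]
      exact Ideal.sum_mem _ fun i _ => Ideal.mul_mem_left _ _ (hn i)
    refine ⟨i, fun a ha => ?_⟩
    induction ha using Algebra.adjoin_induction with
    | mem b hb =>
      rcases hb with ⟨l, rfl⟩ | hb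
      · exact ⟨ψ (xR l), 1, hQ.one_notMem, by rw [map_one, mul_one, hφ]⟩
      · rw [Set.mem_singleton_iff] at hb
        refine ⟨1, ψ (xR i), hi, ?_⟩
        have h0 : φ (x i) ≠ 0 := by
          rw [hφ]
          intro h0
          apply hi
          have : ψ (xR i) = 0 := (map_eq_zero_iff _ (IsFractionRing.injective _ _)).1 h0
          rw [this]
          exact Q.zero_mem
        rw [hb, map_inv₀, ← hφ, inv_mul_cancel₀ h0, map_one]
    | algebraMap z =>
      refine ⟨algebraMap ℂ _ z, 1, hQ.one_notMem, ?_⟩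
      rw [AlgHom.commutes, map_one, mul_one, ← IsScalarTower.algebraMap_apply]
    | add a b _ _ iha ihb =>
      obtain ⟨u, y, hy, h1⟩ := iha
      obtain ⟨u', y', hy', h2⟩ := ihb
      refine ⟨u * y' + u' * y, y * y', fun h => (hQ.mem_or_mem h).elim hy hy', ?_⟩
      rw [map_add, map_mul, map_add, map_mul, map_mul, ← h1, ← h2]
      ring
    | mul a b _ _ iha ihb =>
      obtain ⟨u, y, hy, h1⟩ := iha
      obtain ⟨u', y', hy', h2⟩ := ihb
      refine ⟨u * u', y * y', fun h => (hQ.mem_or_mem h).elim hy hy', ?_⟩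
      rw [map_mul, map_mul, map_mul, ← h1, ← h2]
      ring
  · rintro ⟨b, e, he, h⟩
    rw [hφ, ← map_mul] at h
    have h1 := IsFractionRing.injective (Polynomial B) (FractionRing (Polynomial B)) h
    have h2 := congrArg Polynomial.natDegree h1
    rw [Polynomial.natDegree_mul_C he, Polynomial.natDegree_C] at h2
    omega

end SpreadM

open SpreadM in
theorem stmtSpread (hC : StmtCut) (hS : StmtSpe) : StmtSpread := by
  classical
  intro N r f K _ _ x hx E _ _ φE γE hE
  obtain ⟨γ, hγ⟩ := hS N r f K x (AlgebraicClosure K) E φE γE hE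
  set L := AlgebraicClosure K with hL
  obtain ⟨c, hc⟩ := Ideal.mem_span_range_iff_exists_fun.1
    (show (1 : Polynomial L) ∈ Ideal.span (Set.range γ) by rw [hγ.span]; trivial)
  obtain ⟨i1, hi1⟩ := hγ.pos
  obtain ⟨A, hA, hinvA, γA, cA, hγA, hcA⟩ := exists_alg γ c ((γ i1).leadingCoeff)⁻¹
  have hval : Function.Injective (algebraMap A L) := Subtype.coe_injective
  have hmapinj : Function.Injective (Polynomial.map (algebraMap A L)) :=
    Polynomial.map_injective _ hval
  -- the coordinate ring
  let ax : MvPolynomial (Fin N) ℂ →ₐ[ℂ] K := aeval x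
  let I : Ideal (MvPolynomial (Fin N) ℂ) := RingHom.ker ax
  have hI : I.IsPrime := RingHom.ker_isPrime _
  let R : Type := MvPolynomial (Fin N) ℂ ⧸ I
  let ι : R →ₐ[ℂ] K := Ideal.kerLiftAlg ax
  have hι : Function.Injective ι := Ideal.kerLiftAlg_injective ax
  have hιmk : ∀ P, ι (Ideal.Quotient.mk I P) = aeval x P := fun P => rfl
  let algRK : Algebra R K := ι.toRingHom.toAlgebra
  have hRK : ∀ a : R, algebraMap R K a = ι a := fun a => rfl
  have tow : IsScalarTower ℂ R K := IsScalarTower.of_algebraMap_eq' ι.comp_algebraMap.symm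
  have hfaith : FaithfulSMul R K := (faithfulSMul_iff_algebraMap_injective _ _).2 hι
  have hfrac : IsFractionRing R K := by
    apply IsFractionRing.of_field
    intro z
    obtain ⟨P, Q, hQ, h⟩ := hx.gen z
    exact ⟨Ideal.Quotient.mk I P, Ideal.Quotient.mk I Q, by
      rw [hRK, hRK, hιmk, hιmk, eq_div_iff hQ, h]⟩
  have hRft : Algebra.FiniteType ℂ R :=
    Algebra.FiniteType.of_surjective (Ideal.Quotient.mkₐ ℂ I) (Ideal.Quotient.mkₐ_surjective ℂ I)
  -- the curve over `A`
  have hcurve : ∀ P : MvPolynomial (Fin N) ℂ, (aeval γA P).map (algebraMap A L) = aeval γ P := by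
    intro P
    have : (Polynomial.mapAlgHom (A.val)).comp (aeval γA) =
        (aeval γ : MvPolynomial (Fin N) ℂ →ₐ[ℂ] Polynomial L) := by
      ext i : 1
      simp only [AlgHom.comp_apply, aeval_X]
      exact hγA i
    exact congrArg (fun h : MvPolynomial (Fin N) ℂ →ₐ[ℂ] Polynomial L => h P) this
  have hker : ∀ P ∈ I, aeval γA P = 0 := by
    intro P hP
    have h1 : P ∈ Ideal.span (Set.range f) := hx.ker P hP
    have h2 : Ideal.span (Set.range f) ≤
        RingHom.ker (aeval γA : MvPolynomial (Fin N) ℂ →ₐ[ℂ] Polynomial A) := by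
      rw [Ideal.span_le]
      rintro _ ⟨k, rfl⟩
      rw [SetLike.mem_coe, RingHom.mem_ker]
      apply hmapinj
      rw [hcurve, hγ.curve.mem, Polynomial.map_zero]
    exact h2 h1
  let φ : R →ₐ[ℂ] Polynomial A := Ideal.Quotient.liftₐ I (aeval γA) hker
  have hφmk : ∀ P, φ (Ideal.Quotient.mk I P) = aeval γA P := fun P => rfl
  -- the constant coefficient
  have hconst : ∀ a : R, algebraMap A L ((φ a).coeff 0) = algebraMap K L (ι a) := by
    intro a
    obtain ⟨P, rfl⟩ := Ideal.Quotient.mk_surjective a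
    rw [hφmk, hιmk, ← Polynomial.coeff_map, hcurve, Polynomial.coeff_zero_eq_eval_zero]
    have : ((Polynomial.aeval (0 : L)).restrictScalars ℂ).comp
        (aeval γ : MvPolynomial (Fin N) ℂ →ₐ[ℂ] Polynomial L) =
        (IsScalarTower.toAlgHom ℂ K L).comp (aeval x) := by
      ext i : 1
      simp only [AlgHom.comp_apply, aeval_X, AlgHom.restrictScalars_apply,
        Polynomial.coe_aeval_eq_eval, IsScalarTower.coe_toAlgHom']
      exact hγ.curve.zero i
    have h2 := congrArg (fun h : MvPolynomial (Fin N) ℂ →ₐ[ℂ] L => h P) this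
    simpa only [AlgHom.comp_apply, AlgHom.restrictScalars_apply,
        Polynomial.coe_aeval_eq_eval, IsScalarTower.coe_toAlgHom'] using h2
  have hKL : Function.Injective (algebraMap K L) := (algebraMap K L).injective
  have hφinj : Function.Injective φ := by
    rw [injective_iff_map_eq_zero]
    intro a ha
    have h1 := hconst a
    rw [ha, Polynomial.coeff_zero, map_zero] at h1
    exact (map_eq_zero_iff ι hι).1 ((map_eq_zero_iff _ hKL).1 h1.symm)
  have hd : Algebra.trdeg ℂ A = Algebra.trdeg ℂ R := by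
    apply le_antisymm
    · rw [← trdeg_frac R K]
      have h1 := trdeg_add_eq ℂ K (A := L)
      rw [trdeg_eq_zero (R := K) (A := L), add_zero] at h1
      rw [h1]
      exact trdeg_le_of_injective A.val hval
    · let φ1 : R →ₐ[ℂ] A := ((Polynomial.aeval (0 : A)).restrictScalars ℂ).comp φ
      refine trdeg_le_of_injective φ1 ?_
      rw [injective_iff_map_eq_zero]
      intro a ha
      have h1 := hconst a
      have h2 : (φ a).coeff 0 = 0 := by
        rw [Polynomial.coeff_zero_eq_eval_zero]
        simpa only [φ1, AlgHom.comp_apply, AlgHom.restrictScalars_apply,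
          Polynomial.coe_aeval_eq_eval] using ha
      rw [h2, map_zero] at h1
      exact (map_eq_zero_iff ι hι).1 ((map_eq_zero_iff _ hKL).1 h1.symm)
  let xR : Fin N → R := fun i => Ideal.Quotient.mk I (X i)
  have hxR : ∀ i, algebraMap R K (xR i) = x i := by
    intro i
    rw [hRK]
    change aeval x (X i) = x i
    rw [aeval_X]
  have hφx : ∀ i, φ (xR i) = γA i := by
    intro i
    change aeval γA (X i) = γA i
    rw [aeval_X]
  have hdeg : (φ (xR i1)).natDegree = (γ i1).natDegree := by
    rw [hφx, ← hγA i1, Polynomial.natDegree_map_eq_of_injective hval]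
  have hlc : algebraMap A L (φ (xR i1)).leadingCoeff = (γ i1).leadingCoeff := by
    rw [hφx, ← hγA i1, Polynomial.leadingCoeff_map_of_injective hval]
  have hlc0 : (γ i1).leadingCoeff ≠ 0 := by
    rw [Ne, Polynomial.leadingCoeff_eq_zero]
    intro h0
    rw [h0, Polynomial.natDegree_zero] at hi1
    exact lt_irrefl _ hi1
  obtain ⟨P, hP, hPd, hPinj, hPdeg⟩ := hC R hRft A hA hd φ hφinj (xR i1)
    (by rw [hdeg]; exact hi1) (by
      refine IsUnit.of_mul_eq_one (⟨_, hinvA⟩ : A) ?_
      apply hval
      rw [map_mul, hlc, map_one]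
      exact mul_inv_cancel₀ hlc0)
  have hsum : ∑ i, cA i * γA i = 1 := by
    apply hmapinj
    rw [Polynomial.map_sum, Polynomial.map_one, ← hc]
    refine Finset.sum_congr rfl fun i _ => ?_
    rw [Polynomial.map_mul, hcA, hγA]
  refine spread_aux x R xR hxR (A ⧸ P)
    (Algebra.FiniteType.of_surjective (Ideal.Quotient.mkₐ ℂ P) (Ideal.Quotient.mkₐ_surjective ℂ P))
    hPd _ hPinj (fun i => (cA i).map (Ideal.Quotient.mk P)) ?_ i1 hPdeg
  have h1 := congrArg (Polynomial.map (Ideal.Quotient.mk P)) hsum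
  rw [Polynomial.map_sum, Polynomial.map_one] at h1
  rw [← h1]
  refine Finset.sum_congr rfl fun i _ => ?_
  rw [Polynomial.map_mul, AlgHom.comp_apply, hφx]
  rfl

end Pool.Agent.PC
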