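import Pool.Agent.Lib.MP_410da7_agP.Spec2
import Pool.Agent.Lib.MP_410da7_ag.CYSystem

/-!
# The system of equations is isobaric
-/

set_option autoImplicit false

namespace Pool.Agent.PC.SysM

open MvPolynomial Pool.Agent.Lib.MP_410da7_ag

variable {N r : ℕ}

theorem iso_cur (w : Fin N → ℕ) (k : ℕ) {L : Type} [Field L] (p : Fin N → L) (i : Fin N) :
    CYSystemIso (fun s : Sg w k => wt s)
      (cur w k (fun i => (C (p i) : MvPolynomial (Sg w k) L)) X i) := by
  refine (CYSystemIso.constC _ (p i)).add (CYSystemIso.sum _ _ fun j _ => ?_)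
  exact CYSystemIso.var _ (⟨i, j⟩ : Sg w k) (j.1 + 1) rfl

theorem iso_aeval {σ L : Type} [Field L] [Algebra ℂ L] (wt : σ → ℕ)
    (γ : Fin N → Polynomial (MvPolynomial σ L)) (hγ : ∀ i, CYSystemIso wt (γ i))
    (F : MvPolynomial (Fin N) ℂ) : CYSystemIso wt (aeval γ F) := by
  rw [aeval_def, eval₂_eq']
  refine CYSystemIso.sum _ _ fun α _ => ?_
  refine (?_ : CYSystemIso wt _).mul (CYSystemIso.prod _ _ fun l _ => (hγ l).pow _)
  have : algebraMap ℂ (Polynomial (MvPolynomial σ L)) (F.coeff α) =
      Polynomial.C (C (algebraMap ℂ L (F.coeff α))) := by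
    rw [IsScalarTower.algebraMap_apply ℂ (MvPolynomial σ L) (Polynomial (MvPolynomial σ L)),
      IsScalarTower.algebraMap_apply ℂ L (MvPolynomial σ L)]
    rfl
  rw [this]
  exact CYSystemIso.constC wt _

theorem const_coeff {B : Type} [CommRing B] [Algebra ℂ B] (F : MvPolynomial (Fin N) ℂ)
    (γ : Fin N → Polynomial B) :
    (aeval γ F).coeff 0 = aeval (fun l => (γ l).eval 0) F := by
  have : (Polynomial.evalRingHom (0 : B)).comp
      ((aeval γ : MvPolynomial (Fin N) ℂ →ₐ[ℂ] Polynomial B) :
        MvPolynomial (Fin N) ℂ →+* Polynomial B) =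
      ((aeval (fun l => (γ l).eval 0) : MvPolynomial (Fin N) ℂ →ₐ[ℂ] B) :
        MvPolynomial (Fin N) ℂ →+* B) := by
    apply MvPolynomial.ringHom_ext
    · intro c
      simp [IsScalarTower.algebraMap_apply ℂ B (Polynomial B)]
    · intro l
      simp
  have h2 := RingHom.congr_fun this F
  rw [Polynomial.coeff_zero_eq_eval_zero]
  exact h2

theorem sys_aeval (w : Fin N → ℕ) (d : Fin r → ℕ) (f : Fin r → MvPolynomial (Fin N) ℂ) (k : ℕ)
    {L : Type} [Field L] [Algebra ℂ L] (p : Fin N → L) (B : Type) [CommRing B] [Algebra ℂ B]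
    [Algebra L B] [IsScalarTower ℂ L B] (a : Sg w k → B) (q : Eg d k) :
    aeval a (sysE w d f k p q) =
      (aeval (cur w k (fun i => algebraMap L B (p i)) a) (f q.1)).coeff (q.2.1 + 1) := by
  let φ : MvPolynomial (Sg w k) L →ₐ[ℂ] B :=
    (aeval a : MvPolynomial (Sg w k) L →ₐ[L] B).restrictScalars ℂ
  have h1 : aeval a (sysE w d f k p q) = ((aeval (cur w k (fun i =>
      (C (p i) : MvPolynomial (Sg w k) L)) X) (f q.1)).map
        (φ : MvPolynomial (Sg w k) L →+* B)).coeff (q.2.1 + 1) := by
    rw [Polynomial.coeff_map]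
    rfl
  rw [h1, curve_map_aeval]
  have h2 : (fun l => (cur w k (fun i => (C (p i) : MvPolynomial (Sg w k) L)) X l).map
      (φ : MvPolynomial (Sg w k) L →+* B)) = cur w k (fun i => algebraMap L B (p i)) a := by
    funext l
    unfold cur
    rw [curvePoly_map]
    congr 1
    · funext l
      show aeval a (C (p l)) = algebraMap L B (p l)
      rw [aeval_C]
    · funext i
      show aeval a (X i) = a i
      rw [aeval_X]
  rw [h2]

theorem weight_le {w : Fin N → ℕ} {d : ℕ} {F : MvPolynomial (Fin N) ℂ}
    (hF : F.IsWeightedHomogeneous w d) (k : ℕ) :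
    F.weightedTotalDegree (fun i => k * w i) ≤ k * d := by
  unfold weightedTotalDegree
  refine Finset.sup_le fun e he => ?_
  have h1 := hF (mem_support_iff.1 he)
  rw [← h1, Finsupp.weight_apply, Finsupp.weight_apply, Finsupp.sum, Finsupp.sum, Finset.mul_sum]
  refine le_of_eq (Finset.sum_congr rfl fun i _ => ?_)
  simp only [smul_eq_mul]
  ring

end Pool.Agent.PC.SysM

namespace Pool.Agent.PC

open MvPolynomial Pool.Agent.Lib.MP_410da7_ag SysM

theorem stmtSys : StmtSys := by
  intro N r w d f hf k L _ _ p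
  refine ⟨fun q => ?_, fun B _ _ _ _ a q => sys_aeval w d f k p B a q, ?_⟩
  · exact iso_aeval _ _ (fun i => iso_cur w k p i) (f q.1) (q.2.1 + 1)
  · intro B _ _ _ _ a hp
    constructor
    · intro h l
      ext n
      rw [Polynomial.coeff_zero]
      rcases n with _ | n
      · rw [const_coeff]
        have h1 : (fun i => (cur w k (fun i => algebraMap L B (p i)) a i).eval 0) =
            fun i => algebraMap L B (p i) := by
          funext i
          exact curvePoly_eval_zero _ _ _ _
        rw [h1]
        have h2 := aeval_algebraMap_apply (R := ℂ) B p (f l)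
        rw [hp l, map_zero] at h2
        exact h2
      · by_cases hn : n < k * d l
        · rw [← h ⟨l, ⟨n, hn⟩⟩, sys_aeval]
        · apply Polynomial.coeff_eq_zero_of_natDegree_lt
          have h1 := curve_natDegree_aeval_le (fun i => k * w i)
            (cur w k (fun i => algebraMap L B (p i)) a)
            (fun i => curvePoly_natDegree_le _ _ _ i) (f l)
          have h2 := weight_le (hf l) k
          omega
    · intro h q
      rw [sys_aeval, h q.1, Polynomial.coeff_zero]

end Pool.Agent.PC
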