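import Pool.Agent.Lib.MP_410da7_agP.Spec

/-!
# Module TrA: trivial curves are `γ_i = p_i A^(w_i)`
-/

set_option autoImplicit false

namespace Pool.Agent.PC

namespace TrAM

open Polynomial

/-- Bezout for a finite family of natural numbers with greatest common divisor one. -/
theorem bezout {N : ℕ} (w : Fin N → ℕ) (hg : Finset.univ.gcd w = 1) :
    ∃ n : Fin N → ℤ, ∑ i, n i * (w i : ℤ) = 1 := by
  have h1 : Ideal.span (Set.range fun i => (w i : ℤ)) = ⊤ := by
    rw [Ideal.eq_top_iff_one]
    obtain ⟨g, hgs⟩ := (IsPrincipalIdealRing.principal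
      (Ideal.span (Set.range fun i => (w i : ℤ)))).principal
    have hgs' : Ideal.span (Set.range fun i => (w i : ℤ)) = Ideal.span {g} := hgs
    have h2 : ∀ i, g ∣ (w i : ℤ) := by
      intro i
      rw [← Ideal.mem_span_singleton, ← hgs']
      exact Ideal.subset_span ⟨i, rfl⟩
    have h3 : g.natAbs ∣ Finset.univ.gcd w := by
      refine Finset.dvd_gcd fun i _ => ?_
      have := Int.natAbs_dvd_natAbs.2 (h2 i)
      simpa using this
    rw [hg, Nat.dvd_one] at h3
    rw [hgs', Ideal.mem_span_singleton]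
    exact (Int.isUnit_iff_natAbs_eq.2 h3).dvd
  have h4 : (1 : ℤ) ∈ Ideal.span (Set.range fun i => (w i : ℤ)) := by
    rw [h1]
    exact Submodule.mem_top
  rw [Ideal.mem_span_range_iff_exists_fun] at h4
  exact h4

theorem zpow_sum' {K : Type} [Field K] {ι : Type} (s : Finset ι) (a : K) (ha : a ≠ 0)
    (f : ι → ℤ) : a ^ (∑ i ∈ s, f i) = ∏ i ∈ s, a ^ f i := by
  classical
  induction s using Finset.induction_on with
  | empty => simp
  | insert i s hi ih => rw [Finset.sum_insert hi, Finset.prod_insert hi, zpow_add₀ ha, ih]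

end TrAM

theorem stmtTrA : StmtTrA := by
  intro N w hw hg F _ p hp γ hγ htriv
  obtain ⟨n, hn⟩ := TrAM.bezout w hg
  -- the quotients
  obtain ⟨g, hγg⟩ : ∃ g : Fin N → Polynomial F, ∀ i, γ i = Polynomial.C (p i) * g i := by
    refine ⟨fun i => Polynomial.C (p i)⁻¹ * γ i, fun i => ?_⟩
    simp only
    rw [← mul_assoc, ← Polynomial.C_mul, mul_inv_cancel₀ (hp i), Polynomial.C_1, one_mul]
  have hγ0 : ∀ i, γ i ≠ 0 := by
    intro i h0
    apply hp i
    rw [← hγ i, h0, Polynomial.eval_zero]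
  have hg0 : ∀ i, g i ≠ 0 := by
    intro i h0
    apply hγ0 i
    rw [hγg i, h0, mul_zero]
  have hgg : ∀ i j, g i ^ w j = g j ^ w i := by
    intro i j
    have h1 := htriv i j
    rw [hγg i, hγg j, mul_pow, mul_pow, ← Polynomial.C_pow, ← Polynomial.C_pow, ← mul_assoc,
      ← mul_assoc, ← Polynomial.C_mul, ← Polynomial.C_mul] at h1
    have h2 : p j ^ w i * p i ^ w j = p i ^ w j * p j ^ w i := mul_comm _ _
    rw [h2] at h1
    refine mul_left_cancel₀ ?_ h1
    rw [Polynomial.C_ne_zero]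
    exact mul_ne_zero (pow_ne_zero _ (hp i)) (pow_ne_zero _ (hp j))
  have hev : ∀ i, (g i).eval 0 = 1 := by
    intro i
    have h1 := hγ i
    rw [hγg i, Polynomial.eval_mul, Polynomial.eval_C] at h1
    exact mul_left_cancel₀ (hp i) (h1.trans (mul_one _).symm)
  -- the element of the fraction field
  let φ : Polynomial F →+* RatFunc F := algebraMap (Polynomial F) (RatFunc F)
  have hφinj : Function.Injective φ := IsFractionRing.injective (Polynomial F) (RatFunc F)
  have hφg : ∀ i, φ (g i) ≠ 0 := by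
    intro i
    rw [Ne, map_eq_zero_iff φ hφinj]
    exact hg0 i
  set B : RatFunc F := ∏ i, φ (g i) ^ n i with hB
  have hBw : ∀ j, B ^ w j = φ (g j) := by
    intro j
    rw [hB, ← Finset.prod_pow]
    have h1 : ∀ i ∈ Finset.univ, (φ (g i) ^ n i) ^ w j = φ (g j) ^ (n i * (w i : ℤ)) := by
      intro i _
      rw [← zpow_natCast, ← zpow_mul, mul_comm (n i), zpow_mul, zpow_natCast, ← map_pow, hgg i j,
        map_pow, ← zpow_natCast, ← zpow_mul, mul_comm (n i)]
    rw [Finset.prod_congr rfl h1, ← TrAM.zpow_sum' _ _ (hφg j), hn, zpow_one]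
  obtain ⟨j0⟩ : Nonempty (Fin N) := by
    by_contra hne
    rw [not_nonempty_iff] at hne
    simp at hg
  have hint : IsIntegral (Polynomial F) B := by
    refine ⟨Polynomial.X ^ w j0 - Polynomial.C (g j0), ?_, ?_⟩
    · exact Polynomial.monic_X_pow_sub_C _ (hw j0).ne'
    · rw [Polynomial.eval₂_sub, Polynomial.eval₂_pow, Polynomial.eval₂_X, Polynomial.eval₂_C,
        hBw j0]
      exact sub_self _
  obtain ⟨A, hA⟩ := IsIntegrallyClosed.isIntegral_iff.1 hint
  have hAw : ∀ j, A ^ w j = g j := by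
    intro j
    apply hφinj
    rw [map_pow]
    change (algebraMap (Polynomial F) (RatFunc F) A) ^ w j = φ (g j)
    rw [hA, hBw j]
  refine ⟨A, ?_, ?_⟩
  · have h1 : ∀ j, (A.eval 0) ^ w j = 1 := by
      intro j
      rw [← Polynomial.eval_pow, hAw j, hev j]
    have h0 : A.eval 0 ≠ 0 := by
      intro h0
      have := h1 j0
      rw [h0, zero_pow (hw j0).ne'] at this
      exact zero_ne_one this
    have h2 : (A.eval 0) ^ (∑ i, n i * (w i : ℤ)) = 1 := by
      rw [TrAM.zpow_sum' _ _ h0]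
      refine Finset.prod_eq_one fun i _ => ?_
      rw [mul_comm, zpow_mul, zpow_natCast, h1 i, one_zpow]
    rwa [hn, zpow_one] at h2
  · intro i
    rw [hAw i]
    exact hγg i

end Pool.Agent.PC
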