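import Pool.Agent.Lib.MP_410da7_agP.Spec

/-!
# Package `P` (punctured cones): some minor is large at every valuation
-/

set_option autoImplicit false

namespace Pool.Agent.PC

open MvPolynomial KaehlerDifferential WithZero Pool.Agent.Lib.MP_410da7_ag

namespace ValM

/-- the value of a weighted homogeneous polynomial -/
theorem val_poly {N : ℕ} (w : Fin N → ℕ) {K : Type} [Field K] [Algebra ℂ K] (x : Fin N → K)
    (v : Valuation K ℤᵐ⁰) (hv : ∀ c : ℂ, c ≠ 0 → v (algebraMap ℂ K c) = 1) (j0 : Fin N)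
    (hx : ∀ j, v (x j) ^ w j0 ≤ v (x j0) ^ w j) (P : MvPolynomial (Fin N) ℂ) (hP : P ≠ 0)
    (δ : ℕ) (hδ : ∀ e ∈ P.support, Finsupp.weight w e = δ) :
    v (aeval x P) ^ w j0 ≤ v (x j0) ^ δ := by
  obtain ⟨e, he, hmax⟩ := Finset.exists_max_image P.support
    (fun e => v (algebraMap ℂ K (P.coeff e) * ∏ i, x i ^ e i)) (support_nonempty.mpr hP)
  have h1 : v (aeval x P) ≤ v (algebraMap ℂ K (P.coeff e) * ∏ i, x i ^ e i) := by
    rw [aeval_def, eval₂_eq']
    exact v.map_sum_le hmax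
  refine (pow_le_pow_left₀ zero_le' h1 _).trans ?_
  rw [Valuation.map_mul, hv _ (mem_support_iff.mp he), one_mul, map_prod, ← Finset.prod_pow]
  have h2 : ∀ i ∈ Finset.univ, v (x i ^ e i) ^ w j0 ≤ v (x j0) ^ (e i * w i) := by
    intro i _
    rw [Valuation.map_pow, ← pow_mul, mul_comm (e i) (w j0), pow_mul, mul_comm (e i) (w i),
      pow_mul]
    exact pow_le_pow_left₀ zero_le' (hx i) _
  refine (Finset.prod_le_prod' h2).trans ?_
  rw [Finset.prod_pow_eq_pow_sum, ← hδ e he, Finsupp.weight_apply, Finsupp.sum_fintype]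
  · simp
  · simp

end ValM

theorem stmtVal (hN : StmtNul) : StmtVal := by
  classical
  intro N r n w d f hV σ K _ _ x hx v hv j0 hj0 hle
  obtain ⟨q, g, h, hq, hh⟩ := hN N r n w d f hV σ j0
  have hv0 : v (x j0) ≠ 0 := (Valuation.ne_zero_iff _).mpr hj0
  have h1 : x j0 ^ q = ∑ ι, aeval x (h ι) * aeval x (minorP f σ ι) := by
    have h2 := congrArg (aeval x) hq
    rw [map_pow, aeval_X, map_add, map_sum, map_sum] at h2
    rw [h2]
    have h3 : ∑ k, aeval x (g k * f k) = 0 := by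
      apply Finset.sum_eq_zero
      intro k _
      rw [map_mul, hx, mul_zero]
    rw [h3, zero_add]
    simp only [map_mul]
  obtain ⟨ι, hι⟩ : ∃ ι, v (x j0) ^ q ≤ v (aeval x (h ι) * aeval x (minorP f σ ι)) := by
    by_contra hcon
    push Not at hcon
    have h2 := v.map_sum_lt (s := Finset.univ) (pow_ne_zero q hv0) (fun i _ => hcon i)
    rw [← h1, Valuation.map_pow] at h2
    exact lt_irrefl _ h2
  refine ⟨ι, ?_⟩
  have hne : h ι ≠ 0 := by
    intro h0
    rw [h0, map_zero, zero_mul, Valuation.map_zero, le_zero_iff] at hι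
    exact pow_ne_zero q hv0 hι
  obtain ⟨e0, he0⟩ := support_nonempty.mpr hne
  have hδ := hh ι e0 he0
  have h2 := ValM.val_poly w x v hv j0 hle (h ι) hne (Finsupp.weight w e0) (by
    intro e he
    have := hh ι e he
    omega)
  have h3 : v (x j0) ^ (q * w j0) ≤ v (x j0) ^ (Finsupp.weight w e0) *
      v (aeval x (minorP f σ ι)) ^ w j0 := by
    rw [pow_mul]
    refine (pow_le_pow_left₀ zero_le' hι _).trans ?_
    rw [Valuation.map_mul, mul_pow]
    exact mul_le_mul_left h2 _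
  have h4 : v (x j0) ^ (Finsupp.weight w e0) * v (x j0) ^ (∑ k, d k + ∑ i, w (ι i)) ≤
      v (x j0) ^ (Finsupp.weight w e0) *
        (v (aeval x (minorP f σ ι)) ^ w j0 * v (x j0) ^ (∑ l, w l)) := by
    rw [← pow_add, ← add_assoc, hδ, pow_add, ← mul_assoc]
    exact mul_le_mul_left h3 _
  exact (mul_le_mul_iff_right₀ (zero_lt_iff.mpr (pow_ne_zero _ hv0))).mp h4

end Pool.Agent.PC
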