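import Pool.Agent.Lib.MP_410da7_agP.Defs
import Pool.Agent.Lib.MP_410da7_ag.DPart

/-!
# Package `P` (punctured cones): statements and proofs of the modules

GOAL (helper63). `V = {f = 0} ⊆ 𝔸^N` a quasi-smooth weighted complete intersection cone
(`QuasiSmooth w d f`), `X = V ∖ {0}`, `I = ∑ w - ∑ d`. THEOREM: `X` is `𝔸¹`-uniruled iff
`κ̄(X) = -∞` iff `I > 0`, whenever `I ≤ 0`, or some `e ∈ ℕ^N` with an entry `≤ 1` satisfies
`∑ deg_e f_k < ∑ e_i` (for example `w_i ≤ I` for some `i`), or `AlmostTerminal w f x`.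

Notation. Curves are `γ : Fin N → L[X]`, `IsCurve f p γ` (`γ(0) = p`, `f(γ) = 0`), trivial curves
`γ_i = p_i A^(w_i)` (`IsTriv`), good curves (`IsGood`: no common zero, not constant). The unknown
coefficients are indexed by `Sg w k` (`(i,j)` = coefficient of `t^(j+1)`, weight `j+1`), the equations
by `Eg d k`; `cur w k p a` is the curve with coefficients `a`, `sysE w d f k p` the equations.

Every module: file `Pool/Agent/Lib/MP_410da7_agP/<Name>.lean`, importing
`Pool.Agent.Lib.MP_410da7_agP.Spec` (and library files named in the task), private names in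
`namespace Pool.Agent.PC.<Name>M`, final theorem `Pool.Agent.PC.stmt<Name> : … → Stmt<Name>`; the other
statements it uses are hypotheses.
-/

set_option autoImplicit false

namespace Pool.Agent.PC

open MvPolynomial KaehlerDifferential WithZero Pool.Agent.Lib.MP_410da7_ag
open IsDedekindDomain (HeightOneSpectrum)

noncomputable section

/-! ## 1. From curves to `𝔸¹`-uniruledness -/

/-- CUT (60 lines). Copy the proof of `a1Uniruled_of_family` in
`Pool/Agent/Lib/MP_410da7_ag/CutDown.lean` (200 lines there) and keep more of what it proves: the last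
`refine` there produces exactly the prime ideal `P` of `A`, the map
`ψ = (Polynomial.mapAlgHom (Ideal.Quotient.mkₐ ℂ P)).comp φ`, its injectivity `hψ`, `hψa`, and the
computation of the transcendence degree. Nothing new is needed. -/
def StmtCut : Prop := ∀ (R : Type) [CommRing R] [IsDomain R] [Algebra ℂ R],
  Algebra.FiniteType ℂ R → ∀ (A : Type) [CommRing A] [IsDomain A] [Algebra ℂ A],
  Algebra.FiniteType ℂ A → Algebra.trdeg ℂ A = Algebra.trdeg ℂ R →
  ∀ (φ : R →ₐ[ℂ] Polynomial A), Function.Injective φ →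
  ∀ a : R, 0 < (φ a).natDegree → IsUnit (φ a).leadingCoeff →
  ∃ P : Ideal A, P.IsPrime ∧ Algebra.trdeg ℂ (A ⧸ P) + 1 = Algebra.trdeg ℂ R ∧
    Function.Injective ((Polynomial.mapAlgHom (Ideal.Quotient.mkₐ ℂ P)).comp φ) ∧
    0 < (((Polynomial.mapAlgHom (Ideal.Quotient.mkₐ ℂ P)).comp φ) a).natDegree

/-- SPE (specialisation, 120 lines). A good curve through the generic point over some extension
field of `K` gives a good curve over an algebraic closure `L` of `K`.
PROOF. Let `E'` be an algebraic closure of `E`; `φ` extends to a homomorphism `φ' : L → E'`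
(`IsAlgClosed.lift`, `L / K` algebraic). View `E'` as an `L`-algebra. Since the `γ_i` generate the
unit ideal of `E[X]`, there are `c_i ∈ E[X]` with `∑ c_i γ_i = 1` (`Ideal.mem_span_range_iff_exists_fun`).
Let `i₁` be such that `γ_{i₁}` is not constant and let `h ≠ 0` be its leading coefficient. Let
`A ⊆ E'` be the `L`-subalgebra generated by (the images of) all the coefficients of the `γ_i` and
`c_i` and by `h⁻¹`: it is a finitely generated `L`-algebra and a domain, so there is an `L`-algebra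
homomorphism `χ : A → L` (Nullstellensatz: a maximal ideal `m` has `A/m = L`, e.g.
`IsAlgClosed.algebraMap_bijective_of_isIntegral` and `finite_of_finite_type_of_isJacobsonRing`; compare
`exists_specialisation` in `Pool/Agent/Lib/MP_410da7_ag/CYSpec.lean` and `exists_point` in
`Transfer.lean`). Write `γ_i`, `c_i` as polynomials over `A` and map them by `χ`:
`γ'_i = χ(γ_i)`. Then `γ'_i(0) = χ(φ' (x_i)) = x_i ∈ L` (as `χ` is `L`-linear and `φ(x_i)` is the image of
`x_i ∈ L`), `f(γ') = 0`, `∑ χ(c_i) γ'_i = 1` and `χ(h)` is a unit, so `γ'_{i₁}` is not constant. -/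
def StmtSpe : Prop := ∀ (N r : ℕ) (f : Fin r → MvPolynomial (Fin N) ℂ) (K : Type) [Field K]
  [Algebra ℂ K] (x : Fin N → K) (L : Type) [Field L] [IsAlgClosed L] [Algebra ℂ L] [Algebra K L]
  [IsScalarTower ℂ K L] [Algebra.IsAlgebraic K L]
  (E : Type) [Field E] [Algebra ℂ E] (φ : K →ₐ[ℂ] E) (γ : Fin N → Polynomial E),
  IsGood f (fun i => φ (x i)) γ → ∃ γ' : Fin N → Polynomial L,
    IsGood f (fun i => algebraMap K L (x i)) γ'

/-- SPREAD (200 lines, uses `StmtCut`, `StmtSpe`). A good curve through the generic point of `V` makes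
`X = V ∖ {0}` `𝔸¹`-uniruled.
PROOF. By `StmtSpe` we may assume that `E = L` is an algebraic closure of `K`, and `φ` the inclusion.
Take `c_i ∈ L[X]` with `∑ c_i γ_i = 1`. Let `R = ℂ[x₁,…,x_N] ⊆ K` (`Algebra.adjoin ℂ (Set.range x)`), and
let `A ⊆ L` be the `ℂ`-subalgebra generated by all coefficients of the `γ_i` and `c_i` and by the
inverse of the leading coefficient of a nonconstant `γ_{i₁}`; `x_i = γ_i(0) ∈ A`. The map
`R → A[X]`, `x_i ↦ γ_i` is well defined (`IsFunctionField.ker`, `f(γ) = 0`; for instance identify `R`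
with `MvPolynomial (Fin N) ℂ ⧸ Ideal.span (Set.range f)`) and injective, since its composition with
`X ↦ 0` is the inclusion `R ⊆ L`. Moreover `trdeg A = trdeg R = trdeg K`: `R ⊆ A ⊆ L` and `L` is
algebraic over `K = Frac R` (`IsFunctionField.gen`). `StmtCut` gives a prime `P` of `A`; `B = A/P`, and
`ψ : R → B[X]` injective, so `ψ` extends to `φ' : K → Frac(B[X])`
(`K` is the fraction field of `R`). If `Q` is a prime of `B[X]`, then `∑ c̄_i ψ(x_i) = 1` shows that some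
`ψ(x_i) ∉ Q`; every element of `charts x i` is `a / x_i^m` with `a ∈ R`
(`Algebra.adjoin_induction`), hence is mapped to a fraction with denominator `ψ(x_i)^m ∉ Q`. And
`ψ(x_{i₁})` has positive degree, so `¬ ConstOnLines B (φ' x_{i₁})`. See `IsLineFamily`, `A1UniruledOn`
in `T1Defs.lean`. -/
def StmtSpread : Prop := ∀ (N r : ℕ) (f : Fin r → MvPolynomial (Fin N) ℂ) (K : Type) [Field K]
  [Algebra ℂ K] (x : Fin N → K), IsFunctionField f x →
  ∀ (E : Type) [Field E] [Algebra ℂ E] (φ : K →ₐ[ℂ] E) (γ : Fin N → Polynomial E),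
  IsGood f (fun i => φ (x i)) γ → A1UniruledOn (charts x)

/-! ## 2. Curves with few zeros -/

/-- G (150 lines). A nontrivial curve with at most one common zero can be made zero free.
PROOF. `N ≥ 1` and all `γ_i ≠ 0` (`γ_i(0) = p_i ≠ 0`). If the `γ_i` have no common zero, they generate
the unit ideal (`L[X]` is a PID, `L` algebraically closed), and some `γ_i` is not constant, since constant
curves are trivial. Otherwise `t₀` is the only common zero, `t₀ ≠ 0`. Let `v_i = rootMultiplicity t₀ γ_i`,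
`W = ∏ w_i > 0`, `e_i = v_i W / w_i` and `l = min e_i`. Then `γ_i(t₀ + u^W)` is divisible by
`u^(W v_i) = u^(e_i w_i)`, hence `γ_i(t₀ + u^W) = u^(l w_i) γ'_i(u)` with `γ'_i ∈ L[u]`. The `γ'_i` have
no common zero: if `u ≠ 0`, then `t₀ + u^W = t₀` would follow; `u = 0` is not a zero of `γ'_i` for `i`
with `e_i = l`, as `γ_i(t₀+s) = s^(v_i) h_i(s)` with `h_i(0) ≠ 0`. By weighted homogeneity
`u^(l d_k) f_k(γ') = f_k(u^(l w) γ') = f_k(γ(t₀+u^W)) = 0`, so `f_k(γ') = 0`. Choose `u₀` with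
`u₀^W = -t₀` (`u₀ ≠ 0`) and put `γ''_i(u) = u₀^(l w_i) γ'_i(u + u₀)`: then `γ''_i(0) = γ_i(0) = p_i`,
`f(γ'') = 0`, no common zeros. Not constant: otherwise `γ_i(t₀ + u^W) = p_i u₀^(-l w_i) u^(l w_i)`, so
`p_j^(w_i) γ_i^(w_j) - p_i^(w_j) γ_j^(w_i)` vanishes after the substitution `t = t₀ + u^W`, hence
vanishes, and `γ` would be trivial. -/
def StmtG : Prop := ∀ (N r : ℕ) (w : Fin N → ℕ) (d : Fin r → ℕ)
  (f : Fin r → MvPolynomial (Fin N) ℂ), (∀ i, 0 < w i) →
  (∀ k, (f k).IsWeightedHomogeneous w (d k)) →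
  ∀ (L : Type) [Field L] [IsAlgClosed L] [Algebra ℂ L] (p : Fin N → L), (∀ i, p i ≠ 0) →
  ∀ γ : Fin N → Polynomial L, IsCurve f p γ → ¬ IsTriv w p γ →
  (∃ t0 : L, ∀ t, (∀ i, (γ i).eval t = 0) → t = t0) →
  ∃ γ' : Fin N → Polynomial L, IsGood f p γ'

/-- MOB (150 lines). If some weight is one and `deg γ_i ≤ 2 w_i`, two zeros can be reduced to one.
PROOF. Let `w_{i₀} = 1`. If `γ` has at most one common zero we are done. Otherwise let `t₁ ≠ t₂` be common
zeros; they are nonzero, and roots of `γ_{i₀}`, which has degree `≤ 2`, so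
`γ_{i₀} = c (X - t₁)(X - t₂)`, `c ≠ 0`. For a polynomial `g` of degree `≤ n` put
`M_n(g) = ∑_j coeff_j(g) X^j (1 + X/t₂)^(n-j)`, so that `M_n(g)(u) = (1+u/t₂)^n g(u/(1+u/t₂))` whenever
`1 + u/t₂ ≠ 0`. Let `γ'_i = M_(2 w_i)(γ_i)`. Then `γ'_i(0) = γ_i(0)`, and for all `u` with
`1 + u/t₂ ≠ 0`: `f_k(γ'(u)) = (1+u/t₂)^(2 d_k) f_k(γ(u/(1+u/t₂))) = 0` by homogeneity, so
`f_k(γ') = 0` (infinitely many `u`). `γ'_{i₀} = c (X - t₁(1 + X/t₂))(X - t₂ - X) =
-c t₂ ((1 - t₁/t₂) X - t₁)` has degree one, so `γ'` has at most one zero. If `γ'` were trivial,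
then evaluating at `u` the identity `p_j^(w_i) γ_i^(w_j) = p_i^(w_j) γ_j^(w_i)` would hold at all
`t = u/(1+u/t₂)`, `u ≠ -t₂`: infinitely many `t`, so `γ` would be trivial. -/
def StmtMob : Prop := ∀ (N r : ℕ) (w : Fin N → ℕ) (d : Fin r → ℕ)
  (f : Fin r → MvPolynomial (Fin N) ℂ), (∀ i, 0 < w i) →
  (∀ k, (f k).IsWeightedHomogeneous w (d k)) →
  ∀ (L : Type) [Field L] [IsAlgClosed L] [Algebra ℂ L] (p : Fin N → L), (∀ i, p i ≠ 0) →
  ∀ γ : Fin N → Polynomial L, IsCurve f p γ → ¬ IsTriv w p γ →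
  (∀ i, (γ i).natDegree ≤ 2 * w i) → (∃ i, w i = 1) →
  ∃ γ' : Fin N → Polynomial L, IsCurve f p γ' ∧ ¬ IsTriv w p γ' ∧
    ∃ t0 : L, ∀ t, (∀ i, (γ' i).eval t = 0) → t = t0

/-- TRA (100 lines). Trivial curves are `γ_i = p_i A^(w_i)`.
PROOF. Put `g_i = γ_i / p_i ∈ F[X] ⊆ F(X)`, nonzero; the hypothesis says `g_i^(w_j) = g_j^(w_i)`. As the
`w_i` have greatest common divisor one, there are integers `n_i` with `∑ n_i w_i = 1`
(`Finset.gcd` over `ℤ`, or Bezout by induction). Let `A = ∏ g_i^(n_i) ∈ F(X)` (`RatFunc F`). Then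
`A^(w_j) = ∏_i (g_i^(w_j))^(n_i) = ∏_i (g_j^(w_i))^(n_i) = g_j^(∑ n_i w_i) = g_j ∈ F[X]`. `F[X]` is integrally closed
and some `w_j > 0` (`gcd = 1`; take `N ≥ 1`), so `A ∈ F[X]`. Finally `A(0)^(w_j) = g_j(0) = 1` for all
`j`, hence `A(0) = ∏ (A(0)^(w_i))^(n_i) = 1`. -/
def StmtTrA : Prop := ∀ (N : ℕ) (w : Fin N → ℕ), (∀ i, 0 < w i) → Finset.univ.gcd w = 1 →
  ∀ (F : Type) [Field F] (p : Fin N → F), (∀ i, p i ≠ 0) → ∀ γ : Fin N → Polynomial F,
  (∀ i, (γ i).eval 0 = p i) → IsTriv w p γ →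
  ∃ A : Polynomial F, A.eval 0 = 1 ∧ ∀ i, γ i = Polynomial.C (p i) * A ^ w i

/-- FAC (120 lines). If at every common zero the orders of the `γ_i` are proportional to the weights,
the zeros can be divided out.
PROOF. `N ≥ 1` (`gcd = 1`). Among all `A` with `A^(w_i) ∣ γ_i` for all `i` (for instance `A = 1`) take
one of maximal degree (`deg A ≤ deg γ_i` is bounded, `A ≠ 0`), `γ_i = A^(w_i) y_i`. If the `y_i` do not
generate the unit ideal, they have a common irreducible factor `π` (PID); let `𝔭 = (π)`. All the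
`γ_i` are in `𝔭`, so by hypothesis their `𝔭`-adic orders `v_i ≥ 1` satisfy `v_i w_j = v_j w_i`; since
`gcd(w) = 1` there is `c ∈ ℕ` with `v_i = c w_i` (`c = ∑ n_i v_i` with `∑ n_i w_i = 1`). The order of
`y_i` is `(c - ord A) w_i ≥ 1`, so `c - ord A ≥ 1` and `π^(w_i) ∣ y_i` for all `i`: then `A π`
contradicts the maximality. -/
def StmtFac : Prop := ∀ (N : ℕ) (w : Fin N → ℕ), (∀ i, 0 < w i) → Finset.univ.gcd w = 1 →
  ∀ (F : Type) [Field F] (γ : Fin N → Polynomial F), (∀ i, γ i ≠ 0) →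
  (∀ 𝔭 : HeightOneSpectrum (Polynomial F),
    (∀ i, 𝔭.valuation (RatFunc F) (algebraMap _ (RatFunc F) (γ i)) < 1) →
    ∀ i j, 𝔭.valuation (RatFunc F) (algebraMap _ (RatFunc F) (γ i)) ^ w j =
      𝔭.valuation (RatFunc F) (algebraMap _ (RatFunc F) (γ j)) ^ w i) →
  ∃ (A : Polynomial F) (y : Fin N → Polynomial F), (∀ i, γ i = A ^ w i * y i) ∧
    Ideal.span (Set.range y) = ⊤

/-! ## 3. Dimension, residue form, and `κ̄ ≥ 0` for `∑ w ≤ ∑ d` -/

/-- DIM (150 lines; `TopForm.lean`, `Transfer.lean`, `Wedge.lean`, `SDiv.lean`). Basic facts.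
PROOF. (1) `x_i ≠ 0`: otherwise `X_i ∈ (f)` by `ker`; but all the `f_k`, hence all elements of `(f)`, have
no terms of (total) degree `≤ 1` (`noLinear`): compare the coefficient of `X_i`.
(2) The gradients of the `f_k` at `x` are linearly independent over `K`: `linInd_transfer`
(`Transfer.lean`) with `Z = {f_k}`, `B = X_i` for some `i` (`N ≥ 2`), `M k l = pderiv l (f k)`:
at complex points `u` with `f(u) = 0`, `u_i ≠ 0` use `smooth` (`u ≠ 0`), and `x_i ≠ 0`.
(3) `exists` a transcendence basis `u : Fin n → K`: `K` is finitely generated as a field (by the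
`x_i`), so its transcendence degree is a natural number `n` (for instance
`Algebra.trdeg_lt_aleph0` for the subalgebra generated by `x`, `exists_basis_fin` in `DMain.lean` with
`R = Algebra.adjoin ℂ (Set.range x)`); `dim_count` (`TopForm.lean`, `G0 = 1`) gives `r + n = N`.
(4) `exists_eta` (`TopForm.lean`) gives `η` with `ιMulti (dmap x ξ) = det(…) • η`, and
`exists_psi_of_eta` (`Wedge.lean`, with the basis of `Ω` from `exists_kaehlerBasis`) gives `Ψ ≠ 0` with
`Ψ (dmap x ξ) = det(…)`: this is `IsResidueForm f x σ Ψ`. -/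
def StmtDim : Prop := ∀ (N r : ℕ) (w : Fin N → ℕ) (d : Fin r → ℕ)
  (f : Fin r → MvPolynomial (Fin N) ℂ), QuasiSmooth w d f →
  ∀ (K : Type) [Field K] [Algebra ℂ K] (x : Fin N → K), IsFunctionField f x →
  (∀ i, x i ≠ 0) ∧ LinearIndependent K (fun k => grad x (f k)) ∧
  ∃ n : ℕ, r + n = N ∧ Algebra.trdeg ℂ K = (n : Cardinal) ∧
    ∀ σ : Fin r ⊕ Fin n ≃ Fin N, ∃ Ψ : Ω[K⁄ℂ] [⋀^Fin n]→ₗ[K] K, Ψ ≠ 0 ∧ IsResidueForm f x σ Ψ

/-- NUL (200 lines). A power of each coordinate is in the ideal of the `f_k` and the maximal minors.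
PROOF. Let `M_ι = minorP f σ ι`. (1) If `u ∈ ℂ^N`, `f(u) = 0`, `u ≠ 0`, then `M_ι(u) ≠ 0` for some `ι`:
the `r` gradients at `u` are independent, `r + n = N` (by `σ`), so by `exists_completion`
(`Transfer.lean`) they can be completed by `n` standard basis vectors `e_{ι i}` to a basis (then the
square matrix of the minor has independent rows, hence nonzero determinant; `eval u` commutes with
`det` by `RingHom.map_det`). (2) Nullstellensatz
(`MvPolynomial.vanishingIdeal_zeroLocus_eq_radical`): `X_{j₀}` vanishes at all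
common zeros of the `f_k` and `M_ι`, so `X_{j₀}^q ∈ (f_k, M_ι)` for some `q`.
(3) `M_ι` is weighted homogeneous: the entry `(row, column l)` of its matrix is weighted homogeneous of degree
`(row degree) - w_l`, where the row degree is `d_k` for a gradient and `w_{ι i}` for `e_{ι i}`; so every
term of `M_ι` has weight `m` with `m + ∑ w = ∑ d + ∑ w_{ι i}`. (If there is no such natural number
`m`, then `M_ι = 0`.) Taking the components of weight `q w_{j₀}` of the identity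
`X_{j₀}^q = ∑ g_k f_k + ∑ h_ι M_ι` (`weightedHomogeneousComponent`, compare `CYGraded_comp_mul` in
`CYGraded.lean`), we may replace `h_ι` by its component of weight `q w_{j₀} - m`
(zero if `m > q w_{j₀}` or `M_ι = 0`), which satisfies the condition. -/
def StmtNul : Prop := ∀ (N r n : ℕ) (w : Fin N → ℕ) (d : Fin r → ℕ)
  (f : Fin r → MvPolynomial (Fin N) ℂ), QuasiSmooth w d f →
  ∀ (σ : Fin r ⊕ Fin n ≃ Fin N) (j0 : Fin N),
  ∃ (q : ℕ) (g : Fin r → MvPolynomial (Fin N) ℂ)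
    (h : (Fin n → Fin N) → MvPolynomial (Fin N) ℂ),
    X j0 ^ q = ∑ k, g k * f k + ∑ ι, h ι * minorP f σ ι ∧
    ∀ ι, ∀ e ∈ (h ι).support,
      Finsupp.weight w e + ∑ k, d k + ∑ i, w (ι i) = q * w j0 + ∑ l, w l

/-- VAL (80 lines, uses `StmtNul`). Some minor is large at every valuation.
PROOF. Evaluate the identity of `StmtNul` at `x`: `x_{j₀}^q = ∑ h_ι(x) M_ι(x)`, so there is `ι` with
`v(x_{j₀})^q ≤ v(h_ι(x)) v(M_ι(x))`; in particular `h_ι ≠ 0`. Every monomial `x^e` of `h_ι` satisfies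
`v(x^e)^(w_{j₀}) = ∏ (v(x_l)^(w_{j₀}))^(e_l) ≤ ∏ v(x_{j₀})^(w_l e_l) = v(x_{j₀})^δ`, `δ = weight e`, and `δ` is
the same number for all monomials of `h_ι`, `δ + ∑ d + ∑ w_{ι i} = q w_{j₀} + ∑ w`. So
`v(x_{j₀})^(q w_{j₀}) ≤ v(x_{j₀})^δ v(M_ι(x))^(w_{j₀})`; multiply by `v(x_{j₀})^(∑ w)` and cancel
`v(x_{j₀})^δ ≠ 0`. -/
def StmtVal : Prop := ∀ (N r n : ℕ) (w : Fin N → ℕ) (d : Fin r → ℕ)
  (f : Fin r → MvPolynomial (Fin N) ℂ), QuasiSmooth w d f →
  ∀ (σ : Fin r ⊕ Fin n ≃ Fin N) (K : Type) [Field K] [Algebra ℂ K] (x : Fin N → K),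
  (∀ k, aeval x (f k) = 0) → ∀ v : Valuation K ℤᵐ⁰,
  (∀ c : ℂ, c ≠ 0 → v (algebraMap ℂ K c) = 1) → ∀ j0 : Fin N, x j0 ≠ 0 →
  (∀ j, v (x j) ^ w j0 ≤ v (x j0) ^ w j) →
  ∃ ι : Fin n → Fin N, v (x j0) ^ (∑ k, d k + ∑ i, w (ι i)) ≤
    v (aeval x (minorP f σ ι)) ^ w j0 * v (x j0) ^ (∑ l, w l)

/-- KOD (200 lines, uses `StmtDim`, `StmtVal`). If `∑ w ≤ ∑ d`, then `κ̄(X) ≥ 0`.
PROOF. Take `n`, `Ψ` from `StmtDim` (`N - r = n`; choose any `σ`), `j₁` any index, `D = ∑ d - ∑ w`,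
`m = w_{j₁} ≥ 1` and `F = x_{j₁}^D ≠ 0`. We show that `F` is admissible at every `v` that is trivial on
`ℂ`; then `LogPlurigenusZeroOn (charts x) n m` fails.
Case 1, `v` has a center on `X`: some chart `{x_j ≠ 0}` is in the valuation ring, so `v(x_l) ≤ 1` for all
`l` and `v(x_j) = 1`. `reg_case` (`RegCase.lean`, with `s = 1`, `g = X_j`; the hypothesis `hsm` is
`smooth`, as `u_j ≠ 0`) gives `ξ` with `θ_i = dmap x (ξ i) ∈ regDiff v` and `v (Ψ θ) = v (det …) = 1`.
Then `G = F / Ψ(θ)^m` has `v G = v(x_{j₁})^D ≤ 1`.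
Case 2, any other `v`. Let `j₀` be such that `v(x_j)^(w_{j₀}) ≤ v(x_{j₀})^(w_j)` for all `j` (maximise
`v(x_j)^(1/w_j)`, that is, the rational number `log v(x_j) / w_j`; all `x_j ≠ 0`). Take `ι` from `StmtVal`
and `θ_i = (x_{ι i})⁻¹ • D x_{ι i} ∈ logDiff v`. By `IsResidueForm` with `ξ_i = (x_{ι i})⁻¹ e_{ι i}`,
`Ψ(θ) = M_ι(x) / ∏ x_{ι i}`. Write `y = v(x_{j₀})`. Then
`v(Ψ θ)^(w_{j₀}) = v(M_ι(x))^(w_{j₀}) / ∏ v(x_{ι i})^(w_{j₀}) ≥ v(M_ι(x))^(w_{j₀}) / y^(∑ w_{ι i}) ≥ y^D`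
(the last step is `StmtVal`). Hence `v(F)^(w_{j₀}) = (v(x_{j₁})^(w_{j₀}))^D ≤ y^(w_{j₁} D) ≤
(v(Ψ θ)^m)^(w_{j₀})`, so `v(F) ≤ v(Ψ θ)^m` and `G = F / Ψ(θ)^m` works. There is nothing to check about
`regDiff`, as `v` has no center (Case 2 is only used if `¬ HasCenter`). -/
def StmtKod : Prop := ∀ (N r : ℕ) (w : Fin N → ℕ) (d : Fin r → ℕ)
  (f : Fin r → MvPolynomial (Fin N) ℂ), QuasiSmooth w d f →
  ∀ (K : Type) [Field K] [Algebra ℂ K] (x : Fin N → K), IsFunctionField f x →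
  ∑ i, w i ≤ ∑ k, d k → ¬ LogKodairaNegInfOn (charts x) (N - r)

end

end Pool.Agent.PC
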