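import Pool.Agent.Lib.MP_410da7_agP.Spec
import Pool.Agent.Lib.MP_410da7_ag.CutDown

/-!
# Module Cut
-/

set_option autoImplicit false

namespace Pool.Agent.PC

open Cardinal Pool.Agent.Lib.MP_410da7_ag

theorem stmtCut : StmtCut := by
  intro R _ _ _ hR A _ _ _ hA hd φ hφ a ha hu
  classical
  let algRT : Algebra R (Polynomial A) := φ.toRingHom.toAlgebra
  have tow1 : IsScalarTower ℂ R (Polynomial A) :=
    IsScalarTower.of_algebraMap_eq' φ.comp_algebraMap.symm
  have : FaithfulSMul R (Polynomial A) := (faithfulSMul_iff_algebraMap_injective _ _).2 hφ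
  have h1 : Algebra.trdeg ℂ R + Algebra.trdeg R (Polynomial A) =
      Algebra.trdeg ℂ (Polynomial A) := trdeg_add_eq ℂ R
  have h2 : Algebra.trdeg ℂ A + Algebra.trdeg A (Polynomial A) =
      Algebra.trdeg ℂ (Polynomial A) := trdeg_add_eq ℂ A
  rw [Polynomial.trdeg_of_isDomain] at h2
  have hfin : Algebra.trdeg ℂ R < ℵ₀ := trdeg_lt_aleph0_of_finiteType
  have h3 : Algebra.trdeg R (Polynomial A) = 1 := by
    rw [← h2, hd] at h1
    exact Cardinal.eq_of_add_eq_add_left h1 hfin
  -- Step 1: an element of `A` that is transcendental over `R`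
  obtain ⟨z, hz⟩ : ∃ z : A, Transcendental R (Polynomial.C z) := by
    by_contra hcon
    simp only [Transcendental, not_exists, not_not] at hcon
    let K := Subalgebra.algebraicClosure R (Polynomial A)
    have hKalg : Algebra.IsAlgebraic R K := by
      constructor
      intro x
      exact (isAlgebraic_algHom_iff K.val Subtype.coe_injective).1 x.2
    let f : A →+* K := (Polynomial.C : A →+* Polynomial A).codRestrict K.toSubring hcon
    have hfinj : Function.Injective f := by
      intro u v huv
      exact Polynomial.C_injective (congrArg Subtype.val huv)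
    have hXK : IsAlgebraic K (Polynomial.X : Polynomial A) := by
      have hφa : φ a ∈ K := isAlgebraic_algebraMap (R := R) (A := Polynomial A) a
      refine ⟨(φ a).map f - Polynomial.C ⟨φ a, hφa⟩, ?_, ?_⟩
      · intro h0
        have := congrArg (fun p => Polynomial.coeff p (φ a).natDegree) h0
        simp only [Polynomial.coeff_sub, Polynomial.coeff_map, Polynomial.coeff_C,
          Polynomial.coeff_zero, ha.ne', if_false, sub_zero] at this
        have h4 : (φ a).coeff (φ a).natDegree = 0 := hfinj (by rw [this, map_zero])
        have h5 : (φ a).leadingCoeff = 0 := h4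
        rw [h5] at hu
        exact not_isUnit_zero hu
      · rw [map_sub, Polynomial.aeval_C, Polynomial.aeval_def, Polynomial.eval₂_map]
        have h4 : (algebraMap K (Polynomial A)).comp f = Polynomial.C := by
          ext u
          rfl
        rw [h4, Polynomial.eval₂_C_X]
        exact sub_self _
    have hX : IsAlgebraic R (Polynomial.X : Polynomial A) := hXK.restrictScalars R
    have hall : Algebra.IsAlgebraic R (Polynomial A) := by
      constructor
      intro p
      have : p ∈ K := by
        induction p using Polynomial.induction_on with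
        | C c => exact hcon c
        | add p q hp hq => exact K.add_mem hp hq
        | monomial n c _ => exact K.mul_mem (hcon c) (K.pow_mem hX _)
      exact this
    rw [trdeg_eq_zero] at h3
    exact zero_ne_one h3
  -- Step 2: `A[t]` is algebraic over `R[Z]`
  let zz : Unit → Polynomial A := fun _ => Polynomial.C z
  have hzz : IsTranscendenceBasis R zz := by
    apply AlgebraicIndependent.isTranscendenceBasis_of_trdeg_le_of_finite
    · rw [algebraicIndependent_unique_type_iff]
      exact hz
    · rw [h3]
      simp
  have halg1 := hzz.isAlgebraic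
  let ev : Polynomial R →ₐ[R] Polynomial A := Polynomial.aeval (Polynomial.C z)
  let algST : Algebra (Polynomial R) (Polynomial A) := ev.toRingHom.toAlgebra
  have hev : ∀ p : Polynomial R, algebraMap (Polynomial R) (Polynomial A) p =
    Polynomial.aeval (Polynomial.C z) p := fun p => rfl
  have tow2 : IsScalarTower R (Polynomial R) (Polynomial A) :=
    IsScalarTower.of_algebraMap_eq' ev.comp_algebraMap.symm
  have tow3 : IsScalarTower ℂ (Polynomial R) (Polynomial A) := by
    apply IsScalarTower.of_algebraMap_eq
    intro x
    rw [IsScalarTower.algebraMap_apply ℂ R (Polynomial R), ← IsScalarTower.algebraMap_apply R,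
      ← IsScalarTower.algebraMap_apply ℂ R]
  have hinj : Function.Injective (algebraMap (Polynomial R) (Polynomial A)) :=
    transcendental_iff_injective.1 hz
  have hft : Algebra.FiniteType (Polynomial R) (Polynomial A) :=
    Algebra.FiniteType.of_restrictScalars_finiteType ℂ (Polynomial R) (Polynomial A)
  have halg2 : Algebra.IsAlgebraic (Polynomial R) (Polynomial A) := by
    have hrange : Set.range zz = {Polynomial.C z} := by
      simp [zz]
    let f : Polynomial R →+* Algebra.adjoin R (Set.range zz) :=
      (ev.codRestrict (Algebra.adjoin R (Set.range zz)) (fun p => by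
        rw [hrange, Algebra.adjoin_singleton_eq_range_aeval]
        exact ⟨p, rfl⟩)).toRingHom
    refine Algebra.IsAlgebraic.of_ringHom_of_comp_eq (S := Algebra.adjoin R (Set.range zz))
      (B := Polynomial A) f (RingHom.id (Polynomial A)) ?_ Function.injective_id ?_
    · rintro ⟨y, hy⟩
      have hy' := hy
      rw [hrange, Algebra.adjoin_singleton_eq_range_aeval] at hy'
      obtain ⟨p, hp⟩ := hy'
      exact ⟨p, Subtype.ext hp⟩
    · ext <;> rfl
  -- Step 3: choose a good value
  obtain ⟨h, hh0, hh⟩ := exists_prime_over_generic hinj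
  obtain ⟨c, hc⟩ : ∃ c : ℂ, h.eval (algebraMap ℂ R c) ≠ 0 := by
    by_contra hcon
    push Not at hcon
    apply hh0
    apply Polynomial.eq_zero_of_infinite_isRoot
    apply (Set.infinite_range_of_injective
      (FaithfulSMul.algebraMap_injective ℂ R)).mono
    rintro _ ⟨c, rfl⟩
    exact hcon c
  obtain ⟨Q, hQ, hQ'⟩ := hh (RingHom.ker (Polynomial.evalRingHom (algebraMap ℂ R c)))
    (RingHom.ker_isPrime _) (by simpa [RingHom.mem_ker] using hc)
  have hmemQ : ∀ p : Polynomial R, Polynomial.aeval (Polynomial.C z) p ∈ Q ↔
      p.eval (algebraMap ℂ R c) = 0 := by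
    intro p
    rw [← hev, ← Ideal.mem_comap, hQ']
    simp [RingHom.mem_ker]
  let P : Ideal A := Q.comap Polynomial.C
  have hP : P.IsPrime := Ideal.comap_isPrime _ _
  let w : A := z - algebraMap ℂ A c
  have hwP : w ∈ P := by
    change Polynomial.C w ∈ Q
    have h6 : Polynomial.C w = Polynomial.aeval (Polynomial.C z)
        (Polynomial.X - Polynomial.C (algebraMap ℂ R c)) := by
      have h6' : Polynomial.aeval (Polynomial.C z)
        (Polynomial.X - Polynomial.C (algebraMap ℂ R c)) =
          Polynomial.C z - algebraMap R (Polynomial A) (algebraMap ℂ R c) := by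
        simp
      rw [h6', Polynomial.C_sub, ← IsScalarTower.algebraMap_apply]
      rfl
    rw [h6, hmemQ]
    simp
  have hw0 : w ≠ 0 := by
    intro h0
    apply hz
    have : z = algebraMap ℂ A c := sub_eq_zero.1 h0
    rw [this]
    have h7 : Polynomial.C (algebraMap ℂ A c) =
        algebraMap R (Polynomial A) (algebraMap ℂ R c) := by
      rw [← IsScalarTower.algebraMap_apply]
      rfl
    rw [h7]
    exact isAlgebraic_algebraMap _
  let ψ : R →ₐ[ℂ] Polynomial (A ⧸ P) :=
    (Polynomial.mapAlgHom (Ideal.Quotient.mkₐ ℂ P)).comp φ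
  have hψ : Function.Injective ψ := by
    rw [injective_iff_map_eq_zero]
    intro r hr
    have h8 : φ r ∈ P.map (Polynomial.C : A →+* Polynomial A) := by
      rw [Ideal.mem_map_C_iff]
      intro n
      have := congrArg (fun p => Polynomial.coeff p n) hr
      simp only [Polynomial.coeff_zero] at this
      have h9 : (ψ r).coeff n = Ideal.Quotient.mk P ((φ r).coeff n) := by
        simp [ψ]
      rw [h9] at this
      exact Ideal.Quotient.eq_zero_iff_mem.1 this
    have h9 : φ r ∈ Q := Ideal.map_comap_le h8
    have h10 : φ r = Polynomial.aeval (Polynomial.C z) (Polynomial.C r) := by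
      rw [Polynomial.aeval_C]
      rfl
    rw [h10, hmemQ] at h9
    simpa using h9
  have hψa : 0 < (ψ a).natDegree := by
    have : (ψ a) = (φ a).map (Ideal.Quotient.mk P) := by
      simp [ψ]
      rfl
    rw [this, Polynomial.natDegree_map_of_leadingCoeff_ne_zero]
    · exact ha
    · exact (hu.map (Ideal.Quotient.mk P)).ne_zero
  refine ⟨P, hP, ?_, hψ, hψa⟩
  apply le_antisymm
  · rw [← hd]
    exact trdeg_quotient_add_one_le P w hwP hw0
  · have h11 : Algebra.trdeg ℂ (A ⧸ P) + Algebra.trdeg (A ⧸ P) (Polynomial (A ⧸ P)) =
      Algebra.trdeg ℂ (Polynomial (A ⧸ P)) := trdeg_add_eq ℂ (A ⧸ P)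
    rw [Polynomial.trdeg_of_isDomain] at h11
    rw [h11]
    exact trdeg_le_of_injective ψ hψ

end Pool.Agent.PC
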