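import Pool.Agent.Lib.MP_410da7_ag.T1Defs
import Pool.Agent.Lib.MP_410da7_ag.Omega
import Pool.Agent.Lib.MP_410da7_ag.Curve

/-!
# Punctured cones: definitions

`V = {f₁ = ⋯ = f_r = 0} ⊆ 𝔸^N` is a quasi-smooth weighted homogeneous complete intersection and
`X = V ∖ {0}`. The function field of `V` is `K`, with coordinate functions `x`.
-/

set_option autoImplicit false

namespace Pool.Agent.PC

open MvPolynomial KaehlerDifferential WithZero Pool.Agent.Lib.MP_410da7_ag

/-- `V = {f₁ = ⋯ = f_r = 0} ⊆ 𝔸^N` is a quasi-smooth weighted complete intersection cone for the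
weights `w` and the degrees `d`: the weights are positive without common divisor, `f_k` is weighted
homogeneous of degree `d_k` without linear terms, `V` is smooth (in the sense of the Jacobian
criterion) at every point except `0`, and `N - r ≥ 2`. -/
structure QuasiSmooth {N r : ℕ} (w : Fin N → ℕ) (d : Fin r → ℕ)
    (f : Fin r → MvPolynomial (Fin N) ℂ) : Prop where
  two_le : r + 2 ≤ N
  pos : ∀ i, 0 < w i
  gcd : Finset.univ.gcd w = 1
  homog : ∀ k, (f k).IsWeightedHomogeneous w (d k)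
  noLinear : ∀ k, ∀ e ∈ (f k).support, 2 ≤ e.degree
  smooth : ∀ u : Fin N → ℂ, u ≠ 0 → (∀ k, eval u (f k) = 0) →
    LinearIndependent ℂ (fun (k : Fin r) (l : Fin N) => eval u (pderiv l (f k)))

section field

variable {N r : ℕ} {K : Type} [Field K] [Algebra ℂ K]

/-- `K` is the function field of the irreducible and reduced variety `V = {f₁ = ⋯ = f_r = 0}`, and
`x` is the family of its coordinate functions: the polynomials that vanish at `x` are those in the
ideal of the `f_k`, and `K` is generated by the `x_i` as a field. -/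
structure IsFunctionField (f : Fin r → MvPolynomial (Fin N) ℂ) (x : Fin N → K) : Prop where
  zero : ∀ k, aeval x (f k) = 0
  ker : ∀ P : MvPolynomial (Fin N) ℂ, aeval x P = 0 → P ∈ Ideal.span (Set.range f)
  gen : ∀ a : K, ∃ P Q : MvPolynomial (Fin N) ℂ, aeval x Q ≠ 0 ∧ a * aeval x Q = aeval x P

/-- The coordinate rings `ℂ[x₁,…,x_N,1/x_i] ⊆ K` of the affine open sets `{x_i ≠ 0}` of `V`. They
cover `X = V ∖ {0}`. -/
def charts (x : Fin N → K) (i : Fin N) : Subalgebra ℂ K :=
  Algebra.adjoin ℂ (Set.range x ∪ {(x i)⁻¹})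

/-- `Ψ` describes the residue form `ω` of `V` (the top form with `df₁ ∧ ⋯ ∧ df_r ∧ ω =
± dx₁ ∧ ⋯ ∧ dx_N`): `θ₁ ∧ ⋯ ∧ θ_n = Ψ (θ₁,…,θ_n) ω`. The bijection `σ` only determines the sign. -/
def IsResidueForm (f : Fin r → MvPolynomial (Fin N) ℂ) (x : Fin N → K) {n : ℕ}
    (σ : Fin r ⊕ Fin n ≃ Fin N) (Ψ : Ω[K⁄ℂ] [⋀^Fin n]→ₗ[K] K) : Prop :=
  ∀ ξ : Fin n → Fin N → K, Ψ (fun i => dmap x (ξ i)) =
    Matrix.det (Matrix.of fun i j => Sum.elim (fun k => grad x (f k)) ξ i (σ j))

/-- Every `ℤ`-valued valuation `v` of `K / ℂ` with center `0 ∈ V` (`v (x_i) < 1` in multiplicative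
notation) has discrepancy at least `0`, and at least `1` unless the values of the coordinates are
proportional to the weights: `ω = G θ₁ ∧ ⋯ ∧ θ_n` for differentials `θ_i` that are regular at `v`
and some `G` (the inverse of `Ψ θ`) in the valuation ring, respectively in its maximal ideal. -/
def AlmostTerminal (w : Fin N → ℕ) (f : Fin r → MvPolynomial (Fin N) ℂ) (x : Fin N → K) : Prop :=
  ∀ (n : ℕ) (σ : Fin r ⊕ Fin n ≃ Fin N) (Ψ : Ω[K⁄ℂ] [⋀^Fin n]→ₗ[K] K), IsResidueForm f x σ Ψ →
    ∀ v : Valuation K ℤᵐ⁰, (∀ c : ℂ, c ≠ 0 → v (algebraMap ℂ K c) = 1) → (∀ i, v (x i) < 1) →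
      ∃ θ : Fin n → Ω[K⁄ℂ], (∀ i, θ i ∈ regDiff v) ∧ 1 ≤ v (Ψ θ) ∧
        ((∃ i j, v (x i) ^ w j ≠ v (x j) ^ w i) → 1 < v (Ψ θ))

end field

section curves

variable {N r : ℕ} {L : Type} [Field L] [Algebra ℂ L]

/-- `γ` is a polynomial curve on `V = {f = 0}` with `γ(0) = p`. -/
structure IsCurve (f : Fin r → MvPolynomial (Fin N) ℂ) (p : Fin N → L)
    (γ : Fin N → Polynomial L) : Prop where
  zero : ∀ i, (γ i).eval 0 = p i
  mem : ∀ k, aeval γ (f k) = 0

/-- The curve `γ` through `p` is trivial: it lies on the closure of the orbit of `p`, that is,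
`(γ_i / p_i)^(w_j) = (γ_j / p_j)^(w_i)`. -/
def IsTriv (w : Fin N → ℕ) (p : Fin N → L) (γ : Fin N → Polynomial L) : Prop :=
  ∀ i j, Polynomial.C (p j ^ w i) * γ i ^ w j = Polynomial.C (p i ^ w j) * γ j ^ w i

/-- `γ` is a curve `𝔸¹ → V ∖ {0}` through `p`, not constant: the `γ_i` generate the unit ideal. -/
structure IsGood (f : Fin r → MvPolynomial (Fin N) ℂ) (p : Fin N → L)
    (γ : Fin N → Polynomial L) : Prop where
  curve : IsCurve f p γ
  span : Ideal.span (Set.range γ) = ⊤
  pos : ∃ i, 0 < (γ i).natDegree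

end curves

section system

variable {N r : ℕ}

/-- Index set of the coefficients of curves of degree `≤ k w_i`: `(i, j)` stands for the coefficient
of `t^(j+1)` of the `i`-th coordinate. -/
abbrev Sg (w : Fin N → ℕ) (k : ℕ) : Type := Σ i : Fin N, Fin (k * w i)

/-- Index set of the equations: `(l, n)` stands for the coefficient of `t^(n+1)` of `f_l(x(t))`. -/
abbrev Eg (d : Fin r → ℕ) (k : ℕ) : Type := Σ l : Fin r, Fin (k * d l)

/-- the weight of the coefficient of `t^(j+1)` -/
def wt {w : Fin N → ℕ} {k : ℕ} (q : Sg w k) : ℕ := q.2.1 + 1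

/-- the weight of the equation given by the coefficient of `t^(n+1)` -/
def dg {d : Fin r → ℕ} {k : ℕ} (q : Eg d k) : ℕ := q.2.1 + 1

/-- the curve with coefficients `a` and `γ(0) = p` -/
noncomputable abbrev cur (w : Fin N → ℕ) (k : ℕ) {B : Type} [CommRing B] (p : Fin N → B)
    (a : Sg w k → B) : Fin N → Polynomial B :=
  curvePoly (fun i => k * w i) p a

/-- The equations for the coefficients of the curve: coefficients of `f_l(x(t))`. -/
noncomputable def sysE (w : Fin N → ℕ) (d : Fin r → ℕ) (f : Fin r → MvPolynomial (Fin N) ℂ) (k : ℕ)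
    {L : Type} [Field L] [Algebra ℂ L] (p : Fin N → L) (q : Eg d k) : MvPolynomial (Sg w k) L :=
  (aeval (cur w k (fun i => (C (p i) : MvPolynomial (Sg w k) L)) X) (f q.1)).coeff (q.2.1 + 1)

end system

section minors

variable {N r n : ℕ}

/-- The minor `det(∂f_k/∂x_l ; e_{ι i})` of the Jacobian matrix complementary to `ι`. -/
noncomputable def minorP (f : Fin r → MvPolynomial (Fin N) ℂ) (σ : Fin r ⊕ Fin n ≃ Fin N)
    (ι : Fin n → Fin N) : MvPolynomial (Fin N) ℂ :=
  Matrix.det (Matrix.of fun i j =>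
    Sum.elim (fun (k : Fin r) (l : Fin N) => pderiv l (f k))
      (fun (i : Fin n) (l : Fin N) => if l = ι i then 1 else 0) i (σ j))

end minors

end Pool.Agent.PC
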