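import Pool.Agent.Lib.MP_410da7_agP.Spec2

/-!
# INT: integrality of the rescaled coefficients over `L[ε]`
-/

set_option autoImplicit false

namespace Pool.Agent.PC.IntM

open Polynomial

theorem coeff_trinomial {R : Type} [CommRing R] (y : R) (w n : ℕ) :
    ((1 + X + C y * X ^ 2 : R[X]) ^ w).coeff n = ∑ k ∈ Finset.range (w + 1),
      (if 2 * k ≤ n then ((w.choose k * (w - k).choose (n - 2 * k) : ℕ) : R) else 0) * y ^ k := by
  have e : (1 + X + C y * X ^ 2 : R[X]) = C y * X ^ 2 + (1 + X) := by ring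
  rw [e, add_pow, Polynomial.finsetSum_coeff]
  refine Finset.sum_congr rfl fun k _ => ?_
  have e2 : (C y * X ^ 2 : R[X]) ^ k * (1 + X) ^ (w - k) * (w.choose k : R[X]) =
      C (y ^ k * (w.choose k : R)) * (X ^ (2 * k) * (1 + X) ^ (w - k)) := by
    rw [mul_pow, ← C_pow, ← pow_mul, C_mul, map_natCast]
    ring
  rw [e2, coeff_C_mul, coeff_X_pow_mul']
  by_cases h : 2 * k ≤ n
  · rw [if_pos h, if_pos h, coeff_one_add_X_pow]
    push_cast
    ring
  · rw [if_neg h, if_neg h]
    ring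

theorem integral_coeff {A R : Type} [CommRing A] [CommRing R] [Algebra A R] {e e' θ pb : R}
    (hee : e' * e = 1) (he : IsIntegral A e) (hθ : IsIntegral A θ) (hp : IsIntegral A pb)
    (w n : ℕ) :
    IsIntegral A (e' ^ (n - w) * (C pb * (1 + X + C (e * θ) * X ^ 2 : R[X]) ^ w).coeff n) := by
  rw [coeff_C_mul, coeff_trinomial, ← mul_assoc, Finset.mul_sum]
  refine IsIntegral.sum _ fun k hk => ?_
  rw [Finset.mem_range] at hk
  have hcast : ∀ c : ℕ, IsIntegral A (c : R) := fun c => by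
    rw [← map_natCast (algebraMap A R) c]
    exact isIntegral_algebraMap
  by_cases h1 : 2 * k ≤ n
  · rw [if_pos h1]
    by_cases h2 : n - w ≤ k
    · have e1 : e' ^ (n - w) * pb * (((w.choose k * (w - k).choose (n - 2 * k) : ℕ) : R) *
          (e * θ) ^ k) = pb * ((w.choose k * (w - k).choose (n - 2 * k) : ℕ) : R) *
            (e ^ (k - (n - w)) * θ ^ k) := by
        have e2 : e ^ k = e ^ (n - w) * e ^ (k - (n - w)) := by
          rw [← pow_add]
          congr 1
          omega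
        have e3 : e' ^ (n - w) * e ^ (n - w) = 1 := by
          rw [← mul_pow, hee, one_pow]
        rw [mul_pow, e2]
        linear_combination (pb * ((w.choose k * (w - k).choose (n - 2 * k) : ℕ) : R) *
          (e ^ (k - (n - w)) * θ ^ k)) * e3
      rw [e1]
      exact (hp.mul (hcast _)).mul ((he.pow _).mul (hθ.pow _))
    · have e1 : (w - k).choose (n - 2 * k) = 0 := Nat.choose_eq_zero_of_lt (by omega)
      rw [e1, mul_zero, Nat.cast_zero, zero_mul, mul_zero]
      exact isIntegral_zero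
  · rw [if_neg h1, zero_mul, mul_zero]
    exact isIntegral_zero

theorem integral_of_nilp {A R : Type} [CommRing A] [CommRing R] [Algebra A R] {x : R} {M : ℕ}
    (h : x ^ (M + 1) = 0) : IsIntegral A x := by
  refine IsIntegral.of_pow (Nat.succ_pos M) ?_
  rw [h]
  exact isIntegral_zero

theorem core {A R : Type} [CommRing A] [CommRing R] [Algebra A R] {e e' θ : R}
    (hee : e' * e = 1) {pb pc : R} (hpc : pc * pb = 1) {W : ℕ} (hW : 0 < W)
    {M : ℕ} (h : (e ^ W * pb - (C pb * (1 + X + C (e * θ) * X ^ 2 : R[X]) ^ W).coeff (2 * W)) ^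
      (M + 1) = 0) : IsIntegral A θ := by
  have e1 : (C pb * (1 + X + C (e * θ) * X ^ 2 : R[X]) ^ W).coeff (2 * W) =
      pb * (e * θ) ^ W := by
    rw [coeff_C_mul, coeff_trinomial, Finset.sum_eq_single W]
    · rw [if_pos le_rfl, Nat.choose_self, Nat.sub_self, Nat.sub_self, Nat.choose_self]
      simp
    · intro k hk hkW
      rw [Finset.mem_range] at hk
      by_cases h1 : 2 * k ≤ 2 * W
      · rw [if_pos h1, Nat.choose_eq_zero_of_lt (by omega : W - k < 2 * W - 2 * k), mul_zero,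
          Nat.cast_zero, zero_mul]
      · rw [if_neg h1, zero_mul]
    · intro hk
      exact absurd (Finset.mem_range.2 (Nat.lt_succ_self W)) hk
  rw [e1] at h
  have e2 : (1 - θ ^ W) ^ (M + 1) = 0 := by
    have e3 : 1 - θ ^ W = pc * e' ^ W * (e ^ W * pb - pb * (e * θ) ^ W) := by
      have e4 : e' ^ W * e ^ W = 1 := by rw [← mul_pow, hee, one_pow]
      rw [mul_pow]
      linear_combination (-(1 - θ ^ W)) * hpc - (pc * pb * (1 - θ ^ W)) * e4
    rw [e3, mul_pow, h, mul_zero]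
  have h1 : IsIntegral A (1 - θ ^ W) := integral_of_nilp e2
  have h2 : IsIntegral A (θ ^ W) := by
    have := isIntegral_one.sub h1
    rwa [sub_sub_cancel] at this
  exact IsIntegral.of_pow hW h2

end Pool.Agent.PC.IntM

namespace Pool.Agent.PC

open MvPolynomial

theorem stmtInt (hN : StmtNil) : StmtInt := by
  intro N r w d f hw hf L _ _ _ p hp hfp hAll q0 q1 h01 h0 h1 J hJ q
  obtain ⟨θ₁, θ₂, M, hθ, hM⟩ := hN N r w d f hw hf L p hp hfp hAll q0 h0
  -- the ring and its elements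
  obtain ⟨φ, hφ⟩ : ∃ φ : MvPolynomial (Sg w 2) (RatFunc L) →+*
      (MvPolynomial (Sg w 2) (RatFunc L) ⧸ J), φ = Ideal.Quotient.mk J := ⟨_, rfl⟩
  obtain ⟨ψ, hψ⟩ : ∃ ψ : MvPolynomial (Sg w 2) L →+* (MvPolynomial (Sg w 2) (RatFunc L) ⧸ J),
      ψ = φ.comp (map (algebraMap L (RatFunc L))) := ⟨_, rfl⟩
  have hψX : ∀ s, ψ (X s) = φ (X s) := fun s => by
    rw [hψ, RingHom.comp_apply, map_X]
  have hψC : ∀ c, ψ (C c) = φ (C (algebraMap L (RatFunc L) c)) := fun c => by
    rw [hψ, RingHom.comp_apply, map_C]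
  have hφJ : ∀ x ∈ J, φ x = 0 := fun x hx => by
    rw [hφ]; exact Ideal.Quotient.eq_zero_iff_mem.2 hx
  have hψE : ∀ x ∈ Ideal.span (Set.range (sysE w d f 2 p)), ψ x = 0 := by
    intro x hx
    have hle : Ideal.span (Set.range (sysE w d f 2 p)) ≤ RingHom.ker ψ := by
      rw [Ideal.span_le]
      rintro _ ⟨s, rfl⟩
      show ψ _ = 0
      rw [hψ, RingHom.comp_apply]
      refine hφJ _ ?_
      rw [hJ]
      exact Ideal.subset_span (Or.inl ⟨s, rfl⟩)
    exact hle hx
  have hint : ∀ g : Polynomial L,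
      IsIntegral (Polynomial L) (φ (C (algebraMap (Polynomial L) (RatFunc L) g))) := by
    intro g
    have e : φ (C (algebraMap (Polynomial L) (RatFunc L) g)) =
        algebraMap (Polynomial L) (MvPolynomial (Sg w 2) (RatFunc L) ⧸ J) g := by
      rw [hφ]
      rfl
    rw [e]
    exact isIntegral_algebraMap
  have hintL : ∀ c : L, IsIntegral (Polynomial L) (φ (C (algebraMap L (RatFunc L) c))) := by
    intro c
    have e : algebraMap L (RatFunc L) c =
        algebraMap (Polynomial L) (RatFunc L) (Polynomial.C c) := by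
      rw [RatFunc.algebraMap_C]
      rfl
    rw [e]
    exact hint _
  have hchar : CharZero L := charZero_of_injective_algebraMap (algebraMap ℂ L).injective
  have hεne : (RatFunc.X : RatFunc L) ≠ 0 := RatFunc.X_ne_zero
  have hee : φ (C (RatFunc.X : RatFunc L)⁻¹) * φ (C RatFunc.X) = 1 := by
    rw [← map_mul, ← C_mul, inv_mul_cancel₀ hεne, C_1, map_one]
  have he : IsIntegral (Polynomial L) (φ (C (RatFunc.X : RatFunc L))) := by
    rw [← RatFunc.algebraMap_X]
    exact hint _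
  have hWne : (w q0.1 : L) * p q0.1 ≠ 0 :=
    mul_ne_zero (Nat.cast_ne_zero.2 (hw _).ne') (hp _)
  -- `θ₁` is `1`
  have hθ1 : ψ θ₁ = 1 := by
    have h2 : ψ (C ((w q0.1 : L) * p q0.1)) * ψ θ₁ = ψ (C ((w q0.1 : L) * p q0.1)) := by
      rw [← map_mul, hθ, hψX, hψC]
      have h3 : φ (X q0 - C (algebraMap L (RatFunc L) ((w q0.1 : L) * p q0.1))) = 0 := by
        refine hφJ _ ?_
        rw [hJ]
        exact Ideal.subset_span (Or.inr (Or.inl rfl))
      rw [map_sub] at h3
      exact sub_eq_zero.1 h3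
    have h3 : ψ (C ((w q0.1 : L) * p q0.1)⁻¹) * ψ (C ((w q0.1 : L) * p q0.1)) = 1 := by
      rw [← map_mul, ← C_mul, inv_mul_cancel₀ hWne, C_1, map_one]
    calc ψ θ₁ = (ψ (C ((w q0.1 : L) * p q0.1)⁻¹) * ψ (C ((w q0.1 : L) * p q0.1))) * ψ θ₁ := by
          rw [h3, one_mul]
      _ = ψ (C ((w q0.1 : L) * p q0.1)⁻¹) * ψ (C ((w q0.1 : L) * p q0.1)) := by
          rw [mul_assoc, h2]
      _ = 1 := h3
  -- the nilpotent differences
  obtain ⟨θ, hθd⟩ : ∃ θ, θ = φ (C (RatFunc.X : RatFunc L)⁻¹) * ψ θ₂ := ⟨_, rfl⟩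
  have hθ2 : ψ θ₂ = φ (C RatFunc.X) * θ := by
    rw [hθd, ← mul_assoc, mul_comm (φ (C RatFunc.X)), hee, one_mul]
  have hnil : ∀ s : Sg w 2, (φ (X s) - (Polynomial.C (φ (C (algebraMap L (RatFunc L) (p s.1)))) *
      (1 + Polynomial.X + Polynomial.C (φ (C RatFunc.X) * θ) * Polynomial.X ^ 2) ^
        w s.1).coeff (s.2.1 + 1)) ^ (M + 1) = 0 := by
    intro s
    have h2 := hψE _ (hM s)
    have e : ψ (X s - (Polynomial.C (C (p s.1)) * (1 + Polynomial.C θ₁ * Polynomial.X +
        Polynomial.C θ₂ * Polynomial.X ^ 2) ^ w s.1).coeff (s.2.1 + 1)) =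
        φ (X s) - (Polynomial.C (φ (C (algebraMap L (RatFunc L) (p s.1)))) *
      (1 + Polynomial.X + Polynomial.C (φ (C RatFunc.X) * θ) * Polynomial.X ^ 2) ^
        w s.1).coeff (s.2.1 + 1) := by
      rw [map_sub, hψX, ← Polynomial.coeff_map]
      congr 2
      simp only [Polynomial.map_mul, Polynomial.map_pow, Polynomial.map_add, Polynomial.map_one,
        Polynomial.map_C, Polynomial.map_X, hθ1, hθ2, hψC, Polynomial.C_1, one_mul]
    rw [map_pow, e] at h2
    rw [pow_succ, h2, zero_mul]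
  -- `θ` is integral
  have hθi : IsIntegral (Polynomial L) θ := by
    have h2 := hnil q1
    rw [h1] at h2
    have h3 : φ (X q1) = φ (C RatFunc.X) ^ w q1.1 * φ (C (algebraMap L (RatFunc L) (p q1.1))) := by
      have h3 : φ (X q1 - C (RatFunc.X ^ w q1.1 * algebraMap L (RatFunc L) (p q1.1))) = 0 := by
        refine hφJ _ ?_
        rw [hJ]
        exact Ideal.subset_span (Or.inr (Or.inr rfl))
      rw [map_sub, C_mul, C_pow, map_mul, map_pow] at h3
      exact sub_eq_zero.1 h3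
    rw [h3] at h2
    refine IntM.core hee (pc := φ (C (algebraMap L (RatFunc L) (p q1.1)⁻¹))) ?_ (hw _) h2
    rw [← map_mul, ← C_mul, ← map_mul, inv_mul_cancel₀ (hp _), map_one, C_1, map_one]
  -- conclusion
  have h4 := IntM.integral_coeff hee he hθi (hintL (p q.1)) (w q.1) (q.2.1 + 1)
  have h5 : IsIntegral (Polynomial L) (φ (C (RatFunc.X : RatFunc L)⁻¹) ^ (q.2.1 + 1 - w q.1) *
      (φ (X q) - (Polynomial.C (φ (C (algebraMap L (RatFunc L) (p q.1)))) *
      (1 + Polynomial.X + Polynomial.C (φ (C RatFunc.X) * θ) * Polynomial.X ^ 2) ^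
        w q.1).coeff (q.2.1 + 1))) := by
    refine IntM.integral_of_nilp (M := M) ?_
    rw [mul_pow, hnil q, mul_zero]
  have h6 := h5.add h4
  rw [← mul_add, sub_add_cancel] at h6
  rw [C_pow, ← hφ, map_mul, map_pow]
  exact h6

end Pool.Agent.PC
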