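import Pool.Agent.Lib.MP_410da7_agP.Spec3
import Pool.Agent.Lib.MP_410da7_ag.T1Neg

/-!
# Package `P` (punctured cones): the main theorem
-/

set_option autoImplicit false

namespace Pool.Agent.PC

open MvPolynomial KaehlerDifferential WithZero Pool.Agent.Lib.MP_410da7_ag

namespace MaiM

/-- coefficient of `t` of a power -/
theorem coeff_one_pow {L : Type} [Field L] (A : Polynomial L) (h : A.coeff 0 = 1) (n : ℕ) :
    (A ^ n).coeff 1 = (n : L) * A.coeff 1 := by
  have h1 := Polynomial.coeff_derivative (A ^ n) 0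
  have h2 := Polynomial.coeff_derivative A 0
  simp only [Nat.cast_zero, zero_add, mul_one] at h1 h2
  rw [← h1, ← h2, Polynomial.derivative_pow, Polynomial.mul_coeff_zero, Polynomial.mul_coeff_zero,
    Polynomial.coeff_zero_eq_eval_zero (A ^ (n - 1)), Polynomial.eval_pow,
    ← Polynomial.coeff_zero_eq_eval_zero, h, one_pow, mul_one, Polynomial.coeff_C_zero]

/-- a nontrivial curve of degree `≤ w_i` in index at least two -/
theorem exists_nontriv (hS : StmtSys) (hT : StmtTrA) {N r : ℕ} (w : Fin N → ℕ) (d : Fin r → ℕ)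
    (f : Fin r → MvPolynomial (Fin N) ℂ) (hV : QuasiSmooth w d f)
    (h2 : ∑ k, d k + 2 ≤ ∑ i, w i) {L : Type} [Field L] [IsAlgClosed L] [Algebra ℂ L]
    (p : Fin N → L) (hp : ∀ i, p i ≠ 0) (hf : ∀ k, aeval p (f k) = 0) :
    ∃ γ : Fin N → Polynomial L, IsCurve f p γ ∧ ¬ IsTriv w p γ ∧
      ∀ i, (γ i).natDegree ≤ 1 * w i := by
  classical
  have : CharZero L := charZero_of_injective_algebraMap (algebraMap ℂ L).injective
  have hN : 0 < N := by have := hV.two_le; omega
  let i0 : Fin N := ⟨0, hN⟩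
  have hw0 := hV.pos i0
  let q0 : Sg w 1 := ⟨i0, ⟨0, by omega⟩⟩
  obtain ⟨-, -, h3⟩ := hS N r w d f hV.homog 1 L p
  have h3' := fun a => h3 L a hf
  simp only [Algebra.algebraMap_self, RingHom.id_apply] at h3'
  let P : Eg d 1 ⊕ Unit → MvPolynomial (Sg w 1) L :=
    Sum.elim (sysE w d f 1 p) (fun _ => X q0)
  have hcard : Fintype.card (Eg d 1 ⊕ Unit) < Fintype.card (Sg w 1) := by
    rw [Fintype.card_sum, Fintype.card_sigma, Fintype.card_sigma]
    simp only [Fintype.card_fin, one_mul, Fintype.card_unit]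
    omega
  have hcur0 : cur w 1 p (0 : Sg w 1 → L) = fun i => Polynomial.C (p i) := by
    funext i
    simp [cur, curvePoly]
  obtain ⟨a, ha0, ha⟩ := exists_common_zero hcard P (by
    rintro (q | q)
    · have h4 := (h3' 0).mpr (by
        intro l
        rw [hcur0]
        have h5 : aeval (fun i => Polynomial.C (p i)) (f l) = Polynomial.C (aeval p (f l)) := by
          have := MvPolynomial.aeval_algebraMap_apply (A := L) (B := Polynomial L) p (f l)
          simpa [Function.comp_def] using this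
        rw [h5, hf, map_zero]) q
      simpa [P, MvPolynomial.aeval_eq_eval] using h4
    · simp [P])
  have hsys : ∀ q : Eg d 1, aeval a (sysE w d f 1 p q) = 0 := by
    intro q
    have := ha (Sum.inl q)
    simpa [P, MvPolynomial.aeval_eq_eval] using this
  have hmem := (h3' a).mp hsys
  have hq0 : a q0 = 0 := by
    have := ha (Sum.inr ())
    simpa [P] using this
  have hγ0 : ∀ i, (cur w 1 p a i).eval 0 = p i := fun i => curvePoly_eval_zero _ _ _ _
  refine ⟨cur w 1 p a, ⟨hγ0, hmem⟩, ?_, fun i => curvePoly_natDegree_le _ _ _ _⟩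
  intro htriv
  obtain ⟨A, hA0, hA⟩ := hT N w hV.pos hV.gcd L p hp (cur w 1 p a) hγ0 htriv
  have hAc : A.coeff 0 = 1 := by rw [Polynomial.coeff_zero_eq_eval_zero, hA0]
  have hA1 : A.natDegree ≤ 1 := by
    have h5 : (cur w 1 p a i0).natDegree ≤ 1 * w i0 := curvePoly_natDegree_le _ _ _ _
    rw [hA, Polynomial.natDegree_C_mul (hp i0), Polynomial.natDegree_pow, mul_comm] at h5
    exact Nat.le_of_mul_le_mul_right h5 hw0
  have hc1 : (cur w 1 p a i0).coeff 1 = 0 := by
    have h5 := curvePoly_coeff (fun i => 1 * w i) p a i0 ⟨0, by omega⟩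
    rw [← hq0]
    simpa [cur, q0] using h5
  have hτ : A.coeff 1 = 0 := by
    rw [hA, Polynomial.coeff_C_mul, coeff_one_pow A hAc] at hc1
    rcases mul_eq_zero.mp hc1 with h | h
    · exact absurd h (hp i0)
    · rcases mul_eq_zero.mp h with h' | h'
      · exact absurd h' (Nat.cast_ne_zero.mpr hw0.ne')
      · exact h'
  have hA' : A = 1 := by
    rw [Polynomial.eq_X_add_C_of_natDegree_le_one hA1, hτ, hAc]
    simp
  apply ha0
  funext q
  have h5 := curvePoly_coeff (fun i => 1 * w i) p a q.1 q.2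
  have h6 : cur w 1 p a q.1 = Polynomial.C (p q.1) := by rw [hA, hA']; simp
  have h7 : (cur w 1 p a q.1).coeff (q.2.1 + 1) = a q := h5
  rw [← h7, h6, Polynomial.coeff_C_of_ne_zero (by omega)]
  rfl

end MaiM

theorem stmtMai (hS : StmtSys) (hD : StmtDim) (hK : StmtKod) (hSp : StmtSpread) (hA : StmtCaA)
    (hB : StmtCaB) (hO : StmtOne) (hT : StmtTrA) : StmtMai := by
  intro N r w d f hV K _ _ x hx hyp
  obtain ⟨hx0, -, n, hn, htr, -⟩ := hD N r w d f hV K x hx
  have hNr : N - r = n := by omega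
  have h31 : ∑ k, d k < ∑ i, w i → A1UniruledOn (charts x) := by
    intro hlt
    let L := AlgebraicClosure K
    let p : Fin N → L := fun i => algebraMap K L (x i)
    have hp : ∀ i, p i ≠ 0 := fun i =>
      (map_ne_zero_iff _ (algebraMap K L).injective).mpr (hx0 i)
    have hf : ∀ k, aeval p (f k) = 0 := by
      intro k
      have h1 := MvPolynomial.aeval_algebraMap_apply (A := K) (B := L) x (f k)
      rw [hx.zero, map_zero] at h1
      exact h1
    have hgood : (∃ (F : Type) (_ : Field F) (_ : Algebra ℂ F) (φ : K →ₐ[ℂ] F)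
        (γ' : Fin N → Polynomial F), IsGood f (fun i => φ (x i)) γ') →
        A1UniruledOn (charts x) := by
      rintro ⟨F, _, _, φ, γ', h⟩
      exact hSp N r f K x hx F φ γ' h
    rcases hyp with h | ⟨e, he, i, hi⟩ | h
    · omega
    · obtain ⟨γ, hγ⟩ := hA N r w d f hV hlt e i he hi L p hp hf
      exact hgood ⟨L, inferInstance, inferInstance, IsScalarTower.toAlgHom ℂ K L, γ, hγ⟩
    · have hk : ∃ (k : ℕ) (γ : Fin N → Polynomial L), IsCurve f p γ ∧ ¬ IsTriv w p γ ∧
          ∀ i, (γ i).natDegree ≤ k * w i := by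
        rcases Nat.lt_or_ge (∑ i, w i) (∑ k, d k + 2) with h1 | h1
        · obtain ⟨γ, h2⟩ := hO N r w d f hV (by omega) L p hp hf
          exact ⟨2, γ, h2⟩
        · obtain ⟨γ, h2⟩ := MaiM.exists_nontriv hS hT w d f hV h1 p hp hf
          exact ⟨1, γ, h2⟩
      obtain ⟨k, γ, h1, h2, h3⟩ := hk
      exact hgood (hB N r w d f hV K x hx h hlt.le L k γ h1 h2 h3)
  tfae_have 1 → 2 := by
    intro h
    rw [hNr]
    exact logKodairaNegInfOn_of_a1UniruledOn htr _ ((a1UniruledOn_iff _).mp h)
  tfae_have 2 → 3 := by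
    intro h
    by_contra hcon
    exact hK N r w d f hV K x hx (not_lt.mp hcon) h
  tfae_have 3 → 1 := h31
  tfae_finish

end Pool.Agent.PC
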