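import Pool.Agent.Lib.MP_410da7_agP.Spec2
import Pool.Agent.Lib.RegularUFD.Domain

/-!
# Systems of parameters of regular local rings are regular sequences
-/

set_option autoImplicit false

namespace Pool.Agent.PC

namespace RloM

open IsLocalRing Ideal Pool.Agent.Lib.RegularUFD

theorem image_succ {A : Type} (E : ℕ → A) (j : ℕ) :
    E '' {i | i < j + 1} = insert (E j) (E '' {i | i < j}) := by
  rw [← Set.image_insert_eq]
  congr 1
  ext i
  simp only [Set.mem_ofPred_eq, Set.mem_insert_iff]
  omega

/-- Local permutation argument. -/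
theorem perm {A : Type} [CommRing A] [IsLocalRing A] [IsNoetherianRing A] (n : ℕ) (E : ℕ → A)
    (y : A) (hy : y ∈ maximalIdeal A) (hy0 : ∀ z, y * z = 0 → z = 0)
    (h : ∀ j < n, ∀ z, E j * z ∈ span {y} ⊔ span (E '' {i | i < j}) →
      z ∈ span {y} ⊔ span (E '' {i | i < j})) :
    ∀ j ≤ n, (∀ i < j, ∀ z, E i * z ∈ span (E '' {l | l < i}) → z ∈ span (E '' {l | l < i})) ∧
      (∀ z, y * z ∈ span (E '' {i | i < j}) → z ∈ span (E '' {i | i < j})) := by
  intro j
  induction j with
  | zero =>
    intro _
    refine ⟨fun i hi => absurd hi (Nat.not_lt_zero i), fun z hz => ?_⟩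
    have he : (E '' {i | i < 0}) = ∅ := by
      rw [Set.image_eq_empty]
      ext i
      simp
    rw [he, span_empty] at hz ⊢
    rw [Ideal.mem_bot] at hz ⊢
    exact hy0 z hz
  | succ j ih =>
    intro hj
    obtain ⟨ih1, ih2⟩ := ih (by omega)
    have hjn := h j (by omega)
    generalize hI : span (E '' {i | i < j}) = I at ih2 hjn
    have hE : ∀ z, E j * z ∈ I → z ∈ I := by
      have hM : ∀ z, z ∈ Submodule.comap (LinearMap.mulLeft A (E j)) I ↔ E j * z ∈ I := by
        intro z
        rw [Submodule.mem_comap, LinearMap.mulLeft_apply]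
      have hle : Submodule.comap (LinearMap.mulLeft A (E j)) I ≤
          I ⊔ maximalIdeal A • Submodule.comap (LinearMap.mulLeft A (E j)) I := by
        intro z hz
        rw [hM] at hz
        obtain ⟨p, hp, v, hv, hpv⟩ := Submodule.mem_sup.1 (hjn z (Submodule.mem_sup_right hz))
        obtain ⟨a, rfl⟩ := Ideal.mem_span_singleton'.1 hp
        have h1 : y * (E j * a) ∈ I := by
          have h2 : y * (E j * a) = E j * z - E j * v := by
            rw [← hpv]
            ring
          rw [h2]
          exact I.sub_mem hz (I.mul_mem_left _ hv)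
        have ha := ih2 _ h1
        rw [← hpv, add_comm, mul_comm a y]
        exact Submodule.add_mem_sup hv (Submodule.smul_mem_smul hy ((hM a).2 ha))
      have := Submodule.le_of_le_smul_of_le_jacobson_bot (IsNoetherian.noetherian _)
        (by rw [IsLocalRing.jacobson_eq_maximalIdeal _ bot_ne_top]) hle
      intro z hz
      exact this ((hM z).2 hz)
    refine ⟨?_, ?_⟩
    · intro i hi z hz
      rcases Nat.lt_succ_iff_lt_or_eq.1 hi with hi | rfl
      · exact ih1 i hi z hz
      · rw [hI] at hz ⊢
        exact hE z hz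
    · intro z hz
      rw [image_succ, span_insert, hI] at hz ⊢
      obtain ⟨p, hp, v, hv, hpv⟩ := Submodule.mem_sup.1 hz
      obtain ⟨w, rfl⟩ := Ideal.mem_span_singleton'.1 hp
      have h1 : E j * w ∈ span {y} ⊔ I := by
        have h2 : E j * w = z * y + (- v) := by
          rw [mul_comm z y, ← hpv]
          ring
        rw [h2]
        exact Submodule.add_mem_sup (Ideal.mul_mem_left _ _ (Ideal.mem_span_singleton_self y))
          (I.neg_mem hv)
      obtain ⟨p', hp', v', hv', hpv'⟩ := Submodule.mem_sup.1 (hjn w h1)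
      obtain ⟨w', rfl⟩ := Ideal.mem_span_singleton'.1 hp'
      have h3 : y * (z - w' * E j) ∈ I := by
        have h4 : y * (z - w' * E j) = E j * v' + v := by
          have h5 : y * z = w * E j + v := hpv.symm
          rw [mul_sub, h5, ← hpv']
          ring
        rw [h4]
        exact I.add_mem (I.mul_mem_left _ hv') hv
      have h6 := ih2 _ h3
      have h7 : z = w' * E j + (z - w' * E j) := by ring
      rw [h7]
      exact Submodule.add_mem_sup (Ideal.mul_mem_left _ _ (Ideal.mem_span_singleton_self _)) h6

theorem exists_y {A : Type} [CommRing A] [IsRegularLocalRing A] (n : ℕ)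
    (hdim : ringKrullDim A = ((n + 1 : ℕ) : WithBot ℕ∞)) (I : Ideal A)
    (hI : ∀ q ∈ I.minimalPrimes, q.height ≤ n) :
    ∃ y ∈ maximalIdeal A, y ∉ maximalIdeal A ^ 2 ∧ ∀ q ∈ I.minimalPrimes, y ∉ q := by
  classical
  have hht : (maximalIdeal A).height = ((n + 1 : ℕ) : ℕ∞) := by
    have := IsLocalRing.maximalIdeal_height_eq_ringKrullDim (R := A)
    rw [hdim] at this
    exact_mod_cast this
  have h0 : maximalIdeal A ≠ ⊥ := by
    intro h
    have h1 : (maximalIdeal A).height = 0 := by
      have := isDomain_of_regular A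
      rw [h]
      exact Ideal.height_bot
    rw [h1] at hht
    exact absurd hht.symm (by norm_cast)
  have hsq := not_le_sq h0
  have hfin := I.finite_minimalPrimes_of_isNoetherianRing A
  by_contra hcon
  push Not at hcon
  have hsub : (maximalIdeal A : Set A) ⊆
      ⋃ i ∈ ((insert (maximalIdeal A ^ 2) hfin.toFinset : Finset (Ideal A)) : Set (Ideal A)),
        (id i : Ideal A) := by
    intro x hx
    by_cases hx2 : x ∈ maximalIdeal A ^ 2
    · simp only [Set.mem_iUnion]
      exact ⟨_, by simp, hx2⟩
    · obtain ⟨p, hp, hxp⟩ := hcon x hx hx2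
      simp only [Set.mem_iUnion]
      exact ⟨p, by simp [hp], hxp⟩
  rw [Ideal.subset_union_prime (maximalIdeal A ^ 2) (maximalIdeal A ^ 2)] at hsub
  · obtain ⟨i, hi, hle⟩ := hsub
    rw [Finset.mem_insert, Set.Finite.mem_toFinset] at hi
    rcases hi with rfl | hi
    · exact hsq hle
    · have hpr : i.IsPrime := hi.1.1
      have heq : maximalIdeal A = i := le_antisymm hle (IsLocalRing.le_maximalIdeal hpr.ne_top)
      have h1 := hI i hi
      rw [← heq, hht] at h1
      have h2 : n + 1 ≤ n := by exact_mod_cast h1
      omega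
  · intro i hi h1 h2
    rw [Finset.mem_insert, Set.Finite.mem_toFinset] at hi
    rcases hi with rfl | hi
    · exact absurd rfl h1
    · exact hi.1.1

theorem dim_quot {A : Type} [CommRing A] [IsRegularLocalRing A] (n : ℕ)
    (hdim : ringKrullDim A = ((n + 1 : ℕ) : WithBot ℕ∞)) (y : A) (hy : y ∈ maximalIdeal A)
    (hy2 : y ∉ maximalIdeal A ^ 2) : ringKrullDim (A ⧸ span {y}) = (n : WithBot ℕ∞) := by
  have hreg := quot_regular y hy hy2
  have h1 := spanFinrank_quot_lt y hy hy2
  have h2 : ringKrullDim A ≤ ringKrullDim (A ⧸ span {y}) + 1 := by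
    have := ringKrullDim_le_ringKrullDim_quotient_add_encard (R := A) ({y} : Set A) (by
      rw [IsLocalRing.ringJacobson_eq_maximalIdeal]; simpa using hy)
    simpa using this
  have h3 := (isRegularLocalRing_iff A).mp inferInstance
  have h4 := (isRegularLocalRing_iff (A ⧸ span {y})).mp inferInstance
  rw [hdim] at h3 h2
  rw [← h4] at h2 ⊢
  have h5 : (maximalIdeal A).spanFinrank = n + 1 := by exact_mod_cast h3
  have h6 : n + 1 ≤ (maximalIdeal (A ⧸ span {y})).spanFinrank + 1 := by exact_mod_cast h2
  have h7 : (maximalIdeal (A ⧸ span {y})).spanFinrank = n := by omega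
  rw [h7]

theorem aux (n : ℕ) : ∀ (A : Type) [CommRing A] [IsRegularLocalRing A],
    ringKrullDim A = (n : WithBot ℕ∞) → ∀ E : ℕ → A, (∀ i < n, E i ∈ maximalIdeal A) →
    maximalIdeal A ≤ (span (E '' {i | i < n})).radical → ∀ j < n, ∀ z,
    E j * z ∈ span (E '' {i | i < j}) → z ∈ span (E '' {i | i < j}) := by
  induction n with
  | zero => intro A _ _ _ E _ _ j hj; exact absurd hj (Nat.not_lt_zero j)
  | succ n ih =>
    intro A _ _ hdim E hE hrad
    have hdom : IsDomain A := isDomain_of_regular A
    have hfin : (E '' {i | i < n}).Finite := (Set.finite_lt_nat n).image E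
    have hcard : (E '' {i | i < n}).ncard ≤ n := by
      refine (Set.ncard_image_le (Set.finite_lt_nat n)).trans ?_
      have : ({i | i < n} : Set ℕ) = (Finset.range n : Set ℕ) := by
        ext i
        simp
      rw [this, Set.ncard_coe_finset, Finset.card_range]
    obtain ⟨y, hy, hy2, hyq⟩ := exists_y n hdim (span (E '' {i | i < n})) fun q hq =>
      (Ideal.height_le_card_of_mem_minimalPrimes_span hfin hq).trans (by exact_mod_cast hcard)
    -- the ideal generated by `y` and the first `n` elements
    have hrad' : maximalIdeal A ≤ (span {y} ⊔ span (E '' {i | i < n})).radical := by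
      rw [Ideal.radical_eq_sInf]
      refine le_sInf ?_
      rintro p ⟨hp1, hp2⟩
      have hpm : p ≤ maximalIdeal A := IsLocalRing.le_maximalIdeal hp2.ne_top
      rcases hpm.lt_or_eq with hlt | heq
      · exfalso
        have hmin : maximalIdeal A ∈ (span (insert (E n) (E '' {i | i < n}))).minimalPrimes := by
          rw [← image_succ]
          refine ⟨⟨(maximalIdeal.isMaximal A).isPrime, ?_⟩, ?_⟩
          · rw [span_le]
            rintro _ ⟨i, hi, rfl⟩
            exact hE i hi
          · rintro q ⟨hq1, hq2⟩ _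
            exact hrad.trans (hq1.radical_le_iff.2 hq2)
        have hmp := Ideal.mem_minimalPrimes_span_of_mem_minimalPrimes_span_insert (q := p)
          (p := maximalIdeal A) hlt (E n) (E '' {i | i < n}) hmin (E '' {i | i < n})
          (fun x hx => hp1 (Submodule.mem_sup_right (subset_span hx)))
          (fun x hx => Ideal.le_radical (subset_span (Set.mem_insert_of_mem _ hx)))
        exact hyq p hmp (hp1 (Submodule.mem_sup_left (Ideal.mem_span_singleton_self y)))
      · exact heq.ge
    -- the quotient
    have hreg := quot_regular y hy hy2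
    have hdim' := dim_quot n hdim y hy hy2
    have hcomap : (maximalIdeal (A ⧸ span {y})).comap (Ideal.Quotient.mk (span {y})) =
        maximalIdeal A := by
      have := Ideal.comap_isMaximal_of_surjective (Ideal.Quotient.mk (span {y}))
        Ideal.Quotient.mk_surjective (K := maximalIdeal (A ⧸ span {y}))
      exact IsLocalRing.eq_maximalIdeal this
    have himg : ∀ j : ℕ, (fun i => Ideal.Quotient.mk (span {y}) (E i)) '' {i | i < j} =
        Ideal.Quotient.mk (span {y}) '' (E '' {i | i < j}) := fun j => by
      rw [Set.image_image]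
    have hih := ih (A ⧸ span {y}) hdim' (fun i => Ideal.Quotient.mk (span {y}) (E i))
      (fun i hi => by
        change E i ∈ (maximalIdeal (A ⧸ span {y})).comap (Ideal.Quotient.mk (span {y}))
        rw [hcomap]
        exact hE i (by omega))
      (by
        intro x hx
        obtain ⟨x, rfl⟩ := Ideal.Quotient.mk_surjective x
        have hx' : x ∈ maximalIdeal A := by
          rw [← hcomap]
          exact hx
        obtain ⟨k, hk⟩ := hrad' hx'
        refine ⟨k, ?_⟩
        rw [himg, ← Ideal.map_span, ← map_pow, Ideal.mem_quotient_iff_mem_sup, sup_comm]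
        exact hk)
    have hp := perm n E y hy (fun z hz => (mul_eq_zero.1 hz).resolve_left (by
        rintro rfl
        exact hy2 (Submodule.zero_mem _)))
      (fun j hj z hz => by
        have h1 := hih j hj (Ideal.Quotient.mk (span {y}) z)
        rw [himg, ← Ideal.map_span, ← map_mul, Ideal.mem_quotient_iff_mem_sup,
          Ideal.mem_quotient_iff_mem_sup, sup_comm] at h1
        exact h1 hz) n le_rfl
    intro j hj z hz
    rcases Nat.lt_succ_iff_lt_or_eq.1 hj with hj | rfl
    · exact hp.1 j hj z hz
    · obtain ⟨k, hk⟩ := hrad hy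
      rw [image_succ, span_insert] at hk
      obtain ⟨p, hp', v, hv, hpv⟩ := Submodule.mem_sup.1 hk
      obtain ⟨w, rfl⟩ := Ideal.mem_span_singleton'.1 hp'
      have h1 : y ^ k * z ∈ span (E '' {i | i < j}) := by
        have h2 : y ^ k * z = w * (E j * z) + v * z := by
          rw [← hpv]
          ring
        rw [h2]
        exact Ideal.add_mem _ (Ideal.mul_mem_left _ _ hz) (Ideal.mul_mem_right _ _ hv)
      clear hk hpv
      induction k with
      | zero => simpa using h1
      | succ k ihk =>
        apply ihk
        refine hp.2 _ ?_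
        rw [← mul_assoc, ← pow_succ']
        exact h1

end RloM

open RloM in
/-- RLO -/
theorem stmtRlo : StmtRlo := by
  intro n A _ _ hdim E hE hrad j z hz
  have himg : ∀ k : ℕ, k ≤ n → (fun i : ℕ => if h : i < n then E ⟨i, h⟩ else 0) '' {i | i < k} =
      E '' {i | i.1 < k} := by
    intro k hk
    ext x
    simp only [Set.mem_image, Set.mem_ofPred_eq]
    constructor
    · rintro ⟨i, hi, rfl⟩
      exact ⟨⟨i, by omega⟩, hi, by simp [show i < n by omega]⟩
    · rintro ⟨i, hi, rfl⟩
      exact ⟨i.1, hi, by simp⟩
  have h := aux n A hdim (fun i : ℕ => if h : i < n then E ⟨i, h⟩ else 0)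
    (fun i hi => by
      simp only [hi, dif_pos]
      exact hE _)
    (by
      rw [himg n le_rfl, ← hrad]
      apply Ideal.radical_mono
      refine Ideal.span_mono ?_
      rintro _ ⟨i, rfl⟩
      exact ⟨i, i.2, rfl⟩) j.1 j.2 z
  rw [himg j.1 j.2.le] at h
  have he : {i : Fin n | i.1 < j.1} = {i | i < j} := by
    ext i
    exact Iff.rfl
  rw [he] at h
  apply h
  simp only [j.2, dif_pos]
  exact hz

end Pool.Agent.PC
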