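import Pool.Agent.Lib.MP_410da7_agP.Spec

/-!
# Package `P` (punctured cones), second part: weighted Bezout theorem and the counting argument

Conventions as in `Spec.lean`: file `Pool/Agent/Lib/MP_410da7_agP/<Name>.lean` imports
`Pool.Agent.Lib.MP_410da7_agP.Spec2`, private names in `namespace Pool.Agent.PC.<Name>M`, final theorem
`Pool.Agent.PC.stmt<Name> : … → Stmt<Name>`.

IDEA (case `∑ w = ∑ d + 1`). If all curves of degree `≤ 2 w_i` through `p` were trivial, the systems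
`sysE … 1 p` and `sysE … 2 p` would have the multiplicities `∏ d! / ∏ w!` and
`2 ∏ (2d)! / ∏ (2w)!` along the trivial curves (weighted Bezout), and a degeneration of
`1 + t + ε t²` would give `2 ∏ (2d)! / ∏ (2w)! ≤ (∏ d! / ∏ w!)²`. But this is false.
-/

set_option autoImplicit false

namespace Pool.Agent.PC

open MvPolynomial KaehlerDifferential WithZero Pool.Agent.Lib.MP_410da7_ag
open scoped Nat

noncomputable section

/-! ## 4. The weighted Bezout theorem -/

/-- RLO (150 lines; `Pool/Agent/Lib/RegularUFD/Domain.lean`: `quot_regular`, `isDomain_of_regular`). In a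
regular local ring of dimension `n`, every system of parameters is a regular sequence.
PROOF. Induction on `n`. `n = 0`: nothing. Let `n ≥ 1` and `m` the maximal ideal.
(a) There is `y ∈ m ∖ m²` such that `E_0,…,E_{n-2},y` is again a system of parameters (generates an
`m`-primary ideal): let `q_1,…,q_s` be the minimal primes of `(E_0,…,E_{n-2})`; they have height
`≤ n-1 < n` (Krull, `Ideal.height_le_spanFinrank` or `Ideal.height_le_spanRank_toENat_of_mem_minimal_primes`),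
so they do not contain `m`; and `m ⊄ m²` (Nakayama, `n ≥ 1`). By prime avoidance
(`Ideal.subset_union_prime`, at most two of the ideals need not be prime) there is
`y ∈ m` outside `m²` and all the `q_i`. Then `m` is the only prime containing
`(E_0,…,E_{n-2},y)`: a smaller prime `q ⊇ (E_0,…,E_{n-2},y)` contains some `q_i`, `q ≠ q_i` as `y ∉ q_i`, and
then the one-dimensional... more precisely: `(E_0,…,E_{n-1})` is `m`-primary, so `m / q_i` is minimal over
the class of `E_{n-1}`, hence `dim A/q_i ≤ 1` (Krull), so a prime strictly containing `q_i` is `m`.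
(b) `A' = A/(y)` is regular local of dimension `n-1` (`quot_regular`) and the classes of
`E_0,…,E_{n-2}` are a system of parameters of `A'`: by induction they form a regular sequence on `A'`.
`A` is a domain (`isDomain_of_regular`), so `y, E_0,…,E_{n-2}` is a regular sequence on `A`, and then so is its
permutation `E_0,…,E_{n-2},y` (local noetherian ring: `RingTheory.Sequence.IsRegular`/`IsWeaklyRegular`
permutation lemmas in `Mathlib/RingTheory/Regular/RegularSequence.lean`, e.g.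
`IsWeaklyRegular.of_perm_of_subset_jacobson_annihilator`).
(c) This proves the statement for `j < n-1`. For `j = n-1`: let `B = A/(E_0,…,E_{n-2})`; `y` is a non zero
divisor on `B`. If `E_{n-1} z = 0` in `B`, `z ≠ 0`, then `E_{n-1}` is in some associated prime `q` of
`B`; `q ≠ m` as `y ∈ m` is not a zero divisor; `q` contains a minimal prime `q_i` of
`(E_0,…,E_{n-2})`, and `q ⊉ ` everything: `q ⊇ (E_0,…,E_{n-1})`, whose radical is `m`, so `q = m`,
contradiction. -/
def StmtRlo : Prop := ∀ (n : ℕ) (A : Type) [CommRing A] [IsRegularLocalRing A],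
  ringKrullDim A = n → ∀ E : Fin n → A, (∀ i, E i ∈ IsLocalRing.maximalIdeal A) →
  (Ideal.span (Set.range E)).radical = IsLocalRing.maximalIdeal A → ∀ (j : Fin n) (z : A),
  E j * z ∈ Ideal.span (E '' {i | i < j}) → z ∈ Ideal.span (E '' {i | i < j})

/-- REG (150 lines, uses `StmtRlo`). The same for weighted homogeneous polynomials.
PROOF. Let `P = L[x_s]`, `m = (x_s)` (maximal), `A = P_m` (`Localization.AtPrime`): regular local
(`MvPolynomial.isRegularRing_of_isRegularRing`, `IsRegularRing.isRegularLocalRing_localization`), of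
dimension `height m = n` (`≥ n` by `curve_card_le_height` in
`Pool/Agent/Lib/MP_410da7_ag/Curve.lean` with all the variables, `≤ n` by Krull as `m` has `n`
generators; `IsLocalization.AtPrime.ringKrullDim_eq_height`). By the Nullstellensatz and `hz`, every `x_s` has
a power in `(E)` (`vanishingIdeal_zeroLocus_eq_radical`), so `(E)` is `m`-primary, also in `A`.
Let `J = (E_i : i < j)` (a weighted homogeneous ideal) and `E_j z ∈ J`. All weighted homogeneous components
`z_a` of `z` satisfy `E_j z_a ∈ J` (take components; `CYGraded_comp_mul`), so we may assume `z`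
weighted homogeneous. In `A`, `StmtRlo` gives `z ∈ J A`: `u z ∈ J` for some `u ∈ P`, `u ∉ m`, i.e. with
constant term `c ≠ 0`. The component of `u z` of the weight of `z` is `c z` plus components
`u_a z` with `a > 0` which have larger weight: so `c z ∈ J` (components of elements of `J` are in
`J`), and `z ∈ J`. -/
def StmtReg : Prop := ∀ (σ : Type) [Fintype σ] (n : ℕ), Fintype.card σ = n →
  ∀ (L : Type) [Field L] [IsAlgClosed L] (ws : σ → ℕ), (∀ s, 0 < ws s) →
  ∀ (E : Fin n → MvPolynomial σ L) (dE : Fin n → ℕ), (∀ t, 0 < dE t) →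
  (∀ t, (E t).IsWeightedHomogeneous ws (dE t)) → (∀ a : σ → L, (∀ t, eval a (E t) = 0) → a = 0) →
  ∀ (j : Fin n) (z : MvPolynomial σ L),
    E j * z ∈ Ideal.span (E '' {i | i < j}) → z ∈ Ideal.span (E '' {i | i < j})

/-- FRE (200 lines, uses `StmtReg`). `P = L[x]` is a free module over `L[E_1,…,E_n]` with a finite
basis of weighted homogeneous elements.
PROOF. (1) Every `x_s` has a power in `(E)` (Nullstellensatz), so `P/(E)` is spanned by finitely many
monomials, hence has a basis consisting of classes of monomials `b_1,…,b_m` (a basis extracted from a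
spanning set), weighted homogeneous of weights `e_i`.
(2) Spanning: every `P ∈ L[x]` is `∑ c_i(E) b_i` with `c_i ∈ L[y_1,…,y_n]`. Induction on the
weight for weighted homogeneous `P`: `P = ∑ λ_i b_i + ∑ h_t E_t` with `h_t` weighted homogeneous of smaller
weight (take components).
(3) Uniqueness. For `j ≤ n` let `J_j = (E_i : i < j)`. Claim: if `∑ c_i(E) b_i ∈ J_j` with
`c_i` polynomials in `y_j,…,y_{n-1}` only, then all `c_i = 0`. For `j = n` the `c_i` are constants and
the `b_i` are independent modulo `(E)`. Step `j+1 → j`: suppose not all `c_i = 0`; dividing by a power of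
`y_j`: write `c_i = y_j^a c'_i` with `a` maximal such that `y_j^a` divides all `c_i`. Then
`E_j^a ∑ c'_i(E) b_i ∈ J_j`, so `∑ c'_i(E) b_i ∈ J_j` by `StmtReg` (`a` times). Modulo
`J_{j+1} = J_j + (E_j)` we may set `y_j = 0` in the `c'_i`: `∑ c'_i|_{y_j=0}(E) b_i ∈ J_{j+1}`, so
`c'_i|_{y_j = 0} = 0` for all `i` by the claim for `j+1`, so `y_j` divides all the `c'_i`, contradicting the choice
of `a`. For `j = 0`: `∑ c_i(E) b_i = 0` implies `c = 0`. -/
def StmtFre : Prop := ∀ (σ : Type) [Fintype σ] (n : ℕ), Fintype.card σ = n →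
  ∀ (L : Type) [Field L] [IsAlgClosed L] (ws : σ → ℕ), (∀ s, 0 < ws s) →
  ∀ (E : Fin n → MvPolynomial σ L) (dE : Fin n → ℕ), (∀ t, 0 < dE t) →
  (∀ t, (E t).IsWeightedHomogeneous ws (dE t)) → (∀ a : σ → L, (∀ t, eval a (E t) = 0) → a = 0) →
  ∃ (m : ℕ) (b : Fin m → MvPolynomial σ L) (e : Fin m → ℕ),
    (∀ i, (b i).IsWeightedHomogeneous ws (e i)) ∧
    ∀ P : MvPolynomial σ L, ∃! c : Fin m → MvPolynomial (Fin n) L, P = ∑ i, aeval E (c i) * b i

/-- HIL (200 lines). The rank is `∏ deg E / ∏ weights`.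
PROOF. For a finite family of positive weights `ω : τ → ℕ` let `H_ω(q)` be the number of
`α : τ →₀ ℕ` with `∑ α_t ω_t = q` and `H_ω(T) = ∑ H_ω(q) T^q ∈ ℤ⟦T⟧`. Then
`H_ω(T) ∏ (1 - T^(ω_t)) = 1` (geometric series, induction on `τ`).
The space of weighted homogeneous polynomials of weight `q` in `L[x]` has dimension `H_ws(q)` (monomial
basis), and by the hypothesis it is the direct sum over `i` of `{c_i(E) b_i}`, `c_i ∈ L[y]` weighted
homogeneous of weight `q - e_i` for the weights `dE` (uniqueness of `c` implies that `c_i` is weighted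
homogeneous: compare components; `aeval E` maps weight `a` to weight `a`). So
`H_ws(T) = (∑_i T^(e_i)) H_dE(T)`, that is, `(∑_i T^(e_i)) ∏_s (1 - T^(ws_s)) = ∏_t (1 - T^(dE_t))` in
`ℤ[T]`. As `1 - T^a = (1 - T)(1 + T + ⋯ + T^(a-1))` and the numbers of factors are equal (`n`), cancel
`(1-T)^n` and put `T = 1`: `m ∏ ws = ∏ dE`. -/
def StmtHil : Prop := ∀ (σ : Type) [Fintype σ] (n : ℕ), Fintype.card σ = n →
  ∀ (L : Type) [Field L] (ws : σ → ℕ), (∀ s, 0 < ws s) →
  ∀ (E : Fin n → MvPolynomial σ L) (dE : Fin n → ℕ), (∀ t, 0 < dE t) →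
  (∀ t, (E t).IsWeightedHomogeneous ws (dE t)) →
  ∀ (m : ℕ) (b : Fin m → MvPolynomial σ L) (e : Fin m → ℕ),
  (∀ i, (b i).IsWeightedHomogeneous ws (e i)) →
  (∀ P : MvPolynomial σ L, ∃! c : Fin m → MvPolynomial (Fin n) L, P = ∑ i, aeval E (c i) * b i) →
  m * ∏ s, ws s = ∏ t, dE t

/-- FIB (150 lines). All fibres of the free module have dimension `m`, also after a field extension.
PROOF. (1) The elements `b_i` (mapped to `F[x]`) are a basis of `F[x]` over `F[y]` acting through `E`: every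
`P ∈ F[x]` is uniquely `∑ c_i(E) b_i` with `c_i ∈ F[y]`. Spanning: it is enough to treat monomials, which
have coefficients in `L`. Uniqueness: choose a basis `(β_κ)` of `F` over `L`; write
`c_i = ∑_κ β_κ c_{i,κ}` with `c_{i,κ} ∈ L[y]`; then `∑_κ β_κ ∑_i c_{i,κ}(E) b_i = 0` in
`F[x] = ⊕ β_κ L[x]`, so `∑_i c_{i,κ}(E) b_i = 0` for every `κ` and `c_{i,κ} = 0`.
(2) The linear map `F[x] → F^m`, `∑ c_i(E) b_i ↦ (c_i(c))_i` (evaluation of `c_i` at the point
`c ∈ F^n`) is onto, and its kernel is the ideal generated by the `E_t - c_t`: a polynomial `c_i ∈ F[y]` that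
vanishes at `c` is in the ideal `(y_t - c_t)`; conversely `(E_t - c_t) P ↦ 0` since
`(E_t - c_t) ∑ c_i(E) b_i = ∑ ((y_t - c_t) c_i)(E) b_i`. -/
def StmtFib : Prop := ∀ (σ : Type) [Fintype σ] (n m : ℕ) (L : Type) [Field L]
  (E : Fin n → MvPolynomial σ L) (b : Fin m → MvPolynomial σ L),
  (∀ P : MvPolynomial σ L, ∃! c : Fin m → MvPolynomial (Fin n) L, P = ∑ i, aeval E (c i) * b i) →
  ∀ (F : Type) [Field F] [Algebra L F] (c : Fin n → F),
  Module.Finite F (MvPolynomial σ F ⧸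
    Ideal.span (Set.range fun t => map (algebraMap L F) (E t) - C (c t))) ∧
  Module.finrank F (MvPolynomial σ F ⧸
    Ideal.span (Set.range fun t => map (algebraMap L F) (E t) - C (c t))) = m

/-- BEZ (50 lines, uses `StmtFre`, `StmtHil`, `StmtFib`). The weighted Bezout theorem, for a family of
polynomials indexed by any finite type `τ` with as many elements as there are variables (reindex
by `Fin n`). -/
def StmtBez : Prop := ∀ (σ τ : Type) [Fintype σ] [Fintype τ], Fintype.card τ = Fintype.card σ →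
  ∀ (L : Type) [Field L] [IsAlgClosed L] (ws : σ → ℕ), (∀ s, 0 < ws s) →
  ∀ (E : τ → MvPolynomial σ L) (dE : τ → ℕ), (∀ t, 0 < dE t) →
  (∀ t, (E t).IsWeightedHomogeneous ws (dE t)) → (∀ a : σ → L, (∀ t, eval a (E t) = 0) → a = 0) →
  ∀ (F : Type) [Field F] [Algebra L F] (c : τ → F),
  Module.Finite F (MvPolynomial σ F ⧸
    Ideal.span (Set.range fun t => map (algebraMap L F) (E t) - C (c t))) ∧
  Module.finrank F (MvPolynomial σ F ⧸
    Ideal.span (Set.range fun t => map (algebraMap L F) (E t) - C (c t))) * ∏ s, ws s = ∏ t, dE t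

/-! ## 5. The systems of equations -/

variable {N r : ℕ}

/-- All curves of degree `≤ k w_i` through `p` are trivial. -/
def AllTriv (w : Fin N → ℕ) (d : Fin r → ℕ) (f : Fin r → MvPolynomial (Fin N) ℂ) (k : ℕ)
    {L : Type} [Field L] [Algebra ℂ L] (p : Fin N → L) : Prop :=
  ∀ a : Sg w k → L, (∀ q : Eg d k, eval a (sysE w d f k p q) = 0) →
    ∃ A : Polynomial L, A.eval 0 = 1 ∧ A.natDegree ≤ k ∧
      ∀ i, cur w k p a i = Polynomial.C (p i) * A ^ w i

/-- SYS (150 lines; model: `CYSystem.lean`). The equations are weighted homogeneous, and a point solves them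
iff the curve is on `V`.
PROOF. (1) With `B = L[a_q]`, the coefficient of `t^n` of `cur w k (C ∘ p) X i` is weighted homogeneous of
weight `n` (`CYSystemIso` in `CYSystem.lean`: closed under sums, products, constants), so also that
of `aeval (cur …) (f l)`. (2) `aeval a` is a ring homomorphism and maps the curve with coefficients `X`
to the curve with coefficients `a` (`curvePoly_map`, `curve_map_aeval` in `Curve.lean`).
(3) If the curve is on `V`, all coefficients vanish. Conversely the polynomial `f_l(cur … a)` has degree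
`≤ k d_l` (`curve_natDegree_aeval_le` with the weights `k w_i`, and `f_l` weighted homogeneous), its
constant coefficient is `f_l(p) = 0`, and the coefficients of `t^1,…,t^(k d_l)` are the values of the
equations. -/
def StmtSys : Prop := ∀ (N r : ℕ) (w : Fin N → ℕ) (d : Fin r → ℕ)
  (f : Fin r → MvPolynomial (Fin N) ℂ), (∀ k, (f k).IsWeightedHomogeneous w (d k)) →
  ∀ (k : ℕ) (L : Type) [Field L] [Algebra ℂ L] (p : Fin N → L),
  (∀ q : Eg d k, (sysE w d f k p q).IsWeightedHomogeneous (fun s : Sg w k => wt s) (dg q)) ∧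
  (∀ (B : Type) [CommRing B] [Algebra ℂ B] [Algebra L B] [IsScalarTower ℂ L B] (a : Sg w k → B)
    (q : Eg d k), aeval a (sysE w d f k p q) =
      (aeval (cur w k (fun i => algebraMap L B (p i)) a) (f q.1)).coeff (q.2.1 + 1)) ∧
  (∀ (B : Type) [CommRing B] [Algebra ℂ B] [Algebra L B] [IsScalarTower ℂ L B] (a : Sg w k → B),
    (∀ l, aeval p (f l) = 0) → ((∀ q : Eg d k, aeval a (sysE w d f k p q) = 0) ↔
      ∀ l, aeval (cur w k (fun i => algebraMap L B (p i)) a) (f l) = 0))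

/-- The ideal of the system for `k = 1` with the value `c` of the variable `q₀` prescribed. -/
def J1 (w : Fin N → ℕ) (d : Fin r → ℕ) (f : Fin r → MvPolynomial (Fin N) ℂ)
    {L : Type} [Field L] [Algebra ℂ L] (p : Fin N → L) (q0 : Sg w 1) (c : L) :
    Ideal (MvPolynomial (Sg w 1) L) :=
  Ideal.span (Set.range (sysE w d f 1 p) ∪ {X q0 - C c})

/-- The ideal of the system for `k = 2` over `L(ε)`, with the values of two variables prescribed. -/
def J2 (w : Fin N → ℕ) (d : Fin r → ℕ) (f : Fin r → MvPolynomial (Fin N) ℂ)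
    {L : Type} [Field L] [Algebra ℂ L] (p : Fin N → L) (q0 q1 : Sg w 2) (c0 c1 : RatFunc L) :
    Ideal (MvPolynomial (Sg w 2) (RatFunc L)) :=
  Ideal.span (Set.range (fun q => map (algebraMap L (RatFunc L)) (sysE w d f 2 p q)) ∪
    {X q0 - C c0, X q1 - C c1})

/-- NON (100 lines, uses `StmtBez`, `StmtSys`). The Bezout number for `k = 1`.
PROOF. Variables: `Sg w 1`, `∑ w_i` of them, with weights `j + 1`; the product of the weights is
`∏ (w_i)!`. Polynomials: the equations (`∑ d_l`, product of the degrees `∏ (d_l)!`) and the variable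
`X q₀` (degree `wt q₀`), together `∑ d + 1 = ∑ w`; index type `Eg d 1 ⊕ Unit`. The only common zero is `0`: by
`AllTriv` a common zero is the curve `p_i A^(w_i)`, `A = 1 + τ t` (`natDegree ≤ 1`, `A(0) = 1`), and the
coefficient of `t^(j+1)`, `q₀ = (i₀, j)`, is `p_{i₀} C(w_{i₀}, j+1) τ^(j+1) = 0`, so `τ = 0` and the curve is
constant. Apply `StmtBez` with `F = L` and the values `0` for the equations, `c` for `X q₀`
(`map (algebraMap L L) = id`, and the ideal is `J1`). -/
def StmtNon : Prop := ∀ (N r : ℕ) (w : Fin N → ℕ) (d : Fin r → ℕ)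
  (f : Fin r → MvPolynomial (Fin N) ℂ), (∀ i, 0 < w i) →
  (∀ k, (f k).IsWeightedHomogeneous w (d k)) → ∑ i, w i = ∑ k, d k + 1 →
  ∀ (L : Type) [Field L] [IsAlgClosed L] [Algebra ℂ L] (p : Fin N → L), (∀ i, p i ≠ 0) →
  (∀ k, aeval p (f k) = 0) → AllTriv w d f 1 p → ∀ (q0 : Sg w 1) (c : L),
  Module.Finite L (MvPolynomial (Sg w 1) L ⧸ J1 w d f p q0 c) ∧
  Module.finrank L (MvPolynomial (Sg w 1) L ⧸ J1 w d f p q0 c) * ∏ i, (w i)! =
    (∏ k, (d k)!) * wt q0

/-- NTW (100 lines, uses `StmtBez`, `StmtSys`). The Bezout number for `k = 2`.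
PROOF. As for `StmtNon`: `∑ 2 w_i` variables, product of weights `∏ (2 w_i)!`; polynomials: the equations
(`∑ 2 d_l`, product of degrees `∏ (2 d_l)!`), `X q₀` (degree `1`) and `X q₁` (degree `2 w_{i₀}`). The only
common zero is `0`: the curve is `p_i A^(w_i)`, `A = 1 + τ₁ t + τ₂ t²`, the coefficient of `t` of the `i₀`-th
coordinate is `p_{i₀} w_{i₀} τ₁ = 0`, and that of `t^(2 w_{i₀})` is `p_{i₀} τ₂^(w_{i₀}) = 0`. Apply
`StmtBez` with `F = RatFunc L` and the values `0`, `c₀`, `c₁`. -/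
def StmtNtw : Prop := ∀ (N r : ℕ) (w : Fin N → ℕ) (d : Fin r → ℕ)
  (f : Fin r → MvPolynomial (Fin N) ℂ), (∀ i, 0 < w i) →
  (∀ k, (f k).IsWeightedHomogeneous w (d k)) → ∑ i, w i = ∑ k, d k + 1 →
  ∀ (L : Type) [Field L] [IsAlgClosed L] [Algebra ℂ L] (p : Fin N → L), (∀ i, p i ≠ 0) →
  (∀ k, aeval p (f k) = 0) → AllTriv w d f 2 p → ∀ (q0 q1 : Sg w 2), q0.1 = q1.1 →
  q0.2.1 = 0 → q1.2.1 + 1 = 2 * w q1.1 → ∀ c0 c1 : RatFunc L,
  Module.Finite (RatFunc L) (MvPolynomial (Sg w 2) (RatFunc L) ⧸ J2 w d f p q0 q1 c0 c1) ∧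
  Module.finrank (RatFunc L) (MvPolynomial (Sg w 2) (RatFunc L) ⧸ J2 w d f p q0 q1 c0 c1) *
    ∏ i, (2 * w i)! = (∏ k, (2 * d k)!) * (2 * w q1.1)

/-! ## 6. The degeneration -/

/-- The leading coefficients (coefficients of `t^(w_i)`) of the curve of degree `≤ w_i`. -/
def topc (w : Fin N → ℕ) {B : Type} [CommRing B] (p : Fin N → B) (b : Sg w 1 → B) (i : Fin N) : B :=
  (cur w 1 p b i).coeff (w i)

/-- The coefficients `a_j = b_j` for `j ≤ w_i` and `a_{w_i + j} = ε^j b'_j` for `1 ≤ j ≤ w_i`. -/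
def glue (w : Fin N → ℕ) {B : Type} [CommRing B] (b b' : Sg w 1 → B) (ε : B) (q : Sg w 2) : B :=
  if h : q.2.1 < w q.1 then b ⟨q.1, ⟨q.2.1, by omega⟩⟩
  else ε ^ (q.2.1 + 1 - w q.1) * b' ⟨q.1, ⟨q.2.1 - w q.1, by have := q.2.2; omega⟩⟩

/-- LHI (200 lines). Coefficients of `f_l` along the degenerating curve.
PROOF. Let `γ = cur w 2 p (glue w b b' ε)`, so `γ_i = ∑_{j ≤ w_i} b_j t^j + ∑_{j ≥ 1} ε^j b'_j t^(w_i + j)`
(`b_0 = p_i`). (1) `γ_i ≡ cur w 1 p b i` modulo `ε`, so `f_l(γ) ≡ f_l(cur w 1 p b)` modulo `ε` (polynomials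
with coefficients divisible by `ε` form an ideal of `B[t]`).
(2) For `g, h ∈ B[t]` and `D ∈ ℕ` let `Rel D g h` mean: `coeff_n g = ε^(n-D) coeff_n h` for `n ≥ D` and
`coeff_n h = ε^(D-n) coeff_n g` for `n ≤ D`. It is additive (fixed `D`) and multiplicative:
`Rel D₁ g₁ h₁`, `Rel D₂ g₂ h₂` imply `Rel (D₁+D₂) (g₁ g₂) (h₁ h₂)`: termwise, for `a + b = n ≥ D₁ + D₂`,
`coeff_a g₁ coeff_b g₂ = ε^(n-D₁-D₂) coeff_a h₁ coeff_b h₂` (if `a ≥ D₁`, `b < D₂`: both sides are
`ε^(a-D₁) coeff_a h₁ coeff_b g₂`; the other cases are similar), and in the same way for `n ≤ D₁ + D₂`.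
Let `δ_i = ∑_{j ≤ w_i} b_j ε^(w_i - j) t^j + ∑_{j ≥ 1} b'_j t^(w_i+j)`: then `Rel w_i γ_i δ_i`, hence
`Rel d_l (f_l(γ)) (f_l(δ))` as `f_l` is weighted homogeneous of degree `d_l`. So
`coeff_{d_l+n}(f_l(γ)) = ε^n E'` with `E' = coeff_{d_l+n}(f_l(δ))`. Modulo `ε`,
`δ_i ≡ t^(w_i) (cur w 1 (topc w p b) b')_i`, so `f_l(δ) ≡ t^(d_l) f_l(cur w 1 (topc w p b) b')` and
`E' ≡ coeff_n (f_l(cur w 1 (topc w p b) b'))` modulo `ε`. -/
def StmtLhi : Prop := ∀ (N r : ℕ) (w : Fin N → ℕ) (d : Fin r → ℕ)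
  (f : Fin r → MvPolynomial (Fin N) ℂ), (∀ k, (f k).IsWeightedHomogeneous w (d k)) →
  ∀ (B : Type) [CommRing B] [Algebra ℂ B] (p : Fin N → B) (b b' : Sg w 1 → B) (ε : B) (l : Fin r),
  (∀ n, ε ∣ (aeval (cur w 2 p (glue w b b' ε)) (f l)).coeff n -
    (aeval (cur w 1 p b) (f l)).coeff n) ∧
  (∀ n, ∃ E' : B, (aeval (cur w 2 p (glue w b b' ε)) (f l)).coeff (d l + n) = ε ^ n * E' ∧
    ε ∣ E' - (aeval (cur w 1 (topc w p b) b') (f l)).coeff n)

/-- The ideal of the degenerate system, in the variables `b` (`Sum.inl`) and `b'` (`Sum.inr`): `b` solves the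
system of the point `p` with `b_{q₀} = c₀`, and `b'` solves the system of the point `topc w p b` with
`b'_{q₁} = c₁`. -/
def J0 (w : Fin N → ℕ) (f : Fin r → MvPolynomial (Fin N) ℂ) {L : Type} [Field L] [Algebra ℂ L]
    (p : Fin N → L) (q0 q1 : Sg w 1) (c0 c1 : L) : Ideal (MvPolynomial (Sg w 1 ⊕ Sg w 1) L) :=
  Ideal.span
    ((Set.range fun s : Fin r × ℕ =>
        (aeval (cur w 1 (fun i => (C (p i) : MvPolynomial (Sg w 1 ⊕ Sg w 1) L))
          (fun q => X (Sum.inl q))) (f s.1)).coeff s.2) ∪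
      (Set.range fun s : Fin r × ℕ =>
        (aeval (cur w 1 (topc w (fun i => (C (p i) : MvPolynomial (Sg w 1 ⊕ Sg w 1) L))
          (fun q => X (Sum.inl q))) (fun q => X (Sum.inr q))) (f s.1)).coeff s.2) ∪
      {X (Sum.inl q0) - C c0, X (Sum.inr q1) - C c1})

/-- CZE (250 lines, uses `StmtSys`). The degenerate system has at most `D₁ D₁'` solutions.
PROOF. Let `A = L[b] ⧸ J1 w d f p q₀ c₀` (finite dimensional, dimension `D₁`) and
`C = L[b,b'] ⧸ J0`. `C` is an `A`-algebra: the relations of `J1` hold in `C` for the `b` (`StmtSys` (2) and the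
first family). Let `b⁰_q = coeff (p_i (1+t)^(w_i))`; by `AllTriv` and `q₀.2 = 0`, `b⁰` is the only zero of
`J1` in `L`: a zero is a curve `p_i (1 + τ t)^(w_i)` with `p_{i₀} w_{i₀} τ = c₀ = w_{i₀} p_{i₀}`. So by the
Nullstellensatz the `b_q - b⁰_q` are nilpotent in `A`, and they generate an ideal `𝔫` of `A`, nilpotent
(finitely many nilpotent generators), with `A = L + 𝔫`. The quotient `C/𝔫C` is the quotient of `L[b']` by the
relations `f_l(cur w 1 (topc w p b⁰) b') = 0` and `b'_{q₁} = c₁`; as `topc w p b⁰ = p` (leading coefficient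
of `(1+t)^(w_i)` is one), it is spanned, over `L`, by the classes of elements `β_1,…,β_{D'}` that span
`L[b'] ⧸ J1 w d f p q₁ c₁`, `D' = finrank` of it (finite dimensional by hypothesis). Nilpotent
Nakayama: `C = ∑ A β_j + 𝔫 C`, hence `C = ∑ A β_j + 𝔫^m C` for all `m`, so `C = ∑ A β_j`, which
has dimension `≤ D₁ D'` over `L` (the map `A^{D'} → C`, `(a_j) ↦ ∑ a_j β_j` is onto). -/
def StmtCze : Prop := ∀ (N r : ℕ) (w : Fin N → ℕ) (d : Fin r → ℕ)
  (f : Fin r → MvPolynomial (Fin N) ℂ), (∀ i, 0 < w i) →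
  (∀ k, (f k).IsWeightedHomogeneous w (d k)) →
  ∀ (L : Type) [Field L] [IsAlgClosed L] [Algebra ℂ L] (p : Fin N → L), (∀ i, p i ≠ 0) →
  (∀ k, aeval p (f k) = 0) → AllTriv w d f 1 p → ∀ (q0 q1 : Sg w 1), q0.2.1 = 0 → ∀ c1 : L,
  Module.Finite L (MvPolynomial (Sg w 1) L ⧸ J1 w d f p q0 ((w q0.1 : L) * p q0.1)) →
  Module.Finite L (MvPolynomial (Sg w 1) L ⧸ J1 w d f p q1 c1) →
  Module.Finite L (MvPolynomial (Sg w 1 ⊕ Sg w 1) L ⧸
    J0 w f p q0 q1 ((w q0.1 : L) * p q0.1) c1) ∧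
  Module.finrank L (MvPolynomial (Sg w 1 ⊕ Sg w 1) L ⧸
    J0 w f p q0 q1 ((w q0.1 : L) * p q0.1) c1) ≤
    Module.finrank L (MvPolynomial (Sg w 1) L ⧸ J1 w d f p q0 ((w q0.1 : L) * p q0.1)) *
    Module.finrank L (MvPolynomial (Sg w 1) L ⧸ J1 w d f p q1 c1)

/-- NIL (120 lines, uses `StmtSys`). The solutions of the system for `k = 2` are trivial curves up to
nilpotents, with polynomial parameters.
PROOF. For a solution `a ∈ L^(Sg w 2)` the curve is `p_i A^(w_i)`, `A = 1 + τ₁ t + τ₂ t²`. With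
`W = w_{i₀}`, the coefficients of `t`, `t²` of the `i₀`-th coordinate are `p_{i₀} W τ₁` and
`p_{i₀} (W τ₂ + C(W,2) τ₁²)`. So `τ₁ = θ₁(a)` and `τ₂ = θ₂(a)` with `θ₁ = X_{(i₀,0)} / (W p_{i₀})`,
`θ₂ = (X_{(i₀,1)} / p_{i₀} - C(W,2) θ₁²) / W` (`2 W ≥ 2`). Hence the polynomial
`X q - coeff (p_i (1 + θ₁ t + θ₂ t²)^(w_i))` vanishes at all common zeros of the system, and a power of it is in
the ideal (Nullstellensatz); take `M` to be the maximum over the finitely many `q`. -/
def StmtNil : Prop := ∀ (N r : ℕ) (w : Fin N → ℕ) (d : Fin r → ℕ)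
  (f : Fin r → MvPolynomial (Fin N) ℂ), (∀ i, 0 < w i) →
  (∀ k, (f k).IsWeightedHomogeneous w (d k)) →
  ∀ (L : Type) [Field L] [IsAlgClosed L] [Algebra ℂ L] (p : Fin N → L), (∀ i, p i ≠ 0) →
  (∀ k, aeval p (f k) = 0) → AllTriv w d f 2 p → ∀ q0 : Sg w 2, q0.2.1 = 0 →
  ∃ (θ₁ θ₂ : MvPolynomial (Sg w 2) L) (M : ℕ), C ((w q0.1 : L) * p q0.1) * θ₁ = X q0 ∧
    ∀ q : Sg w 2, (X q - (Polynomial.C (C (p q.1)) * (1 + Polynomial.C θ₁ * Polynomial.X +
      Polynomial.C θ₂ * Polynomial.X ^ 2) ^ w q.1).coeff (q.2.1 + 1)) ^ M ∈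
        Ideal.span (Set.range (sysE w d f 2 p))

/-- INT (200 lines, uses `StmtNil`). Integrality of the rescaled coefficients over `L[ε]`.
PROOF. Let `R` be the quotient ring, `a_q` the class of `X q`, `i₀ = q₀.1`, `W = w_{i₀}`. In `R` the image of
`θ₁` is `1` (`W p_{i₀} θ₁ = a_{q₀} = W p_{i₀}`), and with `θ = ε⁻¹ θ₂` every
`a_q - coeff_{q}(p_i (1 + t + ε θ t²)^(w_i))` is nilpotent. For `q = q₁` the coefficient of `t^(2W)` is
`p_{i₀} (ε θ)^W` and `a_{q₁} = ε^W p_{i₀}`: so `θ^W - 1` is nilpotent and `θ` is integral over `L` and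
over `L[ε] = L[X]`. For `q = (i,j)` put `n = j + 1`: if `n ≤ w_i`, `a_q` is nilpotent plus a
polynomial in `ε`, `θ`, hence integral. If `n = w_i + m`, `m ≥ 1`: every term of the coefficient of
`t^n` in `(1 + t + ε θ t²)^(w_i)` uses at least `m` factors `ε θ t²` (`k₁ + 2 k₂ = n`, `k₁ + k₂ ≤ w_i` imply
`k₂ ≥ m`), so the coefficient is `ε^m` times a polynomial in `ε`, `θ`, and `ε^(-m) a_q` is nilpotent plus integral,
hence integral. (A formula: `(1 + t + y t²)^w = ∑_k C(w,k) y^k t^(2k) (1+t)^(w-k)`.)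
Here `L[X] → RatFunc L → R` is the algebra structure, `ε = RatFunc.X`. -/
def StmtInt : Prop := ∀ (N r : ℕ) (w : Fin N → ℕ) (d : Fin r → ℕ)
  (f : Fin r → MvPolynomial (Fin N) ℂ), (∀ i, 0 < w i) →
  (∀ k, (f k).IsWeightedHomogeneous w (d k)) →
  ∀ (L : Type) [Field L] [IsAlgClosed L] [Algebra ℂ L] (p : Fin N → L), (∀ i, p i ≠ 0) →
  (∀ k, aeval p (f k) = 0) → AllTriv w d f 2 p → ∀ (q0 q1 : Sg w 2), q0.1 = q1.1 →
  q0.2.1 = 0 → q1.2.1 + 1 = 2 * w q1.1 →
  ∀ J : Ideal (MvPolynomial (Sg w 2) (RatFunc L)),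
  J = J2 w d f p q0 q1 (algebraMap L (RatFunc L) ((w q0.1 : L) * p q0.1))
    (RatFunc.X ^ w q1.1 * algebraMap L (RatFunc L) (p q1.1)) →
  ∀ q : Sg w 2, IsIntegral (Polynomial L)
    (Ideal.Quotient.mk J (C ((RatFunc.X : RatFunc L)⁻¹ ^ (q.2.1 + 1 - w q.1)) * X q))

/-- RAN (100 lines). Rank and special fibre.
PROOF. `S` is finitely generated (as a module: generated as an algebra by finitely many integral elements;
here we assume `Module.Finite`) and torsion free over the principal ideal domain `L[X]`, since it is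
contained in an `L(X)`-vector space: so `S` is free, of some rank `ρ`
(`Module.free_of_finite_type_torsion_free'`). A basis of `S` over `L[X]` is a basis of `R` over
`L(X)`: independent over `L(X)` by clearing denominators, and it spans by `hspan`. So
`ρ = finrank R`. And `S/XS ≅ L^ρ`. -/
def StmtRan : Prop := ∀ (L : Type) [Field L] (R : Type) [CommRing R] [Algebra (RatFunc L) R]
  [Algebra (Polynomial L) R] [IsScalarTower (Polynomial L) (RatFunc L) R]
  [Module.Finite (RatFunc L) R] (S : Submodule (Polynomial L) R),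
  S.FG → Submodule.span (RatFunc L) (S : Set R) = ⊤ →
  ∀ (C' : Type) [AddCommGroup C'] [Module L C'] [Module.Finite L C'] (Φ : C' → S),
  (∀ s : S, ∃ (c : C') (s' : S), s = Φ c + (Polynomial.X : Polynomial L) • s') →
  (∀ c c' : C', ∃ s' : S, Φ (c + c') = Φ c + Φ c' + (Polynomial.X : Polynomial L) • s') →
  (∀ (a : L) (c : C'), ∃ s' : S, Φ (a • c) =
    (Polynomial.C a : Polynomial L) • Φ c + (Polynomial.X : Polynomial L) • s') →
  Module.finrank (RatFunc L) R ≤ Module.finrank L C'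

/-- DEG (250 lines, uses `StmtSys`, `StmtLhi`, `StmtInt`, `StmtRan`). The degeneration inequality.
PROOF. Let `R` be the quotient of `L(ε)[a_q]` by `J2`, `ε = RatFunc.X`. Put `b_{(i,j)} = a_{(i,j)}` and
`b'_{(i,j)} = ε^(-(j+1)) a_{(i, w_i + j)}` for `(i,j) ∈ Sg w 1`, so `a = glue w b b' ε`. By `StmtInt` they are
integral over `L[X]` (for `b`, the exponent `q.2 + 1 - w` is `0`), so the `L[X]`-subalgebra `S` of `R`
generated by them is a finite `L[X]`-module (`Algebra.adjoin` of finitely many integral elements: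
`fg_adjoin_of_finite`); it spans `R` over `L(ε)` (it contains the `a_q`). In `R` the curve with coefficients
`a` is on `V` (`StmtSys` (3) for `B = R`), i.e. all the coefficients of `f_l(cur w 2 p a)` vanish, also as
elements of the ring `S`. Apply `StmtLhi` in `B = S`: `ε` divides the coefficients of
`f_l(cur w 1 p b)`, and `0 = ε^n E'` with `E' ∈ S`, so `E' = 0` (`ε` is not a zero divisor) and `ε` divides the
coefficients of `f_l(cur w 1 (topc w p b) b')`. Moreover `b_{q₀'} = W p_{i₀}` and `b'_{q₁'} = p_{i₀}`, where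
`q₀' = (i₀, 0)`, `q₁' = (i₀, W-1)`: `ε^(-W) a_{q₁} = p_{i₀}`. So the homomorphism of `L`-algebras
`L[b,b'] → S/εS`, `X (inl q) ↦ b_q`, `X (inr q) ↦ b'_q` factors through the quotient by `J0`, and it is onto
(`S` is generated by `b`, `b'` over `L[ε]`). Apply `StmtRan` with `C' = L[b,b'] ⧸ J0` and `Φ` any
set-theoretic lift. -/
def StmtDeg : Prop := ∀ (N r : ℕ) (w : Fin N → ℕ) (d : Fin r → ℕ)
  (f : Fin r → MvPolynomial (Fin N) ℂ), (∀ i, 0 < w i) →
  (∀ k, (f k).IsWeightedHomogeneous w (d k)) →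
  ∀ (L : Type) [Field L] [IsAlgClosed L] [Algebra ℂ L] (p : Fin N → L), (∀ i, p i ≠ 0) →
  (∀ k, aeval p (f k) = 0) → AllTriv w d f 2 p → ∀ (q0 q1 : Sg w 2), q0.1 = q1.1 →
  q0.2.1 = 0 → q1.2.1 + 1 = 2 * w q1.1 → ∀ (q0' q1' : Sg w 1), q0'.1 = q0.1 → q1'.1 = q0.1 →
  q0'.2.1 = 0 → q1'.2.1 + 1 = w q0.1 →
  Module.Finite (RatFunc L) (MvPolynomial (Sg w 2) (RatFunc L) ⧸
    J2 w d f p q0 q1 (algebraMap L (RatFunc L) ((w q0.1 : L) * p q0.1))
      (RatFunc.X ^ w q1.1 * algebraMap L (RatFunc L) (p q1.1))) →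
  Module.Finite L (MvPolynomial (Sg w 1 ⊕ Sg w 1) L ⧸
    J0 w f p q0' q1' ((w q0.1 : L) * p q0.1) (p q0.1)) →
  Module.finrank (RatFunc L) (MvPolynomial (Sg w 2) (RatFunc L) ⧸
    J2 w d f p q0 q1 (algebraMap L (RatFunc L) ((w q0.1 : L) * p q0.1))
      (RatFunc.X ^ w q1.1 * algebraMap L (RatFunc L) (p q1.1))) ≤
  Module.finrank L (MvPolynomial (Sg w 1 ⊕ Sg w 1) L ⧸
    J0 w f p q0' q1' ((w q0.1 : L) * p q0.1) (p q0.1))

/-! ## 7. The numerical inequality -/

/-- PAI (200 lines). The `r` largest weights are matched with the degrees.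
PROOF. Sort: choose bijections such that `w_(1) ≤ … ≤ w_(N)` and `d_(1) ≤ … ≤ d_(r)` (`Tuple.sort`) and let `e`
send the `k`-th degree to the weight number `N - r + k`. Unmatched weights are at most the matched
ones. Suppose `d_(k) < w_(N-r+k)`, and let `m = N - r + k - 1`: the variables number `m+1,…,N` have
weight `> d_(k) ≥ d_(1),…,d_(k)`, so they do not occur in `f_(1),…,f_(k)` (a monomial of
`f_(j)` has weight `d_(j)`). Let `Λ = {u : u_(1) = … = u_(m) = 0}`, of dimension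
`N - m = r - k + 1`. The other `r - k` equations `f_(k+1),…,f_(r)`, restricted to `Λ`, vanish at `0`
(`noLinear`), so they have a common zero `u ≠ 0` in `Λ` (`exists_common_zero` in `Curve.lean`,
`r - k < r - k + 1` variables). On `Λ` the polynomials `f_(1),…,f_(k)` and their partial derivatives vanish: each
monomial of `f_(j)`, `j ≤ k`, is a product of at least two (`noLinear`) variables among the first `m`. So
`u ≠ 0` is a point of `V` where the gradient of `f_(1)` is zero (`k ≥ 1`): this contradicts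
`smooth`. -/
def StmtPai : Prop := ∀ (N r : ℕ) (w : Fin N → ℕ) (d : Fin r → ℕ)
  (f : Fin r → MvPolynomial (Fin N) ℂ), QuasiSmooth w d f →
  ∃ e : Fin r → Fin N, Function.Injective e ∧ (∀ k, w (e k) ≤ d k) ∧
    ∀ i, (∀ k, e k ≠ i) → ∀ k, w i ≤ w (e k)

/-- NUM (200 lines). `2 ∏ C(2d, d) > ∏ C(2w, w)`.
PROOF. Write `c(m) = 4 - 2/m = 2(2m-1)/m` (`m ≥ 1`); then `(2a)! = (a!)² ∏_{m=1}^{a} c(m)`
(induction on `a`), `c` is increasing, `c(1) = 2`, `c(m) ≥ 3` for `m ≥ 2`. We must show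
`∏_i ∏_{m ≤ w_i} c(m) < 2 ∏_k ∏_{m ≤ d_k} c(m)`. Let `U` be the set of unmatched indices
(`i ∉ range e`), `|U| = N - r ≥ 2`. Cancel `∏_k ∏_{m ≤ w_{e k}} c(m)`:
to show `∏_{i ∈ U} ∏_{m ≤ w_i} c(m) < 2 ∏_k ∏_{w_{e k} < m ≤ d_k} c(m)`. The right product has
`S = ∑ (d_k - w_{e k})` factors, the left one `∑_{U} w_i = S + 1 ≥ 2` factors; so `S ≥ 1` and `r ≥ 1`. Let
`T` be the maximum of the `w_i`, `i ∈ U`; all factors on the left are `≤ c(T)`, at least two of
them are `c(1) = 2`, and all factors on the right are `≥ c(T+1) > c(T)`, `c(T+1) ≥ 3`. So left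
`≤ 2 · 2 · c(T)^(S-1) < 2 · c(T+1)^S ≤` right (`2 < c(T+1)`, `c(T) < c(T+1)`). -/
def StmtNum : Prop := ∀ (N r : ℕ) (w : Fin N → ℕ) (d : Fin r → ℕ), (∀ i, 0 < w i) → r + 2 ≤ N →
  ∑ i, w i = ∑ k, d k + 1 → ∀ e : Fin r → Fin N, Function.Injective e → (∀ k, w (e k) ≤ d k) →
  (∀ i, (∀ k, e k ≠ i) → ∀ k, w i ≤ w (e k)) →
  (∏ i, (2 * w i)!) * (∏ k, (d k)!) ^ 2 < 2 * (∏ k, (2 * d k)!) * (∏ i, (w i)!) ^ 2

/-- ONE (120 lines, uses everything above in this file, and `StmtTrA`). In index one there is a nontrivial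
curve of degree `≤ 2 w_i` through every point of `V` with nonzero coordinates.
PROOF. Otherwise `AllTriv w d f 2 p`: a solution `a` of the system gives a curve (`StmtSys` (3), `B = L`)
which is `IsCurve f p`, of degree `≤ 2 w_i` (`curvePoly_natDegree_le`, `curvePoly_eval_zero`), so it is trivial and
`StmtTrA` gives `A`, with `A(0) = 1`; `deg A ≤ 2` as `deg(p_i A^(w_i)) = w_i deg A ≤ 2 w_i`. In the same way
`AllTriv w d f 1 p`. Choose an index `i₀` (`N ≥ 2`), `W = w_{i₀}`, and let `q₀ = (i₀,0)`, `q₁ = (i₀,2W-1)`,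
`q₀' = (i₀,0)`, `q₁' = (i₀,W-1)`. `StmtNtw`, `StmtDeg`, `StmtCze`, `StmtNon`: with
`D` the dimension for `k = 2` and `D₁`, `D₁'` those for `k = 1` (parameters `q₀'` and `q₁'`):
`D ∏ (2w)! = 2 W ∏ (2d)!`, `D₁ ∏ w! = ∏ d!`, `D₁' ∏ w! = W ∏ d!`, `D ≤ D₁ D₁'`. So
`2 W ∏ (2d)! (∏ w!)² = D ∏ (2w)! (∏ w!)² ≤ W (∏ d!)² ∏ (2w)!`, against `StmtNum` (with `StmtPai`). -/
def StmtOne : Prop := ∀ (N r : ℕ) (w : Fin N → ℕ) (d : Fin r → ℕ)
  (f : Fin r → MvPolynomial (Fin N) ℂ), QuasiSmooth w d f → ∑ i, w i = ∑ k, d k + 1 →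
  ∀ (L : Type) [Field L] [IsAlgClosed L] [Algebra ℂ L] (p : Fin N → L), (∀ i, p i ≠ 0) →
  (∀ k, aeval p (f k) = 0) → ∃ γ : Fin N → Polynomial L, IsCurve f p γ ∧ ¬ IsTriv w p γ ∧
    ∀ i, (γ i).natDegree ≤ 2 * w i

end

end Pool.Agent.PC
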