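import Pool.Agent.Lib.MP_410da7_agP.Spec2

/-!
# Package `P` (punctured cones), third part: generic curves, Wronskians, assembly

Conventions as in `Spec.lean`: file `Pool/Agent/Lib/MP_410da7_agP/<Name>.lean` imports
`Pool.Agent.Lib.MP_410da7_agP.Spec3`, private names in `namespace Pool.Agent.PC.<Name>M`, final theorem
`Pool.Agent.PC.stmt<Name> : … → Stmt<Name>`.

IDEA. Let `γ` be the generic member of a component of the space of curves of degree `≤ k w_i` through
the generic point `p` of `V`; the component has dimension `m ≥ k (∑ w - ∑ d)`. Derivations `D` of the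
field `F` of definition of `γ` give vector fields `D γ(t)` along `γ`, an `F`-vector space of dimension
`n + m`. Some `n` of them have a wedge that vanishes to order `≥ m` at `t = 0`. Paired with the
residue form `ω` this is a polynomial `P` of degree `≤ k (∑ w - ∑ d) ≤ m`, and it vanishes at every zero
of `γ` at which `ω` is in the maximal ideal times the regular forms. So there are no such zeros.
-/

set_option autoImplicit false

namespace Pool.Agent.PC

open MvPolynomial KaehlerDifferential WithZero Pool.Agent.Lib.MP_410da7_ag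
open IsDedekindDomain (HeightOneSpectrum)

noncomputable section

/-! ## 8. Generic points, Wronskians -/

/-- GEN (200 lines). A common zero `a` of `|τ|` polynomials, with `g(a) ≠ 0`, is a specialisation of a
generic point `b` with `g(b) ≠ 0` whose field has transcendence degree at least `|σ| - |τ|`.
PROOF. `P = L[x_s]`, `I = (E_t)`, `m_a` the maximal ideal of `a`. Let `𝔮` be a minimal prime of `I`
contained in `m_a` (`Ideal.exists_minimalPrimes_le`), `F = Frac(P/𝔮)`, `b` the classes of the `x_s`: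
`E_t(b) = 0`, `g(b) ≠ 0` since `g ∉ m_a ⊇ 𝔮`, and `F` is generated by `b`. It remains to show
`|σ| ≤ e + |τ|` for `e = trdeg_L F`.
Noether normalisation (`exists_integral_inj_algHom_of_fg`, `exists_finite_inj_algHom_of_fg`) of
`P/𝔮`: it is finite over a polynomial ring `L[y_1,…,y_e]` (the number of variables is `e`, being the
transcendence degree). Let `𝔮_2,…,𝔮_s` be the other minimal primes of `I` (finitely many); there
is `h ∈ 𝔮_2 ∩ ⋯ ∩ 𝔮_s`, `h ∉ 𝔮` (product of elements). `P` is a Jacobson ring, so there is a maximal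
ideal `M ⊇ 𝔮` with `h ∉ M` (`P/𝔮` localised at `h` has a maximal ideal; or
`Ideal.IsPrime`/`IsJacobsonRing`: `𝔮` is the intersection of the maximal ideals containing it). Let
`ℓ_i ∈ P` (`i ≤ e`) be lifts of `y_i - y_i(M) ∈ P/𝔮` (`P/M = L` by the Nullstellensatz), so
`ℓ_i ∈ M`. Then `M` is a minimal prime of `I + (ℓ_1,…,ℓ_e)`: let `Q ⊆ M` be a prime containing it;
`Q` contains a minimal prime of `I`, which does not contain `h` (as `h ∉ M`), so it is `𝔮`;
`P/Q` is a quotient of `(P/𝔮)/(ℓ)`, which is finite over `L[y]/(y - y(M)) = L`; so `Q` is maximal, `Q = M`.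
By Krull's height theorem (`Ideal.height_le_spanRank_toENat_of_mem_minimal_primes` or the version with
`spanFinrank`) `height M ≤ |τ| + e`. Finally `height M = |σ|`: after a translation `M = (x_s)`, and
`curve_card_le_height` in `Pool/Agent/Lib/MP_410da7_ag/Curve.lean` (all variables) gives
`|σ| ≤ height`. -/
def StmtGen : Prop := ∀ (σ τ : Type) [Fintype σ] [Fintype τ] (L : Type) [Field L]
  [IsAlgClosed L] (E : τ → MvPolynomial σ L) (g : MvPolynomial σ L) (a : σ → L),
  (∀ t, eval a (E t) = 0) → eval a g ≠ 0 →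
  ∃ (F : Type) (_ : Field F) (_ : Algebra L F) (b : σ → F), (∀ t, aeval b (E t) = 0) ∧
    aeval b g ≠ 0 ∧ IntermediateField.adjoin L (Set.range b) = ⊤ ∧
    (Fintype.card σ : Cardinal) ≤ Algebra.trdeg L F + (Fintype.card τ : Cardinal)

/-- FLG (150 lines; `lattice_finrank` in `Pool/Agent/Lib/MP_410da7_ag/CYLattice.lean`). The flag lemma.
PROOF. Let `W ⊆ F[X]^n` be the span of the `S a`, of dimension `q ≥ n + m`. It suffices: if
`w_1,…,w_n ∈ W` have determinant `Δ ≠ 0` of order `δ < m` at `X = 0` (order = the largest power of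
`X` dividing it), then there are `w'_1,…,w'_n ∈ W` with determinant `≠ 0` of order `> δ`; then start with
the given `s` and iterate. Choose `M > δ` larger than all the degrees of the entries of the `S a`, so that the
truncation `tr : W → F^(n M)` modulo `X^M` is injective. `lattice_finrank` for the `n` vectors
`X w_i` (determinant `X^n Δ`, of order `n + δ`), viewed in `F⟦X⟧^n`: the span `T ⊆ F^(n M)` of the truncations
of all `X^j (X w_i)` satisfies `n M ≤ (δ + n) + dim T`. As `dim W ≥ n + m > n + δ`, `tr(W)` and `T`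
intersect nontrivially: there is `w ∈ W`, `w ≠ 0`, with `w ≡ ∑ c_i X w_i` modulo `X^M`, `c_i ∈ F[X]`. Let
`d_i` be the determinant of `(w_1,…,w,…,w_n)` (`w` in place `i`): `d_i ≡ c_i X Δ` modulo `X^M`, so
`X^(δ+1) ∣ d_i`. By Cramer's rule `Δ w = ∑ d_i w_i ≠ 0`, so some `d_i ≠ 0`: replace `w_i` by `w`. -/
def StmtFlg : Prop := ∀ (F : Type) [Field F] (n m q : ℕ), n + m ≤ q →
  ∀ S : Fin q → Fin n → Polynomial F, LinearIndependent F S →
  (∃ s : Fin n → Fin q, (Matrix.of fun i j => S (s i) j).det ≠ 0) →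
  ∃ c : Fin n → Fin q → F,
    (Matrix.of fun i j => ∑ a, Polynomial.C (c i a) * S a j).det ≠ 0 ∧
    Polynomial.X ^ m ∣ (Matrix.of fun i j => ∑ a, Polynomial.C (c i a) * S a j).det

/-- DER (250 lines, uses `StmtDim`, `StmtFlg`). Vector fields along the generic curve.
PROOF. Write `γ_i = cur w k p b i`, `p_i ∈ F` the image of `x_i`. By `StmtDim` (and `σ`: `r + n = N`)
`trdeg_ℂ K = n = trdeg_ℂ L`. `F` is generated over `L` by the finitely many `b_q`, so `m' = trdeg_L F` is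
finite, `m ≤ m'`, and `trdeg_ℂ F = n + m' =: q`. Take a transcendence basis `y : Fin q → F` over `ℂ` and dual
derivations `δ_a` (`exists_dual_der` in `DMain.lean`), `S_a = (coeffDer δ_a (γ_{ι j}))_j`.
(i) `S` is linearly independent over `F`: let `∑ c_a S_a = 0`, `D = ∑ c_a δ_a`, so
`coeffDer D (γ_{ι j}) = 0` for all `j`. There is `Φ : K → RatFunc F` with `Φ(x_i) = γ_i` (as in `StmtEst`).
The derivation `extDer (coeffDer D) ∘ Φ : K → RatFunc F` vanishes at the `x_{ι j}`, and the `D x_{ι j}` are a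
basis of `Ω[K⁄ℂ]` (`Ψ (D x_{ι j}) = aeval x (minorP f σ ι) ≠ 0` for the `Ψ` of `StmtDim`, and the
dimension is `n`): so it vanishes at all `x_i`, i.e. `coeffDer D (γ_i) = 0`: `D(p_i) = 0` and `D(b_q) = 0`
(`coeffDer_coeff`, `curvePoly_coeff`, `curvePoly_eval_zero`). Hence `D = 0` on the image of `K`
(`IsFunctionField.gen`), on `L` (algebraic over `K`, characteristic zero; `CYGraded_der_root` in
`CYGraded.lean`), and on `F = L(b)`. So `D = 0` and `c_a = D(y_a) = 0`.
(ii) Some `n` rows have determinant `≠ 0`: at `X = 0` the row `S_a` is `(δ_a(p_{ι j}))_j`. If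
`∑_j λ_j δ_a(p_{ι j}) = 0` for all `a`, then `∑ λ_j D(p_{ι j}) = 0` in `Ω[F⁄ℂ]`, because the `δ_a` are the
coordinates for the basis `D(y_a)` of `Ω[F⁄ℂ]` (`exists_kaehlerBasis`). The `x_{ι j}` are algebraically
independent over `ℂ` (`cydiv_algebraicIndependent` in `CYDiv.lean`), hence so are the `p_{ι j} ∈ F`, and
their differentials are linearly independent (extend to a transcendence basis,
`exists_kaehlerBasis`); so `λ = 0`. So the `q × n` matrix at `X = 0` has rank `n` and an invertible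
`n × n` submatrix.
(iii) `StmtFlg` gives `c`; `D_j = ∑_a c_{j a} δ_a` (the matrix below is the transpose). -/
def StmtDer : Prop := ∀ (N r n : ℕ) (w : Fin N → ℕ) (d : Fin r → ℕ)
  (f : Fin r → MvPolynomial (Fin N) ℂ), QuasiSmooth w d f →
  ∀ (K : Type) [Field K] [Algebra ℂ K] (x : Fin N → K), IsFunctionField f x →
  ∀ (σ : Fin r ⊕ Fin n ≃ Fin N) (ι : Fin n → Fin N), aeval x (minorP f σ ι) ≠ 0 →
  ∀ (L : Type) [Field L] [Algebra ℂ L] [Algebra K L] [IsScalarTower ℂ K L]
    [Algebra.IsAlgebraic K L] (F : Type) [Field F] [Algebra ℂ F] [Algebra L F]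
    [IsScalarTower ℂ L F] (k m : ℕ) (b : Sg w k → F),
  IntermediateField.adjoin L (Set.range b) = ⊤ → (m : Cardinal) ≤ Algebra.trdeg L F →
  (∀ l, aeval (cur w k (fun i => algebraMap L F (algebraMap K L (x i))) b) (f l) = 0) →
  ∃ D : Fin n → Derivation ℂ F F,
    (Matrix.of fun i j => coeffDer (D j)
      (cur w k (fun i => algebraMap L F (algebraMap K L (x i))) b (ι i))).det ≠ 0 ∧
    Polynomial.X ^ m ∣ (Matrix.of fun i j => coeffDer (D j)
      (cur w k (fun i => algebraMap L F (algebraMap K L (x i))) b (ι i))).det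

/-- EST (350 lines, uses `StmtDim`; models: `core_vanish` in `DPart.lean`, `DMain.lean`). The Wronskian paired
with the residue form is a polynomial `P` of degree `≤ k (∑ w - ∑ d)` that vanishes at the bad zeros.
PROOF. (0) `Φ : K → RatFunc F`, `Φ(x_i) = γ_i`: the `ℂ`-algebra generated by the `x_i` is
`ℂ[X]/(f)` (`ker`), `f(γ) = 0`, and the map is injective: `Q(γ) = 0` gives `φ(Q(x)) = Q(γ(0)) = 0`; extend
to `K` (`gen`). Make `M = RatFunc F` a `K`-algebra by `Φ`. Let `Δ_j = extDer (coeffDer (D j))` and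
`Ψ` from `StmtDim`. Both `detForm K Δ` and `θ ↦ Φ(Ψ θ)` are alternating in `n = dim Ω` variables:
for a basis `e` of `Ω[K⁄ℂ]`, `detForm K Δ θ = Φ(det_e θ) detForm K Δ e` and `Ψ θ = det_e θ Ψ e`,
`Ψ e ≠ 0` (`iotaMulti_eq_det`, or `AlternatingMap.eq_smul_basis_det`). So with `P₀ = detForm K Δ e / Φ(Ψ e)`:
`detForm K Δ θ = Φ(Ψ θ) P₀` for all `θ`. For `θ_i = D x_{ι i}`:
`det (coeffDer (D j) (γ_{ι i})) = P₀ · aeval γ (minorP f σ ι)` (`pull_D`, `extDer_algebraMap`).
(1) Estimate. Let `v` be a valuation of `M` with `v(z) ≤ 1 → v(Δ_j z) ≤ 1`, trivial on `ℂ`, such that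
`v' = v.comap (algebraMap K M)` satisfies `v'(x_i) ≤ 1` for all `i`. Then there is `θ` with
`θ_i ∈ regDiff v'`, `v'(Ψ θ) ≥ 1`: if some `v'(x_i) = 1`, use `reg_case` (`RegCase.lean`) with `s = 1`,
`g = X_i` (`smooth`; `Ψ (dmap x ξ) = det` by `IsResidueForm`); if all `v'(x_i) < 1`, use
`AlmostTerminal`, and then `v'(Ψ θ) > 1` if the values are not proportional to the weights.
`detForm K Δ θ = det (pull K (Δ_j) (θ_i))` has `v ≤ 1` (`pull_reg`, `det_le_one`). So `v(P₀) ≤ 1`, and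
`v(P₀) < 1` in the bad case.
(2) `v = 𝔭.valuation` for all `𝔭` (`extDer_valuation_le`): `P₀` is in `F[X]`
(`HeightOneSpectrum.mem_integers_of_valuation_le_one`, as in `core_vanish`); `P₀ = P`; at bad `𝔭`,
`P ∈ 𝔭` (`valuation_lt_one_iff_mem`).
(3) Infinity. The same for the homomorphism `Φ' : K → M`, `Φ'(x_i) = X^(-k w_i) γ_i` and
`v = RatFunc.inftyValuation F` (`v(Δ_j z) ≤ v(z)` by `extDer_infty_le`, `coeffDer_natDegree`), where
`v'(x_i) = exp (deg γ_i - k w_i) ≤ 1`. `Φ'` is well defined: `f_l(X^(-k w) γ) = X^(-k d_l) f_l(γ) = 0`, and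
injective: if `Q(X^(-k w) γ) = 0`, write `Q = ∑ Q_a` (weighted homogeneous components), then
`∑_a X^(-k a) Q_a(γ) = 0`. If not all `Q_a(x)` vanish, let `a₀` be maximal with `Q_{a₀}(x) ≠ 0`
(if `Q_a(x) = 0` then `Q_a(γ) = Φ(Q_a(x)) = 0`); for `k ≥ 1` multiply by `X^(k a₀)` and put `X = 0`:
`φ(Q_{a₀}(x)) = Q_{a₀}(γ(0)) = 0`, contradiction. (If `k = 0`, `Φ' = Φ`.) The constant `P₀'` for
`Φ'` satisfies, for `ι` with `aeval x (minorP f σ ι) ≠ 0` (exists, as `Ψ ≠ 0` and `dmap x` is onto, expand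
multilinearly; or `StmtDim`), since `Δ_j X = 0`:
`X^(-k ∑ w_{ι i}) det(coeffDer (D j) γ_{ι i}) = P₀' X^(-k a) aeval γ (minorP f σ ι)`, where `minorP f σ ι` is
weighted homogeneous of weight `a`, `a + ∑ w = ∑ d + ∑ w_{ι i}`. So `P₀' = X^(-k(∑ w - ∑ d)) P` and
`v(P₀') ≤ 1` says `deg P ≤ k (∑ w - ∑ d)`. -/
def StmtEst : Prop := ∀ (N r n : ℕ) (w : Fin N → ℕ) (d : Fin r → ℕ)
  (f : Fin r → MvPolynomial (Fin N) ℂ), QuasiSmooth w d f →
  ∀ (K : Type) [Field K] [Algebra ℂ K] (x : Fin N → K), IsFunctionField f x →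
  AlmostTerminal w f x → ∑ k, d k ≤ ∑ i, w i →
  ∀ (F : Type) [Field F] [Algebra ℂ F] (k : ℕ) (γ : Fin N → Polynomial F),
  (∀ i, (γ i).natDegree ≤ k * w i) → (∀ l, aeval γ (f l) = 0) →
  ∀ φ : K →ₐ[ℂ] F, (∀ i, (γ i).eval 0 = φ (x i)) →
  ∀ (σ : Fin r ⊕ Fin n ≃ Fin N) (D : Fin n → Derivation ℂ F F),
  ∃ P : Polynomial F,
    (∀ ι : Fin n → Fin N, (Matrix.of fun i j => coeffDer (D j) (γ (ι i))).det =
      P * aeval γ (minorP f σ ι)) ∧
    P.natDegree + k * ∑ l, d l ≤ k * ∑ i, w i ∧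
    ∀ 𝔭 : HeightOneSpectrum (Polynomial F),
      (∀ i, 𝔭.valuation (RatFunc F) (algebraMap _ (RatFunc F) (γ i)) < 1) →
      (∃ i j, 𝔭.valuation (RatFunc F) (algebraMap _ (RatFunc F) (γ i)) ^ w j ≠
        𝔭.valuation (RatFunc F) (algebraMap _ (RatFunc F) (γ j)) ^ w i) → P ∈ 𝔭.asIdeal

/-! ## 9. Assembly -/

/-- CAB (200 lines, uses `StmtSys`, `StmtDim`, `StmtGen`, `StmtDer`, `StmtEst`, `StmtFac`). In the almost terminal
case a nontrivial curve through the generic point gives a good one.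
PROOF. Let `p_i ∈ L` be the image of `x_i` (`≠ 0` by `StmtDim`), `γ⁰ = cur w k p a⁰`
(`curvePoly_of_curve` in `Pool/Agent/Lib/MP_410da7_agS/SGen.lean`); by `StmtSys` (3) `a⁰` solves the equations
`sysE w d f k p`. As `γ⁰` is not trivial, some coefficient, of `t^e` say, of
`p_j^(w_i) γ_i^(w_j) - p_i^(w_j) γ_j^(w_i)` is a polynomial `g` in the unknowns with `g(a⁰) ≠ 0`.
`StmtGen` gives `F`, `b`; make `F` a `ℂ`-algebra through `L`. `|Sg w k| = k ∑ w`, `|Eg d k| = k ∑ d`, so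
`m := k (∑ w - ∑ d) ≤ trdeg_L F`. `γ = cur w k p b` is a curve on `V` with `γ(0) = p`, not trivial
(`g(b) ≠ 0`). Let `φ : K → L → F`. `StmtDim` gives `n`, `σ` (any), `Ψ ≠ 0`, and hence `ι` with
`aeval x (minorP f σ ι) ≠ 0`. `StmtDer` and `StmtEst` give `D` and `P` with
`W = P · aeval γ (minorP f σ ι) ≠ 0` and `X^m ∣ W`. The value at `X = 0` of the second factor is
`φ (aeval x (minorP f σ ι)) ≠ 0`, so `X^m ∣ P`, and `deg P ≤ m`, `P ≠ 0`: `P = c X^m`, `c ≠ 0`. If `𝔭` contains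
all the `γ_i` and the values are not proportional, then `P ∈ 𝔭`, so `X ∈ 𝔭`, and
`p_i = γ_i(0) ≡ γ_i ≡ 0` modulo `𝔭`, impossible as `p_i ≠ 0` is a unit. So `StmtFac` applies:
`γ_i = A^(w_i) y_i`, `A(0) ≠ 0`. Put `y'_i = A(0)^(w_i) y_i`: then `y'_i(0) = p_i`,
`A^(d_l) f_l(y) = f_l(γ) = 0`, so `f_l(y') = 0`, and the `y'_i` generate the unit ideal. If all `y'_i` were
constant, `γ_i = p_i (A/A(0))^(w_i)` would be trivial. -/
def StmtCaB : Prop := ∀ (N r : ℕ) (w : Fin N → ℕ) (d : Fin r → ℕ)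
  (f : Fin r → MvPolynomial (Fin N) ℂ), QuasiSmooth w d f →
  ∀ (K : Type) [Field K] [Algebra ℂ K] (x : Fin N → K), IsFunctionField f x →
  AlmostTerminal w f x → ∑ k, d k ≤ ∑ i, w i →
  ∀ (L : Type) [Field L] [IsAlgClosed L] [Algebra ℂ L] [Algebra K L] [IsScalarTower ℂ K L]
    [Algebra.IsAlgebraic K L] (k : ℕ) (γ : Fin N → Polynomial L),
  IsCurve f (fun i => algebraMap K L (x i)) γ → ¬ IsTriv w (fun i => algebraMap K L (x i)) γ →
  (∀ i, (γ i).natDegree ≤ k * w i) →
  ∃ (F : Type) (_ : Field F) (_ : Algebra ℂ F) (φ : K →ₐ[ℂ] F) (γ' : Fin N → Polynomial F),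
    IsGood f (fun i => φ (x i)) γ'

/-- CAA (150 lines, uses `StmtG`, `StmtMob`, `StmtTrA`, `StmtOne`). The case of a degree vector with an entry
at most one.
PROOF. `exists_curve` (`Curve.lean`, `s = 0`, `g` empty, weight `e`) gives `γ` with `γ(0) = p`,
`deg γ_i ≤ e_i`, not constant, and `f_k(γ) = C(f_k(p)) = 0`.
If `e_{i₀} = 0`, then `γ_{i₀} = p_{i₀} ≠ 0` is a unit of `L[X]`: `γ` is good. Let `e_{i₀} = 1`.
If `w_{i₀} ≥ 2`: `γ` is not trivial: otherwise `γ_i = p_i A^(w_i)` (`StmtTrA`), `w_{i₀} deg A ≤ 1`, so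
`deg A = 0` and `γ` is constant. `γ_{i₀} ≠ 0` has degree `≤ 1`, so there is at most one common zero; apply
`StmtG`. If `w_{i₀} = 1` and `∑ w ≥ ∑ d + 2`: use `exists_curve` with the weight `w'` equal to `w`
except `w'_{i₀} = 0`: `∑ deg_{w'} f_k ≤ ∑ d_k < ∑ w - 1 = ∑ w'` (the weighted degree of `f_k` for
`w' ≤ w` is at most `d_k`), and conclude as for `e_{i₀} = 0`. If `w_{i₀} = 1` and `∑ w = ∑ d + 1`:
`StmtOne`, then `StmtMob`, then `StmtG`. -/
def StmtCaA : Prop := ∀ (N r : ℕ) (w : Fin N → ℕ) (d : Fin r → ℕ)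
  (f : Fin r → MvPolynomial (Fin N) ℂ), QuasiSmooth w d f → ∑ k, d k < ∑ i, w i →
  ∀ (e : Fin N → ℕ) (i0 : Fin N), ∑ k, (f k).weightedTotalDegree e < ∑ i, e i → e i0 ≤ 1 →
  ∀ (L : Type) [Field L] [IsAlgClosed L] [Algebra ℂ L] (p : Fin N → L), (∀ i, p i ≠ 0) →
  (∀ k, aeval p (f k) = 0) → ∃ γ : Fin N → Polynomial L, IsGood f p γ

/-- MAI (150 lines, uses `StmtDim`, `StmtKod`, `StmtSpread`, `StmtCaA`, `StmtCaB`, `StmtOne`, `StmtTrA`). The main
theorem.
PROOF. `n = N - r = trdeg K` (`StmtDim`). (1 → 2): `logKodairaNegInfOn_of_a1UniruledOn` (`T1Neg.lean`) and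
`a1UniruledOn_iff` (`T1Base.lean`). (2 → 3): `StmtKod`. (3 → 1): the first alternative of the hypothesis is
excluded. Let `L = AlgebraicClosure K`, `p_i` the image of `x_i`, `≠ 0`, `f(p) = 0`. Second alternative:
`StmtCaA` and `StmtSpread` (`E = L`). Third alternative: by `StmtCaB` and `StmtSpread` it is enough to find
`k` and a nontrivial curve of degree `≤ k w_i`. If `∑ w = ∑ d + 1`: `StmtOne`, `k = 2`. If
`∑ w ≥ ∑ d + 2`: `k = 1`: the system `sysE w d f 1 p` together with one variable `X q₀`,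
`q₀ = (i₀, 0)`, consists of `∑ d + 1 < ∑ w` polynomials in `∑ w` unknowns that vanish at `0` (weighted
homogeneous of positive degree; `StmtSys` can be added as a hypothesis), so it has a solution `a ≠ 0`
(`exists_common_zero` in `Curve.lean`). The curve `γ = cur w 1 p a` is not constant; if it were
trivial, `γ_i = p_i A^(w_i)`, `deg A ≤ 1`, `A = 1 + τ t`, and `0 = a_{q₀} = p_{i₀} w_{i₀} τ` would
give `τ = 0`. -/
def StmtMai : Prop := ∀ (N r : ℕ) (w : Fin N → ℕ) (d : Fin r → ℕ)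
  (f : Fin r → MvPolynomial (Fin N) ℂ), QuasiSmooth w d f →
  ∀ (K : Type) [Field K] [Algebra ℂ K] (x : Fin N → K), IsFunctionField f x →
  (∑ i, w i ≤ ∑ k, d k ∨
    (∃ e : Fin N → ℕ, ∑ k, (f k).weightedTotalDegree e < ∑ i, e i ∧ ∃ i, e i ≤ 1) ∨
    AlmostTerminal w f x) →
  List.TFAE [A1UniruledOn (charts x), LogKodairaNegInfOn (charts x) (N - r),
    ∑ k, d k < ∑ i, w i]

end

end Pool.Agent.PC
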